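import Pool.Agent.H456.PS.Stm
import Pool.Agent.H456.PR.T_avg

/-!
(avD) Generalization of `S_avg` (PR/T_avg.lean, adapt it) to arbitrary `J` (also with small places, where the cubics have arbitrary reduction) and types `ty P f = τ P ∈ Fin 3`. `DJ J` has degree `2k`. Let `Js = {P ∈ J : deg P ≤ D₀}`; the other places of `J` are in `T`. `D` as in the proof of `S_avg` (large). Split `s` according to `B = {P ∈ Js : TwP P f} ⊆ Js`, `A = J \ B`: for `B ⊆ Js` the conditions are `c_B P f := if P ∈ T then ¬ P ∣ disc f ∧ ty P f = τ P else if P ∈ Js then (TwP P f ↔ P ∈ B) else if D₀ < deg P ∧ deg P ≤ D then ¬ P² ∣ disc f else True`: `Cnd P 3`, invariant under scaling by units `u` (`ty` too), trivial outside a finite set (`Js ∪ T ∪ PlD F D`). For `P ∈ A`: `c_B P f → ¬ TwP P f` (for `P ∈ T`: `TwP P f` implies `P ∣ disc f`).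
`S_tw2` (with `DJ A * DJ B = DJ J`) at level `n`, `n' = n + k - deg (DJ B)`: `∑_{f ∈ Msh n, all c_B} Φ(f.sc DJ J) = q^(b-a) ∑_{h ∈ Msh n', all cAB} Φ(h)`. UPPER bound with `Φ(g) = 1[¬ BadC g] (NT T' g - 1)` (`S_tri`, `S_nsq`; `BadC` invariant) and `S_up` for the conditions `cAB A B c_B`, `m = 6`, at level `n'` (for `P ∈ T'`: `P ∉ J`, `cAB = c_B`, `τ P = 1` implies `OneR`), and `S_tw2` with `Φ = 1`. LOWER bound with `Φ(g) = 1[¬ BadC g ∧ ∀ P, D < deg P → ¬ P² ∣ disc g] (NT ∅ g - 1)` (invariant under `sc (DJ B ^ 2)` since `DJ B` has only prime factors of degree `≤ D₀ ≤ D`) and `S_low`. Sum over the finitely many `B ⊆ Js`: `∑_B #{f ∈ Msh n : all c_B} = #{f ∈ Msh n : the conditions without TwP}`, which differs from `#s` by at most `ε' q^(12n+3)`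
(`t_badc`, `a_csq`, as in `S_avg`). The errors `ε' q^(12n'+3) q^(b-a)` are `≤ ε'' q^(12n+3)` with `ε'` small depending on `J`.
(proof by helper729)
-/

set_option autoImplicit false
set_option linter.all false

open Polynomial Finset Filter
open Pool.Agent.H456.EC (toK toK_inj sig toK_eq reflect_toK cls)
open Pool.Agent.H456.RN
open Pool.Agent.H456.BQ
open Pool.Agent.H456.Coh (TF)
open Pool.Agent.H456.PP (OneR NoR HasRt sx hh Tz Tq Iso3 nr IsoP nrP)
open Pool.Agent.H456.PR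

namespace Pool.Agent.H456.PS

section

variable {F : Type} [Field F]

/-! ### the types and the twists -/

theorem avD_NoR_cong {p d : F[X]} (hpd : p ∣ d) {f f' : Cub F[X]}
    (h : f.map (Ideal.Quotient.mk (Ideal.span {d})) = f'.map (Ideal.Quotient.mk (Ideal.span {d}))) :
    NoR p f ↔ NoR p f' := by
  obtain ⟨h1, h2⟩ := avg_cong hpd h
  unfold NoR
  simp only [h1, h2]

theorem avD_NoR_tr (p : F[X]) (f : Cub F[X]) (s : F[X]) : NoR p (f.tr s) ↔ NoR p f := by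
  unfold NoR
  rw [Cub.disc_tr]
  simp only [Cub.ev_tr]
  refine and_congr Iff.rfl ?_
  constructor
  · intro h r hr
    exact h (r - s) (by rwa [sub_add_cancel])
  · intro h r hr
    exact h _ hr

theorem avD_NoR_sc {p : F[X]} (hp : Prime p) {u v : F[X]} (hu : ¬ p ∣ u) (huv : p ∣ u * v - 1)
    (f : Cub F[X]) : NoR p (f.sc u) ↔ NoR p f := by
  have k1 : ∀ r : F[X], p ∣ (f.sc u).ev (u * r) ↔ p ∣ f.ev r := by
    intro r
    rw [Cub.ev_sc]
    constructor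
    · intro h
      rcases hp.dvd_or_dvd h with h | h
      · exact absurd (hp.dvd_of_dvd_pow h) hu
      · exact h
    · exact fun h => h.mul_left _
  have k2 : ∀ y : F[X], p ∣ (f.sc u).ev y ↔ p ∣ f.ev (v * y) := by
    intro y
    rw [← k1 (v * y)]
    apply dvd_iff_dvd_of_dvd_sub
    refine Dvd.dvd.trans ?_ (avg_ev_sub (f.sc u) _ _)
    have e : y - u * (v * y) = -((u * v - 1) * y) := by ring
    rw [e, dvd_neg]
    exact huv.mul_right y
  unfold NoR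
  refine and_congr ?_ ?_
  · rw [Cub.disc_sc]
    refine not_congr ⟨fun h => ?_, fun h => h.mul_left _⟩
    rcases hp.dvd_or_dvd h with h | h
    · exact absurd (hp.dvd_of_dvd_pow h) hu
    · exact h
  · constructor
    · intro h r hr
      exact h _ ((k1 r).2 hr)
    · intro h y hy
      exact h _ ((k2 y).1 hy)

theorem avD_ty_ext (P : Pl F) {f f' : Cub F[X]} (h1 : OneR P.1 f ↔ OneR P.1 f') (h2 : NoR P.1 f ↔ NoR P.1 f') :
    ty P f = ty P f' := by
  unfold ty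
  by_cases c1 : OneR P.1 f
  · rw [if_pos c1, if_pos (h1.1 c1)]
  · rw [if_neg c1, if_neg (fun h => c1 (h1.2 h))]
    by_cases c2 : NoR P.1 f
    · rw [if_pos c2, if_pos (h2.1 c2)]
    · rw [if_neg c2, if_neg (fun h => c2 (h2.2 h))]

theorem avD_ty_cong (P : Pl F) {d : F[X]} (hpd : P.1 ∣ d) {f f' : Cub F[X]}
    (h : f.map (Ideal.Quotient.mk (Ideal.span {d})) = f'.map (Ideal.Quotient.mk (Ideal.span {d}))) :
    ty P f = ty P f' := avD_ty_ext P (avg_OneR_cong hpd h) (avD_NoR_cong hpd h)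

theorem avD_ty_tr (P : Pl F) (f : Cub F[X]) (s : F[X]) : ty P (f.tr s) = ty P f :=
  avD_ty_ext P (avg_OneR_tr P.1 f s) (avD_NoR_tr P.1 f s)

theorem avD_ty_sc (P : Pl F) {u : F[X]} (hu : ¬ P.1 ∣ u) (f : Cub F[X]) : ty P (f.sc u) = ty P f := by
  obtain ⟨v, hv⟩ := avg_inv P hu
  exact avD_ty_ext P (avg_OneR_sc P.2.2.prime hu hv f) (avD_NoR_sc P.2.2.prime hu hv f)

theorem avD_ty_one {P : Pl F} {f : Cub F[X]} (h : ty P f = 1) : OneR P.1 f := by
  by_contra hc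
  unfold ty at h
  rw [if_neg hc] at h
  split_ifs at h
  · exact absurd h (by decide)
  · exact absurd h (by decide)

theorem avD_TwP_key (P : Pl F) {g g' : Cub F[X]}
    (e : g.map (Ideal.Quotient.mk (Ideal.span {P.1 ^ 3})) = g'.map (Ideal.Quotient.mk (Ideal.span {P.1 ^ 3})))
    (h : TwP P g) : TwP P g' := by
  obtain ⟨f, r, e1, -⟩ := h
  have e2 : (g.tr r).map (Ideal.Quotient.mk (Ideal.span {P.1 ^ 3})) =
      (g'.tr r).map (Ideal.Quotient.mk (Ideal.span {P.1 ^ 3})) := by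
    rw [Cub.map_tr, Cub.map_tr, e]
  rw [e1] at e2
  have h1 := congrArg Cub.a e2
  have h2 := congrArg Cub.b e2
  have h3 := congrArg Cub.c e2
  simp only [Cub.map, Cub.sc] at h1 h2 h3
  rw [Ideal.Quotient.eq, Ideal.mem_span_singleton] at h1 h2 h3
  obtain ⟨u, hu⟩ := h1
  obtain ⟨v, hv⟩ := h2
  obtain ⟨w, hw⟩ := h3
  refine ⟨⟨f.a - P.1 ^ 2 * u, f.b - P.1 * v, f.c - w⟩, r, ?_, trivial⟩
  ext1
  · simp only [Cub.sc]; linear_combination -hu
  · simp only [Cub.sc]; linear_combination -hv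
  · simp only [Cub.sc]; linear_combination -hw

theorem avD_TwP_cong (P : Pl F) {g g' : Cub F[X]}
    (e : g.map (Ideal.Quotient.mk (Ideal.span {P.1 ^ 3})) = g'.map (Ideal.Quotient.mk (Ideal.span {P.1 ^ 3}))) :
    TwP P g ↔ TwP P g' := ⟨avD_TwP_key P e, avD_TwP_key P e.symm⟩

theorem avD_TwP_tr (P : Pl F) (g : Cub F[X]) (s : F[X]) : TwP P (g.tr s) ↔ TwP P g := by
  constructor
  · rintro ⟨f, r, e, hc⟩
    rw [Cub.tr_tr] at e
    exact ⟨f, _, e, hc⟩
  · rintro ⟨f, r, e, hc⟩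
    refine ⟨f, r - s, ?_, hc⟩
    rw [Cub.tr_tr, ← e]
    congr 1
    ring

theorem avD_TwP_up (P : Pl F) {g : Cub F[X]} (u : F[X]) (h : TwP P g) : TwP P (g.sc u) := by
  obtain ⟨f, r, e, -⟩ := h
  refine ⟨f.sc u, u * r, ?_, trivial⟩
  rw [← Cub.sc_tr, e, Cub.sc_sc, Cub.sc_sc, mul_comm]

theorem avD_TwP_sc (P : Pl F) {u : F[X]} (hu : ¬ P.1 ∣ u) (g : Cub F[X]) : TwP P (g.sc u) ↔ TwP P g := by
  constructor
  · intro h
    obtain ⟨a, v, e⟩ := IsCoprime.pow_left (m := 3) ((P.2.2.coprime_iff_not_dvd).2 hu)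
    have h1 := avD_TwP_up P v h
    rw [Cub.sc_sc] at h1
    refine avD_TwP_key P ?_ h1
    have e1 : (Ideal.Quotient.mk (Ideal.span {P.1 ^ 3}) (u * v)) = 1 := by
      rw [← map_one (Ideal.Quotient.mk (Ideal.span {P.1 ^ 3})), Ideal.Quotient.eq, Ideal.mem_span_singleton]
      exact ⟨-a, by linear_combination e⟩
    rw [Cub.map_sc, e1, Cub.sc_one]
  · exact avD_TwP_up P u

theorem avD_TwP_disc {P : Pl F} {g : Cub F[X]} (h : TwP P g) : P.1 ∣ g.disc := by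
  obtain ⟨f, r, e, -⟩ := h
  rw [← Cub.disc_tr r g, e, Cub.disc_sc]
  exact Dvd.dvd.mul_right (dvd_pow_self _ (by norm_num)) _

/-! ### the conditions -/

open Classical in
/-- the conditions without the twists -/
noncomputable def avD_b (T : Finset (Pl F)) (D₀ D : ℕ) (τ : Pl F → Fin 3) (P : Pl F) (f : Cub F[X]) : Prop :=
  if P ∈ T then ¬ P.1 ∣ f.disc ∧ ty P f = τ P else
    if D₀ < P.1.natDegree ∧ P.1.natDegree ≤ D then ¬ P.1 ^ 2 ∣ f.disc else True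

open Classical in
/-- the conditions -/
noncomputable def avD_c (T Js : Finset (Pl F)) (D₀ D : ℕ) (τ : Pl F → Fin 3) (B : Finset (Pl F)) (P : Pl F)
    (f : Cub F[X]) : Prop :=
  if P ∈ T then ¬ P.1 ∣ f.disc ∧ ty P f = τ P else
    if P ∈ Js then (TwP P f ↔ P ∈ B) else
      if D₀ < P.1.natDegree ∧ P.1.natDegree ≤ D then ¬ P.1 ^ 2 ∣ f.disc else True

theorem avD_cnd (T Js : Finset (Pl F)) (D₀ D : ℕ) (τ : Pl F → Fin 3) (B : Finset (Pl F)) (P : Pl F) :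
    Cnd P.1 3 (avD_c T Js D₀ D τ B P) := by
  unfold avD_c
  constructor
  · intro f f' h
    obtain ⟨-, h1⟩ := avg_cong (p := P.1) (d := P.1 ^ 3) (dvd_pow_self _ three_ne_zero) h
    obtain ⟨-, h2⟩ := avg_cong (p := P.1 ^ 2) (d := P.1 ^ 3) (pow_dvd_pow _ (by norm_num)) h
    have h3 := avD_ty_cong P (d := P.1 ^ 3) (dvd_pow_self _ three_ne_zero) h
    have h4 := avD_TwP_cong P h
    split_ifs
    · rw [h1, h3]
    · rw [h4]
    · rw [h2]
    · exact Iff.rfl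
  · intro f r
    split_ifs
    · rw [Cub.disc_tr, avD_ty_tr]
    · rw [avD_TwP_tr]
    · rw [Cub.disc_tr]
    · exact Iff.rfl

theorem avD_c_sc (T Js : Finset (Pl F)) (D₀ D : ℕ) (τ : Pl F → Fin 3) (B : Finset (Pl F)) (P : Pl F) (f : Cub F[X])
    (u : F[X]) (hu : ¬ P.1 ∣ u) : avD_c T Js D₀ D τ B P (f.sc u) ↔ avD_c T Js D₀ D τ B P f := by
  unfold avD_c
  have h1 := avg_sq_sc P hu 1 f
  rw [pow_one] at h1
  have h2 := avg_sq_sc P hu 2 f
  split_ifs
  · rw [h1, avD_ty_sc P hu]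
  · rw [avD_TwP_sc P hu]
  · rw [h2]
  · exact Iff.rfl

theorem avD_c_T {T Js : Finset (Pl F)} {D₀ D : ℕ} {τ : Pl F → Fin 3} {B : Finset (Pl F)} {P : Pl F} (hP : P ∈ T)
    {f : Cub F[X]} (h : avD_c T Js D₀ D τ B P f) : ¬ P.1 ∣ f.disc ∧ ty P f = τ P := by
  unfold avD_c at h
  rwa [if_pos hP] at h

theorem avD_c_Js {T Js : Finset (Pl F)} {D₀ D : ℕ} {τ : Pl F → Fin 3} {B : Finset (Pl F)} {P : Pl F} (hP : P ∉ T)
    (hPJ : P ∈ Js) {f : Cub F[X]} (h : avD_c T Js D₀ D τ B P f) : TwP P f ↔ P ∈ B := by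
  unfold avD_c at h
  rwa [if_neg hP, if_pos hPJ] at h

open Classical in
/-- all the conditions -/
theorem avD_all {T Js : Finset (Pl F)} {D₀ D : ℕ} (hT : ∀ P ∈ T, D₀ < P.1.natDegree)
    (hJs : ∀ P ∈ Js, P.1.natDegree ≤ D₀) (τ : Pl F → Fin 3) {B : Finset (Pl F)} (hB : B ⊆ Js) (f : Cub F[X]) :
    (∀ P, avD_c T Js D₀ D τ B P f) ↔ (∀ P, avD_b T D₀ D τ P f) ∧ Js.filter (fun P => TwP P f) = B := by
  constructor
  · intro h
    refine ⟨fun P => ?_, ?_⟩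
    · have h1 := h P
      unfold avD_c at h1
      unfold avD_b
      by_cases hPT : P ∈ T
      · rw [if_pos hPT] at h1 ⊢
        exact h1
      · rw [if_neg hPT] at h1 ⊢
        by_cases hPJ : P ∈ Js
        · rw [if_neg (fun h2 => absurd h2.1 (not_lt.2 (hJs P hPJ)))]
          trivial
        · rw [if_neg hPJ] at h1
          exact h1
    · ext P
      rw [mem_filter]
      constructor
      · rintro ⟨h1, h2⟩
        have hPT : P ∉ T := fun h3 => absurd (hT P h3) (not_lt.2 (hJs P h1))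
        exact (avD_c_Js hPT h1 (h P)).1 h2
      · intro h1
        have h2 := hB h1
        have hPT : P ∉ T := fun h3 => absurd (hT P h3) (not_lt.2 (hJs P h2))
        exact ⟨h2, (avD_c_Js hPT h2 (h P)).2 h1⟩
  · rintro ⟨h, hE⟩ P
    have h1 := h P
    unfold avD_b at h1
    unfold avD_c
    by_cases hPT : P ∈ T
    · rw [if_pos hPT] at h1 ⊢
      exact h1
    · rw [if_neg hPT] at h1 ⊢
      by_cases hPJ : P ∈ Js
      · rw [if_pos hPJ, ← hE, mem_filter]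
        exact ⟨fun h2 => ⟨hPJ, h2⟩, fun h2 => h2.2⟩
      · rw [if_neg hPJ]
        exact h1

end

section

variable {F : Type} [Field F] [Fintype F]

/-- the members of the family -/
theorem avD_mem {T : Finset (Pl F)} {D₀ D n : ℕ} {τ : Pl F → Fin 3} (hD : D₀ ≤ D) (f : Cub F[X]) :
    InT T D₀ τ n f ↔ f ∈ Msh F n ∧ (∀ P, avD_b T D₀ D τ P f) ∧ ¬ BadC f ∧
      ∀ P : Pl F, D < P.1.natDegree → ¬ P.1 ^ 2 ∣ f.disc := by
  constructor
  · rintro ⟨h1, ⟨h2, h3, h4⟩, h5⟩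
    refine ⟨h1, fun P => ?_, h4, fun P hP => h3 P (hD.trans_lt hP)⟩
    unfold avD_b
    split_ifs with c1 c2
    · exact ⟨h2 P c1, h5 P c1⟩
    · exact h3 P c2.1
  · rintro ⟨h1, h2, h3, h4⟩
    have hb : ∀ P ∈ T, ¬ P.1 ∣ f.disc ∧ ty P f = τ P := by
      intro P hP
      have h := h2 P
      unfold avD_b at h
      rwa [if_pos hP] at h
    refine ⟨h1, ⟨fun P hP => (hb P hP).1, fun P hP => ?_, h3⟩, fun P hP => (hb P hP).2⟩
    by_cases hPT : P ∈ T
    · intro hd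
      exact (hb P hPT).1 ((dvd_pow_self _ two_ne_zero).trans hd)
    · by_cases hPD : P.1.natDegree ≤ D
      · have h := h2 P
        unfold avD_b at h
        rw [if_neg hPT, if_pos ⟨hP, hPD⟩] at h
        exact h
      · exact h4 P (not_le.1 hPD)

open Classical in
theorem avD_triv (T : Finset (Pl F)) {Js : Finset (Pl F)} (D₀ D : ℕ) (τ : Pl F → Fin 3) {J A B : Finset (Pl F)}
    (hJs : Js ⊆ J) (hA : A ⊆ J) (hB : B ⊆ J) (P : Pl F)
    (hP : P ∉ J ∪ (T ∪ PlD F D)) (f : Cub F[X]) : cAB A B (avD_c T Js D₀ D τ B) P f := by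
  rw [mem_union, mem_union, not_or, not_or, mem_PlD, not_le] at hP
  unfold cAB
  rw [if_neg (fun h => hP.1 (hA h)), if_neg (fun h => hP.1 (hB h))]
  unfold avD_c
  rw [if_neg hP.2.1, if_neg (fun h => hP.1 (hJs h)), if_neg (fun h => absurd h.2 (not_le.2 hP.2.2))]
  trivial

/-- the arithmetic of the error terms -/
theorem avD_up {q δ C X Y U V : ℝ} (hq : 1 ≤ q) (hδ : 0 < δ) {n n' k a b : ℕ} (hn : n' + b = n + k)
    (hXY : q ^ a * X = q ^ b * Y) (hUV : q ^ a * U = q ^ b * V)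
    (hV : V ≤ C * Y + δ / q ^ (12 * k) * q ^ (12 * n' + 3)) : U ≤ C * X + δ * q ^ (12 * n + 3) := by
  have hq0 : 0 < q := lt_of_lt_of_le one_pos hq
  have ha : (1 : ℝ) ≤ q ^ a := one_le_pow₀ hq
  have ha0 : (0 : ℝ) < q ^ a := pow_pos hq0 _
  have hb0 : (0 : ℝ) < q ^ b := pow_pos hq0 _
  have h1 : q ^ b * V ≤ q ^ b * (C * Y + δ / q ^ (12 * k) * q ^ (12 * n' + 3)) := mul_le_mul_of_nonneg_left hV hb0.le
  have h2 : q ^ b * q ^ (12 * n' + 3) ≤ q ^ (12 * k) * q ^ (12 * n + 3) := by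
    rw [← pow_add, ← pow_add]
    exact pow_le_pow_right₀ hq (by omega)
  have h3 : q ^ b * (δ / q ^ (12 * k) * q ^ (12 * n' + 3)) ≤ δ * q ^ (12 * n + 3) := by
    have e : q ^ b * (δ / q ^ (12 * k) * q ^ (12 * n' + 3)) = δ / q ^ (12 * k) * (q ^ b * q ^ (12 * n' + 3)) := by ring
    have e2 : δ * q ^ (12 * n + 3) = δ / q ^ (12 * k) * (q ^ (12 * k) * q ^ (12 * n + 3)) := by
      have h4 : q ^ (12 * k) ≠ 0 := (pow_pos hq0 _).ne'
      field_simp
    rw [e, e2]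
    exact mul_le_mul_of_nonneg_left h2 (by positivity)
  have h4 : δ * q ^ (12 * n + 3) ≤ q ^ a * (δ * q ^ (12 * n + 3)) := by
    have h5 : 0 ≤ δ * q ^ (12 * n + 3) := by positivity
    nlinarith
  have h5 : q ^ a * U ≤ q ^ a * (C * X + δ * q ^ (12 * n + 3)) := by
    rw [hUV]
    have e : q ^ b * (C * Y + δ / q ^ (12 * k) * q ^ (12 * n' + 3)) =
        C * (q ^ b * Y) + q ^ b * (δ / q ^ (12 * k) * q ^ (12 * n' + 3)) := by ring
    have e2 : q ^ a * (C * X + δ * q ^ (12 * n + 3)) = C * (q ^ a * X) + q ^ a * (δ * q ^ (12 * n + 3)) := by ring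
    rw [e, ← hXY] at h1
    rw [e2]
    linarith
  exact le_of_mul_le_mul_left h5 ha0

theorem avD_lo {q δ C X Y U V : ℝ} (hq : 1 ≤ q) (hδ : 0 < δ) {n n' k a b : ℕ} (hn : n' + b = n + k)
    (hXY : q ^ a * X = q ^ b * Y) (hUV : q ^ a * U = q ^ b * V)
    (hV : C * Y - δ / q ^ (12 * k) * q ^ (12 * n' + 3) ≤ V) : C * X - δ * q ^ (12 * n + 3) ≤ U := by
  have h := avD_up (C := -C) (V := -V) (U := -U) hq hδ hn hXY (by rw [mul_neg, mul_neg, hUV]) (by linarith)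
  linarith

end

open Classical in
theorem t_avD : S_tri → S_nsq → S_up → S_low → S_tw2 → S_avD := by
  intro htri hnsq hup hlow htw2 F _ _ h2 T D₀ hT J hJ hJT τ ε hε
  obtain ⟨k, hk⟩ := hJ
  obtain ⟨Js, hJs⟩ : ∃ Js, Js = J.filter (fun P => P.1.natDegree ≤ D₀) := ⟨_, rfl⟩
  have hJsJ : Js ⊆ J := by rw [hJs]; exact filter_subset _ _
  have hJsd : ∀ P ∈ Js, P.1.natDegree ≤ D₀ := fun P hP => by
    rw [hJs, mem_filter] at hP
    exact hP.2
  have hJsc : ∀ P ∈ J, P ∉ T → P ∈ Js := by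
    intro P hP hPT
    rw [hJs, mem_filter]
    refine ⟨hP, ?_⟩
    by_contra hc
    exact hPT (hJT P hP (not_le.1 hc))
  have hJsT : ∀ P ∈ Js, P ∉ T := fun P hP h => absurd (hT P h) (not_lt.2 (hJsd P hP))
  have hq1 : (1 : ℝ) ≤ (Fintype.card F : ℝ) := by
    have : 0 < Fintype.card F := Fintype.card_pos
    exact_mod_cast this
  have hq0 : (0 : ℝ) < (Fintype.card F : ℝ) := by linarith
  obtain ⟨D₁, hD₁⟩ := avg_few h2 (ε := ε / 8) (by positivity)
  obtain ⟨δ, hδ⟩ : ∃ δ : ℝ, δ = ε / (2 * 2 ^ Js.card) := ⟨_, rfl⟩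
  have hδ0 : 0 < δ := by rw [hδ]; positivity
  have hε' : 0 < δ / (Fintype.card F : ℝ) ^ (12 * k) := by positivity
  obtain ⟨D₂, hD₂⟩ := hlow F h2 _ hε'
  obtain ⟨D, hD0, hD1, hD2, hDT⟩ : ∃ D : ℕ, D₀ ≤ D ∧ D₁ ≤ D ∧ D₂ ≤ D ∧ ∀ P ∈ T, P.1.natDegree ≤ D := by
    refine ⟨D₀ + D₁ + D₂ + ∑ P ∈ T, P.1.natDegree, by omega, by omega, by omega, fun P hP => ?_⟩
    have h : P.1.natDegree ≤ ∑ P ∈ T, P.1.natDegree :=
      single_le_sum (f := fun P : Pl F => P.1.natDegree) (fun i _ => Nat.zero_le _) hP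
    omega
  have hDJ := avg_DJ_ne J
  have hJD : ∀ P ∈ J, P.1.natDegree ≤ D := by
    intro P hP
    by_cases hPT : P ∈ T
    · exact hDT P hPT
    · exact (hJsd P (hJsc P hP hPT)).trans hD0
  have hmul : ∀ B ⊆ J, DJ (J \ B) * DJ B = DJ J := fun B hB => by
    unfold DJ
    exact prod_sdiff hB
  have hmon : ∀ B : Finset (Pl F), (DJ B).Monic := fun B => monic_prod_of_monic _ _ fun P _ => P.2.1
  have hdeg : ∀ B ⊆ J, (DJ (J \ B)).natDegree + (DJ B).natDegree = 2 * k := by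
    intro B hB
    rw [← (hmon _).natDegree_mul (hmon _), hmul B hB, hk]
    ring
  have hA : ∀ B ⊆ Js, ∀ P ∈ J \ B, ∀ f, avD_c T Js D₀ D τ B P f → ¬ TwP P f := by
    intro B hB P hP f hf htw
    rw [Finset.mem_sdiff] at hP
    by_cases hPT : P ∈ T
    · exact (avD_c_T hPT hf).1 (avD_TwP_disc htw)
    · exact hP.2 ((avD_c_Js hPT (hJsc P hP.1 hPT) hf).1 htw)
  have hB' : ∀ B ⊆ Js, ∀ P ∈ B, ∀ f, avD_c T Js D₀ D τ B P f → TwP P f := by
    intro B hB P hP f hf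
    exact (avD_c_Js (hJsT P (hB hP)) (hB hP) hf).2 hP
  have htw := fun (B : Finset (Pl F)) (hB : B ⊆ Js) => htw2 F h2 (J \ B) B k sdiff_disjoint
    (hdeg B (hB.trans hJsJ)) (avD_c T Js D₀ D τ B) (avD_cnd T Js D₀ D τ B) (hA B hB) (hB' B hB)
    (fun P f u hu => avD_c_sc T Js D₀ D τ B P f u hu)
  have hU : ∀ᶠ n in atTop, ∀ B ∈ Js.powerset, ∀ T' ∈ T.powerset, (∀ P ∈ T', τ P = 1 ∧ P ∉ J) →
      ∑ f ∈ (Msh F (n + k - (DJ B).natDegree)).filter
        (fun f => ¬ BadC f ∧ ∀ P, cAB (J \ B) B (avD_c T Js D₀ D τ B) P f), ((NT T' f : ℝ) - 1) ≤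
      2 / 2 ^ T'.card * (((Msh F (n + k - (DJ B).natDegree)).filter
        (fun f => ∀ P, cAB (J \ B) B (avD_c T Js D₀ D τ B) P f)).card : ℝ) +
        δ / (Fintype.card F : ℝ) ^ (12 * k) * (Fintype.card F : ℝ) ^ (12 * (n + k - (DJ B).natDegree) + 3) := by
    rw [Filter.eventually_all_finset]
    intro B hB
    rw [mem_powerset] at hB
    rw [Filter.eventually_all_finset]
    intro T' hT'
    rw [mem_powerset] at hT'
    by_cases hd : ∀ P ∈ T', τ P = 1 ∧ P ∉ J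
    · have hT1 : ∀ P ∈ T', ∀ f, cAB (J \ B) B (avD_c T Js D₀ D τ B) P f → OneR P.1 f := by
        intro P hP f hf
        obtain ⟨h3, h4⟩ := hd P hP
        unfold cAB at hf
        rw [if_neg (fun h => h4 (Finset.mem_sdiff.1 h).1), if_neg (fun h => h4 (hJsJ (hB h)))] at hf
        exact avD_ty_one ((avD_c_T (hT' hP) hf).2.trans h3)
      have h5 := hup F h2 6 (cAB (J \ B) B (avD_c T Js D₀ D τ B)) (htw B hB).1 (J ∪ (T ∪ PlD F D))
        (fun P hP f => avD_triv T D₀ D τ hJsJ sdiff_subset (hB.trans hJsJ) P hP f) T' hT1 _ hε'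
      have h6 := ((tendsto_sub_atTop_nat (DJ B).natDegree).comp (tendsto_add_atTop_nat k)).eventually h5
      filter_upwards [h6] with n hn _
      exact hn
    · exact Eventually.of_forall fun n h => absurd h hd
  have hL : ∀ᶠ n in atTop, ∀ B ∈ Js.powerset,
      2 * (((Msh F (n + k - (DJ B).natDegree)).filter
        (fun f => ∀ P, cAB (J \ B) B (avD_c T Js D₀ D τ B) P f)).card : ℝ) -
        δ / (Fintype.card F : ℝ) ^ (12 * k) * (Fintype.card F : ℝ) ^ (12 * (n + k - (DJ B).natDegree) + 3) ≤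
      ∑ f ∈ (Msh F (n + k - (DJ B).natDegree)).filter
        (fun f => ¬ BadC f ∧ (∀ P, cAB (J \ B) B (avD_c T Js D₀ D τ B) P f) ∧
          ∀ P : Pl F, D < P.1.natDegree → ¬ P.1 ^ 2 ∣ f.disc), ((NT ∅ f : ℝ) - 1) := by
    rw [Filter.eventually_all_finset]
    intro B hB
    rw [mem_powerset] at hB
    have h5 := hD₂ D hD2 6 (cAB (J \ B) B (avD_c T Js D₀ D τ B)) (htw B hB).1 (J ∪ (T ∪ PlD F D))
      (fun P hP f => avD_triv T D₀ D τ hJsJ sdiff_subset (hB.trans hJsJ) P hP f)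
    exact ((tendsto_sub_atTop_nat (DJ B).natDegree).comp (tendsto_add_atTop_nat k)).eventually h5
  filter_upwards [hU, hL, hD₁ D hD1, eventually_ge_atTop (2 * k)] with n hUn hLn hfew hn2k s hs
  have hmem : ∀ f, f ∈ s ↔ f ∈ Msh F n ∧ (∀ P, avD_b T D₀ D τ P f) ∧ ¬ BadC f ∧
      ∀ P : Pl F, D < P.1.natDegree → ¬ P.1 ^ 2 ∣ f.disc := fun f => by rw [hs, avD_mem hD0]
  obtain ⟨A, hA'⟩ : ∃ A, A = (Msh F n).filter (fun f => ∀ P, avD_b T D₀ D τ P f) := ⟨_, rfl⟩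
  have hlev : ∀ B ⊆ Js, (n + k - (DJ B).natDegree) + (DJ B).natDegree = n + k := by
    intro B hB
    have h3 := hdeg B (hB.trans hJsJ)
    omega
  have hXB : ∀ B ⊆ Js, (Msh F n).filter (fun f => ∀ P, avD_c T Js D₀ D τ B P f) =
      A.filter (fun f => Js.filter (fun P => TwP P f) = B) := by
    intro B hB
    ext f
    rw [hA', mem_filter, mem_filter, mem_filter, avD_all hT hJsd τ hB, and_assoc]
  have hsum : ∀ B ⊆ Js, ∀ (Φ : Cub F[X] → ℝ), (∀ f r, Φ (f.tr r) = Φ f) → (∀ f, Φ (f.sc (DJ B ^ 2)) = Φ f) →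
      (Fintype.card F : ℝ) ^ (DJ (J \ B)).natDegree *
        ∑ f ∈ A.filter (fun f => Js.filter (fun P => TwP P f) = B), Φ (f.sc (DJ J)) =
      (Fintype.card F : ℝ) ^ (DJ B).natDegree * ∑ h ∈ (Msh F (n + k - (DJ B).natDegree)).filter
        (fun h => ∀ P, cAB (J \ B) B (avD_c T Js D₀ D τ B) P h), Φ h := by
    intro B hB Φ hΦ hΦ'
    have h3 := (htw B hB).2 Φ hΦ hΦ' n (n + k - (DJ B).natDegree) ((hdeg B (hB.trans hJsJ)).le.trans hn2k) (hlev B hB)
    rw [hmul B (hB.trans hJsJ), hXB B hB] at h3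
    exact h3
  have hcard : ∀ B ⊆ Js, (Fintype.card F : ℝ) ^ (DJ (J \ B)).natDegree *
        ((A.filter (fun f => Js.filter (fun P => TwP P f) = B)).card : ℝ) =
      (Fintype.card F : ℝ) ^ (DJ B).natDegree * (((Msh F (n + k - (DJ B).natDegree)).filter
        (fun h => ∀ P, cAB (J \ B) B (avD_c T Js D₀ D τ B) P h)).card : ℝ) := by
    intro B hB
    have h := hsum B hB (fun _ => 1) (fun _ _ => rfl) (fun _ => rfl)
    simpa using h
  have hfib : ∀ g : Cub F[X] → ℝ, ∑ B ∈ Js.powerset, ∑ f ∈ A.filter (fun f => Js.filter (fun P => TwP P f) = B), g f =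
      ∑ f ∈ A, g f := fun g =>
    sum_fiberwise_of_maps_to (fun f _ => mem_powerset.2 (filter_subset _ _)) g
  have hfibc : ∑ B ∈ Js.powerset, ((A.filter (fun f => Js.filter (fun P => TwP P f) = B)).card : ℝ) = A.card := by
    have h := hfib (fun _ => 1)
    simpa using h
  have hQ : (0 : ℝ) < (Fintype.card F : ℝ) ^ (12 * n + 3) := pow_pos hq0 _
  have herr : ∑ B ∈ Js.powerset, δ * (Fintype.card F : ℝ) ^ (12 * n + 3) =
      ε / 2 * (Fintype.card F : ℝ) ^ (12 * n + 3) := by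
    rw [sum_const, card_powerset, nsmul_eq_mul, hδ]
    push_cast
    field_simp
  have hdisc : ∀ f ∈ A, (f.sc (DJ J)).disc ≠ 0 := by
    intro f hf
    rw [hA', mem_filter, mem_Msh] at hf
    rw [Cub.disc_sc]
    exact mul_ne_zero (pow_ne_zero _ hDJ) hf.1.2.1
  have hsA : s ⊆ A := by
    intro f hf
    rw [hmem] at hf
    rw [hA', mem_filter]
    exact ⟨hf.1, hf.2.1⟩
  have hsAc : (s.card : ℝ) ≤ A.card := by exact_mod_cast card_le_card hsA
  have hAs : (A.card : ℝ) ≤ s.card + ε / 4 * (Fintype.card F : ℝ) ^ (12 * n + 3) := by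
    have hsub : A ⊆ s ∪ ((Sb F n).filter (fun f => BadC f) ∪
        (Sb F n).filter (fun f => ∃ P : Pl F, D < P.1.natDegree ∧ P.1 ^ 2 ∣ f.disc)) := by
      intro f hf
      rw [hA', mem_filter] at hf
      have hSb : f ∈ Sb F n := mem_Sb.2 (mem_Msh.1 hf.1).1
      rw [mem_union, mem_union, mem_filter, mem_filter]
      by_cases hb : BadC f
      · exact Or.inr (Or.inl ⟨hSb, hb⟩)
      · by_cases hd : ∃ P : Pl F, D < P.1.natDegree ∧ P.1 ^ 2 ∣ f.disc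
        · exact Or.inr (Or.inr ⟨hSb, hd⟩)
        · refine Or.inl ((hmem f).2 ⟨hf.1, hf.2, hb, fun P hP hd' => hd ⟨P, hP, hd'⟩⟩)
    have h1 := (card_le_card hsub).trans ((card_union_le _ _).trans (Nat.add_le_add_left (card_union_le _ _) _))
    have h3 : (A.card : ℝ) ≤ s.card + ((((Sb F n).filter (fun f => BadC f)).card : ℝ) +
        (((Sb F n).filter (fun f => ∃ P : Pl F, D < P.1.natDegree ∧ P.1 ^ 2 ∣ f.disc)).card : ℝ)) := by
      exact_mod_cast h1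
    have e : 2 * (ε / 8) * (Fintype.card F : ℝ) ^ (12 * n + 3) = ε / 4 * (Fintype.card F : ℝ) ^ (12 * n + 3) := by ring
    linarith
  constructor
  · intro T' hT' hd
    obtain ⟨Φ, hΦ⟩ : ∃ Φ : Cub F[X] → ℝ, ∀ g, Φ g = if ¬ BadC g then ((NT T' g : ℝ) - 1) else 0 := ⟨_, fun g => rfl⟩
    have hΦtr : ∀ f r, Φ (f.tr r) = Φ f := by
      intro f r
      rw [hΦ, hΦ, htri F T' f r]
      simp only [avg_BadC_tr]
    have hΦsc : ∀ (B : Finset (Pl F)) f, Φ (f.sc (DJ B ^ 2)) = Φ f := by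
      intro B f
      rw [hΦ, hΦ, hnsq F T' f (DJ B) (avg_DJ_ne B)]
      simp only [avg_BadC_sc f (pow_ne_zero 2 (avg_DJ_ne B))]
    have h1 : ∑ f ∈ s, ((NT T' (f.sc (DJ J)) : ℝ) - 1) = ∑ f ∈ s, Φ (f.sc (DJ J)) := by
      refine sum_congr rfl fun f hf => ?_
      rw [hmem] at hf
      rw [hΦ, if_pos]
      rw [avg_BadC_sc f hDJ]
      exact hf.2.2.1
    have h2' : ∑ f ∈ s, Φ (f.sc (DJ J)) ≤ ∑ f ∈ A, Φ (f.sc (DJ J)) := by
      refine sum_le_sum_of_subset_of_nonneg hsA fun f hf _ => ?_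
      rw [hΦ]
      by_cases hb : BadC (f.sc (DJ J))
      · rw [if_neg (not_not.2 hb)]
      · rw [if_pos hb]
        exact avg_NT_pos h2 T' (hdisc f hf)
    have h6 : ∑ f ∈ A, Φ (f.sc (DJ J)) ≤ 2 / 2 ^ T'.card * (A.card : ℝ) + ε / 2 * (Fintype.card F : ℝ) ^ (12 * n + 3) := by
      rw [← hfib, ← hfibc, mul_sum, ← herr, ← sum_add_distrib]
      refine sum_le_sum fun B hB => ?_
      have h5 := hUn B hB T' (mem_powerset.2 hT') hd
      rw [mem_powerset] at hB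
      refine avD_up hq1 hδ0 (hlev B hB) (hcard B hB) (hsum B hB Φ hΦtr (hΦsc B)) ?_
      refine le_trans (le_of_eq ?_) h5
      rw [sum_filter, sum_filter]
      refine sum_congr rfl fun g _ => ?_
      rw [hΦ]
      exact avg_ite' _ _ _
    have h7 : (2 : ℝ) / 2 ^ T'.card ≤ 2 := by
      rw [div_le_iff₀ (by positivity)]
      have : (1 : ℝ) ≤ 2 ^ T'.card := one_le_pow₀ (by norm_num)
      linarith
    have h8 : (0 : ℝ) < 2 / 2 ^ T'.card := by positivity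
    have h9 : 2 / 2 ^ T'.card * (A.card : ℝ) ≤ 2 / 2 ^ T'.card * (s.card : ℝ) +
        ε / 2 * (Fintype.card F : ℝ) ^ (12 * n + 3) := by
      have h10 := mul_le_mul_of_nonneg_left hAs h8.le
      have h11 : (2 : ℝ) / 2 ^ T'.card * (ε / 4 * (Fintype.card F : ℝ) ^ (12 * n + 3)) ≤
          2 * (ε / 4 * (Fintype.card F : ℝ) ^ (12 * n + 3)) :=
        mul_le_mul_of_nonneg_right h7 (by positivity)
      rw [mul_add] at h10
      linarith
    rw [h1]
    linarith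
  · obtain ⟨Φ, hΦ⟩ : ∃ Φ : Cub F[X] → ℝ, ∀ g, Φ g =
        if (¬ BadC g ∧ ∀ P : Pl F, D < P.1.natDegree → ¬ P.1 ^ 2 ∣ g.disc) then ((NT ∅ g : ℝ) - 1) else 0 := ⟨_, fun g => rfl⟩
    have hΦtr : ∀ f r, Φ (f.tr r) = Φ f := by
      intro f r
      rw [hΦ, hΦ, htri F ∅ f r]
      simp only [avg_BadC_tr, Cub.disc_tr]
    have hiff : ∀ (f : Cub F[X]) (B : Finset (Pl F)) (m : ℕ), B ⊆ J →
        ((∀ P : Pl F, D < P.1.natDegree → ¬ P.1 ^ 2 ∣ (f.sc (DJ B ^ m)).disc) ↔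
        ∀ P : Pl F, D < P.1.natDegree → ¬ P.1 ^ 2 ∣ f.disc) := by
      intro f B m hBJ
      refine forall_congr' fun P => ?_
      refine imp_congr_right fun hP => ?_
      rw [avg_sq_sc P ?_ 2 f]
      intro h
      have h3 := P.2.2.prime.dvd_of_dvd_pow h
      rw [avg_DJ_dvd] at h3
      exact absurd (hJD P (hBJ h3)) (not_le.2 hP)
    have hiff1 : ∀ f : Cub F[X], (∀ P : Pl F, D < P.1.natDegree → ¬ P.1 ^ 2 ∣ (f.sc (DJ J)).disc) ↔
        ∀ P : Pl F, D < P.1.natDegree → ¬ P.1 ^ 2 ∣ f.disc := by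
      intro f
      have h := hiff f J 1 (Finset.Subset.refl J)
      rwa [pow_one] at h
    have hΦsc : ∀ B ⊆ J, ∀ f, Φ (f.sc (DJ B ^ 2)) = Φ f := by
      intro B hB f
      rw [hΦ, hΦ, hnsq F ∅ f (DJ B) (avg_DJ_ne B)]
      simp only [avg_BadC_sc f (pow_ne_zero 2 (avg_DJ_ne B)), hiff f B 2 hB]
    have h1 : ∑ f ∈ A, Φ (f.sc (DJ J)) = ∑ f ∈ s, ((NT ∅ (f.sc (DJ J)) : ℝ) - 1) := by
      have h1' : ∑ f ∈ s, ((NT ∅ (f.sc (DJ J)) : ℝ) - 1) = ∑ f ∈ s, Φ (f.sc (DJ J)) := by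
        refine sum_congr rfl fun f hf => ?_
        rw [hmem] at hf
        rw [hΦ, if_pos]
        rw [avg_BadC_sc f hDJ, hiff1]
        exact hf.2.2
      rw [h1']
      symm
      refine sum_subset hsA fun f hf hfs => ?_
      rw [hΦ, if_neg]
      rw [avg_BadC_sc f hDJ, hiff1]
      intro hc
      apply hfs
      rw [hA', mem_filter] at hf
      exact (hmem f).2 ⟨hf.1, hf.2, hc⟩
    have h6 : 2 * (A.card : ℝ) - ε / 2 * (Fintype.card F : ℝ) ^ (12 * n + 3) ≤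
        ∑ f ∈ s, ((NT ∅ (f.sc (DJ J)) : ℝ) - 1) := by
      rw [← h1, ← hfib, ← hfibc, mul_sum, ← herr, ← sum_sub_distrib]
      refine sum_le_sum fun B hB => ?_
      have h5 := hLn B hB
      rw [mem_powerset] at hB
      refine avD_lo hq1 hδ0 (hlev B hB) (hcard B hB) (hsum B hB Φ hΦtr (hΦsc B (hB.trans hJsJ))) ?_
      refine h5.trans (le_of_eq ?_)
      rw [sum_filter, sum_filter]
      refine sum_congr rfl fun g _ => ?_
      rw [hΦ]
      exact (avg_ite _ _ _ _).symm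
    have h7 : 0 ≤ ε / 2 * (Fintype.card F : ℝ) ^ (12 * n + 3) := by positivity
    linarith

end Pool.Agent.H456.PS
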