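import Pool.Agent.H456.PS.Stm
import Pool.Agent.H456.PR.T_mai
import Pool.Agent.H456.PR.T_pwt

/-!
(box) Adapt PR/T_mai.lean and PR/T_pwt.lean; their abstract parts (`MaiH`, `MaiH.count`, `mai_V_nonneg`, `pwt_abs`, `pwt_cs`, ...) can be used with `β = Fin m`, `T = univ`. Constants: `n₀` as in `mai_main`, `m` from `S_tyB (ε/8) (n₀+1)`, `D₁` from `PP.a_csq (ε/8)` (for `D₀ ≥ D₁` the set is smaller), `η = ε/24`. Given a good box `J, p`: `T = {Q ∈ J : D₀ < deg Q} ∪ {p i a}` (finite set of places of degree `> D₀`). Exceptional `f ∈ Msh n`: `BadC`, `∃ P, D₀ < deg P, P² ∣ disc`, `∃ P ∈ T, P ∣ disc` (`S_bdr`: at most `∑_{P∈T} 3/q^deg P ≤ 3η`, `BoxOK.eta`), `#(dirs p f) < n₀+1`. The other `f`: `InT T D₀ τ n f` with `τ P = ty P f` for `P ∈ T`, `0` outside `T`: finitely many `τ`. Fix `τ`, `s = {f : InT T D₀ τ n f}`;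
`S = {i : ∃ a, τ (p i a) = 1 ∧ τ (p i (!a)) = 2} = dirs p f` for `f ∈ s` (the places of `T` have good reduction: `GoodF.disc`), `#S ≥ n₀+1`. Orientation: `o i` is the `a` with `τ (p i a) = 1` for `i ∈ S` (anything for `i ∉ S`); for `I ⊆ univ` the vertex `v_I i = o i` if `i ∈ I`, `!(o i)` otherwise (a bijection `Finset (Fin m) ≃ (Fin m → Bool)`). `a T' I f := NT (T'.image (fun i => p i (o i))) (f.sc (DJ (vtx J p v_I)))`. `MaiH s univ S a δ` with `δ = ε₁ q^(12n+3)`: `up`, `low` from `S_avD` (for `T' ⊆ S` disjoint from `I` the places `p i (o i)`, `i ∈ T'`, are not in `vtx J p v_I` (`BoxOK.inj, nJ`), `card` of the image `= T'.card`), `h1`, `h4` from `S_fn` for `P = p i (o i)`, `P' = p i (!(o i))` and the set `J' = vtx J p v_I \ {P'}`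
(`vtx J p v_I = insert P' J'`, `vtx J p v_{insert i I} = insert P J'`), `Flp D₀ J' P P' f`: `small`, `sqJ` from `BoxOK.small, sqJ, sqp` (symmetric in `true/false`: `P.1 * P'.1` commutes), `sqf` from `GoodF`, `one`/`no` from `τ`. `MaiH.count` with `hV` from `mai_V_nonneg` (finiteness of `Sel` from `S_fn`, some direction `i ∈ S` exists) and `hp` from `pwt_abs` (`N I = a ∅ I f`, `N1 i I = a {i} I f`, `V I = mai_V S ...`, `S_cau`, `S_bal`): the proportion of the `I ∈ univ.powerset` with `N I = 2^k` is `prb J p f k` (bijection `I ↦ v_I`). Conclude as in `mai_main`, summing over the finitely many `τ` (functions supported on `T`; disjointness: `τ` is determined by `f`).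
-/

set_option autoImplicit false
set_option linter.all false

open Polynomial Finset Filter
open Pool.Agent.H456.EC (toK toK_inj sig toK_eq reflect_toK cls)
open Pool.Agent.H456.RN
open Pool.Agent.H456.BQ
open Pool.Agent.H456.Coh (TF)
open Pool.Agent.H456.PP (OneR NoR HasRt sx hh Tz Tq Iso3 nr IsoP nrP)
open Pool.Agent.H456.PR

namespace Pool.Agent.H456.PS

section box_a

/-- the vertex attached to the set `I` -/
def box_v {m : ℕ} (o : Fin m → Bool) (I : Finset (Fin m)) : Fin m → Bool :=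
  fun i => if i ∈ I then o i else !(o i)

theorem box_v_not {m : ℕ} (o : Fin m → Bool) {I : Finset (Fin m)} {i : Fin m} (h : i ∉ I) :
    box_v o I i = !(o i) := if_neg h

theorem box_v_mem {m : ℕ} (o : Fin m → Bool) {I : Finset (Fin m)} {i : Fin m} (h : i ∈ I) :
    box_v o I i = o i := if_pos h

theorem box_v_insert {m : ℕ} (o : Fin m → Bool) (I : Finset (Fin m)) (i : Fin m) :
    box_v o (insert i I) = Function.update (box_v o I) i (o i) := by
  funext j
  by_cases h : j = i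
  · subst h
    rw [Function.update_self, box_v_mem o (Finset.mem_insert_self _ _)]
  · rw [Function.update_of_ne h]
    by_cases hj : j ∈ I
    · rw [box_v_mem o hj, box_v_mem o (Finset.mem_insert_of_mem hj)]
    · rw [box_v_not o hj, box_v_not o (fun h' => (Finset.mem_insert.1 h').elim h hj)]

theorem box_v_card {m : ℕ} (o : Fin m → Bool) (Q : (Fin m → Bool) → Prop) [DecidablePred Q]
    [DecidablePred fun I => Q (box_v o I)] :
    ((univ : Finset (Fin m)).powerset.filter (fun I => Q (box_v o I))).card =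
      ((univ : Finset (Fin m → Bool)).filter Q).card := by
  refine Finset.card_nbij' (fun I => box_v o I)
    (fun v => (univ : Finset (Fin m)).filter (fun i => v i = o i)) ?_ ?_ ?_ ?_
  · intro I hI
    rw [Finset.mem_coe, Finset.mem_filter] at hI
    rw [Finset.mem_coe, Finset.mem_filter]
    exact ⟨Finset.mem_univ _, hI.2⟩
  · intro v hv
    rw [Finset.mem_coe, Finset.mem_filter] at hv
    rw [Finset.mem_coe, Finset.mem_filter, Finset.mem_powerset]
    refine ⟨Finset.subset_univ _, ?_⟩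
    have e : box_v o ((univ : Finset (Fin m)).filter (fun i => v i = o i)) = v := by
      funext i
      by_cases h : v i = o i
      · rw [box_v_mem o (Finset.mem_filter.2 ⟨Finset.mem_univ _, h⟩), h]
      · rw [box_v_not o (fun h' => h (Finset.mem_filter.1 h').2)]
        revert h
        cases v i <;> cases o i <;> simp
    show Q (box_v o ((univ : Finset (Fin m)).filter (fun i => v i = o i)))
    rw [e]
    exact hv.2
  · intro I hI
    show (univ : Finset (Fin m)).filter (fun i => box_v o I i = o i) = I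
    ext i
    rw [Finset.mem_filter]
    constructor
    · rintro ⟨-, h⟩
      by_contra hi
      rw [box_v_not o hi] at h
      revert h
      cases o i <;> simp
    · intro hi
      exact ⟨Finset.mem_univ _, box_v_mem o hi⟩
  · intro v hv
    show box_v o ((univ : Finset (Fin m)).filter (fun i => v i = o i)) = v
    funext i
    by_cases h : v i = o i
    · rw [box_v_mem o (Finset.mem_filter.2 ⟨Finset.mem_univ _, h⟩), h]
    · rw [box_v_not o (fun h' => h (Finset.mem_filter.1 h').2)]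
      revert h
      cases v i <;> cases o i <;> simp

end box_a


section box_b

variable {F : Type} [Field F] {m : ℕ}

theorem box_mem (J : Finset (Pl F)) (p : Fin m → Bool → Pl F) (v : Fin m → Bool) (x : Pl F) :
    x ∈ vtx J p v ↔ x ∈ J ∨ ∃ i, p i (v i) = x := by
  classical
  unfold vtx
  rw [Finset.mem_union, Finset.mem_image]
  simp only [Finset.mem_univ, true_and]

theorem box_flp [Fintype F] {D₀ : ℕ} {η : ℝ} {J : Finset (Pl F)} {p : Fin m → Bool → Pl F}
    (h : BoxOK D₀ η J p) {f : Cub F[X]}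
    (hsq : ∀ Q : Pl F, D₀ < Q.1.natDegree → ¬ Q.1 ^ 2 ∣ f.disc) {i : Fin m} {a : Bool}
    (h1 : OneR (p i a).1 f) (h0 : NoR (p i (!a)).1 f) (v : Fin m → Bool) (hv : v i = !a)
    (J' : Finset (Pl F)) (hJ' : ∀ x, x ∈ J' ↔ x ∈ vtx J p v ∧ x ≠ p i (!a)) :
    Flp D₀ J' (p i a) (p i (!a)) f where
  nP := by
    intro hx
    rw [hJ', box_mem] at hx
    rcases hx.1 with hx1 | ⟨j, hj⟩
    · exact h.nJ i a hx1
    · obtain ⟨e1, e2⟩ := h.inj _ _ _ _ hj
      subst e1
      rw [hv] at e2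
      revert e2
      cases a <;> simp
  nP' := fun hx => ((hJ' _).1 hx).2 rfl
  deg := h.deg i a (!a)
  big := h.big i a
  small := fun Q hQ => by
    have h3 := h.small i Q hQ
    cases a
    · rw [mul_comm]
      exact h3
    · exact h3
  sqJ := fun Q hQ => by
    rw [hJ', box_mem] at hQ
    have key : SqM Q ((p i true).1 * (p i false).1) := by
      rcases hQ.1 with hx1 | ⟨j, hj⟩
      · exact h.sqJ i Q hx1
      · by_cases hji : j = i
        · exfalso
          apply hQ.2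
          rw [← hj, hji, hv]
        · rw [← hj]
          exact h.sqp i j (v j) hji
    cases a
    · rw [mul_comm]
      exact key
    · exact key
  sqf := hsq
  one := h1
  no := h0

theorem box_fn [Fintype F] (hfn : S_fn) (h2 : (2 : F) ≠ 0) {D₀ : ℕ} {J' A B : Finset (Pl F)}
    {P P' : Pl F} {f : Cub F[X]} (hF : Flp D₀ J' P P' f) (hb : ¬ BadC f)
    (hA : ∀ x, x ∈ A ↔ x = P' ∨ x ∈ J') (hB : ∀ x, x ∈ B ↔ x = P ∨ x ∈ J') :
    Finite (Sel ((f.sc (DJ A)).map (toK F))) ∧ Finite (Sel ((f.sc (DJ B)).map (toK F))) ∧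
    (∃ k : ℕ, NT ∅ (f.sc (DJ A)) = 2 ^ k) ∧ (∃ k : ℕ, NT ∅ (f.sc (DJ B)) = 2 ^ k) ∧
    NT ∅ (f.sc (DJ A)) + NT ∅ (f.sc (DJ B)) ≤ 3 * NT {P} (f.sc (DJ A)) ∧
    NT ∅ (f.sc (DJ A)) ≤ 2 * NT {P} (f.sc (DJ A)) ∧
    NT ∅ (f.sc (DJ B)) ≤ 2 * NT {P} (f.sc (DJ A)) ∧
    ∀ T' : Finset (Pl F), P ∈ T' → NT T' (f.sc (DJ A)) = NT T' (f.sc (DJ B)) := by
  classical
  have h := hfn F h2 D₀ J' P P' f hF hb
  have eA : A = insert P' J' := by
    ext x
    rw [hA, Finset.mem_insert]
  have eB : B = insert P J' := by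
    ext x
    rw [hB, Finset.mem_insert]
  rw [eA, eB]
  convert h

theorem box_flip [Fintype F] (hfn : S_fn) (h2 : (2 : F) ≠ 0) {D₀ : ℕ} {η : ℝ} {J : Finset (Pl F)}
    {p : Fin m → Bool → Pl F} (h : BoxOK D₀ η J p) {f : Cub F[X]}
    (hsq : ∀ Q : Pl F, D₀ < Q.1.natDegree → ¬ Q.1 ^ 2 ∣ f.disc) (hb : ¬ BadC f)
    (o : Fin m → Bool) {i : Fin m} (h1 : OneR (p i (o i)).1 f) (h0 : NoR (p i (!(o i))).1 f)
    {I : Finset (Fin m)} (hi : i ∉ I) {A B : Finset (Pl F)} (hA : A = vtx J p (box_v o I))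
    (hB : B = vtx J p (box_v o (insert i I))) :
    Finite (Sel ((f.sc (DJ A)).map (toK F))) ∧ Finite (Sel ((f.sc (DJ B)).map (toK F))) ∧
    (∃ k : ℕ, NT ∅ (f.sc (DJ A)) = 2 ^ k) ∧ (∃ k : ℕ, NT ∅ (f.sc (DJ B)) = 2 ^ k) ∧
    NT ∅ (f.sc (DJ A)) + NT ∅ (f.sc (DJ B)) ≤ 3 * NT {p i (o i)} (f.sc (DJ A)) ∧
    NT ∅ (f.sc (DJ A)) ≤ 2 * NT {p i (o i)} (f.sc (DJ A)) ∧
    NT ∅ (f.sc (DJ B)) ≤ 2 * NT {p i (o i)} (f.sc (DJ A)) ∧
    ∀ T' : Finset (Pl F), p i (o i) ∈ T' → NT T' (f.sc (DJ A)) = NT T' (f.sc (DJ B)) := by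
  classical
  obtain ⟨J', hJ'⟩ : ∃ J' : Finset (Pl F), ∀ x, x ∈ J' ↔
      x ∈ vtx J p (box_v o I) ∧ x ≠ p i (!(o i)) :=
    ⟨(vtx J p (box_v o I)).filter (fun x => x ≠ p i (!(o i))), fun x => Finset.mem_filter⟩
  have hv : box_v o I i = !(o i) := box_v_not o hi
  refine box_fn hfn h2 (box_flp h hsq h1 h0 (box_v o I) hv J' hJ') hb ?_ ?_
  · intro x
    rw [hA, hJ']
    constructor
    · intro hx
      by_cases hxe : x = p i (!(o i))
      · exact Or.inl hxe
      · exact Or.inr ⟨hx, hxe⟩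
    · rintro (hx | hx)
      · rw [hx, box_mem]
        exact Or.inr ⟨i, by rw [hv]⟩
      · exact hx.1
  · intro x
    rw [hB, hJ', box_v_insert, box_mem, box_mem]
    constructor
    · rintro (hx | ⟨j, hj⟩)
      · exact Or.inr ⟨Or.inl hx, fun he => h.nJ i (!(o i)) (he ▸ hx)⟩
      · by_cases hji : j = i
        · left
          rw [← hj, hji, Function.update_self]
        · rw [Function.update_of_ne hji] at hj
          exact Or.inr ⟨Or.inr ⟨j, hj⟩, fun he => hji (h.inj _ _ _ _ (hj.trans he)).1⟩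
    · rintro (hx | ⟨hx | ⟨j, hj⟩, hne⟩)
      · right
        exact ⟨i, by rw [Function.update_self, hx]⟩
      · exact Or.inl hx
      · right
        refine ⟨j, ?_⟩
        by_cases hji : j = i
        · exfalso
          apply hne
          rw [← hj, hji, hv]
        · rw [Function.update_of_ne hji]
          exact hj

/-- the number of the classes which are trivial at the places `p i (o i)`, `i ∈ T'` -/
noncomputable def box_a (J : Finset (Pl F)) (p : Fin m → Bool → Pl F) (o : Fin m → Bool)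
    (T' I : Finset (Fin m)) (f : Cub F[X]) : ℕ :=
  Nat.card {σ : Sel ((f.sc (DJ (vtx J p (box_v o I)))).map (toK F)) // ∀ i ∈ T', Tr (p i (o i)) σ}

theorem box_a_NT (J : Finset (Pl F)) (p : Fin m → Bool → Pl F) (o : Fin m → Bool)
    (T' I : Finset (Fin m)) (f : Cub F[X]) (T : Finset (Pl F))
    (hT : ∀ x, x ∈ T ↔ ∃ i ∈ T', p i (o i) = x) :
    NT T (f.sc (DJ (vtx J p (box_v o I)))) = box_a J p o T' I f := by
  unfold NT box_a
  refine Nat.card_congr (Equiv.subtypeEquivRight (fun σ => ?_))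
  constructor
  · intro h i hi
    exact h _ ((hT _).2 ⟨i, hi, rfl⟩)
  · intro h P hP
    obtain ⟨i, hi, rfl⟩ := (hT P).1 hP
    exact h i hi

theorem box_a_empty (J : Finset (Pl F)) (p : Fin m → Bool → Pl F) (o : Fin m → Bool)
    (I : Finset (Fin m)) (f : Cub F[X]) :
    NT ∅ (f.sc (DJ (vtx J p (box_v o I)))) = box_a J p o ∅ I f := by
  refine box_a_NT J p o ∅ I f ∅ fun x => ?_
  simp

theorem box_a_single (J : Finset (Pl F)) (p : Fin m → Bool → Pl F) (o : Fin m → Bool)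
    (i : Fin m) (I : Finset (Fin m)) (f : Cub F[X]) :
    NT {p i (o i)} (f.sc (DJ (vtx J p (box_v o I)))) = box_a J p o {i} I f := by
  refine box_a_NT J p o {i} I f {p i (o i)} fun x => ?_
  rw [Finset.mem_singleton]
  constructor
  · intro h
    exact ⟨i, Finset.mem_singleton_self i, h.symm⟩
  · rintro ⟨j, hj, h⟩
    rw [Finset.mem_singleton.1 hj] at h
    exact h.symm

end box_b

section box_c

theorem box_cs (hcau : S_cau) {m : ℕ} (A : Type) [Finite A] (z : A) (tr : Fin m → A → Prop)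
    (S : Finset (Fin m)) (hz : ∀ i ∈ S, tr i z) (b : Finset (Fin m) → ℕ)
    (hb : ∀ T', b T' = Nat.card {σ : A // ∀ i ∈ T', tr i σ}) :
    ((∑ i ∈ S, ((b ∅ : ℝ) - b {i})) - ((b ∅ : ℝ) - 1) * S.card / 2) ^ 2 ≤
      ((b ∅ : ℝ) - 1) * mai_V S b := by
  haveI : Fintype A := Fintype.ofFinite A
  have h := hcau A (Fin m) z S tr hz
  have e0 : b ∅ = Nat.card A := by
    rw [hb]
    exact Nat.card_congr
      (Equiv.subtypeUnivEquiv (fun σ P hP => absurd hP (Finset.notMem_empty P)))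
  have e1 : ∀ i, b {i} = Nat.card {σ : A // tr i σ} := by
    intro i
    rw [hb]
    refine Nat.card_congr (Equiv.subtypeEquivRight (fun σ => ?_))
    constructor
    · intro h
      exact h i (Finset.mem_singleton_self i)
    · intro h j hj
      rw [Finset.mem_singleton.1 hj]
      exact h
  have e2 : ∀ i j, b {i, j} = Nat.card {σ : A // tr i σ ∧ tr j σ} := by
    intro i j
    rw [hb]
    refine Nat.card_congr (Equiv.subtypeEquivRight (fun σ => ?_))
    constructor
    · intro h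
      exact ⟨h i (Finset.mem_insert_self i _),
        h j (Finset.mem_insert_of_mem (Finset.mem_singleton_self j))⟩
    · intro h k hk
      rcases Finset.mem_insert.1 hk with h1 | h1
      · rw [h1]
        exact h.1
      · rw [Finset.mem_singleton.1 h1]
        exact h.2
  unfold mai_V
  simp only [e0, e1, e2]
  have hE : ∀ i : Fin m, @Finset.erase (Fin m) (fun a b => Classical.propDecidable (a = b)) S i =
      S.erase i := by
    intro i
    ext x
    simp only [Finset.mem_erase]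
  simp only [hE] at h
  exact h

end box_c

section box_d

variable {F : Type} [Field F] [Fintype F] {m : ℕ}

open Classical in
theorem box_prb (J : Finset (Pl F)) (p : Fin m → Bool → Pl F) (o : Fin m → Bool) (f : Cub F[X])
    (k : ℕ) : (((univ : Finset (Fin m)).powerset.filter
      (fun I => box_a J p o ∅ I f = 2 ^ k)).card : ℝ) / 2 ^ (univ : Finset (Fin m)).card =
      prb J p f k := by
  unfold prb
  have h := box_v_card o (fun v => NT ∅ (f.sc (DJ (vtx J p v))) = 2 ^ k)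
  simp only [box_a_empty] at h
  rw [h, Finset.card_fin]

/-- what is known for `f` -/
def box_K (D₀ : ℕ) (p : Fin m → Bool → Pl F) (o : Fin m → Bool) (S : Finset (Fin m))
    (f : Cub F[X]) : Prop :=
  (∀ Q : Pl F, D₀ < Q.1.natDegree → ¬ Q.1 ^ 2 ∣ f.disc) ∧ ¬ BadC f ∧
    ∀ i ∈ S, OneR (p i (o i)).1 f ∧ NoR (p i (!(o i))).1 f

theorem box_fin (hfn : S_fn) (h2 : (2 : F) ≠ 0) {D₀ : ℕ} {η : ℝ} {J : Finset (Pl F)}
    {p : Fin m → Bool → Pl F} (hOK : BoxOK D₀ η J p) {S : Finset (Fin m)} (hS : 1 ≤ S.card)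
    {o : Fin m → Bool} {f : Cub F[X]} (hf : box_K D₀ p o S f) (I : Finset (Fin m)) :
    Finite (Sel ((f.sc (DJ (vtx J p (box_v o I)))).map (toK F))) ∧
      ∃ k : ℕ, box_a J p o ∅ I f = 2 ^ k := by
  obtain ⟨i, hi⟩ := Finset.card_pos.1 hS
  rw [← box_a_empty]
  by_cases hI : i ∈ I
  · have h := box_flip hfn h2 hOK hf.1 hf.2.1 o (hf.2.2 i hi).1 (hf.2.2 i hi).2
      (Finset.notMem_erase i I) rfl rfl
    rw [Finset.insert_erase hI] at h
    exact ⟨h.2.1, h.2.2.2.1⟩
  · have h := box_flip hfn h2 hOK hf.1 hf.2.1 o (hf.2.2 i hi).1 (hf.2.2 i hi).2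
      hI rfl rfl
    exact ⟨h.1, h.2.2.1⟩

theorem box_ed (hfn : S_fn) (h2 : (2 : F) ≠ 0) {D₀ : ℕ} {η : ℝ} {J : Finset (Pl F)}
    {p : Fin m → Bool → Pl F} (hOK : BoxOK D₀ η J p) {S : Finset (Fin m)}
    {o : Fin m → Bool} {f : Cub F[X]} (hf : box_K D₀ p o S f) {i : Fin m} (hi : i ∈ S)
    {I : Finset (Fin m)} (hI : i ∉ I) :
    box_a J p o ∅ I f + box_a J p o ∅ (insert i I) f ≤ 3 * box_a J p o {i} I f ∧
    box_a J p o ∅ I f ≤ 2 * box_a J p o {i} I f ∧
    box_a J p o ∅ (insert i I) f ≤ 2 * box_a J p o {i} I f ∧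
    ∀ T' : Finset (Fin m), i ∈ T' → box_a J p o T' I f = box_a J p o T' (insert i I) f := by
  classical
  have h := box_flip hfn h2 hOK hf.1 hf.2.1 o (hf.2.2 i hi).1 (hf.2.2 i hi).2
      hI rfl rfl
  rw [box_a_empty, box_a_empty, box_a_single] at h
  refine ⟨h.2.2.2.2.1, h.2.2.2.2.2.1, h.2.2.2.2.2.2.1, ?_⟩
  intro T' hT'
  have h3 := h.2.2.2.2.2.2.2 (T'.image (fun i => p i (o i))) (Finset.mem_image.2 ⟨i, hT', rfl⟩)
  rw [box_a_NT J p o T' I f _ (fun x => Finset.mem_image),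
    box_a_NT J p o T' (insert i I) f _ (fun x => Finset.mem_image)] at h3
  exact h3

theorem box_V (hfn : S_fn) (h2 : (2 : F) ≠ 0) {D₀ : ℕ} {η : ℝ} {J : Finset (Pl F)}
    {p : Fin m → Bool → Pl F} (hOK : BoxOK D₀ η J p) {S : Finset (Fin m)} (hS : 1 ≤ S.card)
    {o : Fin m → Bool} {f : Cub F[X]} (hf : box_K D₀ p o S f) (I : Finset (Fin m)) :
    0 ≤ mai_V S (fun T' => box_a J p o T' I f) := by
  haveI := (box_fin hfn h2 hOK hS hf I).1
  exact mai_V_nonneg (Sel ((f.sc (DJ (vtx J p (box_v o I)))).map (toK F))) 0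
    (fun i σ => Tr (p i (o i)) σ) S (fun i _ => pwt_Tr_zero _ _)

theorem box_cnt (hfn : S_fn) (hcau : S_cau) (hbal : S_bal) (h2 : (2 : F) ≠ 0) {D₀ : ℕ} {η : ℝ}
    {J : Finset (Pl F)} {p : Fin m → Bool → Pl F} (hOK : BoxOK D₀ η J p)
    {s : Finset (Cub F[X])} {S : Finset (Fin m)} (hS : 1 ≤ S.card) (o : Fin m → Bool)
    (hs : ∀ f ∈ s, box_K D₀ p o S f) {δ : ℝ} (hδ : 0 ≤ δ)
    (hup : ∀ I T' : Finset (Fin m), T' ⊆ S → Disjoint T' I →
      ∑ f ∈ s, ((box_a J p o T' I f : ℝ) - 1) ≤ 2 / 2 ^ T'.card * (s.card : ℝ) + δ)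
    (hlow : ∀ I : Finset (Fin m), 2 * (s.card : ℝ) - δ ≤ ∑ f ∈ s, ((box_a J p o ∅ I f : ℝ) - 1))
    {ε : ℝ} (hε : 0 < ε) [DecidablePred fun f : Cub F[X] => ∃ k, ε < |prb J p f k - Cd k|] :
    ((s.filter (fun f => ∃ k, ε < |prb J p f k - Cd k|)).card : ℝ) ≤
      15 / Real.sqrt S.card / ε * s.card + (30 * Real.sqrt S.card / ε + 5 * 2 ^ m * m) * δ := by
  have H : MaiH s univ S (fun T' I f => box_a J p o T' I f) δ :=
    { sub := Finset.subset_univ _
      pos := hS
      d0 := hδ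
      up := fun I _ T' hT' hd => hup I T' hT' hd
      low := fun I _ => hlow I
      h1 := fun f hf I _ i hi hI => (box_ed hfn h2 hOK (hs f hf) hi hI).1
      h4 := fun f hf I _ i hi hI T' hT' => (box_ed hfn h2 hOK (hs f hf) hi hI).2.2.2 T' hT' }
  have hc := H.count hε (fun f hf I _ => box_V hfn h2 hOK hS (hs f hf) I)
    (fun f => ∃ k, ε < |prb J p f k - Cd k|) (by
      rintro f hf hba ⟨k, hk⟩
      refine hk.trans_le ?_
      have h1 := pwt_abs hbal (B := Fin m) (T := univ) (S := S) (Finset.subset_univ _) hS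
        (fun I => box_a J p o ∅ I f) (fun i I => box_a J p o {i} I f)
        (fun I => mai_V S (fun T' => box_a J p o T' I f))
        (fun I _ => (box_fin hfn h2 hOK hS (hs f hf) I).2) (by
          intro I _ i hi hI
          have h3 := box_ed hfn h2 hOK (hs f hf) hi hI
          have h4 := hba I (Finset.subset_univ _) i hi hI
          have h5 := h3.2.2.2 {i} (Finset.mem_singleton_self i)
          have hins : @insert (Fin m) (Finset (Fin m)) (@Finset.instInsert (Fin m)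
              (fun a b => Classical.propDecidable (a = b))) i I = insert i I := by
            ext x
            simp only [Finset.mem_insert]
          rw [hins]
          exact ⟨h4, h3.2.1, h3.2.2.1, h5⟩) (by
          intro I _
          haveI := (box_fin hfn h2 hOK hS (hs f hf) I).1
          exact box_cs hcau (Sel ((f.sc (DJ (vtx J p (box_v o I)))).map (toK F))) 0
            (fun i σ => Tr (p i (o i)) σ) S (fun i _ => pwt_Tr_zero _ _)
            (fun T' => box_a J p o T' I f) (fun T' => rfl))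
        (fun I _ => box_V hfn h2 hOK hS (hs f hf) I) k
      rw [box_prb] at h1
      exact h1)
  rw [Finset.card_fin] at hc
  exact hc

end box_d

section box_e

variable {F : Type} [Field F] {m : ℕ}

open Classical in
/-- the types at the places of `T` -/
noncomputable def box_t (T : Finset (Pl F)) (g : {x // x ∈ T} → Fin 3) : Pl F → Fin 3 :=
  fun P => if h : P ∈ T then g ⟨P, h⟩ else 0

theorem box_t_mem {T : Finset (Pl F)} (g : {x // x ∈ T} → Fin 3) {P : Pl F} (h : P ∈ T) :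
    box_t T g P = g ⟨P, h⟩ := dif_pos h

theorem box_ty1 {P : Pl F} {f : Cub F[X]} : ty P f = 1 ↔ OneR P.1 f := by
  classical
  unfold ty
  by_cases h1 : OneR P.1 f
  · rw [if_pos h1]
    exact ⟨fun _ => h1, fun _ => rfl⟩
  · rw [if_neg h1]
    by_cases h2 : NoR P.1 f
    · rw [if_pos h2]
      exact ⟨fun h => absurd h (by decide), fun h => absurd h h1⟩
    · rw [if_neg h2]
      exact ⟨fun h => absurd h (by decide), fun h => absurd h h1⟩

theorem box_ty2 {P : Pl F} {f : Cub F[X]} : ty P f = 2 ↔ NoR P.1 f := by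
  classical
  unfold ty
  by_cases h1 : OneR P.1 f
  · rw [if_pos h1]
    refine ⟨fun h => absurd h (by decide), fun h => ?_⟩
    obtain ⟨r, hr⟩ := h1.2.1
    exact absurd hr (h.2 r)
  · rw [if_neg h1]
    by_cases h2 : NoR P.1 f
    · rw [if_pos h2]
      exact ⟨fun _ => h2, fun _ => rfl⟩
    · rw [if_neg h2]
      exact ⟨fun h => absurd h (by decide), fun h => absurd h h2⟩

/-- the directions for the types `τ` -/
noncomputable def box_S (p : Fin m → Bool → Pl F) (τ : Pl F → Fin 3) : Finset (Fin m) :=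
  univ.filter (fun i => ∃ a : Bool, τ (p i a) = 1 ∧ τ (p i (!a)) = 2)

theorem box_S_mem {p : Fin m → Bool → Pl F} {τ : Pl F → Fin 3} {i : Fin m} :
    i ∈ box_S p τ ↔ ∃ a : Bool, τ (p i a) = 1 ∧ τ (p i (!a)) = 2 := by
  unfold box_S
  rw [Finset.mem_filter]
  exact ⟨fun h => h.2, fun h => ⟨Finset.mem_univ _, h⟩⟩

open Classical in
/-- the set of the places -/
noncomputable def box_T (D₀ : ℕ) (J : Finset (Pl F)) (p : Fin m → Bool → Pl F) :
    Finset (Pl F) :=
  J.filter (fun Q => D₀ < Q.1.natDegree) ∪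
    (univ : Finset (Fin m × Bool)).image (fun x => p x.1 x.2)

theorem box_T_mem {D₀ : ℕ} {J : Finset (Pl F)} {p : Fin m → Bool → Pl F} {x : Pl F} :
    x ∈ box_T D₀ J p ↔ (x ∈ J ∧ D₀ < x.1.natDegree) ∨ ∃ i a, p i a = x := by
  classical
  unfold box_T
  rw [Finset.mem_union, Finset.mem_filter, Finset.mem_image]
  constructor
  · rintro (h | ⟨⟨i, a⟩, -, h⟩)
    · exact Or.inl h
    · exact Or.inr ⟨i, a, h⟩
  · rintro (h | ⟨i, a, h⟩)
    · exact Or.inl h
    · exact Or.inr ⟨(i, a), Finset.mem_univ _, h⟩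

theorem box_T_sum [Fintype F] {D₀ : ℕ} {η : ℝ} {J : Finset (Pl F)} {p : Fin m → Bool → Pl F}
    (hOK : BoxOK D₀ η J p) :
    ∑ P ∈ box_T D₀ J p, 3 / (Fintype.card F : ℝ) ^ P.1.natDegree ≤ 3 * η := by
  classical
  have h := hOK.eta
  unfold box_T
  rw [Finset.sum_union, Finset.sum_image, Fintype.sum_prod_type]
  · have e1 : ∀ i : Fin m, ∑ a : Bool, 3 / (Fintype.card F : ℝ) ^ (p i a).1.natDegree =
        3 * (2 / (Fintype.card F : ℝ) ^ (p i true).1.natDegree) := by
      intro i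
      rw [Fintype.sum_bool, hOK.deg i false true]
      ring
    have e2 : ∀ P : Pl F, 3 / (Fintype.card F : ℝ) ^ P.1.natDegree =
        3 * (1 / (Fintype.card F : ℝ) ^ P.1.natDegree) := by
      intro P
      ring
    have e3 : ∑ i : Fin m, ∑ a : Bool, 3 / (Fintype.card F : ℝ) ^ (p i a).1.natDegree =
        3 * ∑ i : Fin m, (2 / (Fintype.card F : ℝ) ^ (p i true).1.natDegree) := by
      rw [Finset.mul_sum]
      exact Finset.sum_congr rfl fun i _ => e1 i
    have e4 : ∑ P ∈ J.filter (fun Q => D₀ < Q.1.natDegree),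
        3 / (Fintype.card F : ℝ) ^ P.1.natDegree =
        3 * ∑ P ∈ J.filter (fun Q => D₀ < Q.1.natDegree),
          1 / (Fintype.card F : ℝ) ^ P.1.natDegree := by
      rw [Finset.mul_sum]
      exact Finset.sum_congr rfl fun P _ => e2 P
    rw [e3]
    linarith
  · rintro ⟨i, a⟩ _ ⟨j, b⟩ _ hij
    obtain ⟨h1, h2⟩ := hOK.inj _ _ _ _ hij
    rw [Prod.mk.injEq]
    exact ⟨h1, h2⟩
  · rw [Finset.disjoint_left]
    intro x hx hx'
    rw [Finset.mem_filter] at hx
    rw [Finset.mem_image] at hx'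
    obtain ⟨⟨i, a⟩, -, h1⟩ := hx'
    exact hOK.nJ i a (h1 ▸ hx.1)

variable [Fintype F]

open Classical in
/-- the cubics with the types `τ` -/
noncomputable def box_s (T : Finset (Pl F)) (D₀ n : ℕ) (τ : Pl F → Fin 3) : Finset (Cub F[X]) :=
  (Msh F n).filter (InT T D₀ τ n)

theorem box_s_mem {T : Finset (Pl F)} {D₀ n : ℕ} {τ : Pl F → Fin 3} {f : Cub F[X]} :
    f ∈ box_s T D₀ n τ ↔ InT T D₀ τ n f := by
  classical
  unfold box_s
  rw [Finset.mem_filter]
  exact ⟨fun h => h.2, fun h => ⟨h.1, h⟩⟩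

theorem box_dirs {T : Finset (Pl F)} {D₀ n : ℕ} {τ : Pl F → Fin 3} {f : Cub F[X]}
    (h : InT T D₀ τ n f) {p : Fin m → Bool → Pl F} (hp : ∀ i a, p i a ∈ T) :
    dirs p f = box_S p τ := by
  classical
  ext i
  rw [box_S_mem]
  unfold dirs
  rw [Finset.mem_filter]
  constructor
  · rintro ⟨-, a, h1, h2⟩
    refine ⟨a, ?_, ?_⟩
    · rw [← h.2.2 _ (hp i a), box_ty1]
      exact h1
    · rw [← h.2.2 _ (hp i (!a)), box_ty2]
      exact h2
  · rintro ⟨a, h1, h2⟩
    refine ⟨Finset.mem_univ _, a, ?_, ?_⟩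
    · rw [← box_ty1, h.2.2 _ (hp i a)]
      exact h1
    · rw [← box_ty2, h.2.2 _ (hp i (!a))]
      exact h2

theorem box_or (p : Fin m → Bool → Pl F) (τ : Pl F → Fin 3) :
    ∃ o : Fin m → Bool, ∀ i ∈ box_S p τ, τ (p i (o i)) = 1 ∧ τ (p i (!(o i))) = 2 := by
  have h : ∀ i : Fin m, ∃ a : Bool, i ∈ box_S p τ → τ (p i a) = 1 ∧ τ (p i (!a)) = 2 := by
    intro i
    by_cases hi : i ∈ box_S p τ
    · obtain ⟨a, ha⟩ := box_S_mem.1 hi
      exact ⟨a, fun _ => ha⟩
    · exact ⟨true, fun h => absurd h hi⟩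
  choose o ho using h
  exact ⟨o, ho⟩

/-- the count for the types `τ` -/
theorem box_cnt2 (hfn : S_fn) (hcau : S_cau) (hbal : S_bal) (h2 : (2 : F) ≠ 0) {D₀ : ℕ} {η : ℝ}
    {J : Finset (Pl F)} {p : Fin m → Bool → Pl F} (hOK : BoxOK D₀ η J p) {T : Finset (Pl F)}
    (hpT : ∀ i a, p i a ∈ T) {τ : Pl F → Fin 3} {n : ℕ} (hS : 1 ≤ (box_S p τ).card) {δ : ℝ}
    (hδ : 0 ≤ δ)
    (hav : ∀ v : Fin m → Bool, (∀ T' ⊆ T, (∀ P ∈ T', τ P = 1 ∧ P ∉ vtx J p v) →
        ∑ f ∈ box_s T D₀ n τ, ((NT T' (f.sc (DJ (vtx J p v))) : ℝ) - 1) ≤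
          2 / 2 ^ T'.card * ((box_s T D₀ n τ).card : ℝ) + δ) ∧
      2 * ((box_s T D₀ n τ).card : ℝ) - δ ≤
        ∑ f ∈ box_s T D₀ n τ, ((NT ∅ (f.sc (DJ (vtx J p v))) : ℝ) - 1))
    {ε : ℝ} (hε : 0 < ε) [DecidablePred fun f : Cub F[X] => ∃ k, ε < |prb J p f k - Cd k|] :
    (((box_s T D₀ n τ).filter (fun f => ∃ k, ε < |prb J p f k - Cd k|)).card : ℝ) ≤
      15 / Real.sqrt (box_S p τ).card / ε * (box_s T D₀ n τ).card +
        (30 * Real.sqrt (box_S p τ).card / ε + 5 * 2 ^ m * m) * δ := by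
  classical
  obtain ⟨o, ho⟩ := box_or p τ
  refine box_cnt hfn hcau hbal h2 hOK hS o ?_ hδ ?_ ?_ hε
  · intro f hf
    rw [box_s_mem] at hf
    refine ⟨hf.2.1.sqf, hf.2.1.bad, fun i hi => ⟨?_, ?_⟩⟩
    · rw [← box_ty1, hf.2.2 _ (hpT i _)]
      exact (ho i hi).1
    · rw [← box_ty2, hf.2.2 _ (hpT i _)]
      exact (ho i hi).2
  · intro I T' hT' hd
    have hinj : Function.Injective (fun i => p i (o i)) := by
      intro i j hij
      exact (hOK.inj _ _ _ _ hij).1
    have h := (hav (box_v o I)).1 (T'.image (fun i => p i (o i))) (by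
      intro x hx
      obtain ⟨i, -, rfl⟩ := Finset.mem_image.1 hx
      exact hpT i _) (by
      intro x hx
      obtain ⟨i, hi, rfl⟩ := Finset.mem_image.1 hx
      refine ⟨(ho i (hT' hi)).1, ?_⟩
      rw [box_mem]
      rintro (h1 | ⟨j, hj⟩)
      · exact hOK.nJ _ _ h1
      · obtain ⟨e1, e2⟩ := hOK.inj _ _ _ _ hj
        subst e1
        rw [box_v_not o (Finset.disjoint_left.1 hd hi)] at e2
        revert e2
        cases o j <;> simp)
    rw [Finset.card_image_of_injective _ hinj] at h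
    refine le_trans (le_of_eq (Finset.sum_congr rfl fun f _ => ?_)) h
    rw [box_a_NT J p o T' I f _ (fun x => Finset.mem_image)]
  · intro I
    refine le_trans (hav (box_v o I)).2 (le_of_eq (Finset.sum_congr rfl fun f _ => ?_))
    rw [box_a_empty]

end box_e

section box_m

open Classical in
theorem box_main (hbadc : S_badc) (hcsq : PP.S_csq) :
    S_fn → S_avD → S_tyB → S_bdr → S_cau → S_bal → S_box := by
  intro hfn havD htyB hbdr hcau hbal F _ _ h2 ε hε
  obtain ⟨q, hq⟩ : ∃ q : ℝ, q = (Fintype.card F : ℝ) := ⟨_, rfl⟩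
  have hq1 : 1 < q := by
    rw [hq]
    exact_mod_cast Fintype.one_lt_card
  obtain ⟨n₀, hn₀⟩ : ∃ n₀ : ℕ, (120 / ε ^ 2) ^ 2 ≤ (n₀ : ℝ) := exists_nat_ge _
  obtain ⟨m, hm⟩ := htyB F h2 (ε / 8) (n₀ + 1) (by positivity)
  obtain ⟨D₁, hD₁⟩ := hcsq F h2 (ε / 8) (by positivity)
  refine ⟨m, ε / 24, D₁, by positivity, ?_⟩
  intro D₀ hD J p hOK hev
  obtain ⟨T, hT⟩ : ∃ T : Finset (Pl F), T = box_T D₀ J p := ⟨_, rfl⟩
  have hpT : ∀ i a, p i a ∈ T := by
    intro i a
    rw [hT, box_T_mem]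
    exact Or.inr ⟨i, a, rfl⟩
  have hTbig : ∀ P ∈ T, D₀ < P.1.natDegree := by
    intro P hP
    rw [hT, box_T_mem] at hP
    rcases hP with h | ⟨i, a, rfl⟩
    · exact h.2
    · exact hOK.big i a
  have hvT : ∀ v : Fin m → Bool, ∀ P ∈ vtx J p v, D₀ < P.1.natDegree → P ∈ T := by
    intro v P hP hd
    rw [hT, box_T_mem]
    rcases (box_mem J p v P).1 hP with h | ⟨i, h⟩
    · exact Or.inl ⟨h, hd⟩
    · exact Or.inr ⟨i, _, h⟩
  -- the constants
  obtain ⟨C₁, hC₁⟩ : ∃ C₁ : ℝ, C₁ = 30 * Real.sqrt m / ε + 5 * 2 ^ m * m := ⟨_, rfl⟩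
  have hC₁0 : 0 ≤ C₁ := by
    rw [hC₁]
    positivity
  obtain ⟨K, hK⟩ : ∃ K : ℝ, K = (Fintype.card ({x // x ∈ T} → Fin 3) : ℝ) := ⟨_, rfl⟩
  have hK0 : 0 < K := by
    rw [hK]
    exact_mod_cast Fintype.card_pos
  obtain ⟨ε₁, hε₁⟩ : ∃ ε₁ : ℝ, ε₁ = ε / 8 / (K * (C₁ + 1)) := ⟨_, rfl⟩
  have hε₁0 : 0 < ε₁ := by
    rw [hε₁]
    positivity
  have hε₁' : K * C₁ * ε₁ ≤ ε / 8 := by
    have h1 : K * (C₁ + 1) * ε₁ = ε / 8 := by
      rw [hε₁]
      field_simp
    have h3 : (0 : ℝ) ≤ K * ε₁ := by positivity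
    nlinarith
  have E1 := hbadc F h2 (ε / 8) (by positivity)
  have E3 : ∀ᶠ n in atTop, ∀ P ∈ T, (((Sb F n).filter (fun f => P.1 ∣ f.disc)).card : ℝ) ≤
      3 / (Fintype.card F : ℝ) ^ P.1.natDegree * (Fintype.card F : ℝ) ^ (12 * n + 3) :=
    (Finset.eventually_all T).2 fun P _ => hbdr F h2 P
  have E4 := hm p hOK.inj
  have E5 : ∀ᶠ n in atTop, ∀ g : {x // x ∈ T} → Fin 3, ∀ v : Fin m → Bool,
      (∀ T' ⊆ T, (∀ P ∈ T', box_t T g P = 1 ∧ P ∉ vtx J p v) →
        ∑ f ∈ box_s T D₀ n (box_t T g), ((NT T' (f.sc (DJ (vtx J p v))) : ℝ) - 1) ≤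
          2 / 2 ^ T'.card * ((box_s T D₀ n (box_t T g)).card : ℝ) +
          ε₁ * (Fintype.card F : ℝ) ^ (12 * n + 3)) ∧
      2 * ((box_s T D₀ n (box_t T g)).card : ℝ) - ε₁ * (Fintype.card F : ℝ) ^ (12 * n + 3) ≤
        ∑ f ∈ box_s T D₀ n (box_t T g), ((NT ∅ (f.sc (DJ (vtx J p v))) : ℝ) - 1) := by
    rw [Filter.eventually_all]
    intro g
    rw [Filter.eventually_all]
    intro v
    filter_upwards [havD F h2 T D₀ hTbig (vtx J p v) (hev v) (hvT v) (box_t T g) ε₁ hε₁0]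
      with n hn
    exact hn (box_s T D₀ n (box_t T g)) fun f => box_s_mem
  filter_upwards [E1, hD₁, E3, E4, E5] with n e1 e2 e3 e4 e5
  obtain ⟨B, hB⟩ : ∃ B : ℝ, B = (Fintype.card F : ℝ) ^ (12 * n + 3) := ⟨_, rfl⟩
  have hB0 : 0 < B := by
    rw [hB, ← hq]
    positivity
  rw [← hB] at e1 e2 e4 ⊢
  simp only [← hB] at e3 e5
  obtain ⟨G, hG⟩ : ∃ G : Finset ({x // x ∈ T} → Fin 3),
      G = univ.filter (fun g => n₀ + 1 ≤ (box_S p (box_t T g)).card) := ⟨_, rfl⟩
  have hGm : ∀ g, g ∈ G ↔ n₀ + 1 ≤ (box_S p (box_t T g)).card := by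
    intro g
    rw [hG, Finset.mem_filter]
    exact ⟨fun h => h.2, fun h => ⟨Finset.mem_univ _, h⟩⟩
  -- the inclusion
  have hsub : (Msh F n).filter (fun f => ∃ k, ε < |prb J p f k - Cd k|) ⊆
      (Sb F n).filter (fun f => BadC f) ∪
      ((Sb F n).filter (fun f => ∃ P : Pl F, D₁ < P.1.natDegree ∧ P.1 ^ 2 ∣ f.disc) ∪
      ((T.biUnion fun P => (Sb F n).filter (fun f => P.1 ∣ f.disc)) ∪
      ((Sb F n).filter (fun f => (dirs p f).card < n₀ + 1) ∪
      (G.biUnion fun g =>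
        (box_s T D₀ n (box_t T g)).filter (fun f => ∃ k, ε < |prb J p f k - Cd k|))))) := by
    intro f hf
    rw [mem_filter] at hf
    obtain ⟨hfM, hfb⟩ := hf
    have hfS : f ∈ Sb F n := by
      unfold Msh at hfM
      exact (Finset.mem_filter.1 hfM).1
    simp only [mem_union, mem_biUnion, mem_filter]
    by_cases c1 : BadC f
    · exact Or.inl ⟨hfS, c1⟩
    right
    by_cases c2 : ∃ P : Pl F, D₁ < P.1.natDegree ∧ P.1 ^ 2 ∣ f.disc
    · exact Or.inl ⟨hfS, c2⟩
    right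
    by_cases c3 : ∃ P ∈ T, P.1 ∣ f.disc
    · obtain ⟨P, hP, hd⟩ := c3
      exact Or.inl ⟨P, hP, hfS, hd⟩
    right
    by_cases c4 : (dirs p f).card < n₀ + 1
    · exact Or.inl ⟨hfS, c4⟩
    right
    have hI : InT T D₀ (box_t T (fun x => ty x.1 f)) n f := by
      refine ⟨hfM, ⟨?_, ?_, c1⟩, ?_⟩
      · intro P hP hd
        exact c3 ⟨P, hP, hd⟩
      · intro P hP hd
        exact c2 ⟨P, lt_of_le_of_lt hD hP, hd⟩
      · intro P hP
        rw [box_t_mem _ hP]
    refine ⟨fun x => ty x.1 f, (hGm _).2 ?_, box_s_mem.2 hI, hfb⟩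
    rw [← box_dirs hI hpT]
    exact not_lt.1 c4
  -- the third set
  have h3 : (((T.biUnion fun P => (Sb F n).filter (fun f => P.1 ∣ f.disc)).card : ℕ) : ℝ) ≤
      ε / 8 * B := by
    have h4 : (((T.biUnion fun P => (Sb F n).filter (fun f => P.1 ∣ f.disc)).card : ℕ) : ℝ) ≤
        ∑ P ∈ T, (((Sb F n).filter (fun f => P.1 ∣ f.disc)).card : ℝ) := by
      exact_mod_cast Finset.card_biUnion_le
    refine h4.trans ((Finset.sum_le_sum e3).trans ?_)
    rw [← Finset.sum_mul]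
    refine mul_le_mul_of_nonneg_right ?_ hB0.le
    rw [hT]
    refine (box_T_sum hOK).trans (le_of_eq ?_)
    ring
  -- the last set
  have h5 : (((G.biUnion fun g =>
        (box_s T D₀ n (box_t T g)).filter (fun f => ∃ k, ε < |prb J p f k - Cd k|)).card : ℕ) : ℝ) ≤
      ε / 8 * B + ε / 8 * B := by
    have h6 : (((G.biUnion fun g =>
        (box_s T D₀ n (box_t T g)).filter (fun f => ∃ k, ε < |prb J p f k - Cd k|)).card : ℕ) : ℝ) ≤
        ∑ g ∈ G, (((box_s T D₀ n (box_t T g)).filter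
          (fun f => ∃ k, ε < |prb J p f k - Cd k|)).card : ℝ) := by
      exact_mod_cast Finset.card_biUnion_le
    refine h6.trans ?_
    have h7 : ∀ g ∈ G, (((box_s T D₀ n (box_t T g)).filter
          (fun f => ∃ k, ε < |prb J p f k - Cd k|)).card : ℝ) ≤
        ε / 8 * (box_s T D₀ n (box_t T g)).card + C₁ * (ε₁ * B) := by
      intro g hg
      rw [hGm] at hg
      have h8 := box_cnt2 hfn hcau hbal h2 hOK hpT (τ := box_t T g) (n := n) (by omega)
        (δ := ε₁ * B) (by positivity) (fun v => e5 g v) hε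
      refine h8.trans (add_le_add (mul_le_mul_of_nonneg_right ?_ (Nat.cast_nonneg _))
        (mul_le_mul_of_nonneg_right ?_ (by positivity)))
      · have h9 : 120 / ε ^ 2 ≤ Real.sqrt (box_S p (box_t T g)).card := by
          refine Real.le_sqrt_of_sq_le (hn₀.trans ?_)
          have : n₀ ≤ (box_S p (box_t T g)).card := by omega
          exact_mod_cast this
        have h10 : 0 < 120 / ε ^ 2 := by positivity
        have h11 : 0 < Real.sqrt (box_S p (box_t T g)).card := lt_of_lt_of_le h10 h9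
        rw [div_div, div_le_iff₀ (mul_pos h11 hε)]
        rw [div_le_iff₀ (by positivity)] at h9
        nlinarith
      · rw [hC₁]
        have h9 : Real.sqrt (box_S p (box_t T g)).card ≤ Real.sqrt m := by
          refine Real.sqrt_le_sqrt ?_
          have h10 := Finset.card_le_univ (box_S p (box_t T g))
          rw [Fintype.card_fin] at h10
          exact_mod_cast h10
        have h10 : 30 * Real.sqrt (box_S p (box_t T g)).card / ε ≤ 30 * Real.sqrt m / ε :=
          div_le_div_of_nonneg_right (by linarith) hε.le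
        linarith
    refine (Finset.sum_le_sum h7).trans ?_
    rw [Finset.sum_add_distrib, ← Finset.mul_sum, Finset.sum_const, nsmul_eq_mul]
    refine add_le_add (mul_le_mul_of_nonneg_left ?_ (by positivity)) ?_
    · -- disjointness
      have h8 : ∑ g ∈ G, (box_s T D₀ n (box_t T g)).card =
          (G.biUnion fun g => box_s T D₀ n (box_t T g)).card := by
        rw [Finset.card_biUnion]
        intro g hg g' hg' hne
        change Disjoint (box_s T D₀ n (box_t T g)) (box_s T D₀ n (box_t T g'))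
        rw [Finset.disjoint_left]
        intro f hf hf'
        apply hne
        funext x
        have h9 := (box_s_mem.1 hf).2.2 x.1 x.2
        have h10 := (box_s_mem.1 hf').2.2 x.1 x.2
        rw [box_t_mem _ x.2] at h9 h10
        exact h9.symm.trans h10
      have h9 : (G.biUnion fun g => box_s T D₀ n (box_t T g)) ⊆ Sb F n := by
        intro f hf
        rw [mem_biUnion] at hf
        obtain ⟨g, -, hf⟩ := hf
        have hfM := (box_s_mem.1 hf).1
        unfold Msh at hfM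
        exact (Finset.mem_filter.1 hfM).1
      have h10 := Finset.card_le_card h9
      rw [← h8, card_Sb] at h10
      rw [hB]
      exact_mod_cast h10
    · have h8 : (G.card : ℝ) ≤ K := by
        rw [hK]
        exact_mod_cast Finset.card_le_univ G
      have h9 := mul_le_mul_of_nonneg_right h8 (by positivity : 0 ≤ C₁ * (ε₁ * B))
      have h10 := mul_le_mul_of_nonneg_right hε₁' hB0.le
      linarith
  have hcard := (Finset.card_le_card hsub).trans ((Finset.card_union_le _ _).trans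
    (Nat.add_le_add_left ((Finset.card_union_le _ _).trans (Nat.add_le_add_left
      ((Finset.card_union_le _ _).trans (Nat.add_le_add_left (Finset.card_union_le _ _) _)) _)) _))
  have hcard' : (((Msh F n).filter (fun f => ∃ k, ε < |prb J p f k - Cd k|)).card : ℝ) ≤
      (((Sb F n).filter (fun f => BadC f)).card : ℝ) +
      ((((Sb F n).filter (fun f => ∃ P : Pl F, D₁ < P.1.natDegree ∧ P.1 ^ 2 ∣ f.disc)).card : ℝ) +
      (((T.biUnion fun P => (Sb F n).filter (fun f => P.1 ∣ f.disc)).card : ℝ) +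
      ((((Sb F n).filter (fun f => (dirs p f).card < n₀ + 1)).card : ℝ) +
      ((G.biUnion fun g =>
        (box_s T D₀ n (box_t T g)).filter (fun f => ∃ k, ε < |prb J p f k - Cd k|)).card : ℝ)))) := by
    exact_mod_cast hcard
  linarith

end box_m

theorem t_box : S_fn → S_avD → S_tyB → S_bdr → S_cau → S_bal → S_box :=
  box_main t_badc (PP.t_csq PP.t_dloc)

end Pool.Agent.H456.PS
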