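import Pool.Agent.H456.PS.Stm
import Pool.Agent.H456.PR.T_fl1
import Pool.Agent.H456.PR.T_fl1

/-!
(f1) Adapt PR/T_fl1.lean (its lemmas `fl1_*` can be used). `D₁ = DJ (insert P' J) = P' A`, `D₂ = DJ (insert P J) = P A`, `A = DJ J`, `P ≠ P'` (`OneR`, `NoR`). For a place `Q`: (1) `Q = P`: `Rt P s`, so both `LS` hold (`fl1_rt`). (2) `Q = P'`: `S_nrt` (`NoR P' f`; `¬ P'² ∣ D₁, D₂`): if one of `LS P' (s.smul Dᵢ)` holds then `Rt P' s`, and then both hold (`fl1_rt`). (3) `Q ∈ J` or `deg Q ≤ D₀` (and `Q ≠ P, P'`): `SqM Q (P P')` and `Q ∤ P P'`: `ι (P P') = w²` with `w` a unit (`S_sqr`), so `ι D₁ · ι P² = ι D₂ · w²`... both `LS` are equivalent (`fl1_sol`). (4) `Q ∉ J`, `Q ≠ P, P'`, `D₀ < deg Q`: `¬ Q² ∣ f.disc`, `Q ∤ D₁ D₂`: both are equivalent to `LS Q s.1` (`fl1_unr`).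
(5) infinity: `P P'` is monic of degree `2 deg P`, even: `S_sqr` part two (as in `fl1_inf`).
-/

set_option autoImplicit false
set_option linter.all false

open Polynomial Finset Filter
open Pool.Agent.H456.EC (toK toK_inj sig toK_eq reflect_toK cls)
open Pool.Agent.H456.RN
open Pool.Agent.H456.BQ
open Pool.Agent.H456.Coh (TF)
open Pool.Agent.H456.PP (OneR NoR HasRt sx hh Tz Tq Iso3 nr IsoP nrP)
open Pool.Agent.H456.PR

namespace Pool.Agent.H456.PS

section f1a

variable {F : Type} [Field F] [Fintype F]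

/-- at a place where the factor is a square -/
theorem f1_sqr (hsq : S_sqr) (h2 : (2 : F) ≠ 0) {Q : Pl F} {u : F[X]} (hu : ¬ Q.1 ∣ u) (hS : SqM Q u) (D : F[X])
    (g : Q4 (RatFunc F)) : LS Q (g.smul (toK F D)) ↔ LS Q (g.smul (toK F (D * u))) := by
  have key : ∀ (O L : Type) [CommRing O] [IsDomain O] [Field L] [Algebra O L] [IsFractionRing O L] (π : O)
      (ι : F[X] →+* O), Lc4 Q.1 π ι → ∀ j : RatFunc F →+* L, (∀ x : F[X], j (toK F x) = algebraMap O L (ι x)) →
      (((g.smul (toK F D)).map j).Sol ↔ ((g.smul (toK F (D * u))).map j).Sol) := by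
    intro O L _ _ _ _ _ π ι hL j hj
    obtain ⟨w, hw, he⟩ := (hsq F h2).1 Q u hu hS O π ι hL
    have hw0 : algebraMap O L w ≠ 0 := (map_ne_zero_iff _ (IsFractionRing.injective O L)).2 hw.ne_zero
    have h3 : (g.smul (toK F (D * u))).map j = ((g.smul (toK F D)).map j).smul ((algebraMap O L w) ^ 2) := by
      rw [Q4.map_smul, Q4.map_smul, Q4.smul_smul, map_mul, map_mul, hj u, he, map_pow]
    rw [h3, fl1_sol hw0]
  constructor
  · intro h O L _ _ _ _ _ π ι hL j hj
    exact (key O L π ι hL j hj).1 (h O L π ι hL j hj)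
  · intro h O L _ _ _ _ _ π ι hL j hj
    exact (key O L π ι hL j hj).2 (h O L π ι hL j hj)

/-- twists by squares at a place -/
theorem f1_sq2 {Q : Pl F} {v : F[X]} (hv : v ≠ 0) (D : F[X])
    (g : Q4 (RatFunc F)) : LS Q (g.smul (toK F D)) ↔ LS Q (g.smul (toK F (D * v ^ 2))) := by
  have key : ∀ (O L : Type) [CommRing O] [IsDomain O] [Field L] [Algebra O L] [IsFractionRing O L] (π : O)
      (ι : F[X] →+* O), Lc4 Q.1 π ι → ∀ j : RatFunc F →+* L, (∀ x : F[X], j (toK F x) = algebraMap O L (ι x)) →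
      (((g.smul (toK F D)).map j).Sol ↔ ((g.smul (toK F (D * v ^ 2))).map j).Sol) := by
    intro O L _ _ _ _ _ π ι hL j hj
    have hw0 : j (toK F v) ≠ 0 := (map_ne_zero_iff _ j.injective).2 ((map_ne_zero_iff _ toK_inj).2 hv)
    have h3 : (g.smul (toK F (D * v ^ 2))).map j = ((g.smul (toK F D)).map j).smul ((j (toK F v)) ^ 2) := by
      rw [Q4.map_smul, Q4.map_smul, Q4.smul_smul, map_mul, map_mul, map_pow, map_pow]
    rw [h3, fl1_sol hw0]
  constructor
  · intro h O L _ _ _ _ _ π ι hL j hj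
    exact (key O L π ι hL j hj).1 (h O L π ι hL j hj)
  · intro h O L _ _ _ _ _ π ι hL j hj
    exact (key O L π ι hL j hj).2 (h O L π ι hL j hj)

/-- at infinity -/
theorem f1_inf (hsq : S_sqr) (h2 : (2 : F) ≠ 0) {u : F[X]} (hm : u.Monic) (hev : Even u.natDegree) (D : F[X])
    (g : Q4 (RatFunc F)) : LSI (g.smul (toK F D)) ↔ LSI (g.smul (toK F (D * u))) := by
  have key : ∀ (O L : Type) [CommRing O] [IsDomain O] [Field L] [Algebra O L] [IsFractionRing O L] (π : O)
      (ι : F[X] →+* O), Lc4 (X : F[X]) π ι → ∀ j : RatFunc F →+* L, (∀ x : F[X], j (toK F x) = algebraMap O L (ι x)) →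
      ((((g.smul (toK F D)).map (locI_tau F)).map j).Sol ↔
        (((g.smul (toK F (D * u))).map (locI_tau F)).map j).Sol) := by
    intro O L _ _ _ _ _ π ι hL j hj
    obtain ⟨w, hw0, he⟩ := (hsq F h2).2 u hm hev O L π ι hL j hj
    have h3 : ((g.smul (toK F (D * u))).map (locI_tau F)).map j =
        (((g.smul (toK F D)).map (locI_tau F)).map j).smul (w ^ 2) := by
      rw [Q4.map_smul, Q4.map_smul, Q4.map_smul, Q4.map_smul, Q4.smul_smul, map_mul, map_mul, map_mul, he]
    rw [h3, fl1_sol hw0]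
  constructor
  · intro h O L _ _ _ _ _ π ι hL j hj
    exact (key O L π ι hL j hj).1 (h O L π ι hL j hj)
  · intro h O L _ _ _ _ _ π ι hL j hj
    exact (key O L π ι hL j hj).2 (h O L π ι hL j hj)

/-- twists by squares at infinity -/
theorem f1_inf2 {v : F[X]} (hv : v ≠ 0) (D : F[X])
    (g : Q4 (RatFunc F)) : LSI (g.smul (toK F D)) ↔ LSI (g.smul (toK F (D * v ^ 2))) := by
  have key : ∀ (O L : Type) [CommRing O] [IsDomain O] [Field L] [Algebra O L] [IsFractionRing O L] (π : O)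
      (ι : F[X] →+* O), Lc4 (X : F[X]) π ι → ∀ j : RatFunc F →+* L, (∀ x : F[X], j (toK F x) = algebraMap O L (ι x)) →
      ((((g.smul (toK F D)).map (locI_tau F)).map j).Sol ↔
        (((g.smul (toK F (D * v ^ 2))).map (locI_tau F)).map j).Sol) := by
    intro O L _ _ _ _ _ π ι hL j hj
    have hw0 : j (locI_tau F (toK F v)) ≠ 0 := (map_ne_zero_iff _ j.injective).2
      ((map_ne_zero_iff _ (locI_tau F).injective).2 ((map_ne_zero_iff _ toK_inj).2 hv))
    have h3 : ((g.smul (toK F (D * v ^ 2))).map (locI_tau F)).map j =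
        (((g.smul (toK F D)).map (locI_tau F)).map j).smul ((j (locI_tau F (toK F v))) ^ 2) := by
      rw [Q4.map_smul, Q4.map_smul, Q4.map_smul, Q4.map_smul, Q4.smul_smul, map_mul, map_mul, map_mul,
        map_pow, map_pow, map_pow]
    rw [h3, fl1_sol hw0]
  constructor
  · intro h O L _ _ _ _ _ π ι hL j hj
    exact (key O L π ι hL j hj).1 (h O L π ι hL j hj)
  · intro h O L _ _ _ _ _ π ι hL j hj
    exact (key O L π ι hL j hj).2 (h O L π ι hL j hj)

end f1a

theorem t_f1 : S_sqr → S_nrt → S_f1 := by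
  classical
  intro hsq hnrt F _ _ h2 D₀ J P P' f hF s hs hR
  have hf0 : f.disc ≠ 0 := fun h => hF.sqf P hF.big (h ▸ dvd_zero _)
  have e1 : DJ (insert P' J) = P'.1 * DJ J := Finset.prod_insert hF.nP'
  have e2 : DJ (insert P J) = P.1 * DJ J := Finset.prod_insert hF.nP
  have hD1 : DJ (insert P' J) ≠ 0 := fl1_DJ0 _
  have hD2 : DJ (insert P J) ≠ 0 := fl1_DJ0 _
  have hrel : DJ (insert P' J) * (P.1 * P'.1) = DJ (insert P J) * P'.1 ^ 2 := by
    rw [e1, e2]
    ring
  have hP'0 : P'.1 ≠ 0 := P'.2.2.ne_zero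
  have hmon : (P.1 * P'.1).Monic := P.2.1.mul P'.2.1
  have hev : Even (P.1 * P'.1).natDegree := by
    rw [Monic.natDegree_mul P.2.1 P'.2.1, hF.deg]
    exact ⟨_, rfl⟩
  have hinf : LSI (s.1.smul (toK F (DJ (insert P' J)))) ↔ LSI (s.1.smul (toK F (DJ (insert P J)))) := by
    rw [f1_inf hsq h2 hmon hev (DJ (insert P' J)) s.1, hrel, ← f1_inf2 hP'0]
  have hfin : ∀ Q : Pl F, LS Q (s.1.smul (toK F (DJ (insert P' J)))) ↔
      LS Q (s.1.smul (toK F (DJ (insert P J)))) := by
    intro Q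
    by_cases hQP : Q = P
    · subst hQP
      exact ⟨fun _ => fl1_rt h2 hf0 hD2 hs hR, fun _ => fl1_rt h2 hf0 hD1 hs hR⟩
    · by_cases hQP' : Q = P'
      · subst hQP'
        have n1 : ¬ Q.1 ^ 2 ∣ DJ (insert Q J) := by
          rw [e1, pow_two]
          intro h
          exact fl1_DJ hF.nP' ((mul_dvd_mul_iff_left hP'0).1 h)
        have n2 : ¬ Q.1 ^ 2 ∣ DJ (insert P J) := by
          rw [e2]
          intro h
          have h' : Q.1 ∣ P.1 * DJ J := (dvd_pow_self _ two_ne_zero).trans h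
          rcases Q.2.2.prime.dvd_or_dvd h' with h' | h'
          · exact fl1_ndvd hQP h'
          · exact fl1_DJ hF.nP' h'
        constructor
        · intro h
          exact fl1_rt h2 hf0 hD2 hs (hnrt F h2 Q f hF.no _ n1 s hs h)
        · intro h
          exact fl1_rt h2 hf0 hD1 hs (hnrt F h2 Q f hF.no _ n2 s hs h)
      · have hnd : ¬ Q.1 ∣ P.1 * P'.1 := by
          intro h
          rcases Q.2.2.prime.dvd_or_dvd h with h | h
          · exact fl1_ndvd hQP h
          · exact fl1_ndvd hQP' h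
        have hsqc : SqM Q (P.1 * P'.1) → (LS Q (s.1.smul (toK F (DJ (insert P' J)))) ↔
            LS Q (s.1.smul (toK F (DJ (insert P J))))) := by
          intro hS
          rw [f1_sqr hsq h2 hnd hS (DJ (insert P' J)) s.1, hrel, ← f1_sq2 hP'0]
        by_cases hQJ : Q ∈ J
        · exact hsqc (hF.sqJ Q hQJ)
        · by_cases hQd : Q.1.natDegree ≤ D₀
          · exact hsqc (hF.small Q hQd)
          · have hQ2 : ¬ Q.1 ^ 2 ∣ f.disc := hF.sqf Q (by omega)
            have n1 : ¬ Q.1 ∣ DJ (insert P' J) := fl1_DJ (by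
              rw [Finset.mem_insert]
              push Not
              exact ⟨hQP', hQJ⟩)
            have n2 : ¬ Q.1 ∣ DJ (insert P J) := fl1_DJ (by
              rw [Finset.mem_insert]
              push Not
              exact ⟨hQP, hQJ⟩)
            rw [fl1_unr h2 hQ2 n1 hs, fl1_unr h2 hQ2 n2 hs]
  exact and_congr (forall_congr' hfin) hinf

end Pool.Agent.H456.PS
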