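import Pool.Agent.H456.PS.Stm
import Pool.Agent.H456.PR.T_fl2

/-!
(f2) Adapt PR/T_fl2.lean (its lemmas `fl2_*` can be used). `D₁ = DJ (insert P' J)`, `D₂ = DJ (insert P J)`, `P ≠ P'`. `q = Tq fK s₁ s₂` for equivalent pairs with `sx ≠ 0`. `IsoP Q q` for `Q ≠ P`: (1) `Q = P'`: by `S_nrt` `Rt P' s₁` and `Rt P' s₂` (`LS P' (sᵢ.smul Dᵢ)`), so both are soluble (roots give points), `a_T1` with `D = 1`. (2) `Q ∈ J` or `deg Q ≤ D₀`, `Q ≠ P'`: `ι (P P') = w²`, `w` a unit (`S_sqr`; `Q ∤ P P'`), so `(s₂.smul D₂)` soluble gives `(s₂.smul D₁)` soluble over the model (`D₂ · P P' = P² · D₁`), `a_T1` with `D = j D₁`. (3) `Q ∉ J`, `Q ≠ P, P'`, `D₀ < deg Q`: `a_unr` for both, `a_T1` with `D = 1`. (4) infinity: `S_sqr` part two for `P P'`. By `S_rcg` `q` is isotropic. At `P`: `P ∤ D₁`, `¬ P² ∣ f.disc` (`OneR`), so `a_unr` gives `LS P s₁.1`: `s₁.map` is soluble; `P ∣ D₂`, `¬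 P² ∣ D₂`; `a_T3` as in `fl2_last`.
-/

set_option autoImplicit false
set_option linter.all false

open Polynomial Finset Filter
open Pool.Agent.H456.EC (toK toK_inj sig toK_eq reflect_toK cls)
open Pool.Agent.H456.RN
open Pool.Agent.H456.BQ
open Pool.Agent.H456.Coh (TF)
open Pool.Agent.H456.PP (OneR NoR HasRt sx hh Tz Tq Iso3 nr IsoP nrP)
open Pool.Agent.H456.PR

namespace Pool.Agent.H456.PS

section

variable {F : Type} [Field F]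

theorem f2_Sol_of_HasRt {L : Type} [Field L] {g : Q4 L} (h : HasRt g) : g.Sol := by
  obtain ⟨u, v, huv, h0⟩ := h
  exact ⟨u, v, 0, huv, by rw [h0]; ring⟩

theorem f2_ne {P P' : Pl F} {f : Cub F[X]} (h : OneR P.1 f) (h' : NoR P'.1 f) : P ≠ P' := by
  rintro rfl
  obtain ⟨r, hr⟩ := h.2.1
  exact h'.2 r hr

open Classical in
theorem f2_DJ_insert {P : Pl F} {J : Finset (Pl F)} (h : P ∉ J) : DJ (insert P J) = P.1 * DJ J := by
  unfold DJ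
  exact Finset.prod_insert h

open Classical in
theorem f2_ndvd {P Q : Pl F} {J : Finset (Pl F)} (h : Q ∉ J) (hPQ : Q ≠ P) : ¬ Q.1 ∣ DJ (insert P J) := by
  intro hd
  have h1 := fl2_dvd_DJ hd
  rcases Finset.mem_insert.1 h1 with h1 | h1
  · exact hPQ h1
  · exact h h1

open Classical in
theorem f2_nsq {P Q : Pl F} {J : Finset (Pl F)} (hP : P ∉ J) (h : Q ∉ J) :
    ¬ Q.1 ^ 2 ∣ DJ (insert P J) := by
  intro hd
  by_cases hPQ : Q = P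
  · subst hPQ
    rw [f2_DJ_insert hP, pow_two] at hd
    exact h (fl2_dvd_DJ ((mul_dvd_mul_iff_left Q.2.2.ne_zero).1 hd))
  · exact f2_ndvd h hPQ ((dvd_pow_self Q.1 two_ne_zero).trans hd)

/-- solubility for `D₁` from solubility for `D₂`, if `D₂ * u = v ^ 2 * D₁` with `u` a square -/
theorem f2_sol {L : Type} [Field L] {g : Q4 L} {D₁ D₂ u v w : L} (hu : u = w ^ 2) (hw : w ≠ 0) (hv : v ≠ 0)
    (e : D₂ * u = v ^ 2 * D₁) (h : (g.smul D₂).Sol) : (g.smul D₁).Sol := by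
  have hvw : v / w ≠ 0 := div_ne_zero hv hw
  refine fl2_sol_sq hvw ?_
  have e2 : D₁ * (v / w) ^ 2 = D₂ := by
    rw [hu] at e
    field_simp
    linear_combination -e
  rw [e2]
  exact h

variable [Fintype F]

open Classical in
theorem f2_fin (hsqr : S_sqr) (hnrt : S_nrt) (h2 : (2 : F) ≠ 0) {D₀ : ℕ} {J : Finset (Pl F)} {P P' : Pl F}
    {f : Cub F[X]} (hC : Flp D₀ J P P' f)
    {s₁ s₂ : Q4 (RatFunc F) × RatFunc F} (hK : (f.map (toK F)).disc ≠ 0)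
    (r₁ : s₁.1.res = ((f.map (toK F)).sc 4).tr s₁.2) (r₂ : s₂.1.res = ((f.map (toK F)).sc 4).tr s₂.2)
    (x₁ : sx s₁.1 ≠ 0) (x₂ : sx s₂.1 ≠ 0) (d₁ : IsD (DJ (insert P' J)) s₁) (d₂ : IsD (DJ (insert P J)) s₂)
    {Q : Pl F} (hQ : Q ≠ P) : IsoP Q (Tq (f.map (toK F)) s₁ s₂) := by
  by_cases hQ' : Q = P'
  · subst hQ'
    have t₁ := hnrt F h2 Q f hC.no _ (f2_nsq hC.nP' hC.nP') s₁ r₁ (d₁.1 Q)
    have t₂ := hnrt F h2 Q f hC.no _ (f2_nsq hC.nP hC.nP') s₂ r₂ (d₂.1 Q)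
    refine ⟨(plv Q).adicCompletionIntegers (RatFunc F), (plv Q).adicCompletion (RatFunc F), inferInstance,
      inferInstance, inferInstance, inferInstance, inferInstance, _, _,
      algebraMap (RatFunc F) ((plv Q).adicCompletion (RatFunc F)), t_mcomp F Q, fun x => rfl, ?_⟩
    refine fl2_iso h2 (t_mcomp F Q) (algebraMap (RatFunc F) ((plv Q).adicCompletion (RatFunc F))) hK r₁ r₂ x₁ x₂
      (D := 1) one_ne_zero ?_ ?_
    · rw [Q4.smul_one]; exact f2_Sol_of_HasRt t₁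
    · rw [Q4.smul_one]; exact f2_Sol_of_HasRt t₂
  have hQP : ¬ Q.1 ∣ P.1 := fun h => hQ (fl2_dvd_Pl h)
  have hQP' : ¬ Q.1 ∣ P'.1 := fun h => hQ' (fl2_dvd_Pl h)
  obtain ⟨O, L, i1, i2, i3, i4, i5, π, ι, j, hL, hj⟩ := fl2_model Q
  refine ⟨O, L, i1, i2, i3, i4, i5, π, ι, j, hL, hj, ?_⟩
  by_cases hc : Q ∈ J ∨ Q.1.natDegree ≤ D₀
  · have hSq : SqM Q (P.1 * P'.1) := by
      rcases hc with hc | hc
      · exact hC.sqJ Q hc
      · exact hC.small Q hc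
    have hQPP : ¬ Q.1 ∣ P.1 * P'.1 := fun h => (Q.2.2.prime.dvd_or_dvd h).elim hQP hQP'
    obtain ⟨w, hw, hwP⟩ := (hsqr F h2).1 Q (P.1 * P'.1) hQPP hSq O π ι hL
    have hw0 : algebraMap O L w ≠ 0 := (map_ne_zero_iff _ (IsFractionRing.injective O L)).2 hw.ne_zero
    refine fl2_iso h2 hL j hK r₁ r₂ x₁ x₂ (D := j (toK F (DJ (insert P' J)))) ?_ ?_ ?_
    · exact (map_ne_zero_iff _ j.injective).2 ((map_ne_zero_iff _ toK_inj).2 (fl2_DJ_ne _))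
    · have h := d₁.1 Q O L π ι hL j hj
      rwa [Q4.map_smul] at h
    · have h := d₂.1 Q O L π ι hL j hj
      rw [Q4.map_smul] at h
      refine f2_sol (u := j (toK F (P.1 * P'.1))) (v := j (toK F P.1)) (w := algebraMap O L w) ?_ hw0 ?_ ?_ h
      · rw [hj, hwP, map_pow]
      · exact (map_ne_zero_iff _ j.injective).2 ((map_ne_zero_iff _ toK_inj).2 P.2.2.ne_zero)
      · rw [← map_pow, ← map_pow, ← map_mul, ← map_mul, ← map_mul, ← map_mul]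
        congr 2
        rw [f2_DJ_insert hC.nP, f2_DJ_insert hC.nP']
        ring
  · push Not at hc
    have hsq := hC.sqf Q hc.2
    have hD : ¬ Q.1 ∣ DJ (insert P' J) := f2_ndvd hc.1 hQ'
    have hDP : ¬ Q.1 ∣ DJ (insert P J) := f2_ndvd hc.1 hQ
    have l₁ := Pool.Agent.H456.PP.a_unr F h2 Q f hsq _ hD s₁ r₁ (d₁.1 Q)
    have l₂ := Pool.Agent.H456.PP.a_unr F h2 Q f hsq _ hDP s₂ r₂ (d₂.1 Q)
    refine fl2_iso h2 hL j hK r₁ r₂ x₁ x₂ (D := 1) one_ne_zero ?_ ?_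
    · rw [Q4.smul_one]; exact l₁ O L π ι hL j hj
    · rw [Q4.smul_one]; exact l₂ O L π ι hL j hj

open Classical in
theorem f2_inf (hsqr : S_sqr) (h2 : (2 : F) ≠ 0) {D₀ : ℕ} {J : Finset (Pl F)} {P P' : Pl F}
    {f : Cub F[X]} (hC : Flp D₀ J P P' f)
    {s₁ s₂ : Q4 (RatFunc F) × RatFunc F} (hK : (f.map (toK F)).disc ≠ 0)
    (r₁ : s₁.1.res = ((f.map (toK F)).sc 4).tr s₁.2) (r₂ : s₂.1.res = ((f.map (toK F)).sc 4).tr s₂.2)
    (x₁ : sx s₁.1 ≠ 0) (x₂ : sx s₂.1 ≠ 0) (d₁ : IsD (DJ (insert P' J)) s₁) (d₂ : IsD (DJ (insert P J)) s₂) :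
    IsoP (PlX F) ((Tq (f.map (toK F)) s₁ s₂).map (locI_tau F)) := by
  obtain ⟨O, L, i1, i2, i3, i4, i5, π, ι, j, hL, hj⟩ := fl2_model (PlX F)
  refine ⟨O, L, i1, i2, i3, i4, i5, π, ι, j, hL, hj, ?_⟩
  have hmon : (P.1 * P'.1).Monic := P.2.1.mul P'.2.1
  have heven : Even (P.1 * P'.1).natDegree := by
    rw [natDegree_mul P.2.2.ne_zero P'.2.2.ne_zero, hC.deg]
    exact ⟨_, rfl⟩
  obtain ⟨w, hw0, hw⟩ := (hsqr F h2).2 (P.1 * P'.1) hmon heven O L π ι hL j hj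
  have e : ((Tq (f.map (toK F)) s₁ s₂).map (locI_tau F)).map j =
      (Tq (f.map (toK F)) s₁ s₂).map (j.comp (locI_tau F)) := rfl
  rw [e]
  have eQ : ∀ g : Q4 (RatFunc F), (g.map (locI_tau F)).map j = g.map (j.comp (locI_tau F)) := fun g => rfl
  refine fl2_iso h2 hL (j.comp (locI_tau F)) hK r₁ r₂ x₁ x₂
    (D := (j.comp (locI_tau F)) (toK F (DJ (insert P' J)))) ?_ ?_ ?_
  · exact (map_ne_zero_iff _ (RingHom.injective _)).2 ((map_ne_zero_iff _ toK_inj).2 (fl2_DJ_ne _))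
  · have h := d₁.2 O L π ι hL j hj
    rwa [eQ, Q4.map_smul] at h
  · have h := d₂.2 O L π ι hL j hj
    rw [eQ, Q4.map_smul] at h
    have hw' : (j.comp (locI_tau F)) (toK F (P.1 * P'.1)) = w ^ 2 := hw
    refine f2_sol (u := (j.comp (locI_tau F)) (toK F (P.1 * P'.1))) (v := (j.comp (locI_tau F)) (toK F P.1))
      hw' hw0 ?_ ?_ h
    · exact (map_ne_zero_iff _ (RingHom.injective _)).2 ((map_ne_zero_iff _ toK_inj).2 P.2.2.ne_zero)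
    · rw [← map_pow, ← map_pow, ← map_mul, ← map_mul, ← map_mul, ← map_mul]
      congr 2
      rw [f2_DJ_insert hC.nP, f2_DJ_insert hC.nP']
      ring

open Classical in
theorem f2_last (h2 : (2 : F) ≠ 0) {D₀ : ℕ} {J : Finset (Pl F)} {P P' : Pl F}
    {f : Cub F[X]} (hC : Flp D₀ J P P' f) {O L : Type} [CommRing O] [IsDomain O] [Field L] [Algebra O L]
    [IsFractionRing O L] {π : O}
    {ι : F[X] →+* O} (hL : Lc4 P.1 π ι) (j : RatFunc F →+* L) (hj : ∀ x : F[X], j (toK F x) = algebraMap O L (ι x))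
    {s₁ s₂ : Q4 (RatFunc F) × RatFunc F} (r₁ : s₁.1.res = ((f.map (toK F)).sc 4).tr s₁.2)
    (r₂ : s₂.1.res = ((f.map (toK F)).sc 4).tr s₂.2) (x₁ : sx s₁.1 ≠ 0) (x₂ : sx s₂.1 ≠ 0)
    (d₁ : IsD (DJ (insert P' J)) s₁) (d₂ : IsD (DJ (insert P J)) s₂) (n₁ : ¬ HasRt (s₁.1.map j))
    (n₂ : ¬ HasRt (s₂.1.map j)) :
    ¬ Iso3 ((Tq (f.map (toK F)) s₁ s₂).map j) := by
  have hfj : (f.map (toK F)).map j = (f.map ι).map (algebraMap O L) := by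
    ext <;> simp only [Cub.map, hj]
  rw [fl2_Tq_map, hfj]
  have hPP' : P ≠ P' := f2_ne hC.one hC.no
  have hPD : ¬ P.1 ∣ DJ (insert P' J) := f2_ndvd hC.nP hPP'
  have hsq : ¬ P.1 ^ 2 ∣ f.disc := fun h => hC.one.1 ((dvd_pow_self P.1 two_ne_zero).trans h)
  have l₁ := Pool.Agent.H456.PP.a_unr F h2 P f hsq _ hPD s₁ r₁ (d₁.1 P)
  have k₁ : (s₁.1.map j).Sol := l₁ O L π ι hL j hj
  have k₂ : ((s₂.1.map j).smul (algebraMap O L (ι (DJ (insert P J))))).Sol := by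
    have h := d₂.1 P O L π ι hL j hj
    rwa [Q4.map_smul, hj] at h
  have hd1 : π ∣ ι (DJ (insert P J)) := by
    have h := (hL.dvd 1 (DJ (insert P J))).2 (by
      rw [pow_one, f2_DJ_insert hC.nP]; exact dvd_mul_right _ _)
    rwa [pow_one] at h
  have hd2 : ¬ π ^ 2 ∣ ι (DJ (insert P J)) := by
    intro h
    exact f2_nsq hC.nP hC.nP ((hL.dvd 2 (DJ (insert P J))).1 h)
  refine Pool.Agent.H456.PP.a_T3 F h2 P O L π ι hL (f.map ι) (fl2_OneR hL.toLc hC.one) (s₁.1.map j, j s₁.2)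
    (s₂.1.map j, j s₂.2) ?_ ?_ ?_ ?_ k₁ n₁ (ι (DJ (insert P J))) hd1 hd2 k₂ n₂
  · show (s₁.1.map j).res = (((f.map ι).map (algebraMap O L)).sc 4).tr (j s₁.2)
    rw [Q4.map_res, r₁, Cub.map_tr, Cub.map_sc, map_ofNat, hfj]
  · show (s₂.1.map j).res = (((f.map ι).map (algebraMap O L)).sc 4).tr (j s₂.2)
    rw [Q4.map_res, r₂, Cub.map_tr, Cub.map_sc, map_ofNat, hfj]
  · show sx (s₁.1.map j) ≠ 0
    rw [fl2_sx_map]; exact (map_ne_zero_iff _ j.injective).2 x₁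
  · show sx (s₂.1.map j) ≠ 0
    rw [fl2_sx_map]; exact (map_ne_zero_iff _ j.injective).2 x₂

end

theorem t_f2 : S_sqr → S_sxn → S_rcg → S_nrt → S_f2 := by
  intro hsqr hsxn hrcg hnrt F _ _ h2 D₀ J P P' f hC s₁ s₂ r₁ r₂ d₁ n₁ d₂ n₂
  have hdisc : f.disc ≠ 0 := fun h => hC.one.1 (h ▸ dvd_zero _)
  have hK : (f.map (toK F)).disc ≠ 0 := disc_ne hdisc
  have h2K : (2 : RatFunc F) ≠ 0 := two_ne h2
  obtain ⟨M₁, s₁', p₁, x₁⟩ := hsxn (RatFunc F) h2K (f.map (toK F)) hK s₁ r₁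
  obtain ⟨M₂, s₂', p₂, x₂⟩ := hsxn (RatFunc F) h2K (f.map (toK F)) hK s₂ r₂
  have r₁' := p₁.res r₁
  have r₂' := p₂.res r₂
  have d₁' := fl2_IsD p₁ d₁
  have d₂' := fl2_IsD p₂ d₂
  have n₁' : ¬ Rt P s₁' := fun h => n₁ (fl2_Rt p₁ h)
  have n₂' : ¬ Rt P s₂' := fun h => n₂ (fl2_Rt p₂ h)
  have hq : Iso3 (Tq (f.map (toK F)) s₁' s₂') := by
    apply hrcg F h2 P
    · intro Q hQ
      exact f2_fin hsqr hnrt h2 hC hK r₁' r₂' x₁ x₂ d₁' d₂' hQ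
    · exact f2_inf hsqr h2 hC hK r₁' r₂' x₁ x₂ d₁' d₂'
  exact f2_last h2 hC (t_mcomp F P)
    (algebraMap (RatFunc F) ((plv P).adicCompletion (RatFunc F))) (fun x => rfl) r₁' r₂' x₁ x₂ d₁' d₂' n₁' n₂'
    (fl2_Iso3_map _ hq)

end Pool.Agent.H456.PS
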