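import Pool.Agent.H456.PS.Stm
import Pool.Agent.H456.PR.T_fln

/-!
(fn) Adapt PR/T_fln.lean (its lemmas can be used): the twists by `D₁ = DJ (insert P' J)` (prime to `P`) and `D₂ = DJ (insert P J)` (exactly divisible by `P`) instead of `DJ J` and `DJ (insert P J)`; `S_fl1`, `S_fl2` are replaced by `S_f1`, `S_f2`, the hypotheses `Cfg`, `GoodF` by `Flp` and `¬ BadC f`. `P ≠ P'` because of `OneR` and `NoR`. `f.disc ≠ 0` from `OneR`.
-/

set_option autoImplicit false
set_option linter.all false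

open Polynomial Finset Filter
open Pool.Agent.H456.EC (toK toK_inj sig toK_eq reflect_toK cls)
open Pool.Agent.H456.RN
open Pool.Agent.H456.BQ
open Pool.Agent.H456.Coh (TF)
open Pool.Agent.H456.PP (OneR NoR HasRt sx hh Tz Tq Iso3 nr IsoP nrP)
open Pool.Agent.H456.PR

namespace Pool.Agent.H456.PS

theorem t_fn : S_f1 → S_f2 → S_lu → S_grp → S_pw2 → S_fn := by
  classical
  intro hf1 hf2 hlu hgrp hpw2 F _ _ h2 D₀ J P P' f hF hB
  have h1 := hF.one
  have hdf : f.disc ≠ 0 := by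
    intro h0
    apply h1.1
    rw [h0]
    exact dvd_zero _
  have hPP : P ≠ P' := by
    intro h0
    obtain ⟨r, hr⟩ := h1.2.1
    have h3 := hF.no
    rw [← h0] at h3
    exact h3.2 r hr
  have hfin : ∀ D : F[X], D ≠ 0 → Finite (Sel ((f.sc D).map (toK F))) := by
    intro D hD
    apply finite_Sel hypU_all h2
    rw [Cub.disc_sc]
    exact mul_ne_zero (pow_ne_zero _ hD) hdf
  have hdK : ∀ D : F[X], D ≠ 0 → ((f.sc D).map (toK F)).disc ≠ 0 := by
    intro D hD
    apply disc_ne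
    rw [Cub.disc_sc]
    exact mul_ne_zero (pow_ne_zero _ hD) hdf
  have hD := fln_DJ_ne (insert P' J)
  have hD' := fln_DJ_ne (insert P J)
  have F1 := hfin _ hD
  have F2 := hfin _ hD'
  have hiff := hf1 F h2 D₀ J P P' f hF
  have hfl2 := hf2 F h2 D₀ J P P' f hF
  have hndvd : ¬ P.1 ∣ DJ (insert P' J) := by
    apply fln_dvd
    rw [mem_insert, not_or]
    exact ⟨hPP, hF.nP⟩
  have hndJ : ¬ P.1 ∣ DJ J := fln_dvd hF.nP
  have n1 : ¬ P.1 ^ 2 ∣ DJ (insert P' J) := fun h => hndvd ((dvd_pow_self _ two_ne_zero).trans h)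
  have n2 : ¬ P.1 ^ 2 ∣ DJ (insert P J) := by
    have hDP : DJ (insert P J) = DJ J * P.1 := by
      unfold DJ
      rw [prod_insert hF.nP, mul_comm]
    intro h
    rw [hDP, pow_two] at h
    exact hndJ ((mul_dvd_mul_iff_right P.2.2.ne_zero).1 h)
  generalize DJ (insert P' J) = D₁ at *
  generalize DJ (insert P J) = D₂ at *
  have key : ∀ T' : Finset (Pl F), P ∈ T' → NT T' (f.sc D₁) = NT T' (f.sc D₂) := by
    intro T' hT'
    apply le_antisymm
    · apply fln_le hD hD'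
      intro s hs hI hr
      exact ⟨(hiff s hs (hr P hT')).1 hI, hr⟩
    · apply fln_le hD' hD
      intro s hs hI hr
      exact ⟨(hiff s hs (hr P hT')).2 hI, hr⟩
  have g1 : NT ∅ (f.sc D₁) ≤ 2 * NT {P} (f.sc D₁) := by
    rw [fln_empty, ← fln_single]
    exact hgrp F h2 P _ (hdK _ hD) F1 (fln_uniq hlu h2 h1 n1)
  have g2 : NT ∅ (f.sc D₂) ≤ 2 * NT {P} (f.sc D₁) := by
    rw [key {P} (mem_singleton_self P), fln_empty, ← fln_single]
    exact hgrp F h2 P _ (hdK _ hD') F2 (fln_uniq hlu h2 h1 n2)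
  have w1 : ∃ k : ℕ, NT ∅ (f.sc D₁) = 2 ^ k := by
    rw [fln_empty]
    exact hpw2 F h2 _ (hdK _ hD) F1
  have w2 : ∃ k : ℕ, NT ∅ (f.sc D₂) = 2 ^ k := by
    rw [fln_empty]
    exact hpw2 F h2 _ (hdK _ hD') F2
  refine ⟨F1, F2, w1, w2, ?_, g1, g2, key⟩
  by_cases hex : ∃ s : Q4 (RatFunc F) × RatFunc F, s.1.res = ((f.map (toK F)).sc 4).tr s.2 ∧ IsD D₁ s ∧ ¬ Rt P s
  · obtain ⟨s₁, a1, a2, a3⟩ := hex
    have g3 : NT ∅ (f.sc D₂) ≤ NT {P} (f.sc D₁) := by
      apply fln_le hD' hD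
      intro s hs hI _
      have hr : Rt P s := by
        by_contra hr
        exact hfl2 s₁ s a1 hs a2 a3 hI hr
      refine ⟨(hiff s hs hr).2 hI, ?_⟩
      intro Q hQ
      rw [mem_singleton.1 hQ]
      exact hr
    omega
  · push Not at hex
    have g3 : NT ∅ (f.sc D₁) ≤ NT {P} (f.sc D₁) := by
      apply fln_le hD hD
      intro s hs hI _
      refine ⟨hI, ?_⟩
      intro Q hQ
      rw [mem_singleton.1 hQ]
      exact hex s hs hI
    omega

end Pool.Agent.H456.PS
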