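import Pool.Agent.H456.PS.Stm

/-!
(grd) Take a maximal (for the cardinality) finite set `I` of boxes with the three properties (distinct entries, monochromatic, pairwise disjoint vertex sets; `#I · 2^m ≤ ∏ #V_i` bounds it). `U` = the complement of the set of the vertices; the number of the vertices is `#I 2^m` (injectivity from disjointness and `x i true ≠ x i false`). If `#U > ε ∏ #V_i`, some colour class of `U` has at least `#U/#C ≥ (ε/#C) ∏ #V_i` elements (pigeonhole: `Finset.exists_le_card_fiber_of_...` or sum over the colours), `S_kst` with `δ = ε/#C` (`2/δ = 2 #C/ε`; `#C > 0` as there is an element) gives a box in it, disjoint from the others: contradiction to maximality. So `#U ≤ ε ∏`, i.e. `(1-ε) ∏ ≤ #I 2^m`.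
-/

set_option autoImplicit false
set_option linter.all false

open Polynomial Finset Filter
open Pool.Agent.H456.EC (toK toK_inj sig toK_eq reflect_toK cls)
open Pool.Agent.H456.RN
open Pool.Agent.H456.BQ
open Pool.Agent.H456.Coh (TF)
open Pool.Agent.H456.PP (OneR NoR HasRt sx hh Tz Tq Iso3 nr IsoP nrP)
open Pool.Agent.H456.PR

namespace Pool.Agent.H456.PS

/-- the three properties of the families of boxes -/
def grd_P {m : ℕ} {V : Fin m → Type} {C : Type} (c : (∀ i, V i) → C)
    (I : Finset (∀ i, Bool → V i)) : Prop :=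
  (∀ x ∈ I, ∀ i, x i true ≠ x i false) ∧
    (∀ x ∈ I, ∀ b b' : Fin m → Bool, c (fun i => x i (b i)) = c (fun i => x i (b' i))) ∧
    (∀ x ∈ I, ∀ y ∈ I, ∀ b b' : Fin m → Bool, (fun i => x i (b i)) = (fun i => y i (b' i)) →
      x = y ∧ b = b')

theorem grd_bool {V : Type} {f : Bool → V} (h : f true ≠ f false) {b b' : Bool}
    (e : f b = f b') : b = b' := by
  cases b <;> cases b'
  · rfl
  · exact absurd e.symm h
  · exact absurd e h
  · rfl

theorem t_grd : S_kst → S_grd := by
  classical
  intro hkst m V _ C _ c ε hε hV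
  -- a maximal family
  obtain ⟨I, hI, hmax⟩ := Finset.exists_max_image
    ((Finset.univ : Finset (Finset (∀ i, Bool → V i))).filter (grd_P c)) Finset.card
    ⟨∅, by
      rw [Finset.mem_filter]
      refine ⟨Finset.mem_univ _, ?_, ?_, ?_⟩
      · intro x hx
        exact absurd hx (Finset.notMem_empty x)
      · intro x hx
        exact absurd hx (Finset.notMem_empty x)
      · intro x hx
        exact absurd hx (Finset.notMem_empty x)⟩
  rw [Finset.mem_filter] at hI
  obtain ⟨-, hI1, hI2, hI3⟩ := hI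
  refine ⟨I, hI1, hI2, hI3, ?_⟩
  by_contra hcon
  rw [not_le] at hcon
  -- the vertices
  obtain ⟨vx, hvx⟩ : ∃ vx : (∀ i, Bool → V i) × (Fin m → Bool) → (∀ i, V i),
      ∀ p, vx p = fun i => p.1 i (p.2 i) := ⟨fun p i => p.1 i (p.2 i), fun p => rfl⟩
  obtain ⟨W, hW⟩ : ∃ W : Finset (∀ i, V i),
      W = (I ×ˢ (Finset.univ : Finset (Fin m → Bool))).image vx := ⟨_, rfl⟩
  have hWc : W.card = I.card * 2 ^ m := by
    rw [hW, Finset.card_image_of_injOn, Finset.card_product, Finset.card_univ, Fintype.card_fun,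
      Fintype.card_bool, Fintype.card_fin]
    rintro ⟨x, b⟩ hx ⟨y, b'⟩ hy hxy
    have hx' : x ∈ I := (Finset.mem_product.1 (Finset.mem_coe.1 hx)).1
    have hy' : y ∈ I := (Finset.mem_product.1 (Finset.mem_coe.1 hy)).1
    rw [hvx, hvx] at hxy
    obtain ⟨h1, h2⟩ := hI3 x hx' y hy' b b' hxy
    rw [h1, h2]
  have hWm : ∀ x ∈ I, ∀ b : Fin m → Bool, (fun i => x i (b i)) ∈ W := by
    intro x hx b
    rw [hW, Finset.mem_image]
    exact ⟨(x, b), Finset.mem_product.2 ⟨hx, Finset.mem_univ _⟩, hvx _⟩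
  have hprod : (∏ i, (Fintype.card (V i) : ℝ)) = (Fintype.card (∀ i, V i) : ℝ) := by
    rw [Fintype.card_pi]
    push_cast
    rfl
  have hU : ε * ∏ i, (Fintype.card (V i) : ℝ) < (Wᶜ.card : ℝ) := by
    have h1 : ((Wᶜ.card : ℕ) : ℝ) + (W.card : ℝ) = (Fintype.card (∀ i, V i) : ℝ) := by
      rw [← Finset.card_compl_add_card W]
      push_cast
      rfl
    have h2 : (W.card : ℝ) = I.card * 2 ^ m := by
      rw [hWc]
      push_cast
      rfl
    rw [← hprod, h2] at h1
    linarith
  have hpos : 0 ≤ ∏ i, (Fintype.card (V i) : ℝ) :=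
    Finset.prod_nonneg fun i _ => Nat.cast_nonneg _
  -- a dense colour class
  have hCne : (Fintype.card C : ℝ) ≠ 0 := by
    intro h0
    have h1 : Fintype.card C = 0 := by exact_mod_cast h0
    have h2 : IsEmpty C := Fintype.card_eq_zero_iff.1 h1
    have h3 : 0 < (Wᶜ.card : ℝ) := lt_of_le_of_lt (mul_nonneg hε.le hpos) hU
    have h4 : 0 < Wᶜ.card := by exact_mod_cast h3
    obtain ⟨v, -⟩ := Finset.card_pos.1 h4
    exact h2.false (c v)
  have hCpos : 0 < (Fintype.card C : ℝ) := lt_of_le_of_ne (Nat.cast_nonneg _) hCne.symm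
  obtain ⟨c₀, hc₀⟩ : ∃ c₀ : C, ε / (Fintype.card C : ℝ) * ∏ i, (Fintype.card (V i) : ℝ) ≤
      ((Wᶜ.filter (fun v => c v = c₀)).card : ℝ) := by
    by_contra hno
    push Not at hno
    have h1 : (Wᶜ.card : ℝ) = ∑ c₀ : C, ((Wᶜ.filter (fun v => c v = c₀)).card : ℝ) := by
      rw [Finset.card_eq_sum_card_fiberwise (f := c) (t := Finset.univ)
        (fun v _ => Finset.mem_coe.2 (Finset.mem_univ _))]
      push_cast
      rfl
    have h2 : (∑ c₀ : C, ((Wᶜ.filter (fun v => c v = c₀)).card : ℝ)) ≤
        ∑ _c₀ : C, ε / (Fintype.card C : ℝ) * ∏ i, (Fintype.card (V i) : ℝ) :=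
      Finset.sum_le_sum fun c₀ _ => (hno c₀).le
    rw [Finset.sum_const, Finset.card_univ, nsmul_eq_mul] at h2
    have h3 : (Fintype.card C : ℝ) * (ε / (Fintype.card C : ℝ) *
        ∏ i, (Fintype.card (V i) : ℝ)) = ε * ∏ i, (Fintype.card (V i) : ℝ) := by
      field_simp
    rw [h3] at h2
    linarith
  obtain ⟨x, hx1, hx2⟩ := hkst m V (Wᶜ.filter (fun v => c v = c₀)) (ε / (Fintype.card C : ℝ))
    (div_pos hε hCpos) (fun i => by
      have h1 : 2 / (ε / (Fintype.card C : ℝ)) = 2 * (Fintype.card C : ℝ) / ε := by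
        field_simp
      rw [h1]
      exact hV i) hc₀
  have hxW : ∀ b : Fin m → Bool, (fun i => x i (b i)) ∉ W := fun b =>
    Finset.mem_compl.1 (Finset.mem_filter.1 (hx2 b)).1
  have hxI : x ∉ I := fun h => hxW (fun _ => true) (hWm x h _)
  have hPI : grd_P c (insert x I) := by
    refine ⟨?_, ?_, ?_⟩
    · intro y hy
      rcases Finset.mem_insert.1 hy with rfl | hy
      · exact hx1
      · exact hI1 y hy
    · intro y hy b b'
      rcases Finset.mem_insert.1 hy with rfl | hy
      · rw [(Finset.mem_filter.1 (hx2 b)).2, (Finset.mem_filter.1 (hx2 b')).2]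
      · exact hI2 y hy b b'
    · intro y hy z hz b b' e
      rcases Finset.mem_insert.1 hy with hyx | hy
      · rcases Finset.mem_insert.1 hz with hzx | hz
        · rw [hyx, hzx] at e
          refine ⟨by rw [hyx, hzx], ?_⟩
          funext i
          exact grd_bool (hx1 i) (congrFun e i)
        · exfalso
          rw [hyx] at e
          refine hxW b ?_
          rw [e]
          exact hWm z hz b'
      · rcases Finset.mem_insert.1 hz with hzx | hz
        · exfalso
          rw [hzx] at e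
          refine hxW b' ?_
          rw [← e]
          exact hWm y hy b
        · exact hI3 y hy z hz b b' e
  have h5 := hmax (insert x I) (Finset.mem_filter.2 ⟨Finset.mem_univ _, hPI⟩)
  rw [Finset.card_insert_of_notMem hxI] at h5
  omega

end Pool.Agent.H456.PS
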