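import Pool.Agent.H456.PS.Stm

/-!
(irc) `q = #F ≥ 3`. `∑_{e ∣ d} e N_e = q^d` (`N_e` = number of monic irreducible polynomials of degree `e`): the monic irreducible polynomials of degree dividing `d` are the factors of `X^(q^d) - X` (or count the elements of the field with `q^d` elements by their minimal polynomials; or unique factorization/zeta function). Mathlib or the library may have it (grep INDEX.tsv for 'irreducible' 'necklace' 'PNT'; PR/T_ap.lean has related material). So `d N_d ≤ q^d` and `d N_d = q^d - ∑_{e∣d, e<d} e N_e ≥ q^d - ∑_{e ≤ d/2} q^e ≥ q^d - q^(d/2+1)/(q-1)... ≥ q^d/2` (for `d ≥ 2`: `∑_{e ≤ d/2} q^e ≤ (3/2) q^⌊d/2⌋ ≤ q^d/2` as `q ≥ 3`, `q^(d-⌊d/2⌋) ≥ 3`; `d = 1`: `N_1 = q`). Finiteness: finitely many polynomials of degree `d` (compare `PlD F D`, `mem_PlD` in BQ).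
-/

set_option autoImplicit false
set_option linter.all false

open Polynomial Finset Filter
open Pool.Agent.H456.EC (toK toK_inj sig toK_eq reflect_toK cls)
open Pool.Agent.H456.RN
open Pool.Agent.H456.BQ
open Pool.Agent.H456.Coh (TF)
open Pool.Agent.H456.PP (OneR NoR HasRt sx hh Tz Tq Iso3 nr IsoP nrP)
open Pool.Agent.H456.PR

namespace Pool.Agent.H456.PS

section

variable (F : Type) [Field F] [Fintype F]

open Classical in
/-- the monic irreducible polynomials whose degree divides `d` -/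
noncomputable def irc_S (d : ℕ) : Finset F[X] :=
  (UniqueFactorizationMonoid.normalizedFactors
    (X ^ (Fintype.card F) ^ d - X : F[X])).toFinset

theorem irc_one_lt {d : ℕ} (hd : 1 ≤ d) : 1 < (Fintype.card F) ^ d :=
  Nat.one_lt_pow (by omega) Fintype.one_lt_card

theorem irc_ne {d : ℕ} (hd : 1 ≤ d) : (X ^ (Fintype.card F) ^ d - X : F[X]) ≠ 0 :=
  FiniteField.X_pow_card_sub_X_ne_zero F (irc_one_lt F hd)

theorem irc_deg {d : ℕ} (hd : 1 ≤ d) :
    (X ^ (Fintype.card F) ^ d - X : F[X]).natDegree = (Fintype.card F) ^ d :=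
  FiniteField.X_pow_card_sub_X_natDegree_eq F (irc_one_lt F hd)

theorem irc_sqf {d : ℕ} (hd : 1 ≤ d) : Squarefree (X ^ (Fintype.card F) ^ d - X : F[X]) := by
  obtain ⟨p, hp⟩ := CharP.exists F
  have h1 : p ∣ Fintype.card F := by
    rw [← CharP.cast_eq_zero_iff F p]
    exact FiniteField.cast_card_eq_zero F
  exact (galois_poly_separable p _ (h1.trans (dvd_pow_self _ (by omega)))).squarefree

open Classical in
theorem irc_norm {P : F[X]} (hP : P ≠ 0) : normalize P = P ↔ P.Monic := by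
  constructor
  · intro h
    rw [← h]
    exact Polynomial.monic_normalize hP
  · intro h
    exact h.normalize_eq_self

theorem irc_mem {d : ℕ} (hd : 1 ≤ d) (P : F[X]) :
    P ∈ irc_S F d ↔ (P.Monic ∧ Irreducible P) ∧ P.natDegree ∣ d := by
  classical
  unfold irc_S
  rw [Multiset.mem_toFinset,
    UniqueFactorizationMonoid.mem_normalizedFactors_iff' (irc_ne F hd)]
  constructor
  · rintro ⟨h1, h2, h3⟩
    refine ⟨⟨(irc_norm F h1.ne_zero).1 h2, h1⟩, ?_⟩
    rw [h1.natDegree_dvd_iff_dvd_X_pow_card_pow_sub_X, Nat.card_eq_fintype_card]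
    exact h3
  · rintro ⟨⟨h1, h2⟩, h3⟩
    refine ⟨h2, (irc_norm F h2.ne_zero).2 h1, ?_⟩
    rw [h2.natDegree_dvd_iff_dvd_X_pow_card_pow_sub_X, Nat.card_eq_fintype_card] at h3
    exact h3

theorem irc_sum {d : ℕ} (hd : 1 ≤ d) :
    ∑ P ∈ irc_S F d, P.natDegree = (Fintype.card F) ^ d := by
  classical
  have h0 := irc_ne F hd
  have hnd := (UniqueFactorizationMonoid.squarefree_iff_nodup_normalizedFactors h0).1
    (irc_sqf F hd)
  have hmon : ∀ f ∈ UniqueFactorizationMonoid.normalizedFactors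
      (X ^ (Fintype.card F) ^ d - X : F[X]), Monic f := by
    intro f hf
    exact ((irc_mem F hd f).1 (Multiset.mem_toFinset.2 hf)).1.1
  have h1 := Polynomial.natDegree_multiset_prod_of_monic _ hmon
  have h2 : (UniqueFactorizationMonoid.normalizedFactors
      (X ^ (Fintype.card F) ^ d - X : F[X])).prod.natDegree = (Fintype.card F) ^ d :=
    (Polynomial.natDegree_eq_of_degree_eq (Polynomial.degree_eq_degree_of_associated
      (UniqueFactorizationMonoid.prod_normalizedFactors h0))).trans (irc_deg F hd)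
  rw [← h2, h1]
  unfold irc_S
  rw [Finset.sum_eq_multiset_sum, Multiset.toFinset_val, hnd.dedup]

open Classical in
/-- the monic irreducible polynomials of degree `d` -/
noncomputable def irc_A (d : ℕ) : Finset F[X] := (irc_S F d).filter fun P => P.natDegree = d

theorem irc_memA {d : ℕ} (hd : 1 ≤ d) (P : F[X]) :
    P ∈ irc_A F d ↔ (P.Monic ∧ Irreducible P) ∧ P.natDegree = d := by
  classical
  unfold irc_A
  rw [Finset.mem_filter, irc_mem F hd]
  constructor
  · rintro ⟨⟨h1, -⟩, h2⟩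
    exact ⟨h1, h2⟩
  · rintro ⟨h1, h2⟩
    exact ⟨⟨h1, h2 ▸ dvd_refl _⟩, h2⟩

theorem irc_sumA (d : ℕ) : ∑ P ∈ irc_A F d, P.natDegree = d * (irc_A F d).card := by
  classical
  have h : ∀ P ∈ irc_A F d, P.natDegree = d := fun P hP => (Finset.mem_filter.1 hP).2
  rw [Finset.sum_congr rfl h, Finset.sum_const, smul_eq_mul, mul_comm]

theorem irc_le {d : ℕ} (hd : 1 ≤ d) : d * (irc_A F d).card ≤ (Fintype.card F) ^ d := by
  classical
  rw [← irc_sumA, ← irc_sum F hd]
  exact Finset.sum_le_sum_of_subset (Finset.filter_subset _ _)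

theorem irc_split {d : ℕ} (hd : 1 ≤ d) : (Fintype.card F) ^ d ≤
    d * (irc_A F d).card + ∑ e ∈ Finset.Ico 1 d, (Fintype.card F) ^ e := by
  classical
  rw [← irc_sum F hd, ← irc_sumA]
  unfold irc_A
  rw [← Finset.sum_filter_add_sum_filter_not (irc_S F d) (fun P => P.natDegree = d)]
  refine Nat.add_le_add_left ?_ _
  rw [← Finset.sum_fiberwise_of_maps_to (t := Finset.Ico 1 d) (g := fun P : F[X] => P.natDegree)]
  · refine Finset.sum_le_sum fun e he => ?_
    rw [Finset.mem_Ico] at he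
    refine le_trans ?_ (irc_le F he.1)
    rw [← irc_sumA]
    refine Finset.sum_le_sum_of_subset ?_
    intro P hP
    rw [Finset.mem_filter, Finset.mem_filter, irc_mem F hd] at hP
    exact (irc_memA F he.1 P).2 ⟨hP.1.1.1, hP.2⟩
  · intro P hP
    rw [Finset.mem_filter, irc_mem F hd] at hP
    rw [Finset.mem_Ico]
    refine ⟨hP.1.1.2.natDegree_pos, ?_⟩
    exact lt_of_le_of_ne (Nat.le_of_dvd (by omega) hP.1.2) hP.2

theorem irc_geo {q : ℕ} (hq : 3 ≤ q) {d : ℕ} (hd : 1 ≤ d) :
    2 * ∑ e ∈ Finset.Ico 1 d, q ^ e + q ≤ q ^ d := by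
  induction d, hd using Nat.le_induction with
  | base => simp
  | succ d hd ih =>
    rw [Finset.sum_Ico_succ_top hd, pow_succ]
    have h1 : q ^ d * 3 ≤ q ^ d * q := Nat.mul_le_mul_left _ hq
    omega

theorem irc_card (h2 : (2 : F) ≠ 0) : 3 ≤ Fintype.card F := by
  have h1 : 1 < Fintype.card F := Fintype.one_lt_card
  by_contra hcon
  have h3 : Fintype.card F = 2 := by omega
  have h4 := FiniteField.cast_card_eq_zero F
  rw [h3] at h4
  exact h2 (by exact_mod_cast h4)

theorem irc_ge (h2 : (2 : F) ≠ 0) {d : ℕ} (hd : 1 ≤ d) :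
    (Fintype.card F) ^ d ≤ 2 * d * (irc_A F d).card := by
  have h1 := irc_split F hd
  have h3 := irc_geo (irc_card F h2) hd
  rw [mul_assoc]
  omega

theorem irc_main (h2 : (2 : F) ≠ 0) {d : ℕ} (hd : 1 ≤ d) :
    {P : {P : F[X] // P.Monic ∧ Irreducible P} | P.1.natDegree = d}.Finite ∧
    d * {P : {P : F[X] // P.Monic ∧ Irreducible P} | P.1.natDegree = d}.ncard ≤
      Fintype.card F ^ d ∧
    Fintype.card F ^ d ≤
      2 * d * {P : {P : F[X] // P.Monic ∧ Irreducible P} | P.1.natDegree = d}.ncard := by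
  have him : Subtype.val '' {P : {P : F[X] // P.Monic ∧ Irreducible P} | P.1.natDegree = d} =
      (irc_A F d : Set F[X]) := by
    ext P
    rw [Finset.mem_coe, irc_memA F hd]
    constructor
    · rintro ⟨Q, hQ, rfl⟩
      exact ⟨Q.2, hQ⟩
    · rintro ⟨h3, h4⟩
      exact ⟨⟨P, h3⟩, h4, rfl⟩
  have hfin : {P : {P : F[X] // P.Monic ∧ Irreducible P} | P.1.natDegree = d}.Finite := by
    refine Set.Finite.of_finite_image ?_ Subtype.val_injective.injOn
    rw [him]
    exact Finset.finite_toSet _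
  have hcard : {P : {P : F[X] // P.Monic ∧ Irreducible P} | P.1.natDegree = d}.ncard =
      (irc_A F d).card := by
    rw [← Set.ncard_image_of_injective _ Subtype.val_injective, him, Set.ncard_coe_finset]
  rw [hcard]
  exact ⟨hfin, irc_le F hd, irc_ge F h2 hd⟩

end

theorem t_irc : S_irc := by
  intro F _ _ h2 d hd
  exact irc_main F h2 hd

end Pool.Agent.H456.PS
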