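import Pool.Agent.H456.PS.Stm

/-!
(kst) Induction on `m` (`Fin.consEquiv`/`Fin.cons`, `Fin.prod_univ_succ`), for all `V`, `𝒜`, `δ`. `m = 0`: `δ ≤ #𝒜`, so `𝒜` is nonempty. Step `m → m+1`: let `W = ∀ i : Fin m, V i.succ`, `N = #(V 0) ≥ (2/δ)^(2^(m+1)) ≥ 2/δ²`(note `δ ≤ 1`). For `w ∈ W` let `d(w) = #{v ∈ V 0 : (v, w) ∈ 𝒜}`, `∑ d(w) = #𝒜 ≥ δ N #W`. `∑_{v ≠ v'} #{w : (v,w), (v',w) ∈ 𝒜} = ∑_w d(w)² - ∑_w d(w) ≥ (∑ d)²/#W - ∑ d` and `(∑d)²/#W - ∑d ≥ (δ N)² #W - ...`: `x²/#W - x` is increasing for `x ≥ #W/2`, and `δ N ≥ 1`; so it is `≥ (δ² N² - δ N) #W ≥ (δ²/2) N² #W` as `δ N ≥ 2`... So some pair `v ≠ v'` has `#{w} ≥ (δ²/2) #W` (there are at most `N²` pairs). Induction hypothesis for `{w : (v,w), (v',w) ∈ 𝒜}`, `δ' = δ²/2`: `(2/δ')^(2^m) = (2/δ)^(2^(m+1))`.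
-/

set_option autoImplicit false
set_option linter.all false

open Polynomial Finset Filter
open Pool.Agent.H456.EC (toK toK_inj sig toK_eq reflect_toK cls)
open Pool.Agent.H456.RN
open Pool.Agent.H456.BQ
open Pool.Agent.H456.Coh (TF)
open Pool.Agent.H456.PP (OneR NoR HasRt sx hh Tz Tq Iso3 nr IsoP nrP)
open Pool.Agent.H456.PR

namespace Pool.Agent.H456.PS

/-- the pairs over a fixed point: double counting and the Cauchy-Schwarz inequality -/
theorem kst_pair (X W : Type) [Fintype X] [Fintype W] [DecidableEq X] (A : X → W → Prop)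
    [∀ x w, Decidable (A x w)] (δ : ℝ) (hδ : 0 < δ) (hN : 4 ≤ δ * (Fintype.card X : ℝ)) (hM : 0 < Fintype.card W)
    (hA : δ * ((Fintype.card X : ℝ) * (Fintype.card W : ℝ)) ≤
      ∑ w : W, ((Finset.univ.filter (fun x => A x w)).card : ℝ)) :
    ∃ v v' : X, v ≠ v' ∧ δ ^ 2 / 2 * (Fintype.card W : ℝ) ≤
      ((Finset.univ.filter (fun w => A v w ∧ A v' w)).card : ℝ) := by
  by_contra hcon
  push Not at hcon
  set N : ℝ := (Fintype.card X : ℝ) with hNdef
  set M : ℝ := (Fintype.card W : ℝ) with hMdef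
  have hM0 : 0 < M := by
    rw [hMdef]
    exact_mod_cast hM
  have hN0 : 0 ≤ N := by
    rw [hNdef]
    exact Nat.cast_nonneg _
  set a : ℝ := ∑ w : W, ((Finset.univ.filter (fun x => A x w)).card : ℝ) with hadef
  -- Cauchy-Schwarz
  have h1 : a ^ 2 ≤ M * ∑ w : W, ((Finset.univ.filter (fun x => A x w)).card : ℝ) ^ 2 := by
    have h := sq_sum_le_card_mul_sum_sq (s := (Finset.univ : Finset W))
      (f := fun w => ((Finset.univ.filter (fun x => A x w)).card : ℝ))
    rw [Finset.card_univ] at h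
    exact h
  -- the sum of the squares
  have h2 : ∀ w : W, ((Finset.univ.filter (fun x => A x w)).card : ℝ) ^ 2 =
      ∑ v : X, ∑ v' : X, (if A v w ∧ A v' w then (1 : ℝ) else 0) := by
    intro w
    have h3 : ((Finset.univ.filter (fun x => A x w)).card : ℝ) = ∑ v : X, (if A v w then (1 : ℝ) else 0) := by
      rw [Finset.card_filter]
      push_cast
      rfl
    rw [sq, h3, Finset.sum_mul_sum]
    refine Finset.sum_congr rfl (fun v _ => Finset.sum_congr rfl (fun v' _ => ?_))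
    by_cases h4 : A v w <;> by_cases h5 : A v' w <;> simp [h4, h5]
  have h6 : ∑ w : W, ((Finset.univ.filter (fun x => A x w)).card : ℝ) ^ 2 =
      ∑ v : X, ∑ v' : X, ((Finset.univ.filter (fun w => A v w ∧ A v' w)).card : ℝ) := by
    calc ∑ w : W, ((Finset.univ.filter (fun x => A x w)).card : ℝ) ^ 2
        = ∑ w : W, ∑ v : X, ∑ v' : X, (if A v w ∧ A v' w then (1 : ℝ) else 0) :=
          Finset.sum_congr rfl (fun w _ => h2 w)
      _ = ∑ v : X, ∑ w : W, ∑ v' : X, (if A v w ∧ A v' w then (1 : ℝ) else 0) := Finset.sum_comm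
      _ = ∑ v : X, ∑ v' : X, ((Finset.univ.filter (fun w => A v w ∧ A v' w)).card : ℝ) := by
          refine Finset.sum_congr rfl (fun v _ => ?_)
          rw [Finset.sum_comm]
          refine Finset.sum_congr rfl (fun v' _ => ?_)
          rw [Finset.card_filter]
          push_cast
          rfl
  have h7 : ∑ v : X, ∑ v' : X, ((Finset.univ.filter (fun w => A v w ∧ A v' w)).card : ℝ) ≤
      ∑ v : X, ∑ v' : X, ((if v = v' then ((Finset.univ.filter (fun w => A v w)).card : ℝ) else 0) +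
        δ ^ 2 / 2 * M) := by
    refine Finset.sum_le_sum (fun v _ => Finset.sum_le_sum (fun v' _ => ?_))
    have h8 : 0 ≤ δ ^ 2 / 2 * M := by positivity
    by_cases h : v = v'
    · subst h
      rw [if_pos rfl]
      have h9 : (Finset.univ.filter (fun w => A v w ∧ A v w)) = (Finset.univ.filter (fun w => A v w)) := by
        ext w
        simp
      rw [h9]
      linarith
    · rw [if_neg h]
      have h10 := hcon v v' h
      linarith
  have h11 : ∑ v : X, ∑ v' : X, ((if v = v' then ((Finset.univ.filter (fun w => A v w)).card : ℝ) else 0) +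
        δ ^ 2 / 2 * M) = a + N ^ 2 * (δ ^ 2 / 2 * M) := by
    have h12 : ∀ v : X, ∑ v' : X, ((if v = v' then ((Finset.univ.filter (fun w => A v w)).card : ℝ) else 0) +
        δ ^ 2 / 2 * M) = ((Finset.univ.filter (fun w => A v w)).card : ℝ) + N * (δ ^ 2 / 2 * M) := by
      intro v
      rw [Finset.sum_add_distrib, Finset.sum_ite_eq, Finset.sum_const, Finset.card_univ, nsmul_eq_mul,
        if_pos (Finset.mem_univ v)]
    rw [Finset.sum_congr rfl (fun v _ => h12 v), Finset.sum_add_distrib, Finset.sum_const, Finset.card_univ,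
      nsmul_eq_mul]
    have h13 : ∑ v : X, ((Finset.univ.filter (fun w => A v w)).card : ℝ) = a := by
      rw [hadef]
      have e1 : ∀ v : X, ((Finset.univ.filter (fun w => A v w)).card : ℝ) = ∑ w : W, (if A v w then (1 : ℝ) else 0) := by
        intro v
        rw [Finset.card_filter]
        push_cast
        rfl
      have e2 : ∀ w : W, ((Finset.univ.filter (fun x => A x w)).card : ℝ) = ∑ v : X, (if A v w then (1 : ℝ) else 0) := by
        intro w
        rw [Finset.card_filter]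
        push_cast
        rfl
      rw [Finset.sum_congr rfl (fun v _ => e1 v), Finset.sum_congr rfl (fun w _ => e2 w), Finset.sum_comm]
    rw [h13]
    ring
  have h14 : a ^ 2 ≤ M * (a + N ^ 2 * (δ ^ 2 / 2 * M)) := by
    calc a ^ 2 ≤ M * ∑ w : W, ((Finset.univ.filter (fun x => A x w)).card : ℝ) ^ 2 := h1
      _ ≤ M * (a + N ^ 2 * (δ ^ 2 / 2 * M)) := by
          rw [h6]
          exact mul_le_mul_of_nonneg_left (le_trans h7 (le_of_eq h11)) hM0.le
  -- contradiction
  have h15 : 4 * M ≤ a := by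
    calc 4 * M ≤ (δ * N) * M := mul_le_mul_of_nonneg_right hN hM0.le
      _ = δ * (N * M) := by ring
      _ ≤ a := hA
  have h16 : a * (a - M) ≥ (δ * (N * M)) * (δ * (N * M) - M) := by
    have h17 : 0 ≤ δ * (N * M) := by positivity
    have h18 : 0 ≤ δ * (N * M) - M := by
      have : 4 * M ≤ δ * (N * M) := by
        calc 4 * M ≤ (δ * N) * M := mul_le_mul_of_nonneg_right hN hM0.le
          _ = δ * (N * M) := by ring
      linarith
    exact mul_le_mul hA (by linarith) h18 (by linarith)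
  have h19 : (δ * (N * M)) * (δ * (N * M) - M) ≤ M ^ 2 * ((δ * N) ^ 2 / 2) := by
    nlinarith
  have h20 : M ^ 2 * ((δ * N) * (δ * N - 1)) ≤ M ^ 2 * ((δ * N) ^ 2 / 2) := by
    calc M ^ 2 * ((δ * N) * (δ * N - 1)) = (δ * (N * M)) * (δ * (N * M) - M) := by ring
      _ ≤ _ := h19
  have h21 : (δ * N) * (δ * N - 1) ≤ (δ * N) ^ 2 / 2 := le_of_mul_le_mul_left h20 (by positivity)
  nlinarith

theorem kst_main (m : ℕ) : ∀ (V : Fin m → Type) [∀ i, Fintype (V i)] (𝒜 : Finset (∀ i, V i)) (δ : ℝ), 0 < δ →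
    (∀ i, (2 / δ) ^ (2 ^ m) ≤ (Fintype.card (V i) : ℝ)) → δ * ∏ i, (Fintype.card (V i) : ℝ) ≤ 𝒜.card →
    ∃ x : ∀ i, Bool → V i, (∀ i, x i true ≠ x i false) ∧ ∀ b : Fin m → Bool, (fun i => x i (b i)) ∈ 𝒜 := by
  induction m with
  | zero =>
    intro V _ 𝒜 δ hδ _ hA
    rw [Finset.univ_eq_empty, Finset.prod_empty, mul_one] at hA
    have h1 : (0 : ℝ) < 𝒜.card := lt_of_lt_of_le hδ hA
    have h2 : 0 < 𝒜.card := by exact_mod_cast h1
    obtain ⟨y, hy⟩ := Finset.card_pos.mp h2
    refine ⟨fun i => i.elim0, fun i => i.elim0, fun b => ?_⟩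
    have h3 : (fun i : Fin 0 => (fun i => i.elim0 : ∀ i : Fin 0, Bool → V i) i (b i)) = y :=
      funext (fun i => i.elim0)
    rw [h3]
    exact hy
  | succ m ih =>
    intro V _ 𝒜 δ hδ hV hA
    classical
    -- the numbers are positive
    have hV0 : ∀ i, 0 < (Fintype.card (V i) : ℝ) := fun i => lt_of_lt_of_le (by positivity) (hV i)
    have hprod : 0 < ∏ i, (Fintype.card (V i) : ℝ) := Finset.prod_pos (fun i _ => hV0 i)
    have hδ1 : δ ≤ 1 := by
      have h1 : (𝒜.card : ℝ) ≤ ∏ i, (Fintype.card (V i) : ℝ) := by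
        have h2 : 𝒜.card ≤ Fintype.card (∀ i, V i) := Finset.card_le_univ 𝒜
        rw [Fintype.card_pi] at h2
        exact_mod_cast h2
      by_contra h3
      push Not at h3
      have h4 : ∏ i, (Fintype.card (V i) : ℝ) < δ * ∏ i, (Fintype.card (V i) : ℝ) := by
        nlinarith
      linarith
    have h2δ : (2 : ℝ) ≤ 2 / δ := by
      rw [le_div_iff₀ hδ]
      linarith
    have hN : 4 ≤ δ * (Fintype.card (V 0) : ℝ) := by
      have h5 : (2 / δ) ^ 2 ≤ (2 / δ) ^ (2 ^ (m + 1)) := by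
        apply pow_le_pow_right₀ (by linarith)
        calc 2 = 2 ^ 1 := by norm_num
          _ ≤ 2 ^ (m + 1) := Nat.pow_le_pow_right (by norm_num) (by omega)
      have h6 : (2 / δ) ^ 2 ≤ (Fintype.card (V 0) : ℝ) := le_trans h5 (hV 0)
      have h7 : δ * (2 / δ) ^ 2 = 2 * (2 / δ) := by
        field_simp
      calc (4 : ℝ) ≤ 2 * (2 / δ) := by linarith
        _ = δ * (2 / δ) ^ 2 := h7.symm
        _ ≤ δ * (Fintype.card (V 0) : ℝ) := mul_le_mul_of_nonneg_left h6 hδ.le
    have hcW : (Fintype.card (∀ i : Fin m, V i.succ) : ℝ) = ∏ i : Fin m, (Fintype.card (V i.succ) : ℝ) := by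
      rw [Fintype.card_pi]
      push_cast
      rfl
    have hMpos : 0 < Fintype.card (∀ i : Fin m, V i.succ) := by
      have h8 : 0 < (Fintype.card (∀ i : Fin m, V i.succ) : ℝ) := by
        rw [hcW]
        exact Finset.prod_pos (fun i _ => hV0 i.succ)
      exact_mod_cast h8
    have hcard : (𝒜.card : ℝ) = ∑ w : (∀ i : Fin m, V i.succ),
        ((Finset.univ.filter (fun x : V 0 => (Fin.cons x w : ∀ i, V i) ∈ 𝒜)).card : ℝ) := by
      have h9 : (𝒜.card : ℝ) = ∑ y : (∀ i, V i), (if y ∈ 𝒜 then (1 : ℝ) else 0) := by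
        rw [Finset.sum_ite_mem, Finset.univ_inter, Finset.sum_const, nsmul_eq_mul, mul_one]
      rw [h9, ← (Fin.consEquiv V).sum_comp, Fintype.sum_prod_type_right]
      refine Finset.sum_congr rfl (fun w _ => ?_)
      rw [Finset.card_filter]
      push_cast
      rfl
    obtain ⟨v, v', hne, hvv⟩ := kst_pair (V 0) (∀ i : Fin m, V i.succ)
      (fun x w => (Fin.cons x w : ∀ i, V i) ∈ 𝒜) δ hδ hN hMpos (by
        rw [← hcard, hcW]
        rw [Fin.prod_univ_succ] at hA
        exact hA)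
    obtain ⟨x', hx1, hx2⟩ := ih (fun i => V i.succ)
      (Finset.univ.filter (fun w => (Fin.cons v w : ∀ i, V i) ∈ 𝒜 ∧ (Fin.cons v' w : ∀ i, V i) ∈ 𝒜))
      (δ ^ 2 / 2) (by positivity) (fun i => by
        have h10 : (2 / (δ ^ 2 / 2)) ^ (2 ^ m) = (2 / δ) ^ (2 ^ (m + 1)) := by
          rw [pow_succ 2 m, mul_comm (2 ^ m) 2, pow_mul]
          congr 1
          field_simp
        rw [h10]
        exact hV i.succ) (by
        rw [← hcW]
        exact hvv)
    refine ⟨Fin.cons (fun b => if b = true then v else v') x', ?_, ?_⟩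
    · intro i
      refine Fin.cases ?_ (fun j => ?_) i
      · simp only [Fin.cons_zero, if_true]
        simpa using hne
      · simp only [Fin.cons_succ]
        exact hx1 j
    · intro b
      have h11 : (fun i => (Fin.cons (fun b => if b = true then v else v') x' : ∀ i, Bool → V i) i (b i)) =
          (Fin.cons (if b 0 = true then v else v') (fun j => x' j (b j.succ)) : ∀ i, V i) := by
        funext i
        refine Fin.cases ?_ (fun j => ?_) i
        · simp only [Fin.cons_zero]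
        · simp only [Fin.cons_succ]
      rw [h11]
      have h12 := hx2 (fun j => b j.succ)
      rw [Finset.mem_filter] at h12
      cases hb : b 0
      · simp only [Bool.false_eq_true, if_false]
        exact h12.2.2
      · simp only [if_true]
        exact h12.2.1

theorem t_kst : S_kst := fun m V _ 𝒜 δ h0 h1 h2 => kst_main m V 𝒜 δ h0 h1 h2

end Pool.Agent.H456.PS
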