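import Pool.Agent.H456.PS.Stm
import Pool.Agent.H456.PR.Stm2

/-!
(law) the law for all squarefree twists: averaging over the boxes. Parameters: `δ = min (1/2) (ε/4)`, `ε' = δ²`.
For every box the estimate of `S_box` holds eventually in `n`, so for all boxes simultaneously. The number of the
cubics for which more than `δ N` boxes are bad is at most `δ q^(12n+3)`; for the other cubics
`|pJ (2k) f j - Cd j| ≤ 3 δ² + δ ≤ ε`.
-/

set_option autoImplicit false
set_option linter.all false

open Polynomial Finset Filter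
open Pool.Agent.H456.EC (toK toK_inj sig toK_eq reflect_toK cls)
open Pool.Agent.H456.RN
open Pool.Agent.H456.BQ
open Pool.Agent.H456.Coh (TF)
open Pool.Agent.H456.PP (OneR NoR HasRt sx hh Tz Tq Iso3 nr IsoP nrP)
open Pool.Agent.H456.PR

namespace Pool.Agent.H456.PS

/-! ### the set of the squarefree polynomials is finite and nonempty -/

section

variable {F : Type} [Field F]

theorem law_exJ (n : ℕ) : ∀ D : F[X], D.natDegree ≤ n → D.Monic → Squarefree D → ∃ J : Finset (Pl F), DJ J = D := by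
  classical
  induction n with
  | zero =>
    intro D hD hm _
    refine ⟨∅, ?_⟩
    have h := (Monic.natDegree_eq_zero hm).1 (Nat.le_zero.1 hD)
    rw [h]
    exact Finset.prod_empty
  | succ n ih =>
    intro D hD hm hs
    by_cases h1 : D = 1
    · exact ⟨∅, by rw [h1]; exact Finset.prod_empty⟩
    have hu : ¬ IsUnit D := fun h => h1 (hm.isUnit_iff.1 h)
    obtain ⟨P, hPm, hPi, E, hE⟩ := exists_monic_irreducible_factor D hu
    have hEm : E.Monic := hPm.of_mul_monic_left (by rw [← hE]; exact hm)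
    have hEs : Squarefree E := hs.squarefree_of_dvd ⟨P, by rw [hE, mul_comm]⟩
    have hdeg : D.natDegree = P.natDegree + E.natDegree := by
      rw [hE, hPm.natDegree_mul hEm]
    have hP0 : 0 < P.natDegree := hPi.natDegree_pos
    obtain ⟨J, hJ⟩ := ih E (by omega) hEm hEs
    have hPJ : (⟨P, hPm, hPi⟩ : Pl F) ∉ J := by
      intro h
      have h2 : P ∣ E := by
        rw [← hJ]
        exact Finset.dvd_prod_of_mem (fun Q : Pl F => Q.1) h
      have h3 : P * P ∣ D := by
        rw [hE]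
        exact mul_dvd_mul_left P h2
      exact hPi.not_isUnit (hs P h3)
    refine ⟨insert ⟨P, hPm, hPi⟩ J, ?_⟩
    unfold DJ at hJ ⊢
    rw [Finset.prod_insert hPJ, hJ, hE]

theorem law_sqf (n : ℕ) (hn : 1 ≤ n) : ∃ D : F[X], D.Monic ∧ Squarefree D ∧ D.natDegree = n := by
  by_cases h : (n : F) = 0
  · have hn1 : n ≠ 1 := by
      rintro rfl
      rw [Nat.cast_one] at h
      exact one_ne_zero h
    have hd : (X : F[X]).degree < ((n : ℕ) : WithBot ℕ) := by
      rw [degree_X]
      exact_mod_cast (show 1 < n by omega)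
    refine ⟨X ^ n - X, monic_X_pow_sub hd, ?_, ?_⟩
    · apply Separable.squarefree
      rw [separable_def]
      have h1 : derivative (X ^ n - X : F[X]) = -1 := by
        rw [derivative_sub, derivative_X_pow, derivative_X, h, C_0, zero_mul, zero_sub]
      rw [h1]
      exact (isCoprime_one_right).neg_right
    · have h2 : (X ^ n - X : F[X]).degree = n := by
        rw [degree_sub_eq_left_of_degree_lt (by rw [degree_X_pow]; exact hd), degree_X_pow]
      exact natDegree_eq_of_degree_eq_some h2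
  · refine ⟨X ^ n - 1, ?_, ?_, ?_⟩
    · have := monic_X_pow_sub_C (1 : F) (show n ≠ 0 by omega)
      rwa [C_1] at this
    · apply Separable.squarefree
      exact X_pow_sub_one_separable_iff.2 h
    · have := natDegree_X_pow_sub_C (R := F) (n := n) (r := 1)
      rwa [C_1] at this

theorem law_nonempty (n : ℕ) (hn : 1 ≤ n) : (SJ F n).Nonempty := by
  obtain ⟨D, h1, h2, h3⟩ := law_sqf (F := F) n hn
  obtain ⟨J, hJ⟩ := law_exJ D.natDegree D le_rfl h1 h2
  exact ⟨J, by rw [← h3, ← hJ]; rfl⟩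

theorem law_finite [Fintype F] (n : ℕ) : (SJ F n).Finite := by
  classical
  refine Set.Finite.subset ((PlD F n).powerset.finite_toSet) ?_
  intro J hJ
  rw [Finset.mem_coe, Finset.mem_powerset]
  intro P hP
  rw [mem_PlD]
  have hm : (DJ J).Monic := monic_prod_of_monic _ _ fun P _ => P.2.1
  have h1 : P.1 ∣ DJ J := Finset.dvd_prod_of_mem (fun Q : Pl F => Q.1) hP
  have h2 := natDegree_le_of_dvd h1 hm.ne_zero
  have h3 : (DJ J).natDegree = n := hJ
  omega

end

/-! ### averaging -/

theorem law_markov {ι α : Type} [Fintype ι] (S : Finset α) (bad : ι → α → Prop) [∀ x f, Decidable (bad x f)] (δ B : ℝ)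
    (hδ : 0 < δ) (hN : 0 < Fintype.card ι) (h : ∀ x, ((S.filter (fun f => bad x f)).card : ℝ) ≤ δ ^ 2 * B)
    (q : α → Prop) [DecidablePred q]
    (hq : ∀ f ∈ S, q f → δ * (Fintype.card ι : ℝ) < ((univ.filter (fun x => bad x f)).card : ℝ)) :
    ((S.filter q).card : ℝ) ≤ δ * B := by
  have h1 : ∑ f ∈ S, ((univ.filter (fun x => bad x f)).card : ℝ) = ∑ x, ((S.filter (fun f => bad x f)).card : ℝ) := by
    simp only [Finset.card_filter, Nat.cast_sum]
    rw [Finset.sum_comm]
  have h2 : ∑ x : ι, ((S.filter (fun f => bad x f)).card : ℝ) ≤ (Fintype.card ι : ℝ) * (δ ^ 2 * B) := by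
    refine (Finset.sum_le_sum fun x _ => h x).trans ?_
    rw [Finset.sum_const, Finset.card_univ, nsmul_eq_mul]
  have h3 : ((S.filter q).card : ℝ) * (δ * (Fintype.card ι : ℝ)) ≤
      ∑ f ∈ S, ((univ.filter (fun x => bad x f)).card : ℝ) := by
    calc ((S.filter q).card : ℝ) * (δ * (Fintype.card ι : ℝ)) = ∑ f ∈ S.filter q, δ * (Fintype.card ι : ℝ) := by
          rw [Finset.sum_const, nsmul_eq_mul]
      _ ≤ ∑ f ∈ S.filter q, ((univ.filter (fun x => bad x f)).card : ℝ) := by
          refine Finset.sum_le_sum fun f hf => ?_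
          rw [Finset.mem_filter] at hf
          exact (hq f hf.1 hf.2).le
      _ ≤ ∑ f ∈ S, ((univ.filter (fun x => bad x f)).card : ℝ) :=
          Finset.sum_le_sum_of_subset_of_nonneg (Finset.filter_subset _ _) fun _ _ _ => Nat.cast_nonneg _
  rw [h1] at h3
  have h4 := h3.trans h2
  have hc : (0 : ℝ) < Fintype.card ι := by exact_mod_cast hN
  have h5 : (δ * (Fintype.card ι : ℝ)) * ((S.filter q).card : ℝ) ≤ (δ * (Fintype.card ι : ℝ)) * (δ * B) := by
    linarith [h4]
  exact le_of_mul_le_mul_left h5 (mul_pos hδ hc)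

/-- the elements of a finite set with a property and the vertices of the boxes with this property -/
theorem law_cmp {ι κ T : Type} [Fintype ι] [Fintype κ] (S : Set T) (hS : S.Finite) (w : ι → κ → T)
    (hw : ∀ x v, w x v ∈ S) (hinj : ∀ x y v v', w x v = w y v' → x = y ∧ v = v') (P : T → Prop)
    [∀ x v, Decidable (P (w x v))] :
    ∑ x, (univ.filter (fun v => P (w x v))).card ≤ ({J | J ∈ S ∧ P J} : Set T).ncard ∧
    ({J | J ∈ S ∧ P J} : Set T).ncard + Fintype.card ι * Fintype.card κ ≤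
      (∑ x, (univ.filter (fun v => P (w x v))).card) + S.ncard := by
  classical
  have e1 : ({J | J ∈ S ∧ P J} : Set T).ncard = (hS.toFinset.filter P).card := by
    rw [← Set.ncard_coe_finset]
    congr 1
    ext J
    simp
  have e2 : S.ncard = hS.toFinset.card := Set.ncard_eq_toFinset_card S hS
  have hinj' : Function.Injective (fun y : ι × κ => w y.1 y.2) := by
    rintro ⟨x, v⟩ ⟨y, v'⟩ h
    obtain ⟨h1, h2⟩ := hinj x y v v' h
    rw [h1, h2]
  set W : Finset T := (univ : Finset (ι × κ)).image (fun y => w y.1 y.2) with hW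
  have e3 : W.card = Fintype.card ι * Fintype.card κ := by
    rw [hW, Finset.card_image_of_injective _ hinj', Finset.card_univ, Fintype.card_prod]
  have e4 : (W.filter P).card = ∑ x, (univ.filter (fun v => P (w x v))).card := by
    rw [hW, Finset.filter_image, Finset.card_image_of_injective _ hinj', Finset.card_filter, ← Finset.univ_product_univ,
      Finset.sum_product]
    refine Finset.sum_congr rfl fun x _ => ?_
    rw [Finset.card_filter]
    refine Finset.sum_congr rfl fun v _ => ?_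
    by_cases h : P (w x v)
    · rw [if_pos h, if_pos h]
    · rw [if_neg h, if_neg h]
  have hsub : W ⊆ hS.toFinset := by
    intro J hJ
    rw [hW, Finset.mem_image] at hJ
    obtain ⟨y, -, rfl⟩ := hJ
    rw [Set.Finite.mem_toFinset]
    exact hw _ _
  have h5 : (W.filter P).card ≤ (hS.toFinset.filter P).card :=
    Finset.card_le_card (Finset.filter_subset_filter _ hsub)
  have h6 : (hS.toFinset.filter P).card ≤ (W.filter P).card + (hS.toFinset \ W).card := by
    refine (Finset.card_le_card ?_).trans (Finset.card_union_le _ _)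
    intro J hJ
    rw [Finset.mem_filter] at hJ
    rw [Finset.mem_union, Finset.mem_filter, Finset.mem_sdiff]
    by_cases h : J ∈ W
    · exact Or.inl ⟨h, hJ.2⟩
    · exact Or.inr ⟨hJ.1, h⟩
  have h7 : (hS.toFinset \ W).card + W.card = hS.toFinset.card := Finset.card_sdiff_add_card_eq_card hsub
  rw [← e4, e1, e2, ← e3]
  omega

/-- the final estimate -/
theorem law_est {ι : Type} [Fintype ι] (δ a M S C t : ℝ) (c : ι → ℝ) (hδ : 0 < δ)
    (ht : 0 < t) (hM : M = (Fintype.card ι : ℝ) * t) (hC0 : 0 ≤ C) (hC1 : C ≤ 1) (hS : 0 < S)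
    (hc0 : ∀ x, 0 ≤ c x) (hc1 : ∀ x, c x ≤ 1)
    (h1 : ∑ x, t * c x ≤ a) (h2 : a + M ≤ ∑ x, t * c x + S) (hMS : M ≤ S) (hMS' : (1 - δ ^ 2) * S ≤ M)
    (bad : ι → Prop) [DecidablePred bad] (hbad : ∀ x, ¬ bad x → |c x - C| ≤ δ ^ 2)
    (hb : ((univ.filter bad).card : ℝ) ≤ δ * (Fintype.card ι : ℝ)) :
    |a / S - C| ≤ 3 * δ ^ 2 + δ := by
  have hδ2 : 0 ≤ δ ^ 2 := sq_nonneg δ
  have hc : ∀ x, |c x - C| ≤ δ ^ 2 + (if bad x then 1 else 0) := by
    intro x
    by_cases h : bad x
    · rw [if_pos h, abs_le]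
      constructor <;> linarith [hc0 x, hc1 x]
    · rw [if_neg h, add_zero]
      exact hbad x h
  have h3 : |∑ x, t * c x - M * C| ≤ t * ((Fintype.card ι : ℝ) * δ ^ 2 + ((univ.filter bad).card : ℝ)) := by
    have e : ∑ x, t * c x - M * C = ∑ x, t * (c x - C) := by
      simp only [mul_sub]
      rw [Finset.sum_sub_distrib, Finset.sum_const, Finset.card_univ, nsmul_eq_mul, hM]
      ring
    rw [e]
    refine (Finset.abs_sum_le_sum_abs _ _).trans ?_
    rw [Finset.card_filter, Nat.cast_sum]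
    have e2 : (Fintype.card ι : ℝ) * δ ^ 2 = ∑ x : ι, δ ^ 2 := by
      rw [Finset.sum_const, Finset.card_univ, nsmul_eq_mul]
    rw [e2, ← Finset.sum_add_distrib, Finset.mul_sum]
    refine Finset.sum_le_sum fun x _ => ?_
    rw [abs_mul, abs_of_pos ht]
    refine mul_le_mul_of_nonneg_left ?_ ht.le
    refine (hc x).trans (le_of_eq ?_)
    by_cases h : bad x
    · rw [if_pos h, if_pos h, Nat.cast_one]
    · rw [if_neg h, if_neg h, Nat.cast_zero]
  have hn : (0 : ℝ) ≤ Fintype.card ι := Nat.cast_nonneg _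
  have hM0 : 0 ≤ M := by rw [hM]; positivity
  have h4 : t * ((Fintype.card ι : ℝ) * δ ^ 2 + ((univ.filter bad).card : ℝ)) ≤ (δ ^ 2 + δ) * M := by
    rw [hM]
    have := mul_le_mul_of_nonneg_left hb ht.le
    nlinarith [this]
  have h5 : (δ ^ 2 + δ) * M ≤ (δ ^ 2 + δ) * S := mul_le_mul_of_nonneg_left hMS (by positivity)
  have h6 : |∑ x, t * c x - M * C| ≤ (δ ^ 2 + δ) * S := h3.trans (h4.trans h5)
  have h7 : |a - S * C| ≤ (3 * δ ^ 2 + δ) * S := by
    rw [abs_le] at h6 ⊢
    have h8 : 0 ≤ (S - M) * C := mul_nonneg (by linarith) hC0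
    have h9 : (S - M) * C ≤ δ ^ 2 * S := by
      calc (S - M) * C ≤ (S - M) * 1 := mul_le_mul_of_nonneg_left hC1 (by linarith)
        _ ≤ δ ^ 2 * S := by linarith
    have h10 : 0 ≤ δ ^ 2 * S := by positivity
    constructor
    · nlinarith [h6.1, h6.2]
    · nlinarith [h6.1, h6.2]
  have e3 : a / S - C = (a - S * C) / S := by
    field_simp
  rw [e3, abs_div, abs_of_pos hS, div_le_iff₀ hS]
  exact h7

theorem t_law : S_box → S_prt → PR.S_num → S_law := by
  classical
  intro hbox hprt hnum F _ _ h2 ε hε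
  -- the numbers `Cd j`
  have hak : ∀ j, 0 ≤ ak j := by
    intro j
    unfold ak
    refine Finset.prod_nonneg fun i _ => div_nonneg (by norm_num) ?_
    have : (1 : ℝ) ≤ 2 ^ (i + 1) := one_le_pow₀ (by norm_num)
    linarith
  have hC0 : ∀ j, 0 ≤ Cd j := by
    intro j
    have h0 : 0 < Cd 0 := by linarith [hnum.1]
    have e0 : Cd 0 = (∏' j : ℕ, (1 + (1 / 2 : ℝ) ^ j))⁻¹ := by
      unfold Cd ak
      rw [Finset.range_zero, Finset.prod_empty, mul_one]
    have e1 : Cd j = Cd 0 * ak j := by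
      rw [e0]
      rfl
    rw [e1]
    exact mul_nonneg h0.le (hak j)
  have hC1 : ∀ j, Cd j ≤ 1 := fun j => le_hasSum hnum.2.2 j fun i _ => hC0 i
  -- the parameters
  obtain ⟨δ, hδ0, hδ1, hδ2⟩ : ∃ δ : ℝ, 0 < δ ∧ δ ≤ 1 / 2 ∧ δ ≤ ε / 4 :=
    ⟨min (1 / 2) (ε / 4), lt_min (by norm_num) (by linarith), min_le_left _ _, min_le_right _ _⟩
  have hδe : 3 * δ ^ 2 + δ ≤ ε := by nlinarith
  obtain ⟨m, η, D₁, hη, hb⟩ := hbox F h2 (δ ^ 2) (by positivity)
  obtain ⟨D₁', hp⟩ := hprt F h2 η (δ ^ 2) hη (by positivity)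
  obtain ⟨k₀, hk₀⟩ := hp (max D₁ D₁') (le_max_right _ _) m
  refine ⟨max k₀ 1, fun k hk => ?_⟩
  obtain ⟨N, J, p, hJ1, hJ2, hJ3, hJ4⟩ := hk₀ k (le_trans (le_max_left _ _) hk)
  have hk1 : 1 ≤ k := le_trans (le_max_right _ _) hk
  have hfin := law_finite (F := F) (2 * k)
  have hSpos : 0 < (SJ F (2 * k)).ncard :=
    (Set.ncard_pos hfin).2 (law_nonempty (2 * k) (by omega))
  have hSpos' : (0 : ℝ) < (SJ F (2 * k)).ncard := by exact_mod_cast hSpos
  have hN : 0 < N := by
    rcases Nat.eq_zero_or_pos N with h | h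
    · exfalso
      rw [h, Nat.cast_zero, zero_mul] at hJ4
      have : 0 < (1 - δ ^ 2) * ((SJ F (2 * k)).ncard : ℝ) := mul_pos (by nlinarith) hSpos'
      linarith
    · exact h
  have hev : ∀ᶠ n in atTop, ∀ x : Fin N, (((Msh F n).filter (fun f => ∃ j, δ ^ 2 < |prb (J x) (p x) f j - Cd j|)).card : ℝ) ≤
      δ ^ 2 * (Fintype.card F : ℝ) ^ (12 * n + 3) := by
    rw [Filter.eventually_all]
    intro x
    refine hb (max D₁ D₁') (le_max_left _ _) (J x) (p x) (hJ1 x) fun v => ?_
    have : (DJ (vtx (J x) (p x) v)).natDegree = 2 * k := hJ2 x v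
    rw [this]
    exact even_two_mul k
  filter_upwards [hev] with n hn
  have key : (((Msh F n).filter (fun f => ∃ j, ε < |pJ (2 * k) f j - Cd j|)).card : ℝ) ≤
      δ * (Fintype.card F : ℝ) ^ (12 * n + 3) := by
    refine law_markov (ι := Fin N) (Msh F n) (fun x f => ∃ j, δ ^ 2 < |prb (J x) (p x) f j - Cd j|) δ _ hδ0
      (by rw [Fintype.card_fin]; exact hN) hn _ ?_
    rintro f - ⟨j, hj⟩
    by_contra hcon
    rw [not_lt] at hcon
    obtain ⟨g1, g2⟩ := law_cmp (ι := Fin N) (κ := Fin m → Bool) (SJ F (2 * k)) hfin (fun x v => vtx (J x) (p x) v) hJ2 hJ3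
      (fun J => NT ∅ (f.sc (DJ J)) = 2 ^ j)
    have ht : (0 : ℝ) < 2 ^ m := by positivity
    have e1 : ∀ x : Fin N, (2 : ℝ) ^ m * prb (J x) (p x) f j =
        ((univ.filter (fun v : Fin m → Bool => NT ∅ (f.sc (DJ (vtx (J x) (p x) v))) = 2 ^ j)).card : ℝ) := by
      intro x
      unfold prb
      rw [mul_div_cancel₀ _ ht.ne']
    have e2 : ∑ x : Fin N, (2 : ℝ) ^ m * prb (J x) (p x) f j =
        ((∑ x : Fin N, (univ.filter (fun v : Fin m → Bool => NT ∅ (f.sc (DJ (vtx (J x) (p x) v))) = 2 ^ j)).card : ℕ) : ℝ) := by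
      rw [Nat.cast_sum]
      exact Finset.sum_congr rfl fun x _ => e1 x
    have hcard : Fintype.card (Fin m → Bool) = 2 ^ m := by
      rw [Fintype.card_fun, Fintype.card_bool, Fintype.card_fin]
    rw [hcard, Fintype.card_fin] at g2
    have hest := law_est (ι := Fin N) δ
      (({J | J ∈ SJ F (2 * k) ∧ NT ∅ (f.sc (DJ J)) = 2 ^ j} : Set (Finset (Pl F))).ncard : ℝ) ((N : ℝ) * 2 ^ m)
      ((SJ F (2 * k)).ncard : ℝ) (Cd j) (2 ^ m) (fun x => prb (J x) (p x) f j) hδ0 ht (by rw [Fintype.card_fin])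
      (hC0 j) (hC1 j) hSpos'
      (fun x => by unfold prb; positivity)
      (fun x => by
        unfold prb
        rw [div_le_one ht]
        have h := Finset.card_filter_le (univ : Finset (Fin m → Bool))
          (fun v : Fin m → Bool => NT ∅ (f.sc (DJ (vtx (J x) (p x) v))) = 2 ^ j)
        rw [Finset.card_univ, hcard] at h
        exact_mod_cast h)
      (by rw [e2]; exact_mod_cast g1)
      (by rw [e2]; exact_mod_cast g2)
      (by
        have : N * 2 ^ m ≤ (SJ F (2 * k)).ncard := by omega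
        exact_mod_cast this)
      hJ4
      (fun x => ∃ j, δ ^ 2 < |prb (J x) (p x) f j - Cd j|)
      (fun x hx => by
        by_contra h
        exact hx ⟨j, not_le.1 h⟩)
      hcon
    have : pJ (2 * k) f j = (({J | J ∈ SJ F (2 * k) ∧ NT ∅ (f.sc (DJ J)) = 2 ^ j} : Set (Finset (Pl F))).ncard : ℝ) /
      ((SJ F (2 * k)).ncard : ℝ) := rfl
    rw [this] at hj
    linarith
  refine key.trans (mul_le_mul_of_nonneg_right (by linarith) (by positivity))

end Pool.Agent.H456.PS
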