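import Pool.Agent.H456.PS.Stm
import Pool.Agent.H456.PP.T_T3

/-!
(lcn) `S_lcn`: over the completion at a place where the cubic has no root the points are divisible by two, so their
classes are trivial (helper77 for helper456). (1) `lcn_ff`: over a finite field the group of the points of `y² = f(x)` has no
element of order two if `f` has no root, so doubling is bijective and the quartic `gp f x y` of a point has a root.
(2) `lcn_res`, `lcn_hens`: for an integral point of the cubic without roots modulo `π` the root modulo `π` is simple (the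
derivative is `8 y₁`, `y₁² = f(x₁)`), so it can be lifted. (3) `lcn_big`: for the points near the origin `x = ξ²` and the
quartic scaled by `ξ` is congruent to `(k + m)³ (k - 3 m)`. (4) Other points do not exist if `D` is not a unit.
(5) `lcn_sqA`: a root of the quartic gives a square root of `x - θ`.
-/

set_option autoImplicit false
set_option linter.all false

open Polynomial Finset Filter
open Pool.Agent.H456.EC (toK toK_inj sig toK_eq reflect_toK cls)
open Pool.Agent.H456.RN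
open Pool.Agent.H456.BQ
open Pool.Agent.H456.Coh (TF)
open Pool.Agent.H456.PP (OneR NoR HasRt sx hh Tz Tq Iso3 nr IsoP nrP)
open Pool.Agent.H456.PP (T3V T3_V T3_inj T3_cases T3_sqin T3_gpmap T3_gpsc T3_even)
open Pool.Agent.H456.PR

namespace Pool.Agent.H456.PS

/-- a tangent at `(x₁, y₁)` gives a root of the quartic of the double -/
theorem lcn_gp {R : Type*} [CommRing R] (f : Cub R) (x y x₁ y₁ l : R) (e₁ : 2 * x₁ = l ^ 2 - f.a - x)
    (e₂ : y₁ = l * (x₁ - x) - y) : (gp f x y).ev l 1 = -4 * (f.dev x₁ - 2 * l * y₁) := by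
  simp only [Q4.ev, gp, Cub.dev]
  rw [e₂]
  linear_combination (6 * x₁ + 3 * l ^ 2 - 3 * f.a - 3 * x + 4 * f.a - 4 * l ^ 2) * e₁

/-- over a finite field the quartic of a point has a root if the cubic has no root -/
theorem lcn_ff {κ : Type} [Field κ] [Finite κ] (h2 : (2 : κ) ≠ 0) (f : Cub κ) (hf : f.disc ≠ 0)
    (hr : ∀ r, f.ev r ≠ 0) (x y : κ) (h : y ^ 2 = f.ev x) : ∃ l : κ, (gp f x y).ev l 1 = 0 := by
  classical
  have hfin : Finite (crv f).toAffine.Point := by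
    have hinj : Function.Injective (fun p : (crv f).toAffine.Point => (match p with
      | .zero => (none : Option (κ × κ))
      | .some a b _ => some (a, b))) := by
      intro p q hpq
      rcases p with _ | ⟨a, b, hp⟩ <;> rcases q with _ | ⟨c, d, hq⟩
      · rfl
      · simp at hpq
      · simp at hpq
      · simp only [Option.some.injEq, Prod.mk.injEq] at hpq
        obtain ⟨h1, h2⟩ := hpq
        subst h1 h2
        rfl
    exact Finite.of_injective _ hinj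
  -- doubling
  have dbl : ∀ (x₁ y₁ : κ) (h₁ : y₁ ^ 2 = f.ev x₁), ∃ (x₃ y₃ : κ) (h₃ : y₃ ^ 2 = f.ev x₃),
      (2 : ℕ) • pt hf h2 h₁ = pt hf h2 h₃ ∧ ∃ l : κ, (gp f x₃ y₃).ev l 1 = 0 := by
    intro x₁ y₁ h₁
    have hy : y₁ ≠ 0 := by
      rintro rfl
      exact hr x₁ (by rw [← h₁]; ring)
    obtain ⟨l, hl⟩ : ∃ l : κ, l * (2 * y₁) = f.dev x₁ := ⟨f.dev x₁ / (2 * y₁), by
      rw [div_mul_cancel₀]; exact mul_ne_zero h2 hy⟩
    obtain ⟨x₃, e₁⟩ : ∃ x₃ : κ, x₃ = l ^ 2 - f.a - x₁ - x₁ := ⟨_, rfl⟩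
    obtain ⟨y₃, e₂⟩ : ∃ y₃ : κ, y₃ = -(l * (x₃ - x₁) + y₁) := ⟨_, rfl⟩
    have h₃ : y₃ ^ 2 = f.ev x₃ := by
      rw [e₂]
      simp only [Cub.ev, Cub.dev] at *
      linear_combination h₁ + (x₃ - x₁) * hl + (x₁ - x₃) ^ 2 * (-1) * e₁
    refine ⟨x₃, y₃, h₃, tangent hf h2 h₁ h₃ hy hl e₁ e₂, l, ?_⟩
    rw [lcn_gp f x₃ y₃ x₁ y₁ l (by linear_combination e₁) (by linear_combination e₂)]
    linear_combination (-4) * (-hl)
  have hinj : Function.Injective (nsmulAddMonoidHom (α := (crv f).toAffine.Point) 2) := by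
    rw [injective_iff_map_eq_zero]
    intro p hp
    by_contra hp0
    obtain ⟨x₁, y₁, h₁, rfl⟩ := exists_pt hf h2 hp0
    obtain ⟨x₃, y₃, h₃, e, -⟩ := dbl x₁ y₁ h₁
    rw [nsmulAddMonoidHom_apply, e] at hp
    exact WeierstrassCurve.Affine.Point.some_ne_zero _ hp
  obtain ⟨p, hp⟩ := (Finite.injective_iff_surjective.1 hinj) (pt hf h2 h)
  rw [nsmulAddMonoidHom_apply] at hp
  have hp0 : p ≠ 0 := by
    rintro rfl
    rw [nsmul_zero] at hp
    exact WeierstrassCurve.Affine.Point.some_ne_zero _ hp.symm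
  obtain ⟨x₁, y₁, h₁, rfl⟩ := exists_pt hf h2 hp0
  obtain ⟨x₃, y₃, h₃, e, l, hl⟩ := dbl x₁ y₁ h₁
  rw [e] at hp
  unfold pt at hp
  rw [WeierstrassCurve.Affine.Point.some.injEq] at hp
  obtain ⟨rfl, rfl⟩ := hp
  exact ⟨l, hl⟩

/-- a root of the quartic gives a square root of `x - θ` -/
theorem lcn_sqA_R {R : Type*} [CommRing R] (a b c x y l x₁ y₁ i θ : R) (e₁ : 2 * x₁ = l ^ 2 - a - x)
    (h₁ : y₁ ^ 2 = x₁ ^ 3 + a * x₁ ^ 2 + b * x₁ + c) (hd : 3 * x₁ ^ 2 + 2 * a * x₁ + b = 2 * l * y₁) (hi : i * y₁ = 1)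
    (hθ : θ ^ 3 + a * θ ^ 2 + b * θ + c = 0) :
    x - θ = (l - i * (θ ^ 2 + (x₁ + a) * θ + (x₁ ^ 2 + a * x₁ + b))) ^ 2 := by
  obtain ⟨Q, hQd⟩ : ∃ Q : R, Q = θ ^ 2 + (x₁ + a) * θ + (x₁ ^ 2 + a * x₁ + b) := ⟨_, rfl⟩
  rw [← hQd]
  have hQ : (θ - x₁) * Q = -y₁ ^ 2 := by
    rw [hQd]
    linear_combination hθ + h₁
  have hQ2 : Q ^ 2 = -y₁ ^ 2 * (θ - x₁) - (3 * x₁ + a) * y₁ ^ 2 + 2 * l * y₁ * Q := by
    have e : Q = (3 * x₁ ^ 2 + 2 * a * x₁ + b) + (3 * x₁ + a) * (θ - x₁) + (θ - x₁) ^ 2 := by rw [hQd]; ring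
    have e2 : Q ^ 2 = (3 * x₁ ^ 2 + 2 * a * x₁ + b) * Q + (3 * x₁ + a) * ((θ - x₁) * Q) +
        (θ - x₁) * ((θ - x₁) * Q) := by
      nth_rw 1 [sq]
      nth_rw 1 [e]
      ring
    rw [e2, hQ, hd]
    ring
  have e3 : (l - i * Q) ^ 2 = l ^ 2 - 2 * l * i * Q + i ^ 2 * Q ^ 2 := by ring
  rw [e3, hQ2]
  linear_combination e₁ + ((i * y₁ + 1) * (θ - x₁ + 3 * x₁ + a) - 2 * l * i * Q) * hi

section loc

variable {O : Type} [CommRing O] [IsDomain O] {π : O}

/-- an approximate root of the quartic of an integral point can be lifted -/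
theorem lcn_hens {F : Type} [Field F] {P : F[X]} {ι : F[X] →+* O} (hL : Lc4 P π ι) (V : T3V O π) (f : Cub O)
    (hr : ∀ r, ¬ π ∣ f.ev r) (x y h : O) (hxy : y ^ 2 = f.ev x) (hh : π ∣ (gp f x y).ev h 1) :
    ∃ l : O, (gp f x y).ev l 1 = 0 := by
  obtain ⟨t, ht⟩ := V.two.exists_right_inv
  obtain ⟨x₁, e₁⟩ : ∃ x₁ : O, 2 * x₁ = h ^ 2 - f.a - x := ⟨t * (h ^ 2 - f.a - x), by
    linear_combination (h ^ 2 - f.a - x) * ht⟩
  obtain ⟨y₁, e₂⟩ : ∃ y₁ : O, y₁ = h * (x₁ - x) - y := ⟨_, rfl⟩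
  have key : 4 * f.ev x₁ = 4 * y₁ ^ 2 - (x₁ - x) * (gp f x y).ev h 1 := by
    rw [e₂]
    simp only [Cub.ev, gp, Q4.ev] at hxy ⊢
    linear_combination (-4) * hxy + (x₁ - x) * (2 * x₁ + h ^ 2 - f.a - x + 2 * (x + f.a - h ^ 2)) * e₁
  have hc1 : 4 * h ^ 3 - 2 * (6 * x + 2 * f.a) * h - 8 * y = 8 * y₁ := by
    rw [e₂]
    linear_combination (-4 * h) * e₁
  have hu : IsUnit (4 * h ^ 3 - 2 * (6 * x + 2 * f.a) * h - 8 * y) := by
    apply V.un
    rw [hc1]
    intro hd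
    have h1 : π ∣ y₁ := by
      have e : y₁ = t ^ 3 * (8 * y₁) := by
        have e3 : (2 * t) ^ 3 = 1 := by rw [ht, one_pow]
        linear_combination (-y₁) * e3
      rw [e]
      exact Dvd.dvd.mul_left hd _
    apply hr x₁
    have e : f.ev x₁ = t ^ 2 * (4 * f.ev x₁) := by
      have e3 : (2 * t) ^ 2 = 1 := by rw [ht, one_pow]
      linear_combination (-f.ev x₁) * e3
    rw [e, key]
    refine Dvd.dvd.mul_left (dvd_sub ?_ (Dvd.dvd.mul_left hh _)) _
    rw [sq]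
    exact Dvd.dvd.mul_left (Dvd.dvd.mul_right h1 _) _
  obtain ⟨w, -, hw⟩ := hL.hensel4 ((gp f x y).ev h 1) _ (6 * h ^ 2 - (6 * x + 2 * f.a)) (4 * h) 1 hh hu
  refine ⟨h + w, ?_⟩
  simp only [gp, Q4.ev] at hw ⊢
  linear_combination hw

theorem lcn_res {F : Type} [Field F] [Fintype F] (h2 : (2 : F) ≠ 0) (P : Pl F) {ι : F[X] →+* O} (hL : Lc4 P.1 π ι)
    (V : T3V O π) (f : Cub O) (hf : NoR π f) (x y : O) (hxy : y ^ 2 = f.ev x) : ∃ h : O, π ∣ (gp f x y).ev h 1 := by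
  have hM : (Ideal.span {π}).IsMaximal := by
    rw [Ideal.isMaximal_iff]
    refine ⟨?_, ?_⟩
    · rw [Ideal.mem_span_singleton]
      exact fun h => V.nonunit (isUnit_of_dvd_one h)
    · intro J a hJ ha haJ
      rw [Ideal.mem_span_singleton] at ha
      have hu := V.un a ha
      rw [J.eq_top_of_isUnit_mem haJ hu]
      exact Submodule.mem_top
  letI : Field (O ⧸ Ideal.span {π}) := Ideal.Quotient.field _
  have hz : ∀ a : O, Ideal.Quotient.mk (Ideal.span {π}) a = 0 ↔ π ∣ a := by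
    intro a
    rw [Ideal.Quotient.eq_zero_iff_mem, Ideal.mem_span_singleton]
  haveI : Finite (O ⧸ Ideal.span {π}) := by
    haveI : Finite (Rq P.1) := finite_Rq P.2.1
    apply Finite.of_surjective (Ideal.Quotient.lift (Ideal.span {P.1}) ((Ideal.Quotient.mk (Ideal.span {π})).comp ι) (by
      intro a ha
      rw [Ideal.mem_span_singleton] at ha
      rw [RingHom.comp_apply, hz]
      have := (hL.dvd 1 a).2 (by rwa [pow_one])
      rwa [pow_one] at this))
    intro b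
    obtain ⟨b, rfl⟩ := Ideal.Quotient.mk_surjective b
    obtain ⟨c, hc⟩ := hL.dense 1 b
    rw [pow_one] at hc
    refine ⟨Ideal.Quotient.mk _ c, ?_⟩
    rw [Ideal.Quotient.lift_mk, RingHom.comp_apply, Ideal.Quotient.eq, Ideal.mem_span_singleton]
    have e : ι c - b = -(b - ι c) := by ring
    rw [e]
    exact hc.neg_right
  have h2' : (2 : O ⧸ Ideal.span {π}) ≠ 0 := by
    have h := V.two.map (Ideal.Quotient.mk (Ideal.span {π}))
    rw [map_ofNat] at h
    exact h.ne_zero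
  obtain ⟨l, hl⟩ := lcn_ff h2' (f.map (Ideal.Quotient.mk (Ideal.span {π}))) (by
    rw [Cub.map_disc]
    intro h
    exact hf.1 ((hz _).1 h)) (by
    intro r hr
    obtain ⟨r, rfl⟩ := Ideal.Quotient.mk_surjective r
    apply hf.2 r
    rw [← hz, ← hr]
    simp only [Cub.ev, Cub.map, map_add, map_mul, map_pow]) (Ideal.Quotient.mk (Ideal.span {π}) x)
    (Ideal.Quotient.mk (Ideal.span {π}) y) (by
      rw [← map_pow, hxy]
      simp only [Cub.ev, Cub.map, map_add, map_mul, map_pow])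
  obtain ⟨h, rfl⟩ := Ideal.Quotient.mk_surjective l
  refine ⟨h, ?_⟩
  rw [← hz, ← hl]
  simp only [gp, Q4.ev, Cub.map, map_add, map_sub, map_mul, map_pow, map_neg, map_one, map_zero, map_ofNat]

theorem lcn_nor (V : T3V O π) {f : Cub O} (hf : NoR π f) {u : O} (hu : IsUnit u) : NoR π (f.sc u) := by
  obtain ⟨v, hv⟩ := hu.exists_right_inv
  have hv' : ∀ (k : ℕ) (x : O), π ∣ u ^ k * x → π ∣ x := by
    intro k x h
    have e : x = v ^ k * (u ^ k * x) := by
      have e1 : (u * v) ^ k = 1 := by rw [hv, one_pow]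
      rw [mul_pow] at e1
      linear_combination (-x) * e1
    rw [e]
    exact Dvd.dvd.mul_left h _
  have ev : ∀ r : O, (f.sc u).ev r = u ^ 3 * f.ev (v * r) := by
    intro r
    simp only [Cub.ev, Cub.sc]
    have e1 : (u * v) ^ 2 = 1 := by rw [hv, one_pow]
    have e2 : (u * v) ^ 3 = 1 := by rw [hv, one_pow]
    linear_combination (-(u ^ 2 * f.b * r)) * hv + (-(u * f.a * r ^ 2)) * e1 + (-(r ^ 3)) * e2
  refine ⟨?_, ?_⟩
  · intro h
    apply hf.1
    apply hv' 6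
    have e : (f.sc u).disc = u ^ 6 * f.disc := by
      simp only [Cub.disc, Cub.sc]; ring
    rwa [e] at h
  · intro r hr
    rw [ev] at hr
    exact hf.2 _ (hv' 3 _ hr)

end loc

section fld

variable {O L : Type} [CommRing O] [IsDomain O] [Field L] [Algebra O L] [IsFractionRing O L] {π : O}

theorem lcn_nr (V : T3V O π) {f : Cub O} (hf : ∀ r, ¬ π ∣ f.ev r) (D : O) (hD : D ≠ 0) (r : L) :
    ((f.sc D).map (algebraMap O L)).ev r ≠ 0 := by
  intro h
  have hD' : algebraMap O L D ≠ 0 := (map_ne_zero_iff _ T3_inj).2 hD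
  rcases T3_cases V (r / algebraMap O L D) with ⟨r', h'⟩ | ⟨u, n, hu, hn, h'⟩
  · have e : r = algebraMap O L D * algebraMap O L r' := by
      rw [h']; field_simp
    have e2 : algebraMap O L (D ^ 3 * f.ev r') = 0 := by
      rw [← h, e]
      simp only [Cub.ev, Cub.map, Cub.sc, map_add, map_mul, map_pow]; ring
    have e3 : D ^ 3 * f.ev r' = 0 := (map_eq_zero_iff _ T3_inj).1 e2
    apply hf r'
    rw [(mul_eq_zero.1 e3).resolve_left (pow_ne_zero _ hD)]
    exact dvd_zero _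
  · have e : r * algebraMap O L π ^ n = algebraMap O L D * algebraMap O L u := by
      rw [← h']; field_simp
    have e2 : algebraMap O L (D ^ 3 * (u ^ 3 + f.a * u ^ 2 * π ^ n + f.b * u * (π ^ n) ^ 2 + f.c * (π ^ n) ^ 3)) = 0 := by
      simp only [Cub.ev, Cub.map, Cub.sc, map_add, map_mul, map_pow] at h ⊢
      generalize algebraMap O L D = D' at *
      generalize algebraMap O L u = u' at *
      generalize algebraMap O L π ^ n = q at *
      linear_combination q ^ 3 * h - (r ^ 2 * q ^ 2 + r * q * (D' * u') + (D' * u') ^ 2 + D' * algebraMap O L f.a * q *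
        (r * q + D' * u') + D' ^ 2 * algebraMap O L f.b * q ^ 2) * e
    have e3 := (mul_eq_zero.1 ((map_eq_zero_iff _ T3_inj).1 e2)).resolve_left (pow_ne_zero _ hD)
    apply V.nd (hu.pow 3)
    have e4 : u ^ 3 = π ^ n * (-(f.a * u ^ 2 + f.b * u * π ^ n + f.c * (π ^ n) ^ 2)) := by
      linear_combination e3
    rw [e4]
    exact Dvd.dvd.mul_right (dvd_pow_self _ (by omega)) _

/-- the points near the origin of the group -/
theorem lcn_big {F : Type} [Field F] {P : F[X]} {ι : F[X] →+* O} (hL : Lc4 P π ι) (V : T3V O π) (f : Cub O)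
    (D δ : O) (hδ : π ∣ δ) (x y : L) (hx : x ≠ 0) (hD : algebraMap O L D = x * algebraMap O L δ)
    (hxy : y ^ 2 = ((f.sc D).map (algebraMap O L)).ev x) : ∃ l : L, (gp ((f.sc D).map (algebraMap O L)) x y).ev l 1 = 0 := by
  have dv : π ∣ (f.sc δ).ev 1 - 1 ^ 2 := by
    have e : (f.sc δ).ev 1 - 1 ^ 2 = (f.a + δ * f.b + δ ^ 2 * f.c) * δ := by
      simp only [Cub.ev, Cub.sc]; ring
    rw [e]
    exact Dvd.dvd.mul_left hδ _
  have u1 : IsUnit ((f.sc δ).ev 1) := V.ucg isUnit_one (by rwa [one_pow] at dv)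
  obtain ⟨m, hm⟩ := V.sqc _ 1 u1 dv
  have mu : IsUnit m := by
    rw [← hm] at u1
    exact (isUnit_pow_iff (by norm_num)).1 u1
  have dm : π ∣ m ^ 2 - 1 := by
    rw [hm]
    rwa [one_pow] at dv
  obtain ⟨k, hk⟩ : ∃ k : O, (gp (f.sc δ) 1 m).ev k 1 = 0 := by
    have h0 : π ∣ (gp (f.sc δ) 1 m).ev (3 * m) 1 := by
      have e : (gp (f.sc δ) 1 m).ev (3 * m) 1 = (81 * (m ^ 2 + 1) - 78) * (m ^ 2 - 1) +
          (f.a ^ 2 * δ - 2 * f.a - 18 * f.a * m ^ 2 - 4 * f.b * δ) * δ := by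
        simp only [gp, Q4.ev, Cub.sc]; ring
      rw [e]
      exact dvd_add (Dvd.dvd.mul_left dm _) (Dvd.dvd.mul_left hδ _)
    have h1 : IsUnit (4 * (3 * m) ^ 3 - 2 * (6 * 1 + 2 * (f.sc δ).a) * (3 * m) - 8 * m) := by
      apply V.ucg (x := 2 ^ 6 * m) ((V.two.pow 6).mul mu)
      have e : 4 * (3 * m) ^ 3 - 2 * (6 * 1 + 2 * (f.sc δ).a) * (3 * m) - 8 * m - 2 ^ 6 * m =
          (108 * m) * (m ^ 2 - 1) + (-12 * f.a * m) * δ := by
        simp only [Cub.sc]; ring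
      rw [e]
      exact dvd_add (Dvd.dvd.mul_left dm _) (Dvd.dvd.mul_left hδ _)
    obtain ⟨w, -, hw⟩ := hL.hensel4 ((gp (f.sc δ) 1 m).ev (3 * m) 1) _ (6 * (3 * m) ^ 2 - (6 * 1 + 2 * (f.sc δ).a))
      (4 * (3 * m)) 1 h0 h1
    refine ⟨3 * m + w, ?_⟩
    simp only [gp, Q4.ev, Cub.sc] at hw ⊢
    linear_combination hw
  have m0 : algebraMap O L m ≠ 0 := (map_ne_zero_iff _ T3_inj).2 (V.un_ne mu)
  obtain ⟨ξ, hξ⟩ : ∃ ξ : L, ξ = y / (x * algebraMap O L m) := ⟨_, rfl⟩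
  have hy : y = ξ * (x * algebraMap O L m) := by
    rw [hξ]; field_simp
  have hm' := congrArg (algebraMap O L) hm
  have hξ2 : ξ ^ 2 = x := by
    have h1 : (x * algebraMap O L m) ^ 2 * ξ ^ 2 = (x * algebraMap O L m) ^ 2 * x := by
      have h4 : (x * algebraMap O L m) ^ 2 * ξ ^ 2 = y ^ 2 := by rw [hy]; ring
      rw [h4, hxy]
      simp only [Cub.ev, Cub.map, Cub.sc, map_add, map_mul, map_pow, map_one, hD] at hm' ⊢
      linear_combination (-x ^ 3) * hm'
    exact mul_left_cancel₀ (pow_ne_zero 2 (mul_ne_zero hx m0)) h1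
  refine ⟨ξ * algebraMap O L k, ?_⟩
  have e1 : (f.sc D).map (algebraMap O L) = ((f.sc δ).map (algebraMap O L)).sc (ξ ^ 2) := by
    ext
    · simp only [Cub.map, Cub.sc, map_mul, hD, hξ2]; ring
    · simp only [Cub.map, Cub.sc, map_mul, map_pow, hD, hξ2]; ring
    · simp only [Cub.map, Cub.sc, map_mul, map_pow, hD, hξ2]; ring
  have e2 : x = ξ ^ 2 * algebraMap O L 1 := by rw [hξ2, map_one, mul_one]
  have e3 : y = ξ ^ 3 * algebraMap O L m := by rw [hy, ← hξ2]; ring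
  rw [e1, e3]
  nth_rw 1 [e2]
  rw [T3_gpsc, T3_gpmap, hk, map_zero, mul_zero]

/-- a root of the quartic gives a square root -/
theorem lcn_sqA (h2 : (2 : L) ≠ 0) (g : Cub L) (hr : ∀ r, g.ev r ≠ 0) (x y l : L) (hxy : y ^ 2 = g.ev x)
    (hl : (gp g x y).ev l 1 = 0) : SqA g x (-1) 0 := by
  have h4 : (-4 : L) ≠ 0 := by
    have : (-4 : L) = -(2 ^ 2) := by norm_num
    rw [this]; exact neg_ne_zero.2 (pow_ne_zero _ h2)
  obtain ⟨x₁, e₁⟩ : ∃ x₁ : L, 2 * x₁ = l ^ 2 - g.a - x := ⟨(l ^ 2 - g.a - x) / 2, mul_div_cancel₀ _ h2⟩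
  obtain ⟨y₁, e₂⟩ : ∃ y₁ : L, y₁ = l * (x₁ - x) - y := ⟨_, rfl⟩
  have h₁ : y₁ ^ 2 = g.ev x₁ := point_of_quartic h2 hxy (z := 0) (h := l) (by rw [hl]; ring)
    (by linear_combination e₁) e₂
  have hy : y₁ ≠ 0 := by
    intro h
    apply hr x₁
    rw [← h₁, h]; ring
  have hd : g.dev x₁ = 2 * l * y₁ := by
    have := lcn_gp g x y x₁ y₁ l e₁ e₂
    rw [hl] at this
    exact sub_eq_zero.1 ((mul_eq_zero.1 this.symm).resolve_left h4)
  refine ⟨l - y₁⁻¹ * (x₁ ^ 2 + g.a * x₁ + g.b), -(y₁⁻¹ * (x₁ + g.a)), -y₁⁻¹, ?_⟩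
  intro R _ _ θ hθ
  have hi := congrArg (algebraMap L R) (inv_mul_cancel₀ hy)
  have e₁' := congrArg (algebraMap L R) e₁
  have h₁' := congrArg (algebraMap L R) h₁
  have hd' := congrArg (algebraMap L R) hd
  simp only [Cub.ev, Cub.map, Cub.dev] at hθ h₁' hd'
  simp only [map_add, map_sub, map_mul, map_pow, map_neg, map_one, map_zero, map_ofNat] at hθ hi e₁' h₁' hd' ⊢
  have := lcn_sqA_R (algebraMap L R g.a) (algebraMap L R g.b) (algebraMap L R g.c) (algebraMap L R x)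
    (algebraMap L R y) (algebraMap L R l) (algebraMap L R x₁) (algebraMap L R y₁) (algebraMap L R y₁⁻¹) θ e₁' h₁' hd'
    hi hθ
  linear_combination this

end fld

theorem t_lcn : S_lcn := by
  intro F _ _ h2 P O L _ _ _ _ _ π ι hL f hf D hD x y hxy
  have V := T3_V h2 P hL.toLc
  have hD0 : D ≠ 0 := by
    rintro rfl
    exact hD (dvd_zero _)
  have h2L : (2 : L) ≠ 0 := by
    have h := (map_ne_zero_iff _ (T3_inj (O := O) (L := L))).2 (V.un_ne V.two)
    rwa [map_ofNat] at h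
  have hD' : algebraMap O L D ≠ 0 := (map_ne_zero_iff _ T3_inj).2 hD0
  suffices hs : ∃ l : L, (gp ((f.sc D).map (algebraMap O L)) x y).ev l 1 = 0 by
    obtain ⟨l, hl⟩ := hs
    exact lcn_sqA h2L _ (lcn_nr V hf.2 D hD0) x y l hxy hl
  rcases T3_cases V (x / algebraMap O L D) with ⟨x', h'⟩ | ⟨u, n, hu, hn, h'⟩
  · have hx : x = algebraMap O L (D * x') := by
      rw [map_mul, h']; field_simp
    have ev : ((f.sc D).map (algebraMap O L)).ev x = algebraMap O L (D ^ 3 * f.ev x') := by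
      rw [hx]
      simp only [Cub.ev, Cub.map, Cub.sc, map_add, map_mul, map_pow]; ring
    rw [ev] at hxy
    obtain ⟨y', hy'⟩ := T3_sqin V hxy
    have h1 : y' ^ 2 = D ^ 3 * f.ev x' := by
      apply T3_inj (O := O) (L := L)
      rw [map_pow, hy', hxy]
    have hfu : IsUnit (f.ev x') := V.un _ (hf.2 x')
    obtain ⟨k, u, hu, hk⟩ := V.pow D hD0
    obtain hk0 | hk1 : k = 0 ∨ k = 1 := by
      by_contra hk2
      apply hD
      obtain ⟨i, rfl⟩ : ∃ i, k = i + 2 := ⟨k - 2, by omega⟩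
      rw [hk]
      exact ⟨u * π ^ i, by ring⟩
    · rw [hk0, pow_zero, mul_one] at hk
      rw [← hk] at hu
      have hg := lcn_nor V hf hu
      have h3 : y' ^ 2 = (f.sc D).ev (D * x') := by
        rw [h1]; simp only [Cub.ev, Cub.sc]; ring
      obtain ⟨h, hh⟩ := lcn_res h2 P hL V (f.sc D) hg (D * x') y' h3
      obtain ⟨l, hl⟩ := lcn_hens hL V (f.sc D) hg.2 (D * x') y' h h3 hh
      refine ⟨algebraMap O L l, ?_⟩
      rw [hx, ← hy', T3_gpmap, hl, map_zero]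
    · exfalso
      rw [hk1, pow_one] at hk
      have h3 : y' ^ 2 = u ^ 3 * π ^ 3 * f.ev x' := by
        rw [h1, hk]; ring
      have hy0 : y' ≠ 0 := by
        rintro rfl
        have h4 : u ^ 3 * π ^ 3 * f.ev x' = 0 := by rw [← h3]; ring
        exact mul_ne_zero (mul_ne_zero (pow_ne_zero _ (V.un_ne hu)) (pow_ne_zero _ V.ne)) (V.un_ne hfu) h4
      obtain ⟨j, b, hj, -⟩ := T3_even V hy0 (hu.pow 3) hfu h3
      omega
  · obtain ⟨v, hv⟩ := hu.exists_right_inv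
    have hv' := congrArg (algebraMap O L) hv
    rw [map_mul, map_one] at hv'
    have h1 : algebraMap O L D = x * algebraMap O L (π ^ n * v) := by
      rw [map_mul, map_pow]
      have h3 : x * algebraMap O L π ^ n = algebraMap O L D * algebraMap O L u := by
        rw [← h']; field_simp
      linear_combination (-(algebraMap O L D)) * hv' + (-(algebraMap O L v)) * h3
    apply lcn_big hL V f D (π ^ n * v) (Dvd.dvd.mul_right (dvd_pow_self _ (by omega)) _) x y _ h1 hxy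
    rintro rfl
    rw [zero_mul] at h1
    exact hD' h1

end Pool.Agent.H456.PS
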