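import Pool.Agent.H456.PS.Stm
import Pool.Agent.H456.PR.T_lu
import Pool.Agent.H456.PR.T_hlf
import Pool.Agent.H456.PR.T_fl2
import Pool.Agent.H456.PR.T_sxn

/-!
(nrt) Adapt PR/T_lu.lean and PR/T_hlv.lean. Let `L` be the completion of Mathlib at `P`, `O` its ring of integers (`t_mcomp`, `Lc4`), `j : RatFunc F → L`. `NoR π (f.map ι)` from `NoR P.1 f` (`Lc.dvd`, `Lc.dense`, compare `fl2_OneR` in PR/T_fl2.lean). `s' = (s.1.smul D, D s.2)` is a pair of `f.sc D` which is soluble over `L`. If it has no root, as in T_lu/T_hlv it is equivalent to the pair `(gp g x y, -(2x + 2a))` of a point `(x, y)` of `y² = g(x)`, `g = (f.sc D)` over `L`, by the results on soluble pairs (BQ/T_sol.lean). `S_lcn` gives `SqA g x (-1) 0` and `S_hlf` gives a root of `gp g x y`, so `s'` has a root (roots are moved by the matrix of `PE`), a contradiction. A root of `s.1.smul D` is a root of `s.1`. `D ≠ 0` since `¬ P² ∣ D`.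
-/

set_option autoImplicit false
set_option linter.all false

open Polynomial Finset Filter
open Pool.Agent.H456.EC (toK toK_inj sig toK_eq reflect_toK cls)
open Pool.Agent.H456.RN
open Pool.Agent.H456.BQ
open Pool.Agent.H456.Coh (TF)
open Pool.Agent.H456.PP (OneR NoR HasRt sx hh Tz Tq Iso3 nr IsoP nrP)
open Pool.Agent.H456.PR

namespace Pool.Agent.H456.PS

theorem nrt_NoR {F : Type} [Field F] {P : F[X]} {O : Type} [CommRing O] {π : O} {ι : F[X] →+* O}
    (hL : Lc P π ι) {f : Cub F[X]} (h : NoR P f) : NoR π (f.map ι) := by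
  have hd : ∀ x : F[X], π ∣ ι x ↔ P ∣ x := by
    intro x
    have := hL.dvd 1 x
    rwa [pow_one, pow_one] at this
  obtain ⟨h1, h3⟩ := h
  refine ⟨?_, ?_⟩
  · rw [Cub.map_disc, hd]; exact h1
  · intro x hx
    obtain ⟨y, hy⟩ := hL.dense 1 x
    rw [pow_one] at hy
    apply h3 y
    rw [← hd, ← Cub.map_ev]
    have := fl2_dvd_ev (f.map ι) hy
    exact (dvd_sub_right hx).1 this

theorem nrt_HasRt_smul {L : Type} [Field L] {g : Q4 L} {c : L} (hc : c ≠ 0) (h : HasRt (g.smul c)) : HasRt g := by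
  obtain ⟨u, v, huv, h0⟩ := h
  rw [Q4.ev_smul] at h0
  exact ⟨u, v, huv, (mul_eq_zero.1 h0).resolve_left hc⟩

/-- the local statement -/
theorem nrt_loc (hhlf : S_hlf) (hlcn : S_lcn) {F : Type} [Field F] [Fintype F] (h2 : (2 : F) ≠ 0) (P : Pl F)
    {f : Cub F[X]} (hf : NoR P.1 f) {D : F[X]} (hD : ¬ P.1 ^ 2 ∣ D) {O L : Type}
    [CommRing O] [IsDomain O] [Field L] [Algebra O L] [IsFractionRing O L] {π : O} {ι : F[X] →+* O}
    (hL : Lc4 P.1 π ι) (j : RatFunc F →+* L) (hj : ∀ x : F[X], j (toK F x) = algebraMap O L (ι x))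
    {s : Q4 (RatFunc F) × RatFunc F} (hs : s.1.res = ((f.map (toK F)).sc 4).tr s.2)
    (hsol : ((s.1.map j).smul (algebraMap O L (ι D))).Sol) : HasRt (s.1.map j) := by
  by_contra hn
  have h2L : (2 : L) ≠ 0 := by
    have h3 := (Pool.Agent.H456.PP.pt_two h2 ι).map (algebraMap O L)
    rw [map_ofNat] at h3
    exact h3.ne_zero
  have hfj : (f.map (toK F)).map j = (f.map ι).map (algebraMap O L) := by
    ext <;> simp only [Cub.map, hj]
  have hf' := nrt_NoR hL.toLc hf
  have hD' : ¬ π ^ 2 ∣ ι D := by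
    rw [hL.dvd 2 D]
    exact hD
  have hD0 : ι D ≠ 0 := by
    intro h
    rw [h] at hD'
    exact hD' (dvd_zero _)
  have hDL : algebraMap O L (ι D) ≠ 0 := (map_ne_zero_iff _ (IsFractionRing.injective O L)).2 hD0
  have hdisc : (((f.map ι).sc (ι D)).map (algebraMap O L)).disc ≠ 0 := by
    rw [Cub.map_disc, Cub.disc_sc]
    apply (map_ne_zero_iff _ (IsFractionRing.injective O L)).2
    refine mul_ne_zero (pow_ne_zero _ hD0) ?_
    intro h
    apply hf'.1
    rw [h]
    exact dvd_zero _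
  obtain ⟨s', hs'⟩ : ∃ s' : Q4 L × L, s' = ((s.1.map j).smul (algebraMap O L (ι D)), algebraMap O L (ι D) * j s.2) :=
    ⟨_, rfl⟩
  have r' : s'.1.res = ((((f.map ι).sc (ι D)).map (algebraMap O L)).sc 4).tr s'.2 := by
    rw [hs']
    show ((s.1.map j).smul (algebraMap O L (ι D))).res =
      ((((f.map ι).sc (ι D)).map (algebraMap O L)).sc 4).tr (algebraMap O L (ι D) * j s.2)
    rw [Q4.res_smul, Q4.map_res, hs, Cub.map_tr, Cub.map_sc, map_ofNat, hfj, Cub.sc_tr, Cub.sc_sc, Cub.map_sc,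
      Cub.sc_sc, mul_comm (4 : L)]
  have k' : s'.1.Sol := by
    rw [hs']
    exact hsol
  have n' : ¬ HasRt s'.1 := by
    rw [hs']
    exact fun h => hn (nrt_HasRt_smul hDL h)
  obtain ⟨x, y, M, e, hy, m, p⟩ := lu_point t_sxn h2 P hL _ hdisc s' r' k' n'
  exact m (hhlf L h2L _ hdisc x y e (hlcn F h2 P O L π ι hL (f.map ι) hf' (ι D) hD' x y e))

theorem t_nrt : S_hlf → S_lcn → S_nrt := by
  intro hhlf hlcn F _ _ h2 P f hf D hD s hs hLS
  have hL := t_mcomp F P
  have k := hLS ((plv P).adicCompletionIntegers (RatFunc F)) ((plv P).adicCompletion (RatFunc F)) _ _ hL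
    (algebraMap (RatFunc F) ((plv P).adicCompletion (RatFunc F))) (fun x => rfl)
  rw [Q4.map_smul] at k
  exact nrt_loc hhlf hlcn h2 P hf hD hL (algebraMap (RatFunc F) ((plv P).adicCompletion (RatFunc F)))
    (fun x => rfl) hs k

end Pool.Agent.H456.PS
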