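import Pool.Agent.H456.PS.Stm
import Pool.Agent.H456.BQ.T_selinv

/-!
(nsq) from the bijection of T_selinv.
-/

set_option autoImplicit false
set_option linter.all false

open Polynomial Finset Filter
open Pool.Agent.H456.EC (toK toK_inj sig toK_eq reflect_toK cls)
open Pool.Agent.H456.RN
open Pool.Agent.H456.BQ
open Pool.Agent.H456.Coh (TF)
open Pool.Agent.H456.PP (OneR NoR HasRt sx hh Tz Tq Iso3 nr IsoP nrP)
open Pool.Agent.H456.PR

namespace Pool.Agent.H456.PS

section nsq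

theorem nsq_rt {L : Type} [Field L] {g : Q4 L} {k : L} (h : HasRt g) : HasRt (g.smul k) := by
  obtain ⟨u, v, huv, h0⟩ := h
  exact ⟨u, v, huv, by rw [Q4.ev_smul, h0, mul_zero]⟩

variable {F : Type} [Field F]

theorem nsq_Rt {P : Pl F} {s : Q4 (RatFunc F) × RatFunc F} {k r : RatFunc F} (h : Rt P s) : Rt P (selinvMap k r s) := by
  unfold PR.Rt at h ⊢
  show HasRt ((s.1.smul (k ^ 2)).map _)
  rw [Q4.map_smul]
  exact nsq_rt h

/-- the bijection of the classes -/
noncomputable def nsq_q {k : RatFunc F} (hk : k ≠ 0) (r : RatFunc F) (f : Cub (RatFunc F)) :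
    Sel f ≃ Sel ((f.tr r).sc (k ^ 2)) :=
  Quotient.congr (selinvEquiv hk r f) (by
    intro s s'
    constructor
    · rintro ⟨M, hM⟩
      exact ⟨M, selinv_pe hM⟩
    · rintro ⟨M, hM⟩
      refine ⟨M, ?_⟩
      have h := selinv_pe (k := k⁻¹) (r := -(k ^ 2 * r)) hM
      have e1 := selinv_inv hk r s.1
      have e2 := selinv_inv hk r s'.1
      simp only [selinvEquiv, Equiv.coe_fn_mk] at h
      rwa [e1, e2] at h)

theorem nsq_q_mk {k : RatFunc F} (hk : k ≠ 0) (r : RatFunc F) (f : Cub (RatFunc F)) (s : Q4 (RatFunc F) × RatFunc F)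
    (h : IsSel f s) : nsq_q hk r f (selMk f s h) = selMk _ (selinvMap k r s) (selinv_is hk r h) := rfl

theorem nsq_tr {k : RatFunc F} (hk : k ≠ 0) (r : RatFunc F) (f : Cub (RatFunc F)) (P : Pl F) (σ : Sel f) :
    Tr P (nsq_q hk r f σ) ↔ Tr P σ := by
  constructor
  · rintro ⟨s, h, hs, hr⟩
    have h' := selinv_is (inv_ne_zero hk) (-(k ^ 2 * r)) h
    rw [selinv_cub hk] at h'
    refine ⟨selinvMap k⁻¹ (-(k ^ 2 * r)) s, h', ?_, nsq_Rt hr⟩
    apply (nsq_q hk r f).injective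
    rw [hs, nsq_q_mk, selMk_eq]
    have e := selinv_inv (inv_ne_zero hk) (-(k ^ 2 * r)) s
    have e3 : -(k⁻¹ ^ 2 * -(k ^ 2 * r)) = r := by field_simp
    rw [e3, inv_inv] at e
    rw [e]
    exact ⟨_, PE.refl s⟩
  · rintro ⟨s, h, hs, hr⟩
    exact ⟨selinvMap k r s, selinv_is hk r h, by rw [hs, nsq_q_mk], nsq_Rt hr⟩

end nsq

theorem t_nsq : S_nsq := by
  intro F _ T f u hu
  have hk : toK F u ≠ 0 := fun h => hu (toK_inj (h.trans (map_zero _).symm))
  have h : (f.sc (u ^ 2)).map (toK F) = ((f.map (toK F)).tr 0).sc (toK F u ^ 2) := by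
    rw [Cub.tr_zero, Cub.map_sc, map_pow]
  unfold NT
  rw [h]
  exact (Nat.card_congr ((nsq_q hk 0 (f.map (toK F))).subtypeEquiv fun σ =>
    forall₂_congr fun P _ => (nsq_tr _ _ _ P σ).symm)).symm

end Pool.Agent.H456.PS
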