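import Pool.Agent.H456.PS.Stm

/-!
(prt) Let `D₁` be from `S_ty3 (η/2) (ε/4)`, `D₀ ≥ D₁`, `m`. `s₀` = number of places of degree `≤ D₀`, `c = 2^m · m · 4 + 1` (or larger), `W₀ ≥ D₀` large: for `d > w ≥ W₀` and every set `J₀` with `c #J₀ ≤ w` one needs `(2 r/(ε/4))^(2^m) ≤ N_d`, `r = 2^(m (s₀ + #J₀) + m²)`, `N_d ≥ q^d/(2d) ≥ 3^d/(2d)` (`S_irc`): since `m #J₀ 2^m ≤ w/4`, the left side is `≤ K 2^(w/4)`, `K` depending on `m, s₀, ε`. For `k ≥ k₀` (`S_ty1 m W₀ (ε/4)`, `S_ty2 c W₀ (ε/4)`), `w = W₀ + √k`, call `J ∈ SJ(2k)` good if `m ≤ #(Ud J w)`, `c #J ≤ w`, `∑_{Q∈J, D₀<deg Q} q^(-deg Q) ≤ η/2`: at least `(1 - 3ε/4) #SJ(2k)` sets are good. CANONICAL DECOMPOSITION of a good `J`: `e : Fin m → ℕ` the increasing enumeration of the `m` smallest elements of `Ud J w` (`Finset.orderEmbOfFin`), `P_i` the unique place of `J` of degree `e i`, `J₀ = J \ {P_i}`.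
For `(J₀, e)` from a good `J` ALL sets `J₀ ∪ {P'_i}`, `P'_i` any place of degree `e i`, are good with the same `(J₀, e)` (the properties and `Ud` depend only on the degrees of the places of `J`; `J₀` has no place of degree `e i`). So the set of the good `J` is the disjoint union over the finite set of the `(J₀, e)` of the products `∏_i V_i`, `V_i = {P : Pl F // deg P = e i}`. Apply `S_grd` with `ε/4` to each product and the colouring `c(P) = ((i, Q) ↦ SqM Q (P i) for Q ∈ {deg ≤ D₀} ∪ J₀, (i, j) ↦ SqM (P j) (P i))` (`C` = functions to `Prop` or `Bool`, `#C = 2^(m #(..) + m²)`). A monochromatic box `x` gives `p i a = x i a`: `BoxOK D₀ η J₀ p`: `inj`: the degrees `e i` are different and `x i true ≠ x i false`; `nJ`; `deg`; `big`: `e i > w ≥ D₀`;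
`small`, `sqJ`, `sqp`: `S_sqq` (equal colours at the vertices which differ only in the entry `i`; for `sqp i j b`: the vertices with entry `b` at `j` and `true`/`false` at `i`); `eta`: `∑_{J₀} + ∑_i 2/q^(e i) ≤ 2 ∑_{Q ∈ J, D₀ < deg Q} q^(-deg Q) ≤ η`. The vertices are in `SJ F (2k)` (same degree), disjointness from `S_grd` and the uniqueness of `(J₀, e)`. Total: `N 2^m ≥ (1 - ε/4) #good ≥ (1 - ε) #SJ(2k)`. Enumerate the boxes by `Fin N`.
-/

set_option autoImplicit false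
set_option linter.all false

open Polynomial Finset Filter
open Pool.Agent.H456.EC (toK toK_inj sig toK_eq reflect_toK cls)
open Pool.Agent.H456.RN
open Pool.Agent.H456.BQ
open Pool.Agent.H456.Coh (TF)
open Pool.Agent.H456.PP (OneR NoR HasRt sx hh Tz Tq Iso3 nr IsoP nrP)
open Pool.Agent.H456.PR

namespace Pool.Agent.H456.PS

section prt_gen

variable {F : Type} [Field F]

open Classical in
theorem prt_vsum {m : ℕ} (J₀ : Finset (Pl F)) (e : Fin m → ℕ) (he : Function.Injective e)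
    (P : Fin m → Pl F) (hP : ∀ i, (P i).1.natDegree = e i)
    (hJ : ∀ Q ∈ J₀, ∀ i, Q.1.natDegree ≠ e i) (g : ℕ → ℝ) :
    ∑ Q ∈ J₀ ∪ Finset.univ.image P, g Q.1.natDegree = ∑ Q ∈ J₀, g Q.1.natDegree + ∑ i, g (e i) := by
  rw [Finset.sum_union, Finset.sum_image]
  · congr 1
    exact Finset.sum_congr rfl fun i _ => by rw [hP i]
  · intro i _ j _ h
    apply he
    have h2 : P i = P j := h
    rw [← hP i, ← hP j, h2]
  · rw [Finset.disjoint_left]
    intro Q hQ hQ2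
    obtain ⟨i, -, rfl⟩ := Finset.mem_image.1 hQ2
    exact hJ _ hQ i (hP i)

open Classical in
theorem prt_mem_Ud (J : Finset (Pl F)) (w d : ℕ) :
    d ∈ Ud J w ↔ w < d ∧ ∑ P ∈ J, (if P.1.natDegree = d then (1 : ℝ) else 0) = 1 := by
  unfold Ud
  rw [Finset.mem_filter, Finset.mem_image, Finset.sum_boole]
  constructor
  · rintro ⟨-, h1, h2⟩
    exact ⟨h1, by rw [h2]; norm_num⟩
  · rintro ⟨h1, h2⟩
    have h3 : (J.filter (fun P => P.1.natDegree = d)).card = 1 := by exact_mod_cast h2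
    obtain ⟨P, hP⟩ := Finset.card_eq_one.1 h3
    have h4 : P ∈ J.filter (fun P => P.1.natDegree = d) := by rw [hP]; exact Finset.mem_singleton_self P
    rw [Finset.mem_filter] at h4
    exact ⟨⟨P, h4.1, h4.2⟩, h1, h3⟩

theorem prt_deg (J : Finset (Pl F)) :
    ((DJ J).natDegree : ℝ) = ∑ P ∈ J, (P.1.natDegree : ℝ) := by
  unfold DJ
  rw [Polynomial.natDegree_prod_of_monic _ _ fun P _ => P.2.1]
  push_cast
  rfl

theorem prt_inv (J J' : Finset (Pl F))
    (h : ∀ g : ℕ → ℝ, ∑ Q ∈ J', g Q.1.natDegree = ∑ Q ∈ J, g Q.1.natDegree) :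
    (DJ J').natDegree = (DJ J).natDegree ∧ J'.card = J.card ∧ ∀ w, Ud J' w = Ud J w := by
  refine ⟨?_, ?_, ?_⟩
  · have h1 := h fun d => (d : ℝ)
    rw [← prt_deg, ← prt_deg] at h1
    exact_mod_cast h1
  · have h1 := h fun _ => 1
    simp only [Finset.sum_const, nsmul_eq_mul, mul_one] at h1
    exact_mod_cast h1
  · intro w
    ext d
    rw [prt_mem_Ud, prt_mem_Ud, h fun x => if x = d then (1 : ℝ) else 0]

theorem prt_ndvd (P Q : Pl F) (h : P ≠ Q) : ¬ P.1 ∣ Q.1 := by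
  intro hd
  apply h
  apply Subtype.ext
  exact Polynomial.eq_of_monic_of_associated P.2.1 Q.2.1 (P.2.2.associated_of_dvd Q.2.2 hd)

open Classical in
/-- the decomposition of a set of places with respect to degrees of exactly one place -/
theorem prt_dec {m : ℕ} (J : Finset (Pl F)) (w : ℕ) (e : Fin m → ℕ) (he : ∀ i, e i ∈ Ud J w) :
    ∃ P : Fin m → Pl F, (∀ i, (P i).1.natDegree = e i) ∧
      J = J.filter (fun Q => ∀ i, Q.1.natDegree ≠ e i) ∪ Finset.univ.image P := by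
  have h1 : ∀ i, ∃ P : Pl F, J.filter (fun Q => Q.1.natDegree = e i) = {P} := by
    intro i
    have h2 := he i
    unfold Ud at h2
    rw [Finset.mem_filter] at h2
    exact Finset.card_eq_one.1 h2.2.2
  choose P hP using h1
  have h3 : ∀ i, P i ∈ J ∧ (P i).1.natDegree = e i := by
    intro i
    have h4 : P i ∈ J.filter (fun Q => Q.1.natDegree = e i) := by
      rw [hP i]; exact Finset.mem_singleton_self _
    rw [Finset.mem_filter] at h4
    exact h4
  refine ⟨P, fun i => (h3 i).2, ?_⟩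
  ext Q
  rw [Finset.mem_union, Finset.mem_filter, Finset.mem_image]
  constructor
  · intro hQ
    by_cases h : ∀ i, Q.1.natDegree ≠ e i
    · exact Or.inl ⟨hQ, h⟩
    · push Not at h
      obtain ⟨i, hi⟩ := h
      refine Or.inr ⟨i, Finset.mem_univ i, ?_⟩
      have h5 : Q ∈ J.filter (fun Q => Q.1.natDegree = e i) := Finset.mem_filter.2 ⟨hQ, hi⟩
      rw [hP i, Finset.mem_singleton] at h5
      exact h5.symm
  · rintro (⟨hQ, -⟩ | ⟨i, -, rfl⟩)
    · exact hQ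
    · exact (h3 i).1

end prt_gen

/-- choice of `m` elements -/
theorem prt_choice (m : ℕ) : ∃ E : Finset ℕ → Fin m → ℕ, ∀ S : Finset ℕ, m ≤ S.card →
    Function.Injective (E S) ∧ ∀ i, E S i ∈ S := by
  have h : ∀ S : Finset ℕ, ∃ e : Fin m → ℕ, m ≤ S.card → Function.Injective e ∧ ∀ i, e i ∈ S := by
    intro S
    by_cases hS : m ≤ S.card
    · refine ⟨fun i => S.orderEmbOfFin rfl (Fin.castLE hS i), fun _ => ⟨?_, fun i => ?_⟩⟩
      · intro i j hij
        have h1 := (S.orderEmbOfFin rfl).injective hij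
        exact Fin.castLE_injective hS h1
      · exact Finset.orderEmbOfFin_mem S rfl _
    · exact ⟨fun _ => 0, fun h => absurd h hS⟩
  choose E hE using h
  exact ⟨E, hE⟩

/-- the numerical estimate -/
theorem prt_num (K : ℝ) (hK : 0 ≤ K) : ∃ W : ℕ, ∀ d : ℕ, W ≤ d → K ^ 2 * (2 * d) ^ 2 ≤ 2 ^ d := by
  have h1 : Filter.Tendsto (fun n : ℕ => (n : ℝ) ^ 2 / 2 ^ n) Filter.atTop (nhds 0) :=
    tendsto_pow_const_div_const_pow_of_one_lt 2 (by norm_num)
  have h2 : ∀ᶠ n : ℕ in Filter.atTop, (n : ℝ) ^ 2 / 2 ^ n ≤ 1 / (4 * K ^ 2 + 1) :=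
    (h1.eventually (ge_mem_nhds (by positivity)))
  obtain ⟨W, hW⟩ := Filter.eventually_atTop.1 h2
  refine ⟨W, fun d hd => ?_⟩
  have h3 := hW d hd
  rw [div_le_div_iff₀ (by positivity) (by positivity)] at h3
  have h4 : (0 : ℝ) ≤ (d : ℝ) ^ 2 := by positivity
  calc K ^ 2 * (2 * (d : ℝ)) ^ 2 = (d : ℝ) ^ 2 * (4 * K ^ 2) := by ring
    _ ≤ (d : ℝ) ^ 2 * (4 * K ^ 2 + 1) := mul_le_mul_of_nonneg_left (by linarith) h4
    _ ≤ 1 * 2 ^ d := h3
    _ = 2 ^ d := one_mul _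

/-- the lower bound for the number of places -/
theorem prt_large (K : ℝ) (hK : 0 ≤ K) (q d E N : ℕ) (hq : 2 ≤ q) (hd : 1 ≤ d)
    (h1 : K ^ 2 * (2 * (d : ℝ)) ^ 2 ≤ 2 ^ d) (h2 : 2 * E ≤ d) (h3 : q ^ d ≤ 2 * d * N) :
    K * 2 ^ E ≤ (N : ℝ) := by
  have hd0 : (0 : ℝ) < 2 * d := by
    have : (0 : ℝ) < d := by exact_mod_cast hd
    linarith
  have hq' : (2 : ℝ) ≤ q := by exact_mod_cast hq
  have h4 : (K * 2 ^ E * (2 * d)) ^ 2 ≤ ((q : ℝ) ^ d) ^ 2 := by
    have e1 : ((2 : ℝ) ^ E) ^ 2 ≤ 2 ^ d := by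
      rw [← pow_mul]
      exact pow_le_pow_right₀ (by norm_num) (by omega)
    have e2 : (2 : ℝ) ^ d ≤ (q : ℝ) ^ d := pow_le_pow_left₀ (by norm_num) hq' d
    calc (K * 2 ^ E * (2 * d)) ^ 2 = (K ^ 2 * (2 * (d : ℝ)) ^ 2) * (2 ^ E) ^ 2 := by ring
      _ ≤ 2 ^ d * 2 ^ d := mul_le_mul h1 e1 (by positivity) (by positivity)
      _ ≤ (q : ℝ) ^ d * (q : ℝ) ^ d := mul_le_mul e2 e2 (by positivity) (by positivity)
      _ = _ := by ring
  have h5 : K * 2 ^ E * (2 * d) ≤ (q : ℝ) ^ d := by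
    refine le_of_sq_le_sq h4 (by positivity)
  have h6 : ((q : ℝ)) ^ d ≤ (N : ℝ) * (2 * d) := by
    have : (q : ℝ) ^ d ≤ 2 * d * N := by exact_mod_cast h3
    linarith
  exact le_of_mul_le_mul_right (h5.trans h6) hd0

open Classical in
/-- the boxes in one product -/
theorem prt_box (hsqq : S_sqq) (hgrd : S_grd) (F : Type) [Field F] [Fintype F] (h2 : (2 : F) ≠ 0)
    {m : ℕ} (L0 J₀ : Finset (Pl F)) (D₀ : ℕ) (hL0 : ∀ Q : Pl F, Q ∈ L0 ↔ Q.1.natDegree ≤ D₀)
    (e : Fin m → ℕ) (he : Function.Injective e) (heD : ∀ i, D₀ < e i)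
    (hJ : ∀ Q ∈ J₀, ∀ i, Q.1.natDegree ≠ e i)
    (hfin : ∀ i, {P : Pl F | P.1.natDegree = e i}.Finite) (δ : ℝ) (hδ : 0 < δ)
    (hbig : ∀ i, (2 * ((2 : ℝ) ^ (m * (L0.card + J₀.card) + m * m)) / δ) ^ (2 ^ m) ≤
      ({P : Pl F | P.1.natDegree = e i}.ncard : ℝ)) :
    ∃ I : Finset (Fin m → Bool → Pl F),
      (∀ x ∈ I, ∀ i a, (x i a).1.natDegree = e i) ∧
      (∀ x ∈ I, ∀ i, x i true ≠ x i false) ∧
      (∀ x ∈ I, ∀ i, ∀ Q, (Q ∈ L0 ∨ Q ∈ J₀) → SqM Q ((x i true).1 * (x i false).1)) ∧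
      (∀ x ∈ I, ∀ i j b, j ≠ i → SqM (x j b) ((x i true).1 * (x i false).1)) ∧
      (∀ x ∈ I, ∀ y ∈ I, ∀ b b' : Fin m → Bool,
        (fun i => x i (b i)) = (fun i => y i (b' i)) → x = y ∧ b = b') ∧
      (1 - δ) * ∏ i, ({P : Pl F | P.1.natDegree = e i}.ncard : ℝ) ≤ I.card * 2 ^ m := by
  haveI hft : ∀ i, Fintype ↥{P : Pl F | P.1.natDegree = e i} := fun i => (hfin i).fintype
  have hcard : ∀ i, (Fintype.card ↥{P : Pl F | P.1.natDegree = e i} : ℝ) =
      ({P : Pl F | P.1.natDegree = e i}.ncard : ℝ) := by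
    intro i
    rw [← Nat.card_eq_fintype_card, Nat.card_coe_set_eq]
  have hCcard : (Fintype.card ((Fin m → ↥(L0 ∪ J₀) → Prop) × (Fin m → Fin m → Prop)) : ℝ) ≤
      (2 : ℝ) ^ (m * (L0.card + J₀.card) + m * m) := by
    rw [Fintype.card_prod, Fintype.card_fun, Fintype.card_fun, Fintype.card_fun, Fintype.card_fun,
      Fintype.card_prop, Fintype.card_fin, Fintype.card_coe]
    have h3 : (L0 ∪ J₀).card ≤ L0.card + J₀.card := Finset.card_union_le _ _
    have h4 : (2 ^ (L0 ∪ J₀).card) ^ m * (2 ^ m) ^ m ≤ 2 ^ (m * (L0.card + J₀.card) + m * m) := by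
      rw [← pow_mul, ← pow_mul, ← pow_add]
      refine Nat.pow_le_pow_right (by norm_num) ?_
      have := Nat.mul_le_mul_right m h3
      rw [mul_comm m (L0.card + J₀.card)]
      omega
    exact_mod_cast h4
  obtain ⟨I, i1, i2, i3, i4⟩ := hgrd m (fun i => ↥{P : Pl F | P.1.natDegree = e i})
    ((Fin m → ↥(L0 ∪ J₀) → Prop) × (Fin m → Fin m → Prop))
    (fun P => (fun i Q => SqM Q.1 (P i).1.1, fun i j => SqM (P j).1 (P i).1.1)) δ hδ (by
      intro i
      rw [hcard i]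
      refine le_trans ?_ (hbig i)
      refine pow_le_pow_left₀ (by positivity) ?_ _
      refine div_le_div_of_nonneg_right ?_ hδ.le
      exact mul_le_mul_of_nonneg_left hCcard (by norm_num))
  let φ : (∀ i : Fin m, Bool → ↥{P : Pl F | P.1.natDegree = e i}) → (Fin m → Bool → Pl F) :=
    fun x i a => (x i a).1
  have hφ : Function.Injective φ := by
    intro x y hxy
    funext i a
    exact Subtype.ext (congrFun (congrFun hxy i) a)
  have hne : ∀ (x : ∀ i : Fin m, Bool → ↥{P : Pl F | P.1.natDegree = e i}) (i : Fin m) (a : Bool)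
      (Q : Pl F), (Q ∈ L0 ∨ Q ∈ J₀) → Q ≠ (x i a).1 := by
    intro x i a Q hQ hcon
    have h3 : (x i a).1.1.natDegree = e i := (x i a).2
    rw [← hcon] at h3
    rcases hQ with hQ | hQ
    · have h4 := (hL0 Q).1 hQ
      have h5 := heD i
      omega
    · exact hJ Q hQ i h3
  have hne2 : ∀ (x : ∀ i : Fin m, Bool → ↥{P : Pl F | P.1.natDegree = e i}) (i j : Fin m)
      (a b : Bool), j ≠ i → (x j b).1 ≠ (x i a).1 := by
    intro x i j a b hji hcon
    have h3 : (x i a).1.1.natDegree = e i := (x i a).2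
    have h4 : (x j b).1.1.natDegree = e j := (x j b).2
    rw [hcon, h3] at h4
    exact hji (he h4).symm
  refine ⟨I.map ⟨φ, hφ⟩, ?_, ?_, ?_, ?_, ?_, ?_⟩
  · intro x hx i a
    obtain ⟨y, hy, rfl⟩ := Finset.mem_map.1 hx
    exact (y i a).2
  · intro x hx i
    obtain ⟨y, hy, rfl⟩ := Finset.mem_map.1 hx
    exact fun h => i1 y hy i (Subtype.ext h)
  · intro x hx i Q hQ
    obtain ⟨y, hy, rfl⟩ := Finset.mem_map.1 hx
    refine hsqq F h2 Q _ _ (prt_ndvd _ _ (hne y i true Q hQ)) (prt_ndvd _ _ (hne y i false Q hQ)) ?_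
    have h3 := i2 y hy (fun _ => true) (fun _ => false)
    have h4 := congrFun (congrFun (congrArg Prod.fst h3) i) ⟨Q, Finset.mem_union.2 hQ⟩
    exact iff_of_eq h4
  · intro x hx i j b hji
    obtain ⟨y, hy, rfl⟩ := Finset.mem_map.1 hx
    refine hsqq F h2 _ _ _ (prt_ndvd _ _ (hne2 y i j true b hji))
      (prt_ndvd _ _ (hne2 y i j false b hji)) ?_
    have h3 := i2 y hy (Function.update (fun _ => b) i true) (Function.update (fun _ => b) i false)
    have h4 := congrFun (congrFun (congrArg Prod.snd h3) i) j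
    have h5 : (Function.update (fun _ : Fin m => b) i true) i = true := Function.update_self _ _ _
    have h6 : (Function.update (fun _ : Fin m => b) i false) i = false :=
      Function.update_self _ _ _
    have h7 : (Function.update (fun _ : Fin m => b) i true) j = b := Function.update_of_ne hji _ _
    have h8 : (Function.update (fun _ : Fin m => b) i false) j = b := Function.update_of_ne hji _ _
    have h9 : SqM (y j ((Function.update (fun _ : Fin m => b) i true) j)).1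
        (y i ((Function.update (fun _ : Fin m => b) i true) i)).1.1 =
        SqM (y j ((Function.update (fun _ : Fin m => b) i false) j)).1
        (y i ((Function.update (fun _ : Fin m => b) i false) i)).1.1 := h4
    rw [h5, h6, h7, h8] at h9
    exact iff_of_eq h9
  · intro x hx y hy b b' h
    obtain ⟨x', hx', rfl⟩ := Finset.mem_map.1 hx
    obtain ⟨y', hy', rfl⟩ := Finset.mem_map.1 hy
    have h3 : (fun i => x' i (b i)) = (fun i => y' i (b' i)) := by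
      funext i
      exact Subtype.ext (congrFun h i)
    obtain ⟨h4, h5⟩ := i3 x' hx' y' hy' b b' h3
    exact ⟨by rw [h4], h5⟩
  · rw [Finset.card_map]
    refine le_trans (le_of_eq ?_) i4
    congr 1
    exact Finset.prod_congr rfl fun i _ => (hcard i).symm

theorem t_prt : S_grd → S_irc → S_sqc → S_ty1 → S_ty2 → S_ty3 → S_sqq → S_prt := by
  classical
  intro hgrd hirc hsqc hty1 hty2 hty3 hsqq F _ _ h2 η ε hη hε
  obtain ⟨δ, hδε, hδ0, hδ1⟩ : ∃ δ : ℝ, 4 * δ ≤ ε ∧ 0 < δ ∧ 4 * δ ≤ 1 := by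
    refine ⟨min ε 1 / 4, ?_, ?_, ?_⟩
    · have := min_le_left ε 1
      linarith
    · have : 0 < min ε 1 := lt_min hε one_pos
      linarith
    · have := min_le_right ε 1
      linarith
  obtain ⟨D₁, hD₁⟩ := hty3 F h2 (η / 2) δ (by positivity) hδ0
  refine ⟨D₁, fun D₀ hD₀ m => ?_⟩
  have h3 := hD₁ D₀ hD₀
  have hq2 : 2 ≤ Fintype.card F := Fintype.one_lt_card
  have hq0 : (0 : ℝ) < (Fintype.card F : ℝ) := by
    have : 0 < Fintype.card F := by omega
    exact_mod_cast this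
  have hfin : ∀ d, {P : Pl F | P.1.natDegree = d}.Finite := by
    intro d
    rcases Nat.eq_zero_or_pos d with rfl | hd
    · have : {P : Pl F | P.1.natDegree = 0} = ∅ := by
        ext P
        constructor
        · intro h
          have h4 : P.1.natDegree = 0 := h
          have h5 := P.2.2.natDegree_pos
          omega
        · intro h
          exact h.elim
      rw [this]
      exact Set.finite_empty
    · exact (hirc F h2 d hd).1
  obtain ⟨L0, hL0⟩ : ∃ L0 : Finset (Pl F), ∀ Q, Q ∈ L0 ↔ Q.1.natDegree ≤ D₀ := by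
    have h4 : {Q : Pl F | Q.1.natDegree ≤ D₀}.Finite := by
      refine (Set.Finite.biUnion (Set.finite_Iic D₀) fun d _ => hfin d).subset ?_
      intro Q hQ
      have h5 : Q.1.natDegree ≤ D₀ := hQ
      exact Set.mem_biUnion (Set.mem_Iic.2 h5) rfl
    exact ⟨h4.toFinset, fun Q => h4.mem_toFinset⟩
  obtain ⟨K, hK⟩ : ∃ K : ℝ, K = (2 / δ) ^ (2 ^ m) * 2 ^ ((m * L0.card + m * m) * 2 ^ m) :=
    ⟨_, rfl⟩
  have hK0 : 0 ≤ K := by rw [hK]; positivity
  obtain ⟨W, hW⟩ := prt_num K hK0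
  obtain ⟨W₀, hW₀⟩ : ∃ W₀ : ℕ, W₀ = max D₀ W := ⟨_, rfl⟩
  have hW₀D : D₀ ≤ W₀ := by rw [hW₀]; exact le_max_left _ _
  have hW₀W : W ≤ W₀ := by rw [hW₀]; exact le_max_right _ _
  obtain ⟨c, hc⟩ : ∃ c : ℕ, c = 2 * (m * 2 ^ m) := ⟨_, rfl⟩
  obtain ⟨k₁, hk₁⟩ := hty1 F h2 m W₀ δ hδ0
  obtain ⟨k₂, hk₂⟩ := hty2 F h2 c W₀ δ hδ0
  refine ⟨max k₁ k₂, fun k hk => ?_⟩
  have b1 := hk₁ k ((le_max_left _ _).trans hk)
  have b2 := hk₂ k ((le_max_right _ _).trans hk)
  have b3 := h3 k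
  obtain ⟨w, hw⟩ : ∃ w : ℕ, w = W₀ + Nat.sqrt k := ⟨_, rfl⟩
  rw [← hw] at b1 b2
  have hSfin : (SJ F (2 * k)).Finite := (hsqc F (2 * k)).1
  -- the good sets
  obtain ⟨Gd, hGd⟩ : ∃ Gd : Finset (Pl F) → Prop, ∀ J, Gd J ↔ (J ∈ SJ F (2 * k) ∧
      m ≤ (Ud J w).card ∧ c * J.card ≤ w ∧
      ∑ Q ∈ J.filter (fun Q => D₀ < Q.1.natDegree), 1 / (Fintype.card F : ℝ) ^ Q.1.natDegree ≤
        η / 2) := ⟨_, fun _ => Iff.rfl⟩
  have hGfin : {J | Gd J}.Finite := hSfin.subset fun J hJ => ((hGd J).1 hJ).1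
  obtain ⟨𝒢, h𝒢⟩ : ∃ 𝒢 : Finset (Finset (Pl F)), ∀ J, J ∈ 𝒢 ↔ Gd J :=
    ⟨hGfin.toFinset, fun J => hGfin.mem_toFinset⟩
  have hcount : (1 - 3 * δ) * ((SJ F (2 * k)).ncard : ℝ) ≤ 𝒢.card := by
    have e1 : SJ F (2 * k) ⊆ (↑𝒢 : Set (Finset (Pl F))) ∪
        ({J | J ∈ SJ F (2 * k) ∧ (Ud J w).card < m} ∪
        ({J | J ∈ SJ F (2 * k) ∧ w < c * J.card} ∪
        {J | J ∈ SJ F (2 * k) ∧ η / 2 < ∑ Q ∈ J.filter (fun Q => D₀ < Q.1.natDegree),
          1 / (Fintype.card F : ℝ) ^ Q.1.natDegree})) := by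
      intro J hJ
      by_cases a1 : (Ud J w).card < m
      · exact Or.inr (Or.inl ⟨hJ, a1⟩)
      by_cases a2 : w < c * J.card
      · exact Or.inr (Or.inr (Or.inl ⟨hJ, a2⟩))
      by_cases a3 : η / 2 < ∑ Q ∈ J.filter (fun Q => D₀ < Q.1.natDegree),
          1 / (Fintype.card F : ℝ) ^ Q.1.natDegree
      · exact Or.inr (Or.inr (Or.inr ⟨hJ, a3⟩))
      · refine Or.inl ((h𝒢 J).2 ((hGd J).2 ⟨hJ, not_lt.1 a1, not_lt.1 a2, not_lt.1 a3⟩))
    have f1 : ({J | J ∈ SJ F (2 * k) ∧ (Ud J w).card < m} : Set (Finset (Pl F))).Finite :=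
      hSfin.subset fun J hJ => hJ.1
    have f2 : ({J | J ∈ SJ F (2 * k) ∧ w < c * J.card} : Set (Finset (Pl F))).Finite :=
      hSfin.subset fun J hJ => hJ.1
    have f3 : ({J | J ∈ SJ F (2 * k) ∧ η / 2 < ∑ Q ∈ J.filter (fun Q => D₀ < Q.1.natDegree),
        1 / (Fintype.card F : ℝ) ^ Q.1.natDegree} : Set (Finset (Pl F))).Finite :=
      hSfin.subset fun J hJ => hJ.1
    have e2 := Set.ncard_le_ncard e1 (𝒢.finite_toSet.union (f1.union (f2.union f3)))
    have e3 := Set.ncard_union_le (↑𝒢 : Set (Finset (Pl F)))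
        ({J | J ∈ SJ F (2 * k) ∧ (Ud J w).card < m} ∪
        ({J | J ∈ SJ F (2 * k) ∧ w < c * J.card} ∪
        {J | J ∈ SJ F (2 * k) ∧ η / 2 < ∑ Q ∈ J.filter (fun Q => D₀ < Q.1.natDegree),
          1 / (Fintype.card F : ℝ) ^ Q.1.natDegree}))
    have e4 := Set.ncard_union_le {J | J ∈ SJ F (2 * k) ∧ (Ud J w).card < m}
        ({J | J ∈ SJ F (2 * k) ∧ w < c * J.card} ∪
        {J | J ∈ SJ F (2 * k) ∧ η / 2 < ∑ Q ∈ J.filter (fun Q => D₀ < Q.1.natDegree),
          1 / (Fintype.card F : ℝ) ^ Q.1.natDegree})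
    have e5 := Set.ncard_union_le {J | J ∈ SJ F (2 * k) ∧ w < c * J.card}
        {J | J ∈ SJ F (2 * k) ∧ η / 2 < ∑ Q ∈ J.filter (fun Q => D₀ < Q.1.natDegree),
          1 / (Fintype.card F : ℝ) ^ Q.1.natDegree}
    have e6 : ((SJ F (2 * k)).ncard : ℝ) ≤ 𝒢.card +
        (({J | J ∈ SJ F (2 * k) ∧ (Ud J w).card < m} : Set (Finset (Pl F))).ncard : ℝ) +
        (({J | J ∈ SJ F (2 * k) ∧ w < c * J.card} : Set (Finset (Pl F))).ncard : ℝ) +
        (({J | J ∈ SJ F (2 * k) ∧ η / 2 < ∑ Q ∈ J.filter (fun Q => D₀ < Q.1.natDegree),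
          1 / (Fintype.card F : ℝ) ^ Q.1.natDegree} : Set (Finset (Pl F))).ncard : ℝ) := by
      have e7 : (↑𝒢 : Set (Finset (Pl F))).ncard = 𝒢.card := Set.ncard_coe_finset 𝒢
      rw [e7] at e3
      have e8 := e2.trans (e3.trans (Nat.add_le_add_left (e4.trans (Nat.add_le_add_left e5 _)) _))
      have e9 : (SJ F (2 * k)).ncard ≤ 𝒢.card +
        ({J | J ∈ SJ F (2 * k) ∧ (Ud J w).card < m} : Set (Finset (Pl F))).ncard +
        ({J | J ∈ SJ F (2 * k) ∧ w < c * J.card} : Set (Finset (Pl F))).ncard +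
        ({J | J ∈ SJ F (2 * k) ∧ η / 2 < ∑ Q ∈ J.filter (fun Q => D₀ < Q.1.natDegree),
          1 / (Fintype.card F : ℝ) ^ Q.1.natDegree} : Set (Finset (Pl F))).ncard := by
        refine e8.trans (le_of_eq ?_)
        ring
      exact_mod_cast e9
    linarith only [e6, b1, b2, b3]
  -- the decomposition
  obtain ⟨E, hE⟩ := prt_choice m
  obtain ⟨π, hπ⟩ : ∃ π : Finset (Pl F) → Finset (Pl F) × (Fin m → ℕ), ∀ J, π J =
      (J.filter (fun Q => ∀ i, Q.1.natDegree ≠ E (Ud J w) i), E (Ud J w)) := ⟨_, fun _ => rfl⟩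
  have hEe : ∀ J, Gd J → Function.Injective (π J).2 ∧ (∀ i, (π J).2 i ∈ Ud J w) ∧
      (∀ Q ∈ (π J).1, ∀ i, Q.1.natDegree ≠ (π J).2 i) ∧ (∀ i, w < (π J).2 i) := by
    intro J hJ
    have a1 := hE (Ud J w) ((hGd J).1 hJ).2.1
    rw [hπ]
    refine ⟨a1.1, a1.2, fun Q hQ => (Finset.mem_filter.1 hQ).2, fun i => ?_⟩
    exact ((prt_mem_Ud J w _).1 (a1.2 i)).1
  have hdec : ∀ J, Gd J → ∃ P : Fin m → Pl F, (∀ i, (P i).1.natDegree = (π J).2 i) ∧
      J = (π J).1 ∪ Finset.univ.image P := by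
    intro J hJ
    obtain ⟨P, hP1, hP2⟩ := prt_dec J w (π J).2 (hEe J hJ).2.1
    refine ⟨P, hP1, ?_⟩
    rw [hπ] at hP2 ⊢
    exact hP2
  have hback : ∀ J, Gd J → ∀ P : Fin m → Pl F, (∀ i, (P i).1.natDegree = (π J).2 i) →
      Gd ((π J).1 ∪ Finset.univ.image P) ∧ π ((π J).1 ∪ Finset.univ.image P) = π J := by
    intro J hJ P hP
    obtain ⟨P₀, hP₀, hJP⟩ := hdec J hJ
    obtain ⟨a1, a2, a3, a4⟩ := hEe J hJ
    have hsum : ∀ g : ℕ → ℝ, ∑ Q ∈ (π J).1 ∪ Finset.univ.image P, g Q.1.natDegree =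
        ∑ Q ∈ J, g Q.1.natDegree := by
      intro g
      have e1 := prt_vsum (π J).1 (π J).2 a1 P hP a3 g
      have e2 := prt_vsum (π J).1 (π J).2 a1 P₀ hP₀ a3 g
      rw [← hJP] at e2
      rw [e1, e2]
    obtain ⟨c1, c2, c3⟩ := prt_inv J ((π J).1 ∪ Finset.univ.image P) hsum
    obtain ⟨g1, g2, g3, g4⟩ := (hGd J).1 hJ
    refine ⟨(hGd _).2 ⟨?_, ?_, ?_, ?_⟩, ?_⟩
    · have e1 : (DJ J).natDegree = 2 * k := g1
      show (DJ ((π J).1 ∪ Finset.univ.image P)).natDegree = 2 * k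
      rw [c1, e1]
    · rw [c3]; exact g2
    · rw [c2]; exact g3
    · rw [Finset.sum_filter] at g4 ⊢
      have e1 := hsum fun d => if D₀ < d then 1 / (Fintype.card F : ℝ) ^ d else 0
      rw [e1]
      exact g4
    · have hu := c3 w
      have e1 : (π J).2 = E (Ud J w) := by rw [hπ]
      have e2 : π ((π J).1 ∪ Finset.univ.image P) =
          (((π J).1 ∪ Finset.univ.image P).filter (fun Q => ∀ i, Q.1.natDegree ≠ (π J).2 i),
            (π J).2) := by
        rw [hπ ((π J).1 ∪ Finset.univ.image P), hu, ← e1]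
      rw [e2]
      refine Prod.ext ?_ rfl
      show ((π J).1 ∪ Finset.univ.image P).filter (fun Q => ∀ i, Q.1.natDegree ≠ (π J).2 i) =
        (π J).1
      ext Q
      rw [Finset.mem_filter, Finset.mem_union, Finset.mem_image]
      constructor
      · rintro ⟨hQ | ⟨i, -, rfl⟩, hQ2⟩
        · exact hQ
        · exact absurd (hP i) (hQ2 i)
      · intro hQ
        exact ⟨Or.inl hQ, a3 Q hQ⟩
  -- the boxes
  have hI : ∀ y : ↥(𝒢.image π), ∃ I : Finset (Fin m → Bool → Pl F),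
      (∀ x ∈ I, ∀ i a, (x i a).1.natDegree = y.1.2 i) ∧
      (∀ x ∈ I, ∀ i, x i true ≠ x i false) ∧
      (∀ x ∈ I, ∀ i, ∀ Q, (Q ∈ L0 ∨ Q ∈ y.1.1) → SqM Q ((x i true).1 * (x i false).1)) ∧
      (∀ x ∈ I, ∀ i j b, j ≠ i → SqM (x j b) ((x i true).1 * (x i false).1)) ∧
      (∀ x ∈ I, ∀ y ∈ I, ∀ b b' : Fin m → Bool,
        (fun i => x i (b i)) = (fun i => y i (b' i)) → x = y ∧ b = b') ∧
      (1 - δ) * ∏ i, ({P : Pl F | P.1.natDegree = y.1.2 i}.ncard : ℝ) ≤ I.card * 2 ^ m := by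
    intro y
    obtain ⟨J, hJ, hJy⟩ := Finset.mem_image.1 y.2
    have hJg := (h𝒢 J).1 hJ
    obtain ⟨a1, a2, a3, a4⟩ := hEe J hJg
    rw [hJy] at a1 a2 a3 a4
    refine prt_box hsqq hgrd F h2 L0 y.1.1 D₀ hL0 y.1.2 a1 (fun i => ?_) a3 (fun i => hfin _) δ
      hδ0 fun i => ?_
    · have := a4 i
      omega
    · have hd1 : 1 ≤ y.1.2 i := by
        have := a4 i
        omega
      have hJc : y.1.1.card ≤ J.card := by
        rw [← hJy, hπ]
        exact Finset.card_filter_le _ _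
      have hexp : 2 * (m * y.1.1.card * 2 ^ m) ≤ y.1.2 i := by
        have e1 := ((hGd J).1 hJg).2.2.1
        have e2 := a4 i
        have e3 : 2 * (m * y.1.1.card * 2 ^ m) ≤ c * J.card := by
          rw [hc]
          calc 2 * (m * y.1.1.card * 2 ^ m) = 2 * (m * 2 ^ m) * y.1.1.card := by ring
            _ ≤ 2 * (m * 2 ^ m) * J.card := Nat.mul_le_mul_left _ hJc
        omega
      have e4 := prt_large K hK0 (Fintype.card F) (y.1.2 i) (m * y.1.1.card * 2 ^ m)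
        ({P : Pl F | P.1.natDegree = y.1.2 i}.ncard) hq2 hd1
        (hW _ (by have := a4 i; omega)) hexp (hirc F h2 _ hd1).2.2
      refine le_trans (le_of_eq ?_) e4
      rw [hK]
      have e5 : (2 : ℝ) ^ (m * (L0.card + y.1.1.card) + m * m) =
          2 ^ (m * L0.card + m * m) * 2 ^ (m * y.1.1.card) := by
        rw [← pow_add]
        congr 1
        ring
      rw [e5]
      calc (2 * ((2 : ℝ) ^ (m * L0.card + m * m) * 2 ^ (m * y.1.1.card)) / δ) ^ 2 ^ m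
          = ((2 / δ) * 2 ^ (m * L0.card + m * m) * 2 ^ (m * y.1.1.card)) ^ 2 ^ m := by
            congr 1
            ring
        _ = (2 / δ) ^ 2 ^ m * (2 ^ (m * L0.card + m * m)) ^ 2 ^ m *
            (2 ^ (m * y.1.1.card)) ^ 2 ^ m := by rw [mul_pow, mul_pow]
        _ = _ := by rw [← pow_mul, ← pow_mul]
  choose I i1 i2 i3 i4 i5 i6 using hI
  let σ : Fin (Fintype.card (Σ y : ↥(𝒢.image π), ↥(I y))) ≃ (Σ y : ↥(𝒢.image π), ↥(I y)) :=
    (Fintype.equivFin _).symm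
  -- every vertex is good
  have hvtx : ∀ (y : ↥(𝒢.image π)) (z : ↥(I y)) (v : Fin m → Bool),
      Gd (vtx y.1.1 z.1 v) ∧ π (vtx y.1.1 z.1 v) = y.1 := by
    intro y z v
    obtain ⟨J, hJ, hJy⟩ := Finset.mem_image.1 y.2
    have hJg := (h𝒢 J).1 hJ
    have e1 := hback J hJg (fun i => z.1 i (v i)) (by
      intro i
      rw [hJy]
      exact i1 y z.1 z.2 i (v i))
    rw [hJy] at e1
    exact e1
  refine ⟨Fintype.card (Σ y : ↥(𝒢.image π), ↥(I y)), fun x => (σ x).1.1.1,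
    fun x => (σ x).2.1, ?_, ?_, ?_, ?_⟩
  · intro x
    obtain ⟨y, hy⟩ : ∃ y, y = (σ x).1 := ⟨_, rfl⟩
    obtain ⟨J, hJ, hJy⟩ := Finset.mem_image.1 (σ x).1.2
    have hJg := (h𝒢 J).1 hJ
    obtain ⟨a1, a2, a3, a4⟩ := hEe J hJg
    rw [hJy] at a1 a2 a3 a4
    have z1 := i1 (σ x).1 (σ x).2.1 (σ x).2.2
    have z2 := i2 (σ x).1 (σ x).2.1 (σ x).2.2
    have z3 := i3 (σ x).1 (σ x).2.1 (σ x).2.2
    have z4 := i4 (σ x).1 (σ x).2.1 (σ x).2.2
    refine ⟨?_, ?_, ?_, ?_, ?_, ?_, ?_, ?_⟩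
    · intro i j a b hab'
      have hab : (σ x).2.1 i a = (σ x).2.1 j b := hab'
      have e1 : (σ x).1.1.2 i = (σ x).1.1.2 j := by
        rw [← z1 i a, ← z1 j b, hab]
      have e2 := a1 e1
      refine ⟨e2, ?_⟩
      rw [← e2] at hab
      cases a <;> cases b
      · rfl
      · exact absurd hab.symm (z2 i)
      · exact absurd hab (z2 i)
      · rfl
    · intro i a ha
      exact a3 _ ha i (z1 i a)
    · intro i a b
      exact (z1 i a).trans (z1 i b).symm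
    · intro i a
      have e1 := a4 i
      have e2 := z1 i a
      show D₀ < ((σ x).2.1 i a).1.natDegree
      omega
    · intro i Q hQ
      exact z3 i Q (Or.inl ((hL0 Q).2 hQ))
    · intro i Q hQ
      exact z3 i Q (Or.inr hQ)
    · intro i j b hji
      exact z4 i j b hji
    · have g4 := ((hGd J).1 hJg).2.2.2
      obtain ⟨P₀, hP₀, hJP⟩ := hdec J hJg
      rw [hJy] at hP₀ hJP
      rw [Finset.sum_filter] at g4
      have e1 := prt_vsum (σ x).1.1.1 (σ x).1.1.2 a1 P₀ hP₀ a3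
        (fun d => if D₀ < d then 1 / (Fintype.card F : ℝ) ^ d else 0)
      rw [← hJP] at e1
      have e2 : ∀ i, (if D₀ < (σ x).1.1.2 i then 1 / (Fintype.card F : ℝ) ^ ((σ x).1.1.2 i)
          else 0) = 1 / (Fintype.card F : ℝ) ^ ((σ x).1.1.2 i) := by
        intro i
        rw [if_pos]
        have := a4 i
        omega
      simp only [e2] at e1
      have e3 : ∑ i, 2 / (Fintype.card F : ℝ) ^ ((σ x).2.1 i true).1.natDegree =
          2 * ∑ i, 1 / (Fintype.card F : ℝ) ^ ((σ x).1.1.2 i) := by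
        rw [Finset.mul_sum]
        refine Finset.sum_congr rfl fun i _ => ?_
        rw [z1 i true]
        ring
      have e4 : 0 ≤ ∑ Q ∈ (σ x).1.1.1, (if D₀ < Q.1.natDegree then
          1 / (Fintype.card F : ℝ) ^ Q.1.natDegree else 0) := by
        refine Finset.sum_nonneg fun Q _ => ?_
        split_ifs
        · positivity
        · exact le_rfl
      rw [e3, Finset.sum_filter]
      linarith only [e1, e4, g4]
  · intro x v
    exact ((hGd _).1 (hvtx (σ x).1 (σ x).2 v).1).1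
  · intro x y v v' hxy
    have e1 := (hvtx (σ x).1 (σ x).2 v).2
    have e2 := (hvtx (σ y).1 (σ y).2 v').2
    have e3 : (σ x).1 = (σ y).1 := by
      refine Subtype.ext ?_
      rw [← e1, ← e2]
      exact congrArg π hxy
    have key : ∀ (X Y : Σ y : ↥(𝒢.image π), ↥(I y)), X.1 = Y.1 →
        vtx X.1.1.1 X.2.1 v = vtx Y.1.1.1 Y.2.1 v' → X = Y ∧ v = v' := by
      rintro ⟨y₁, z₁⟩ ⟨y₂, z₂⟩ h12 hv
      have h12' : y₁ = y₂ := h12
      subst h12'
      obtain ⟨J, hJ, hJy⟩ := Finset.mem_image.1 y₁.2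
      have hJg := (h𝒢 J).1 hJ
      obtain ⟨a1, a2, a3, a4⟩ := hEe J hJg
      rw [hJy] at a1 a2 a3 a4
      have e4 : (fun i => z₁.1 i (v i)) = (fun i => z₂.1 i (v' i)) := by
        funext i
        have f1 : z₁.1 i (v i) ∈ vtx y₁.1.1 z₂.1 v' := by
          have f2 : z₁.1 i (v i) ∈ vtx y₁.1.1 z₁.1 v := by
            unfold vtx
            exact Finset.mem_union_right _ (Finset.mem_image.2 ⟨i, Finset.mem_univ i, rfl⟩)
          exact hv ▸ f2
        unfold vtx at f1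
        rw [Finset.mem_union, Finset.mem_image] at f1
        rcases f1 with f1 | ⟨j, -, f1⟩
        · exact absurd (i1 y₁ z₁.1 z₁.2 i (v i)) (a3 _ f1 i)
        · have f3 : y₁.1.2 j = y₁.1.2 i := by
            rw [← i1 y₁ z₁.1 z₁.2 i (v i), ← i1 y₁ z₂.1 z₂.2 j (v' j), f1]
          have f4 := a1 f3
          rw [← f1, f4]
      obtain ⟨f5, f6⟩ := i5 y₁ z₁.1 z₁.2 z₂.1 z₂.2 v v' e4
      refine ⟨?_, f6⟩
      have f7 : z₁ = z₂ := Subtype.ext f5
      rw [f7]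
    obtain ⟨h4, h5⟩ := key (σ x) (σ y) e3 hxy
    exact ⟨σ.injective h4, h5⟩
  · have n1 : (Fintype.card (Σ y : ↥(𝒢.image π), ↥(I y)) : ℝ) =
        ∑ y : ↥(𝒢.image π), ((I y).card : ℝ) := by
      rw [Fintype.card_sigma]
      push_cast
      refine Finset.sum_congr rfl fun y _ => ?_
      rw [Fintype.card_coe]
    have n2 : (𝒢.card : ℝ) ≤ ∑ y : ↥(𝒢.image π),
        ∏ i, ({P : Pl F | P.1.natDegree = y.1.2 i}.ncard : ℝ) := by
      rw [Finset.sum_coe_sort (𝒢.image π)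
        (fun y => ∏ i, ({P : Pl F | P.1.natDegree = y.2 i}.ncard : ℝ)),
        Finset.card_eq_sum_card_image π 𝒢]
      push_cast
      refine Finset.sum_le_sum fun y _ => ?_
      have n3 : 𝒢.filter (fun J => π J = y) ⊆
          (Fintype.piFinset fun i => (hfin (y.2 i)).toFinset).image
            (fun P => y.1 ∪ Finset.univ.image P) := by
        intro J hJ
        rw [Finset.mem_filter] at hJ
        obtain ⟨P, hP1, hP2⟩ := hdec J ((h𝒢 J).1 hJ.1)
        rw [hJ.2] at hP1 hP2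
        refine Finset.mem_image.2 ⟨P, ?_, hP2.symm⟩
        rw [Fintype.mem_piFinset]
        intro i
        rw [Set.Finite.mem_toFinset]
        exact hP1 i
      have n4 := (Finset.card_le_card n3).trans Finset.card_image_le
      rw [Fintype.card_piFinset] at n4
      have n5 : ∏ i, ({P : Pl F | P.1.natDegree = y.2 i}.ncard : ℝ) =
          ((∏ i, ((hfin (y.2 i)).toFinset).card : ℕ) : ℝ) := by
        push_cast
        refine Finset.prod_congr rfl fun i _ => ?_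
        rw [Set.ncard_eq_toFinset_card _ (hfin (y.2 i))]
      rw [n5]
      exact_mod_cast n4
    have hS0 : (0 : ℝ) ≤ ((SJ F (2 * k)).ncard : ℝ) := Nat.cast_nonneg _
    calc (1 - ε) * ((SJ F (2 * k)).ncard : ℝ)
        ≤ (1 - δ) * ((1 - 3 * δ) * ((SJ F (2 * k)).ncard : ℝ)) := by
          rw [← mul_assoc]
          refine mul_le_mul_of_nonneg_right ?_ hS0
          nlinarith only [hδε, hδ0, hδ1, sq_nonneg δ]
      _ ≤ (1 - δ) * (𝒢.card : ℝ) := mul_le_mul_of_nonneg_left hcount (by linarith only [hδ1, hδ0])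
      _ ≤ (1 - δ) * ∑ y : ↥(𝒢.image π),
          ∏ i, ({P : Pl F | P.1.natDegree = y.1.2 i}.ncard : ℝ) :=
          mul_le_mul_of_nonneg_left n2 (by linarith only [hδ1, hδ0])
      _ = ∑ y : ↥(𝒢.image π),
          (1 - δ) * ∏ i, ({P : Pl F | P.1.natDegree = y.1.2 i}.ncard : ℝ) := Finset.mul_sum _ _ _
      _ ≤ ∑ y : ↥(𝒢.image π), ((I y).card : ℝ) * 2 ^ m :=
          Finset.sum_le_sum fun y _ => i6 y
      _ = (Fintype.card (Σ y : ↥(𝒢.image π), ↥(I y)) : ℝ) * 2 ^ m := by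
          rw [n1, Finset.sum_mul]

end Pool.Agent.H456.PS
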