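import Pool.Agent.H456.PS.Stm
import Pool.Agent.H456.PR.T_tws

/-!
(tw2) Generalization of `S_tws` (PR/T_tws.lean, adapt it): there `B = ∅` and the cubics have good reduction at the places of `A`. Let `DA = DJ A`, `DB = DJ B`, `a = deg DA`, `b = deg DB`, `a + b = 2k`. For `f ∈ Msh F n` with all `c P f`: for `P ∈ B` there are `g_P, r_P` with `f.tr r_P = g_P.sc P`; by CRT there is one `ρ` with `deg ρ < b` and `f.tr ρ = g.sc DB` (unique modulo `DB` since the triple root modulo each `P` is unique), `g : Cub F[X]` with `deg g.a ≤ 2n - b`, `deg g.b ≤ 4n - 2b`, `deg g.c ≤ 6n - 3b`. Let `G` be the finite set of these `g` (all `g` with `g.sc DB ∈ Msh F n` and `c P (g.sc DB)` for all `P`). Then `(g, ρ) ↦ (g.sc DB).tr (-ρ)` is a bijection from `G × {deg ρ < b}` to `{f ∈ Msh F n : all c P f}`. Similarly `(g, ρ) ↦ (g.sc DA).tr (-ρ)`, `deg ρ < a`,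
is a bijection from the same `G` to `{h ∈ Msh F n' : all cAB A B c P h}`, `n' = n + k - b`. Hence (translation invariance, `(g.sc DB).sc (DA DB) = (g.sc DA).sc (DB²)`) `∑_f Φ(f.sc (DA DB)) = q^b ∑_{g ∈ G} Φ(g.sc DA)` and `∑_h Φ(h) = q^a ∑_{g ∈ G} Φ(g.sc DA)`. CHECK of the conditions: `P ∉ A ∪ B`: `c P f ↔ c P g ↔ c P h` (`DA, DB` prime to `P`). `P ∈ A`: `f ~ g.sc (unit)`, `h ~ (g.sc unit).sc P`: `tw P (c P) h ↔ c P g` (if `h.tr r' = f'.sc P` then `r'` is unique modulo `P`, so `f'` is a translate of `g.sc (DA/P)`). `P ∈ B`: `h ~ g.sc (unit)`, `c P (h.sc P) ↔ c P (g.sc P) ↔ c P f`; MINIMALITY at `P` (MinAll in `Msh`; `f` is not minimal at `P` iff a translate of `f` is `f'.sc (P²)`): `P ∉ A ∪ B`: the same for `f`, `h`.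
`P ∈ A`: `c P f → ¬ TwP P f` implies that `f` is minimal, and `h ~ g.sc P·unit` is not minimal iff `TwP P g` iff `TwP P f`. `P ∈ B`: `f ~ g.sc P·unit` is minimal iff `¬ TwP P g` iff `¬ TwP P h`, which is in `cAB`, and implies that `h` is minimal. At infinity: the reversed polynomials (`rev`, weights `n`, `n'`) of `g.sc DB` and `g.sc DA` differ by the twist with the unit `rev DA / rev DB` at `0` (`DA`, `DB` monic; `n' - n = (a - b)/2`), so minimality at infinity is the same. `Cnd P.1 6 (cAB A B c P)`: `tw P c` depends on `h` modulo `P^(3+3)`; `h ↦ c P (h.sc P)` on `h` modulo `P³`; `TwP P` on `h` modulo `P³`; all are invariant under translations. If some detail of the statement is wrong for small `n` etc. tell helper456.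
-/

set_option autoImplicit false
set_option linter.all false

open Polynomial Finset Filter
open Pool.Agent.H456.EC (toK toK_inj sig toK_eq reflect_toK cls)
open Pool.Agent.H456.RN
open Pool.Agent.H456.BQ
open Pool.Agent.H456.Coh (TF)
open Pool.Agent.H456.PP (OneR NoR HasRt sx hh Tz Tq Iso3 nr IsoP nrP)
open Pool.Agent.H456.PR

namespace Pool.Agent.H456.PS

section tw2

variable {F : Type} [Field F]

theorem tw2_div {P : Pl F} {g f : Cub F[X]} {r : F[X]} (h : (g.sc P.1).tr r = f.sc P.1) :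
    ∃ t, r = P.1 * t ∧ f = g.tr t := by
  have h3 := congrArg Cub.c h
  simp only [Cub.sc, Cub.tr] at h3
  have hD : P.1 ∣ r ^ 3 := ⟨P.1 ^ 2 * f.c - P.1 ^ 2 * g.c - P.1 * g.b * r - g.a * r ^ 2, by
    linear_combination h3⟩
  obtain ⟨t, ht⟩ := P.2.2.prime.dvd_of_dvd_pow hD
  refine ⟨t, ht, tws_sc_inj P.2.1.ne_zero ?_⟩
  rw [← h, ht, Cub.sc_tr]

theorem tw2_tw {P : Pl F} {m : ℕ} {c : Cub F[X] → Prop} (h : Cnd P.1 m c) :
    Cnd P.1 (m + 3) (tw P c) := by
  have key : ∀ g g' : Cub F[X], g.map (Ideal.Quotient.mk (Ideal.span {P.1 ^ (m + 3)})) =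
      g'.map (Ideal.Quotient.mk (Ideal.span {P.1 ^ (m + 3)})) → tw P c g → tw P c g' := by
    rintro g g' e ⟨f, r, e1, hc⟩
    have e2 : (g.tr r).map (Ideal.Quotient.mk (Ideal.span {P.1 ^ (m + 3)})) =
        (g'.tr r).map (Ideal.Quotient.mk (Ideal.span {P.1 ^ (m + 3)})) := by
      rw [Cub.map_tr, Cub.map_tr, e]
    rw [e1] at e2
    have h1 := congrArg Cub.a e2
    have h2 := congrArg Cub.b e2
    have h3 := congrArg Cub.c e2
    simp only [Cub.map, Cub.sc] at h1 h2 h3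
    rw [mk_eq] at h1 h2 h3
    obtain ⟨u, hu⟩ := h1
    obtain ⟨v, hv⟩ := h2
    obtain ⟨w, hw⟩ := h3
    rw [pow_add] at hu hv hw
    refine ⟨⟨f.a - P.1 ^ m * (P.1 ^ 2 * u), f.b - P.1 ^ m * (P.1 * v), f.c - P.1 ^ m * w⟩, r, ?_,
      (h.cong f _ ?_).1 hc⟩
    · ext1
      · simp only [Cub.sc]; linear_combination -hu
      · simp only [Cub.sc]; linear_combination -hv
      · simp only [Cub.sc]; linear_combination -hw
    · ext1
      · simp only [Cub.map]; rw [mk_eq]; exact ⟨P.1 ^ 2 * u, by ring⟩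
      · simp only [Cub.map]; rw [mk_eq]; exact ⟨P.1 * v, by ring⟩
      · simp only [Cub.map]; rw [mk_eq]; exact ⟨w, by ring⟩
  refine ⟨fun f f' e => ⟨key f f' e, key f' f e.symm⟩, ?_⟩
  intro g s
  constructor
  · rintro ⟨f, r, e, hc⟩
    rw [Cub.tr_tr] at e
    exact ⟨f, _, e, hc⟩
  · rintro ⟨f, r, e, hc⟩
    refine ⟨f, r - s, ?_, hc⟩
    rw [Cub.tr_tr, ← e]
    congr 1
    ring

theorem tw2_TwP_cnd (P : Pl F) : Cnd P.1 3 (TwP P) :=
  tw2_tw (m := 0) ⟨fun _ _ _ => Iff.rfl, fun _ _ => Iff.rfl⟩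

theorem tw2_TwP_sc {P : Pl F} {g : Cub F[X]} (u : F[X]) (h : TwP P g) : TwP P (g.sc u) := by
  obtain ⟨f, r, e, _⟩ := h
  refine ⟨f.sc u, u * r, ?_, trivial⟩
  rw [← Cub.sc_tr, e, Cub.sc_sc, Cub.sc_sc, mul_comm]

theorem tw2_TwP_unit {P : Pl F} {g : Cub F[X]} {u : F[X]} (hu : ¬ P.1 ∣ u) :
    TwP P (g.sc u) ↔ TwP P g := by
  refine ⟨fun h => ?_, tw2_TwP_sc u⟩
  obtain ⟨a, v, e⟩ := (IsCoprime.pow_left (m := 3) ((P.2.2.coprime_iff_not_dvd).2 hu))
  have h1 := tw2_TwP_sc v h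
  rw [Cub.sc_sc] at h1
  have e1 : (Ideal.Quotient.mk (Ideal.span {P.1 ^ 3}) (u * v) : Rq (P.1 ^ 3)) = 1 := by
    rw [← map_one (Ideal.Quotient.mk (Ideal.span {P.1 ^ 3})), mk_eq]
    exact ⟨-a, by linear_combination e⟩
  have h2 : (g.sc (u * v)).map (Ideal.Quotient.mk (Ideal.span {P.1 ^ 3})) =
      g.map (Ideal.Quotient.mk (Ideal.span {P.1 ^ 3})) := by
    rw [Cub.map_sc, e1, Cub.sc_one]
  exact ((tw2_TwP_cnd P).cong _ _ h2).1 h1

theorem tw2_NMc_TwP {P : Pl F} {g : Cub F[X]} (h : NMc P.1 g) : TwP P g := by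
  obtain ⟨r, k, e⟩ := h
  refine ⟨k.sc P.1, r, ?_, trivial⟩
  rw [e, Cub.sc_sc, sq]

theorem tw2_NMc_sc {P : Pl F} {g : Cub F[X]} : NMc P.1 (g.sc P.1) ↔ TwP P g := by
  constructor
  · rintro ⟨r, k, e⟩
    have e1 : k.sc (P.1 ^ 2) = (k.sc P.1).sc P.1 := by rw [Cub.sc_sc, sq]
    rw [e1] at e
    obtain ⟨t, _, ht⟩ := tw2_div e
    exact ⟨k, t, ht.symm, trivial⟩
  · rintro ⟨f, r, e, _⟩
    refine ⟨P.1 * r, f, ?_⟩
    rw [← Cub.sc_tr, e, Cub.sc_sc, sq]

variable [Fintype F]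

theorem tw2_NMc_unit {P : Pl F} {g : Cub F[X]} {u : F[X]} (hu : ¬ P.1 ∣ u) :
    NMc P.1 (g.sc u) ↔ NMc P.1 g :=
  ⟨tws_NMc_unit ((P.2.2.coprime_iff_not_dvd).2 hu), tws_NMc_sc u⟩

open Classical in
/-- the conditions at one place -/
theorem tw2_loc {A B : Finset (Pl F)} (hdis : Disjoint A B) {c : Pl F → Cub F[X] → Prop}
    (hc : ∀ P, Cnd P.1 3 (c P)) (hA : ∀ P ∈ A, ∀ f, c P f → ¬ TwP P f)
    (hsc : ∀ (P : Pl F) (f : Cub F[X]) (u : F[X]), ¬ P.1 ∣ u → (c P (f.sc u) ↔ c P f))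
    (g : Cub F[X]) (P : Pl F) :
    (¬ NMc P.1 (g.sc (DJ B)) ∧ c P (g.sc (DJ B))) ↔
      (¬ NMc P.1 (g.sc (DJ A)) ∧ cAB A B c P (g.sc (DJ A))) := by
  by_cases hPA : P ∈ A
  · have hPB : P ∉ B := fun h => (Finset.disjoint_left.1 hdis) hPA h
    have e0 : cAB A B c P = tw P (c P) := by
      unfold cAB
      rw [if_pos hPA]
    have hnd := tws_not_dvd hPB
    have hnd' := tws_not_dvd (Finset.notMem_erase P A)
    have eD : g.sc (DJ A) = (g.sc (DJ (A.erase P))).sc P.1 := by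
      rw [Cub.sc_sc, tws_erase hPA]
    have e1 : c P (g.sc (DJ B)) ↔ c P g := hsc P g _ hnd
    have e2 : tw P (c P) (g.sc (DJ A)) ↔ c P g := by
      constructor
      · rintro ⟨f, r, e, hf⟩
        rw [eD] at e
        obtain ⟨t, _, ht⟩ := tw2_div e
        rw [ht, (hc P).tr] at hf
        exact (hsc P g _ hnd').1 hf
      · intro h
        refine ⟨g.sc (DJ (A.erase P)), 0, ?_, (hsc P g _ hnd').2 h⟩
        rw [Cub.tr_zero, eD]
    have e3 : NMc P.1 (g.sc (DJ B)) ↔ NMc P.1 g := tw2_NMc_unit hnd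
    have e4 : NMc P.1 (g.sc (DJ A)) ↔ TwP P g := by
      rw [eD, tw2_NMc_sc, tw2_TwP_unit hnd']
    rw [e0, e1, e2, e3, e4]
    constructor
    · rintro ⟨_, h⟩
      exact ⟨hA P hPA g h, h⟩
    · rintro ⟨h', h⟩
      exact ⟨fun hh => h' (tw2_NMc_TwP hh), h⟩
  · by_cases hPB : P ∈ B
    · have e0 : cAB A B c P = fun h => c P (h.sc P.1) ∧ ¬ TwP P h := by
        unfold cAB
        rw [if_neg hPA, if_pos hPB]
      have hnd := tws_not_dvd hPA
      have hnd' := tws_not_dvd (Finset.notMem_erase P B)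
      have eD : g.sc (DJ B) = (g.sc (DJ (B.erase P))).sc P.1 := by
        rw [Cub.sc_sc, tws_erase hPB]
      have e1 : c P (g.sc (DJ B)) ↔ c P (g.sc P.1) := by
        have e5 : g.sc (DJ B) = (g.sc P.1).sc (DJ (B.erase P)) := by
          rw [Cub.sc_sc, mul_comm, tws_erase hPB]
        rw [e5]
        exact hsc P _ _ hnd'
      have e2 : c P ((g.sc (DJ A)).sc P.1) ↔ c P (g.sc P.1) := by
        have e5 : (g.sc (DJ A)).sc P.1 = (g.sc P.1).sc (DJ A) := by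
          rw [Cub.sc_sc, Cub.sc_sc, mul_comm]
        rw [e5]
        exact hsc P _ _ hnd
      have e3 : NMc P.1 (g.sc (DJ A)) ↔ NMc P.1 g := tw2_NMc_unit hnd
      have e4 : NMc P.1 (g.sc (DJ B)) ↔ TwP P g := by
        rw [eD, tw2_NMc_sc, tw2_TwP_unit hnd']
      have e6 : TwP P (g.sc (DJ A)) ↔ TwP P g := tw2_TwP_unit hnd
      rw [e0, e1, e3, e4]
      simp only
      rw [e2, e6]
      constructor
      · rintro ⟨h', h⟩
        exact ⟨fun hh => h' (tw2_NMc_TwP hh), h, h'⟩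
      · rintro ⟨_, h, h'⟩
        exact ⟨h', h⟩
    · have e0 : cAB A B c P = c P := by
        unfold cAB
        rw [if_neg hPA, if_neg hPB]
      rw [e0, hsc P g _ (tws_not_dvd hPA), hsc P g _ (tws_not_dvd hPB),
        tw2_NMc_unit (tws_not_dvd hPA), tw2_NMc_unit (tws_not_dvd hPB)]

/-- degrees with half-integral heights -/
def tw2_dg (N : ℕ) (g : Cub F[X]) : Prop :=
  g.a.natDegree ≤ N ∧ g.b.natDegree ≤ 2 * N ∧ g.c.natDegree ≤ 3 * N

theorem tw2_cdg {n N : ℕ} {D : F[X]} (hm : D.Monic) (e : N + D.natDegree = 2 * n) {g : Cub F[X]} :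
    CDg n (g.sc D) ↔ tw2_dg N g := by
  have p2 : (D ^ 2).natDegree = 2 * D.natDegree := hm.natDegree_pow 2
  have p3 : (D ^ 3).natDegree = 3 * D.natDegree := hm.natDegree_pow 3
  constructor
  · rintro ⟨h1, h3, h4⟩
    simp only [Cub.sc] at h1 h3 h4
    refine ⟨?_, ?_, ?_⟩
    · exact tws_deg_mul hm (by omega)
    · exact tws_deg_mul (hm.pow 2) (by omega)
    · exact tws_deg_mul (hm.pow 3) (by omega)
  · rintro ⟨h1, h3, h4⟩
    refine ⟨?_, ?_, ?_⟩
    · simp only [Cub.sc]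
      exact natDegree_mul_le.trans (by omega)
    · simp only [Cub.sc]
      exact natDegree_mul_le.trans (by omega)
    · simp only [Cub.sc]
      exact natDegree_mul_le.trans (by omega)

/-- the reversed cubic with half-integral height -/
noncomputable def tw2_rv (N : ℕ) (g : Cub F[X]) : Cub F[X] :=
  ⟨reflect N g.a, reflect (2 * N) g.b, reflect (3 * N) g.c⟩

theorem tw2_crev {n N d : ℕ} {g : Cub F[X]} (hg : tw2_dg N g) (D : F[X]) (hD : D.natDegree ≤ d)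
    (e : N + d = 2 * n) : crev n (g.sc D) = (tw2_rv N g).sc (reflect d D) := by
  have e2 : 2 * n = d + N := by omega
  have e4 : 4 * n = (d + d) + 2 * N := by omega
  have e6 : 6 * n = (d + (d + d)) + 3 * N := by omega
  have d2 : (D * D).natDegree ≤ d + d := natDegree_mul_le.trans (add_le_add hD hD)
  have d3 : (D * (D * D)).natDegree ≤ d + (d + d) := natDegree_mul_le.trans (add_le_add hD d2)
  ext1
  · simp only [crev, Cub.sc, tw2_rv]
    rw [e2, reflect_mul D g.a hD hg.1]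
  · simp only [crev, Cub.sc, tw2_rv]
    rw [e4, sq, reflect_mul (D * D) g.b d2 hg.2.1, reflect_mul D D hD hD, sq]
  · simp only [crev, Cub.sc, tw2_rv]
    have p3 : D ^ 3 = D * (D * D) := by ring
    have q3 : (reflect d D) ^ 3 = reflect d D * (reflect d D * reflect d D) := by ring
    rw [e6, p3, q3, reflect_mul (D * (D * D)) g.c d3 hg.2.2, reflect_mul D (D * D) hD d2,
      reflect_mul D D hD hD]

/-- the condition at infinity -/
theorem tw2_inf {n N : ℕ} {D : F[X]} (hm : D.Monic) {g : Cub F[X]} (hg : tw2_dg N g)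
    (e : N + D.natDegree = 2 * n) : NMc X (crev n (g.sc D)) ↔ NMc X (tw2_rv N g) := by
  rw [tw2_crev hg D le_rfl e]
  exact ⟨tws_NMc_unit (tws_X hm rfl), tws_NMc_sc _⟩

open Classical in
theorem tw2_key (h2 : (2 : F) ≠ 0) {A B : Finset (Pl F)} (hdis : Disjoint A B)
    {c : Pl F → Cub F[X] → Prop}
    (hc : ∀ P, Cnd P.1 3 (c P)) (hA : ∀ P ∈ A, ∀ f, c P f → ¬ TwP P f)
    (hsc : ∀ (P : Pl F) (f : Cub F[X]) (u : F[X]), ¬ P.1 ∣ u → (c P (f.sc u) ↔ c P f))
    {n n' N : ℕ} (e : N + (DJ B).natDegree = 2 * n) (e' : N + (DJ A).natDegree = 2 * n')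
    (g : Cub F[X]) :
    (g.sc (DJ B) ∈ Msh F n ∧ ∀ P, c P (g.sc (DJ B))) ↔
      (g.sc (DJ A) ∈ Msh F n' ∧ ∀ P, cAB A B c P (g.sc (DJ A))) := by
  have hmA := tws_monic A
  have hmB := tws_monic B
  have hloc := tw2_loc hdis hc hA hsc g
  rw [mem_Msh, mem_Msh, MinAll_crv h2, MinAll_crv h2, tw2_cdg hmB e, tw2_cdg hmA e', Cub.disc_sc,
    Cub.disc_sc]
  constructor
  · rintro ⟨⟨h1, h3, h4, h5⟩, h6⟩
    refine ⟨⟨h1, mul_ne_zero (pow_ne_zero 6 hmA.ne_zero) (right_ne_zero_of_mul h3), ?_, ?_⟩, ?_⟩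
    · exact fun P => ((hloc P).1 ⟨h4 P, h6 P⟩).1
    · rw [tw2_inf hmA h1 e']
      rwa [tw2_inf hmB h1 e] at h5
    · exact fun P => ((hloc P).1 ⟨h4 P, h6 P⟩).2
  · rintro ⟨⟨h1, h3, h4, h5⟩, h6⟩
    refine ⟨⟨h1, mul_ne_zero (pow_ne_zero 6 hmB.ne_zero) (right_ne_zero_of_mul h3), ?_, ?_⟩, ?_⟩
    · exact fun P => ((hloc P).2 ⟨h4 P, h6 P⟩).1
    · rw [tw2_inf hmB h1 e]
      rwa [tw2_inf hmA h1 e'] at h5
    · exact fun P => ((hloc P).2 ⟨h4 P, h6 P⟩).2

/-- a cubic which is a twist at all the places of `J` is a twist by `DJ J` -/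
theorem tw2_ex {J : Finset (Pl F)} {f : Cub F[X]} (h : ∀ P ∈ J, TwP P f) :
    ∃ (g : Cub F[X]) (r : F[X]), r.natDegree ≤ (DJ J).natDegree ∧ f.tr r = g.sc (DJ J) := by
  classical
  have h1 : ∀ P : Pl F, ∃ (k : Cub F[X]) (r : F[X]), P ∈ J → f.tr r = k.sc P.1 := by
    intro P
    by_cases hP : P ∈ J
    · obtain ⟨k, r, e, _⟩ := h P hP
      exact ⟨k, r, fun _ => e⟩
    · exact ⟨f, 0, fun h => absurd h hP⟩
  choose fP rP hP using h1
  obtain ⟨r1, hr1⟩ := tws_crt rP J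
  have hm := tws_monic J
  set r : F[X] := r1 %ₘ DJ J with hr
  have hrd : r.natDegree ≤ (DJ J).natDegree := by
    rw [hr]
    exact natDegree_modByMonic_le r1 hm
  have hr2 : ∀ P ∈ J, P.1 ∣ r - rP P := by
    intro P hPJ
    have e : r - rP P = (r1 - rP P) - DJ J * (r1 /ₘ DJ J) := by
      have := modByMonic_add_div r1 (DJ J)
      rw [← hr] at this
      linear_combination this
    rw [e]
    exact dvd_sub (hr1 P hPJ) (dvd_mul_of_dvd_left (tws_mem_dvd hPJ) _)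
  have hu : ∀ P ∈ J, ∃ u, f.tr r = ((fP P).tr u).sc P.1 := by
    intro Q hQ
    obtain ⟨u, hu⟩ := hr2 Q hQ
    refine ⟨u, ?_⟩
    rw [Cub.sc_tr, ← hP Q hQ, Cub.tr_tr]
    congr 1
    linear_combination hu
  have da : DJ J ^ 1 ∣ (f.tr r).a := tws_dvd fun P hPJ => by
    obtain ⟨u, hu⟩ := hu P hPJ
    rw [hu, pow_one]
    exact Dvd.intro _ rfl
  have db : DJ J ^ 2 ∣ (f.tr r).b := tws_dvd fun P hPJ => by
    obtain ⟨u, hu⟩ := hu P hPJ
    rw [hu]
    exact Dvd.intro _ rfl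
  have dc : DJ J ^ 3 ∣ (f.tr r).c := tws_dvd fun P hPJ => by
    obtain ⟨u, hu⟩ := hu P hPJ
    rw [hu]
    exact Dvd.intro _ rfl
  obtain ⟨a', ha'⟩ := da
  obtain ⟨b', hb'⟩ := db
  obtain ⟨c', hc'⟩ := dc
  rw [pow_one] at ha'
  refine ⟨⟨a', b', c'⟩, r, hrd, ?_⟩
  ext1
  · exact ha'
  · exact hb'
  · exact hc'

open Classical in
/-- double counting -/
theorem tw2_count (J : Finset (Pl F)) (N : ℕ) (𝒜 𝒢 : Finset (Cub F[X]))
    (hA : ∀ f ∈ 𝒜, ∀ s : F[X], s.natDegree ≤ N → f.tr s ∈ 𝒜)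
    (h1 : ∀ f ∈ 𝒜, ∀ r : F[X], r.natDegree ≤ N + (DJ J).natDegree → (f.sc (DJ J)).tr r ∈ 𝒢)
    (h2 : ∀ g ∈ 𝒢, ∃ f ∈ 𝒜, ∃ r : F[X], r.natDegree ≤ N + (DJ J).natDegree ∧
      (f.sc (DJ J)).tr r = g)
    (Φ : Cub F[X] → ℝ) (hΦ : ∀ f r, Φ (f.tr r) = Φ f) :
    ∑ g ∈ 𝒢, Φ g = (Fintype.card F : ℝ) ^ (DJ J).natDegree * ∑ f ∈ 𝒜, Φ (f.sc (DJ J)) := by
  have hm := tws_monic J
  set D : F[X] := DJ J with hD
  have hmaps : ∀ x ∈ 𝒜 ×ˢ PL F (N + D.natDegree + 1), (x.1.sc D).tr x.2 ∈ 𝒢 := by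
    rintro ⟨f, r⟩ hx
    rw [mem_product, mem_PL_iff] at hx
    exact h1 f hx.1 r hx.2
  have h4 : ∑ x ∈ 𝒜 ×ˢ PL F (N + D.natDegree + 1), Φ ((x.1.sc D).tr x.2) =
      ∑ g ∈ 𝒢, (Fintype.card F : ℝ) ^ (N + 1) * Φ g := by
    rw [← sum_fiberwise_of_maps_to hmaps]
    refine sum_congr rfl fun g hg => ?_
    have h3 : ((𝒜 ×ˢ PL F (N + D.natDegree + 1)).filter (fun x => (x.1.sc D).tr x.2 = g)).card =
        Fintype.card F ^ (N + 1) := by
      obtain ⟨f0, b1, r0, b3, b4⟩ := h2 g hg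
      have e : (𝒜 ×ˢ PL F (N + D.natDegree + 1)).filter (fun x => (x.1.sc D).tr x.2 = g) =
          (PL F (N + 1)).image (fun s => (f0.tr (-s), r0 + D * s)) := by
        ext x
        obtain ⟨f, r⟩ := x
        rw [mem_filter, mem_product, mem_PL_iff, mem_image]
        constructor
        · rintro ⟨⟨a1, a3⟩, a4⟩
          simp only at a1 a3 a4
          have a5 : f.sc D = (f0.sc D).tr (r0 - r) := by
            have a6 : ((f.sc D).tr r).tr (-r) = ((f0.sc D).tr r0).tr (-r) := by rw [a4, b4]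
            rw [Cub.tr_tr, add_neg_cancel, Cub.tr_zero, Cub.tr_tr, ← sub_eq_add_neg] at a6
            exact a6
          obtain ⟨t, ht, hft⟩ := tws_fib a5
          refine ⟨-t, ?_, ?_⟩
          · rw [mem_PL_iff, natDegree_neg]
            apply tws_deg_mul hm
            have ht' := ht
            rw [← hD] at ht'
            rw [← ht']
            exact (natDegree_sub_le _ _).trans (by omega)
          · rw [neg_neg, ← hft]
            refine Prod.ext rfl ?_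
            simp only
            rw [hD]
            linear_combination ht
        · rintro ⟨s, hs, hx⟩
          rw [mem_PL_iff] at hs
          rw [Prod.mk.injEq] at hx
          obtain ⟨hx1, hx2⟩ := hx
          subst hx1 hx2
          refine ⟨⟨hA f0 b1 _ (by rwa [natDegree_neg]), ?_⟩, ?_⟩
          · refine (natDegree_add_le _ _).trans (max_le b3 ?_)
            refine natDegree_mul_le.trans ?_
            omega
          · simp only
            rw [Cub.sc_tr, Cub.tr_tr, ← b4]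
            congr 1
            ring
      rw [e, card_image_of_injective, card_PL]
      intro s s' hss
      have h5 := congrArg Prod.snd hss
      simp only at h5
      exact mul_left_cancel₀ hm.ne_zero (add_left_cancel h5)
    rw [sum_congr rfl (g := fun _ => Φ g) (fun x hx => by rw [(mem_filter.1 hx).2]), sum_const, h3,
      nsmul_eq_mul]
    push_cast
    rfl
  have h3 : ∑ x ∈ 𝒜 ×ˢ PL F (N + D.natDegree + 1), Φ ((x.1.sc D).tr x.2) =
      (Fintype.card F : ℝ) ^ (N + D.natDegree + 1) * ∑ f ∈ 𝒜, Φ (f.sc D) := by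
    rw [sum_product, mul_sum]
    refine sum_congr rfl fun f _ => ?_
    rw [sum_congr rfl (g := fun _ => Φ (f.sc D)) (fun r _ => hΦ _ _), sum_const, card_PL,
      nsmul_eq_mul]
    push_cast
    rfl
  rw [h3, ← mul_sum] at h4
  have hq : (Fintype.card F : ℝ) ^ (N + 1) ≠ 0 := by
    have : (Fintype.card F : ℝ) ≠ 0 := by exact_mod_cast Fintype.card_ne_zero
    exact pow_ne_zero _ this
  apply mul_left_cancel₀ hq
  rw [← h4, ← mul_assoc, ← pow_add]
  congr 2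
  ring

end tw2

theorem t_tw2 : S_tw2 := by
  classical
  intro F _ _ h2 A B k hdis hk c hc hA hB hsc
  have hcnd : ∀ P, Cnd P.1 6 (cAB A B c P) := by
    intro P
    unfold cAB
    by_cases hP : P ∈ A
    · simp only [if_pos hP]
      exact tw2_tw (hc P)
    · simp only [if_neg hP]
      by_cases hPB : P ∈ B
      · simp only [if_pos hPB]
        have hT := tws_mono (by norm_num : 3 ≤ 6) (tw2_TwP_cnd P)
        have hC := tws_mono (by norm_num : 3 ≤ 6) (hc P)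
        refine ⟨fun f f' e => ?_, fun f r => ?_⟩
        · rw [hT.cong f f' e, hC.cong (f.sc P.1) (f'.sc P.1) (by rw [Cub.map_sc, Cub.map_sc, e])]
        · rw [hT.tr, Cub.sc_tr, hC.tr]
      · simp only [if_neg hPB]
        exact tws_mono (by norm_num) (hc P)
  refine ⟨hcnd, ?_⟩
  intro Φ hΦ hΦ2 n n' hn hn'
  set a := (DJ A).natDegree with ha
  set b := (DJ B).natDegree with hb
  obtain ⟨N, hN⟩ : ∃ N, N + b = 2 * n := ⟨2 * n - b, by omega⟩
  have hN' : N + a = 2 * n' := by omega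
  set 𝒜 := (Msh F n).filter (fun f => ∀ P, c P f) with h𝒜
  set ℋ := (Msh F n').filter (fun h => ∀ P, cAB A B c P h) with hℋ
  have hinj : Set.InjOn (fun g : Cub F[X] => g.sc (DJ B))
      ((fun g : Cub F[X] => g.sc (DJ B)) ⁻¹' (𝒜 : Set (Cub F[X]))) :=
    fun x _ y _ h => tws_sc_inj (tws_monic B).ne_zero h
  set G : Finset (Cub F[X]) := 𝒜.preimage (fun g : Cub F[X] => g.sc (DJ B)) hinj with hG
  have mG : ∀ g, g ∈ G ↔ g.sc (DJ B) ∈ Msh F n ∧ ∀ P, c P (g.sc (DJ B)) := by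
    intro g
    rw [hG, Finset.mem_preimage, h𝒜, mem_filter]
  have key := tw2_key h2 hdis hc hA hsc (n := n) (n' := n') (N := N) hN hN'
  have hcAB : ∀ (P : Pl F) (f : Cub F[X]) (r : F[X]), cAB A B c P (f.tr r) ↔ cAB A B c P f :=
    fun P f r => (hcnd P).tr f r
  have htr : ∀ g ∈ G, ∀ s : F[X], s.natDegree ≤ N → g.tr s ∈ G := by
    intro g hg s hs
    rw [mG] at hg ⊢
    rw [Cub.sc_tr]
    refine ⟨congr_tr_mem h2 hg.1 (natDegree_mul_le.trans (by omega)), fun P => ?_⟩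
    exact ((hc P).tr _ _).2 (hg.2 P)
  have c1 := tw2_count B N G 𝒜 htr (by
    intro g hg r hr
    rw [mG] at hg
    rw [h𝒜, mem_filter]
    exact ⟨congr_tr_mem h2 hg.1 (by omega), fun P => ((hc P).tr _ _).2 (hg.2 P)⟩) (by
    intro f hf
    rw [h𝒜, mem_filter] at hf
    obtain ⟨g, r, hr, e⟩ := tw2_ex (J := B) (f := f) (fun P hP => hB P hP f (hf.2 P))
    refine ⟨g, ?_, -r, ?_, ?_⟩
    · rw [mG, ← e]
      exact ⟨congr_tr_mem h2 hf.1 (by omega), fun P => ((hc P).tr _ _).2 (hf.2 P)⟩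
    · rw [natDegree_neg]
      omega
    · rw [← e, Cub.tr_tr, add_neg_cancel, Cub.tr_zero])
    (fun f => Φ (f.sc (DJ A * DJ B))) (fun f r => by
      rw [Cub.sc_tr, hΦ])
  have c2 := tw2_count A N G ℋ htr (by
    intro g hg r hr
    rw [mG, key] at hg
    rw [hℋ, mem_filter]
    exact ⟨congr_tr_mem h2 hg.1 (by omega), fun P => (hcAB P _ _).2 (hg.2 P)⟩) (by
    intro f hf
    rw [hℋ, mem_filter] at hf
    have hAT : ∀ P ∈ A, TwP P f := by
      intro P hP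
      have h3 := hf.2 P
      unfold cAB at h3
      rw [if_pos hP] at h3
      obtain ⟨k, r, e, _⟩ := h3
      exact ⟨k, r, e, trivial⟩
    obtain ⟨g, r, hr, e⟩ := tw2_ex (J := A) (f := f) hAT
    refine ⟨g, ?_, -r, ?_, ?_⟩
    · rw [mG, key, ← e]
      exact ⟨congr_tr_mem h2 hf.1 (by omega), fun P => (hcAB P _ _).2 (hf.2 P)⟩
    · rw [natDegree_neg]
      omega
    · rw [← e, Cub.tr_tr, add_neg_cancel, Cub.tr_zero]) Φ hΦ
  have e1 : ∑ g ∈ G, Φ ((g.sc (DJ B)).sc (DJ A * DJ B)) = ∑ g ∈ G, Φ (g.sc (DJ A)) := by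
    refine sum_congr rfl fun g _ => ?_
    rw [← hΦ2 (g.sc (DJ A)), Cub.sc_sc, Cub.sc_sc]
    congr 2
    ring
  rw [c1, c2, e1]
  ring

end Pool.Agent.H456.PS
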