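import Pool.Agent.H456.PS.Stm

/-!
(ty1) `s(n) = #(SJ F n)`: `(2/3) q^n ≤ s(n) ≤ q^n`, and `s(n) = q^n (1 - 1/q)` for `n ≥ 2`. `w = W₀ + √k`. For places `P` of degree `d ≤ k - 1`: `#{J ∈ SJ(2k) : P ∈ J} = #{J' ∈ SJ(2k-d) : P ∉ J'} = s(2k-d) - #{J' ∈ SJ(2k-d), P ∈ J'} ≥ s(2k-d) - s(2k-2d)` and `≤ s(2k-d)`; for `P ≠ P'`: `#{J ∋ P, P'} ≤ s(2k-d-d')` (remove the places). Let `X(J) = #{P ∈ J : w < deg P ≤ k-1}`, `M = ∑_{w<d≤k-1} N_d q^(-d)`, `s = s(2k)`: `s (M - κ) ≤ ∑_J X ≤ s M`, `κ = ∑ N_d q^(-2d) ≤ ∑_{d≥1} q^(-d) ≤ 1/2`; `∑_J X(X-1) ≤ s M²`. So `∑_J (X - M)² ≤ s (M² + M) - 2 M s (M - κ) + M² s ≤ 2 s M`, Chebyshev: `#{J : X(J) < M/2} ≤ 8 s/M`. By `S_irc` `M ≥ ∑_{w<d≤k-1} 1/(2d) ≥ (1/2) log (k/(w+1)) → ∞` as `k → ∞` (`w = W₀ + √k`). UNIQUENESS: the number of the `J ∈ SJ(2k)` with two different places of the same degree `d > w` is at most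
`∑_{w<d≤k} N_d² s(2k-2d) ≤ ∑_{d>w} q^(2d)/d² · q^(2k-2d) ≤ q^(2k)/w ≤ (3/2) s/w`. For all other `J` the degrees of the places counted by `X(J)` are in `Ud J w`, so `#(Ud J w) ≥ X(J) ≥ M/2 ≥ m` for `k ≥ k₀`.
-/

set_option autoImplicit false
set_option linter.all false

open Polynomial Finset Filter
open Pool.Agent.H456.EC (toK toK_inj sig toK_eq reflect_toK cls)
open Pool.Agent.H456.RN
open Pool.Agent.H456.BQ
open Pool.Agent.H456.Coh (TF)
open Pool.Agent.H456.PP (OneR NoR HasRt sx hh Tz Tq Iso3 nr IsoP nrP)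
open Pool.Agent.H456.PR

namespace Pool.Agent.H456.PS

theorem ty1_var {Ω ι : Type} (S : Finset Ω) (Q : Finset ι) (I : ι → Ω → Prop)
    [∀ P J, Decidable (I P J)] (a : ι → ℝ) (κ : ℝ)
    (ha : ∀ P ∈ Q, 0 ≤ a P)
    (h1 : ∀ P ∈ Q, ((S.filter (fun J => I P J)).card : ℝ) ≤ S.card * a P)
    (h2 : ∀ P ∈ Q, S.card * a P - S.card * a P ^ 2 ≤ ((S.filter (fun J => I P J)).card : ℝ))
    (h3 : ∀ P ∈ Q, ∀ P' ∈ Q, P ≠ P' →
      ((S.filter (fun J => I P J ∧ I P' J)).card : ℝ) ≤ S.card * (a P * a P'))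
    (hκ : ∑ P ∈ Q, a P ^ 2 ≤ κ) :
    ∑ J ∈ S, ((∑ P ∈ Q, if I P J then (1 : ℝ) else 0) - ∑ P ∈ Q, a P) ^ 2 ≤
      S.card * (∑ P ∈ Q, a P) * (1 + 2 * κ) := by
  classical
  set M := ∑ P ∈ Q, a P with hM
  have hM0 : 0 ≤ M := Finset.sum_nonneg ha
  set X : Ω → ℝ := fun J => ∑ P ∈ Q, if I P J then (1 : ℝ) else 0 with hX
  have e1 : ∑ J ∈ S, X J = ∑ P ∈ Q, ((S.filter (fun J => I P J)).card : ℝ) := by
    rw [hX, Finset.sum_comm]
    apply Finset.sum_congr rfl
    intro P _
    rw [Finset.sum_boole]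
  have e2 : ∑ J ∈ S, X J ^ 2 =
      ∑ P ∈ Q, ∑ P' ∈ Q, ((S.filter (fun J => I P J ∧ I P' J)).card : ℝ) := by
    have e4 : ∀ J ∈ S, X J ^ 2 =
        ∑ P ∈ Q, ∑ P' ∈ Q, if I P J ∧ I P' J then (1 : ℝ) else 0 := by
      intro J _
      rw [sq, hX, Finset.sum_mul_sum]
      apply Finset.sum_congr rfl
      intro P _
      apply Finset.sum_congr rfl
      intro P' _
      by_cases h : I P J <;> by_cases h' : I P' J <;> simp [h, h']
    rw [Finset.sum_congr rfl e4, Finset.sum_comm]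
    apply Finset.sum_congr rfl
    intro P _
    rw [Finset.sum_comm]
    apply Finset.sum_congr rfl
    intro P' _
    rw [Finset.sum_boole]
  have e3 : ∑ J ∈ S, X J ^ 2 ≤ S.card * M + S.card * M ^ 2 := by
    rw [e2]
    have h4 : ∀ P ∈ Q, ∀ P' ∈ Q, ((S.filter (fun J => I P J ∧ I P' J)).card : ℝ) ≤
        (if P = P' then (S.card : ℝ) * a P else 0) + S.card * (a P * a P') := by
      intro P hP P' hP'
      by_cases h : P = P'
      · subst h
        simp only [and_self, if_true]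
        have h5 := h1 P hP
        have h6 : 0 ≤ (S.card : ℝ) * (a P * a P) :=
          mul_nonneg (Nat.cast_nonneg _) (mul_nonneg (ha P hP) (ha P hP))
        linarith
      · rw [if_neg h, zero_add]
        exact h3 P hP P' hP' h
    calc ∑ P ∈ Q, ∑ P' ∈ Q, ((S.filter (fun J => I P J ∧ I P' J)).card : ℝ) ≤
        ∑ P ∈ Q, ∑ P' ∈ Q, ((if P = P' then (S.card : ℝ) * a P else 0) + S.card * (a P * a P')) :=
        Finset.sum_le_sum fun P hP => Finset.sum_le_sum fun P' hP' => h4 P hP P' hP'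
      _ = ∑ P ∈ Q, ((S.card : ℝ) * a P + S.card * (a P * M)) := by
        apply Finset.sum_congr rfl
        intro P hP
        rw [Finset.sum_add_distrib, Finset.sum_ite_eq, if_pos hP, ← Finset.mul_sum,
          ← Finset.mul_sum]
      _ = S.card * M + S.card * M ^ 2 := by
        rw [Finset.sum_add_distrib, ← Finset.mul_sum, ← Finset.mul_sum, ← Finset.sum_mul]
        ring
  have e5 : S.card * M - S.card * κ ≤ ∑ J ∈ S, X J := by
    rw [e1]
    calc (S.card : ℝ) * M - S.card * κ ≤ S.card * M - S.card * ∑ P ∈ Q, a P ^ 2 := by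
          have := mul_le_mul_of_nonneg_left hκ (Nat.cast_nonneg S.card : (0 : ℝ) ≤ S.card)
          linarith
      _ = ∑ P ∈ Q, (S.card * a P - S.card * a P ^ 2) := by
          rw [Finset.sum_sub_distrib, ← Finset.mul_sum, ← Finset.mul_sum]
      _ ≤ _ := Finset.sum_le_sum h2
  have e6 : ∑ J ∈ S, (X J - M) ^ 2 = ∑ J ∈ S, X J ^ 2 - 2 * M * ∑ J ∈ S, X J + S.card * M ^ 2 := by
    rw [Finset.mul_sum, ← Finset.sum_sub_distrib]
    have : (S.card : ℝ) * M ^ 2 = ∑ _J ∈ S, M ^ 2 := by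
      rw [Finset.sum_const, nsmul_eq_mul]
    rw [this, ← Finset.sum_add_distrib]
    apply Finset.sum_congr rfl
    intro J _
    ring
  change ∑ J ∈ S, (X J - M) ^ 2 ≤ _
  rw [e6]
  have e7 := mul_le_mul_of_nonneg_left e5 (by positivity : 0 ≤ 2 * M)
  nlinarith

open Classical in
theorem ty1_cheb {Ω : Type} (S : Finset Ω) (X : Ω → ℝ) (M V : ℝ) (hM : 0 < M)
    (h : ∑ J ∈ S, (X J - M) ^ 2 ≤ V) :
    ((S.filter (fun J => X J < M / 2)).card : ℝ) * (M ^ 2 / 4) ≤ V := by
  refine le_trans ?_ h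
  calc ((S.filter (fun J => X J < M / 2)).card : ℝ) * (M ^ 2 / 4) =
      ∑ _J ∈ S.filter (fun J => X J < M / 2), M ^ 2 / 4 := by
        rw [Finset.sum_const, nsmul_eq_mul]
    _ ≤ ∑ J ∈ S.filter (fun J => X J < M / 2), (X J - M) ^ 2 := by
        apply Finset.sum_le_sum
        intro J hJ
        have h1 := (Finset.mem_filter.1 hJ).2
        nlinarith
    _ ≤ ∑ J ∈ S, (X J - M) ^ 2 :=
        Finset.sum_le_sum_of_subset_of_nonneg (Finset.filter_subset _ _) fun _ _ _ => sq_nonneg _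

theorem ty1_harm (w n : ℕ) (h : w ≤ n) :
    Real.log (n + 1) - Real.log (w + 1) ≤ ∑ d ∈ Finset.Ioc w n, 1 / (d : ℝ) := by
  induction n, h using Nat.le_induction with
  | base => simp
  | succ n hn ih =>
    rw [Finset.sum_Ioc_succ_top hn]
    have h1 : (0 : ℝ) < n + 1 := by positivity
    have h2 : Real.log (n + 1 + 1) - Real.log (n + 1) ≤ 1 / (n + 1) := by
      rw [← Real.log_div (by positivity) h1.ne']
      have h3 := Real.log_le_sub_one_of_pos (show (0 : ℝ) < (n + 1 + 1) / (n + 1) by positivity)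
      have h4 : ((n : ℝ) + 1 + 1) / (n + 1) - 1 = 1 / (n + 1) := by
        field_simp
        ring
      linarith
    push_cast
    linarith

/-- the parameters -/
theorem ty1_par (W₀ : ℕ) (R : ℝ) : ∃ k₀ : ℕ, 1 ≤ k₀ ∧ ∀ k ≥ k₀, W₀ + Nat.sqrt k + 1 ≤ k ∧
    R ≤ ((W₀ + Nat.sqrt k : ℕ) : ℝ) ∧
    R ≤ Real.log (k : ℝ) - Real.log ((W₀ + Nat.sqrt k : ℕ) + 1 : ℝ) := by
  have h1 : Tendsto (fun k : ℕ => Real.log (k : ℝ)) atTop atTop :=
    Real.tendsto_log_atTop.comp tendsto_natCast_atTop_atTop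
  obtain ⟨k₁, hk₁⟩ := eventually_atTop.1
    (h1.eventually_ge_atTop (2 * (R + Real.log ((W₀ : ℝ) + 2))))
  obtain ⟨N, hN⟩ := exists_nat_ge R
  refine ⟨max k₁ ((W₀ + 2 + N) ^ 2), ?_, ?_⟩
  · apply le_max_of_le_right
    apply Nat.one_le_pow
    omega
  intro k hk
  have hk1 : k₁ ≤ k := (le_max_left _ _).trans hk
  have hk2 : (W₀ + 2 + N) ^ 2 ≤ k := (le_max_right _ _).trans hk
  have hs : W₀ + 2 + N ≤ Nat.sqrt k := Nat.le_sqrt'.2 hk2
  have hsk : Nat.sqrt k * Nat.sqrt k ≤ k := Nat.sqrt_le k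
  have hb : W₀ + Nat.sqrt k + 1 ≤ (W₀ + 2) * Nat.sqrt k := by nlinarith
  refine ⟨?_, ?_, ?_⟩
  · nlinarith
  · have : (N : ℝ) ≤ ((W₀ + Nat.sqrt k : ℕ) : ℝ) := by exact_mod_cast (by omega)
    linarith
  · have h2 := hk₁ k hk1
    have hs0 : (0 : ℝ) < (Nat.sqrt k : ℝ) := by
      have : 0 < Nat.sqrt k := by omega
      exact_mod_cast this
    have hk0 : (0 : ℝ) < k := by
      have : 0 < k := by nlinarith
      exact_mod_cast this
    have h3 : Real.log ((W₀ + Nat.sqrt k : ℕ) + 1 : ℝ) ≤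
        Real.log ((W₀ : ℝ) + 2) + Real.log (Nat.sqrt k : ℝ) := by
      rw [← Real.log_mul (by positivity) hs0.ne']
      apply Real.log_le_log (by positivity)
      have : (((W₀ + Nat.sqrt k + 1 : ℕ)) : ℝ) ≤ (((W₀ + 2) * Nat.sqrt k : ℕ) : ℝ) := by
        exact_mod_cast hb
      push_cast at this ⊢
      linarith
    have h4 : 2 * Real.log (Nat.sqrt k : ℝ) ≤ Real.log k := by
      have h5 : Real.log ((Nat.sqrt k : ℝ) * (Nat.sqrt k : ℝ)) ≤ Real.log k := by
        apply Real.log_le_log (by positivity)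
        exact_mod_cast hsk
      rw [Real.log_mul hs0.ne' hs0.ne'] at h5
      linarith
    linarith

section
variable {F : Type} [Field F]

theorem ty1_deg (J : Finset (Pl F)) : (DJ J).natDegree = ∑ P ∈ J, P.1.natDegree := by
  unfold DJ
  exact Polynomial.natDegree_prod_of_monic _ _ (fun P _ => P.2.1)

theorem ty1_pos (P : Pl F) : 0 < P.1.natDegree := P.2.2.natDegree_pos

open Classical in
theorem ty1_erase {J : Finset (Pl F)} {P : Pl F} (h : P ∈ J) :
    (DJ (J.erase P)).natDegree + P.1.natDegree = (DJ J).natDegree := by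
  rw [ty1_deg, ty1_deg]
  exact Finset.sum_erase_add J _ h

open Classical in
theorem ty1_insert {J : Finset (Pl F)} {P : Pl F} (h : P ∉ J) :
    (DJ (insert P J)).natDegree = P.1.natDegree + (DJ J).natDegree := by
  rw [ty1_deg, ty1_deg]
  exact Finset.sum_insert h

open Classical in
theorem ty1_mem_le {S : ℕ → Finset (Finset (Pl F))}
    (hS : ∀ n J, J ∈ S n ↔ (DJ J).natDegree = n) (n : ℕ) (P : Pl F) :
    ((S n).filter (fun J => P ∈ J)).card ≤ (S (n - P.1.natDegree)).card := by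
  apply Finset.card_le_card_of_injOn (fun J => J.erase P)
  · intro J hJ
    rw [Finset.mem_coe, Finset.mem_filter, hS] at hJ
    rw [Finset.mem_coe, hS]
    have := ty1_erase hJ.2
    change (DJ (J.erase P)).natDegree = _
    omega
  · intro J hJ J' hJ' h
    rw [Finset.mem_coe, Finset.mem_filter] at hJ hJ'
    have h' : J.erase P = J'.erase P := h
    rw [← Finset.insert_erase hJ.2, ← Finset.insert_erase hJ'.2, h']

open Classical in
theorem ty1_mem2_le {S : ℕ → Finset (Finset (Pl F))}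
    (hS : ∀ n J, J ∈ S n ↔ (DJ J).natDegree = n) (n : ℕ) (P P' : Pl F) (hne : P ≠ P') :
    ((S n).filter (fun J => P ∈ J ∧ P' ∈ J)).card ≤
      (S (n - P.1.natDegree - P'.1.natDegree)).card := by
  apply Finset.card_le_card_of_injOn (fun J => (J.erase P).erase P')
  · intro J hJ
    rw [Finset.mem_coe, Finset.mem_filter, hS] at hJ
    rw [Finset.mem_coe, hS]
    have h1 := ty1_erase hJ.2.1
    have h2 := ty1_erase (Finset.mem_erase.2 ⟨hne.symm, hJ.2.2⟩)
    change (DJ ((J.erase P).erase P')).natDegree = _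
    omega
  · intro J hJ J' hJ' h
    rw [Finset.mem_coe, Finset.mem_filter] at hJ hJ'
    have h' : (J.erase P).erase P' = (J'.erase P).erase P' := h
    have h1 : J.erase P = J'.erase P := by
      rw [← Finset.insert_erase (Finset.mem_erase.2 ⟨hne.symm, hJ.2.2⟩),
        ← Finset.insert_erase (Finset.mem_erase.2 ⟨hne.symm, hJ'.2.2⟩), h']
    rw [← Finset.insert_erase hJ.2.1, ← Finset.insert_erase hJ'.2.1, h1]

open Classical in
theorem ty1_mem_ge {S : ℕ → Finset (Finset (Pl F))}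
    (hS : ∀ n J, J ∈ S n ↔ (DJ J).natDegree = n) (n : ℕ) (P : Pl F) (hd : P.1.natDegree ≤ n) :
    (S (n - P.1.natDegree)).card ≤ ((S n).filter (fun J => P ∈ J)).card +
      (S (n - P.1.natDegree - P.1.natDegree)).card := by
  have h1 := ty1_mem_le hS (n - P.1.natDegree) P
  have h2 : ((S (n - P.1.natDegree)).filter (fun J => ¬ P ∈ J)).card ≤
      ((S n).filter (fun J => P ∈ J)).card := by
    apply Finset.card_le_card_of_injOn (fun J => insert P J)
    · intro J hJ
      rw [Finset.mem_coe, Finset.mem_filter, hS] at hJ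
      rw [Finset.mem_coe, Finset.mem_filter, hS]
      have h3 := ty1_insert hJ.2
      refine ⟨?_, Finset.mem_insert_self _ _⟩
      change (DJ (insert P J)).natDegree = _
      omega
    · intro J hJ J' hJ' h
      rw [Finset.mem_coe, Finset.mem_filter] at hJ hJ'
      have h' : insert P J = insert P J' := h
      rw [← Finset.erase_insert hJ.2, ← Finset.erase_insert hJ'.2, h']
  have h3 := Finset.card_filter_add_card_filter_not (s := S (n - P.1.natDegree))
    (fun J => P ∈ J)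
  omega

/-- two places of the same degree `> w` -/
def ty1_Bad (w : ℕ) (J : Finset (Pl F)) : Prop :=
  ∃ P ∈ J, ∃ P' ∈ J, P ≠ P' ∧ P.1.natDegree = P'.1.natDegree ∧ w < P.1.natDegree

open Classical in
theorem ty1_Ud {w : ℕ} {J : Finset (Pl F)} (hJ : ¬ ty1_Bad w J) (Q : Finset (Pl F))
    (hQ : ∀ P ∈ Q, w < P.1.natDegree) : (Q.filter (fun P => P ∈ J)).card ≤ (Ud J w).card := by
  have key : ∀ P ∈ J, ∀ P' ∈ J, P.1.natDegree = P'.1.natDegree → w < P.1.natDegree → P = P' := by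
    intro P hP P' hP' h1 h2
    by_contra h3
    exact hJ ⟨P, hP, P', hP', h3, h1, h2⟩
  apply Finset.card_le_card_of_injOn (fun P => P.1.natDegree)
  · intro P hP
    rw [Finset.mem_coe, Finset.mem_filter] at hP
    have hw := hQ P hP.1
    rw [Finset.mem_coe]
    unfold Ud
    rw [Finset.mem_filter, Finset.mem_image]
    refine ⟨⟨P, hP.2, rfl⟩, hw, ?_⟩
    rw [Finset.card_eq_one]
    refine ⟨P, ?_⟩
    ext P'
    rw [Finset.mem_filter, Finset.mem_singleton]
    constructor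
    · rintro ⟨h1, h2⟩
      exact (key P hP.2 P' h1 h2.symm hw).symm
    · rintro rfl
      exact ⟨hP.2, rfl⟩
  · intro P hP P' hP' h
    rw [Finset.mem_coe, Finset.mem_filter] at hP hP'
    exact key P hP.2 P' hP'.2 h (hQ P hP.1)

end

theorem t_ty1 : S_irc → S_sqc → S_ty1 := by
  intro hirc hsqc F _ _ h2 m W₀ ε hε
  classical
  -- the number of elements of the field
  have hq2 : 2 ≤ Fintype.card F := Fintype.one_lt_card
  set q : ℕ := Fintype.card F with hq
  have hqR : (2 : ℝ) ≤ (q : ℝ) := by exact_mod_cast hq2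
  have hq0 : (0 : ℝ) < (q : ℝ) := by linarith
  -- the places of given degree
  have hfin : ∀ d : ℕ, {P : Pl F | P.1.natDegree = d}.Finite := by
    intro d
    rcases Nat.eq_zero_or_pos d with h | h
    · subst h
      have : {P : Pl F | P.1.natDegree = 0} = ∅ := by
        ext P
        simp only [Set.mem_ofPred_eq, Set.mem_empty_iff_false, iff_false]
        exact (ty1_pos P).ne'
      rw [this]
      exact Set.finite_empty
    · exact (hirc F h2 d h).1
  set pls : ℕ → Finset (Pl F) := fun d => (hfin d).toFinset with hpls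
  have mem_pls : ∀ d P, P ∈ pls d ↔ P.1.natDegree = d := by
    intro d P
    rw [hpls]
    simp only [Set.Finite.mem_toFinset, Set.mem_ofPred_eq]
  have Nup : ∀ d, 1 ≤ d → ((pls d).card : ℝ) ≤ (q : ℝ) ^ d / d := by
    intro d hd
    have h3 := (hirc F h2 d hd).2.1
    rw [Set.ncard_eq_toFinset_card _ (hfin d)] at h3
    have hd0 : (0 : ℝ) < d := by exact_mod_cast hd
    rw [le_div_iff₀ hd0]
    have h4 : ((d * (pls d).card : ℕ) : ℝ) ≤ ((q ^ d : ℕ) : ℝ) := by exact_mod_cast h3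
    push_cast at h4
    linarith
  have Nlo : ∀ d, 1 ≤ d → (q : ℝ) ^ d * (1 / (2 * d)) ≤ ((pls d).card : ℝ) := by
    intro d hd
    have h3 := (hirc F h2 d hd).2.2
    rw [Set.ncard_eq_toFinset_card _ (hfin d)] at h3
    have hd0 : (0 : ℝ) < d := by exact_mod_cast hd
    rw [mul_one_div, div_le_iff₀ (by positivity)]
    have h4 : ((q ^ d : ℕ) : ℝ) ≤ ((2 * d * (pls d).card : ℕ) : ℝ) := by exact_mod_cast h3
    push_cast at h4
    linarith
  -- the squarefree polynomials
  set S : ℕ → Finset (Finset (Pl F)) := fun n => (hsqc F n).1.toFinset with hSd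
  have hS : ∀ n J, J ∈ S n ↔ (DJ J).natDegree = n := by
    intro n J
    rw [hSd]
    simp only [Set.Finite.mem_toFinset, SJ, Set.mem_ofPred_eq]
  have hSn : ∀ n, (SJ F n).ncard = (S n).card := by
    intro n
    rw [Set.ncard_eq_toFinset_card _ (hsqc F n).1]
  have Sle : ∀ n, ((S n).card : ℝ) ≤ (q : ℝ) ^ n := by
    intro n
    have h3 := (hsqc F n).2
    rw [hSn] at h3
    have h4 : (S n).card ≤ q ^ n := by
      rw [hq, ← h3]
      exact Nat.le_add_right _ _
    exact_mod_cast h4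
  have Seq : ∀ n, 2 ≤ n → ((S n).card : ℝ) = (1 - 1 / q) * (q : ℝ) ^ n := by
    intro n hn
    have h3 := (hsqc F n).2
    rw [hSn, if_pos hn] at h3
    have h4 : ((S n).card : ℝ) + (q : ℝ) ^ (n - 1) = (q : ℝ) ^ n := by exact_mod_cast h3
    have h5 : (q : ℝ) ^ n = q * (q : ℝ) ^ (n - 1) := by
      rw [← pow_succ']
      congr 1
      omega
    have h6 : (1 - 1 / (q : ℝ)) * (q : ℝ) ^ n = (q : ℝ) ^ n - (q : ℝ) ^ (n - 1) := by
      rw [sub_mul, one_mul, h5]
      field_simp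
    linarith
  -- parameters
  obtain ⟨k₀, hk₀1, hk₀⟩ := ty1_par W₀ (max 1 (max (4 * m) (max (80 / ε) (4 / ε))))
  refine ⟨k₀, fun k hk => ?_⟩
  obtain ⟨hwk, hwR, hlogR⟩ := hk₀ k hk
  set w : ℕ := W₀ + Nat.sqrt k with hw
  have hk1 : 1 ≤ k := hk₀1.trans hk
  have hw1 : (1 : ℝ) ≤ (w : ℝ) := (le_max_left _ _).trans hwR
  have hw0 : 1 ≤ w := by exact_mod_cast hw1
  have hwε : 4 / ε ≤ (w : ℝ) :=
    ((le_max_right _ _).trans ((le_max_right _ _).trans (le_max_right _ _))).trans hwR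
  set s : ℝ := ((S (2 * k)).card : ℝ) with hs
  have hs' : s = (1 - 1 / q) * (q : ℝ) ^ (2 * k) := Seq _ (by omega)
  have hs0 : 0 ≤ s := Nat.cast_nonneg _
  -- the places
  set Q : Finset (Pl F) := (Finset.Ioc w (k - 1)).biUnion pls with hQ
  have memQ : ∀ P, P ∈ Q ↔ w < P.1.natDegree ∧ P.1.natDegree ≤ k - 1 := by
    intro P
    rw [hQ, Finset.mem_biUnion]
    constructor
    · rintro ⟨d, hd, hP⟩
      rw [mem_pls] at hP
      rw [hP]
      exact Finset.mem_Ioc.1 hd
    · intro h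
      exact ⟨P.1.natDegree, Finset.mem_Ioc.2 h, (mem_pls _ _).2 rfl⟩
  have sumQ : ∀ f : ℕ → ℝ, ∑ P ∈ Q, f P.1.natDegree =
      ∑ d ∈ Finset.Ioc w (k - 1), ((pls d).card : ℝ) * f d := by
    intro f
    rw [hQ, Finset.sum_biUnion]
    · apply Finset.sum_congr rfl
      intro d _
      rw [Finset.sum_congr rfl (g := fun _ => f d), Finset.sum_const, nsmul_eq_mul]
      intro P hP
      rw [(mem_pls d P).1 hP]
    · intro d _ d' _ hdd
      rw [Function.onFun, Finset.disjoint_left]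
      intro P hP hP'
      exact hdd (((mem_pls d P).1 hP).symm.trans ((mem_pls d' P).1 hP'))
  set M : ℝ := ∑ P ∈ Q, 1 / (q : ℝ) ^ P.1.natDegree with hM
  have hMlow : (1 / 2) * (Real.log k - Real.log ((w : ℕ) + 1 : ℝ)) ≤ M := by
    have h3 := ty1_harm w (k - 1) (by omega)
    have h4 : (((k - 1 : ℕ) : ℝ) + 1) = k := by
      have : ((k - 1 + 1 : ℕ) : ℝ) = (k : ℝ) := by
        congr 1
        omega
      push_cast at this
      exact this
    rw [h4] at h3
    rw [hM, sumQ (fun d => 1 / (q : ℝ) ^ d)]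
    have h5 : ∀ d ∈ Finset.Ioc w (k - 1), (1 / 2) * (1 / (d : ℝ)) ≤
        ((pls d).card : ℝ) * (1 / (q : ℝ) ^ d) := by
      intro d hd
      have hd1 : 1 ≤ d := by
        have := (Finset.mem_Ioc.1 hd).1
        omega
      have h6 := Nlo d hd1
      have hqd : 0 < (q : ℝ) ^ d := by positivity
      rw [mul_one_div (((pls d).card : ℝ)), le_div_iff₀ hqd]
      have : (1 / 2) * (1 / (d : ℝ)) * (q : ℝ) ^ d = (q : ℝ) ^ d * (1 / (2 * d)) := by
        ring
      linarith
    have h7 := Finset.sum_le_sum h5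
    rw [← Finset.mul_sum] at h7
    linarith
  have hR1 : (1 : ℝ) ≤ Real.log k - Real.log ((w : ℕ) + 1 : ℝ) := (le_max_left _ _).trans hlogR
  have hR2 : (4 * m : ℝ) ≤ Real.log k - Real.log ((w : ℕ) + 1 : ℝ) :=
    ((le_max_left _ _).trans (le_max_right _ _)).trans hlogR
  have hR3 : 80 / ε ≤ Real.log k - Real.log ((w : ℕ) + 1 : ℝ) :=
    (((le_max_left _ _).trans (le_max_right _ _)).trans (le_max_right _ _)).trans hlogR
  have hM0 : 0 < M := by linarith
  have hMm : (m : ℝ) ≤ M / 2 := by linarith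
  have hMε : 40 / ε ≤ M := by
    have : 80 / ε = 2 * (40 / ε) := by ring
    linarith
  have hκ : ∑ P ∈ Q, (1 / (q : ℝ) ^ P.1.natDegree) ^ 2 ≤ 2 := by
    rw [sumQ (fun d => (1 / (q : ℝ) ^ d) ^ 2)]
    calc ∑ d ∈ Finset.Ioc w (k - 1), ((pls d).card : ℝ) * (1 / (q : ℝ) ^ d) ^ 2 ≤
        ∑ d ∈ Finset.Ioc w (k - 1), (1 / (2 : ℝ)) ^ d := by
          apply Finset.sum_le_sum
          intro d hd
          have hd1 : 1 ≤ d := by
            have := (Finset.mem_Ioc.1 hd).1
            omega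
          have hd1' : (1 : ℝ) ≤ d := by exact_mod_cast hd1
          have h6 := Nup d hd1
          have hqd : 0 < (q : ℝ) ^ d := by positivity
          calc ((pls d).card : ℝ) * (1 / (q : ℝ) ^ d) ^ 2 ≤
              ((q : ℝ) ^ d / d) * (1 / (q : ℝ) ^ d) ^ 2 :=
                mul_le_mul_of_nonneg_right h6 (sq_nonneg _)
            _ = (1 / d) * (1 / (q : ℝ) ^ d) := by
                field_simp
            _ ≤ 1 * (1 / (q : ℝ) ^ d) := by
                apply mul_le_mul_of_nonneg_right _ (by positivity)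
                rw [div_le_one (by positivity)]
                exact hd1'
            _ ≤ (1 / (2 : ℝ)) ^ d := by
                rw [one_mul, div_pow, one_pow]
                exact one_div_le_one_div_of_le (by positivity)
                  (pow_le_pow_left₀ (by norm_num) hqR d)
      _ ≤ ∑ d ∈ Finset.range k, (1 / (2 : ℝ)) ^ d := by
          apply Finset.sum_le_sum_of_subset_of_nonneg
          · intro d hd
            rw [Finset.mem_Ioc] at hd
            rw [Finset.mem_range]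
            omega
          · intro _ _ _
            positivity
      _ ≤ 2 := sum_geometric_two_le k
  -- powers
  have hpw : ∀ d, d ≤ 2 * k → (1 - 1 / (q : ℝ)) * (q : ℝ) ^ (2 * k - d) = s * (1 / (q : ℝ) ^ d) := by
    intro d hd
    rw [hs']
    have h5 : (q : ℝ) ^ (2 * k) = (q : ℝ) ^ (2 * k - d) * (q : ℝ) ^ d := by
      rw [← pow_add]
      congr 1
      omega
    rw [h5]
    field_simp
  have hvar := ty1_var (S (2 * k)) Q (fun P J => P ∈ J)
    (fun P => 1 / (q : ℝ) ^ P.1.natDegree) 2 (fun P _ => by positivity)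
    (by
      intro P hP
      have hP' := (memQ P).1 hP
      have h3 := ty1_mem_le hS (2 * k) P
      have h4 := Seq (2 * k - P.1.natDegree) (by omega)
      rw [hpw _ (by omega)] at h4
      change _ ≤ s * _
      rw [← h4]
      exact_mod_cast h3)
    (by
      intro P hP
      have hP' := (memQ P).1 hP
      have h3 := ty1_mem_ge hS (2 * k) P (by omega)
      have h4 := Seq (2 * k - P.1.natDegree) (by omega)
      rw [hpw _ (by omega)] at h4
      have h5 := Seq (2 * k - P.1.natDegree - P.1.natDegree) (by omega)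
      rw [Nat.sub_sub, hpw _ (by omega)] at h5
      have h6 : ((S (2 * k - P.1.natDegree)).card : ℝ) ≤
          (((S (2 * k)).filter (fun J => P ∈ J)).card : ℝ) +
          ((S (2 * k - P.1.natDegree - P.1.natDegree)).card : ℝ) := by exact_mod_cast h3
      rw [Nat.sub_sub, h4, h5] at h6
      change s * _ - s * _ ≤ _
      have h7 : 1 / (q : ℝ) ^ (P.1.natDegree + P.1.natDegree) =
          (1 / (q : ℝ) ^ P.1.natDegree) ^ 2 := by
        rw [pow_add]
        field_simp
      rw [h7] at h6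
      linarith)
    (by
      intro P hP P' hP' hne
      have hP1 := (memQ P).1 hP
      have hP2 := (memQ P').1 hP'
      have h3 := ty1_mem2_le hS (2 * k) P P' hne
      have h5 := Seq (2 * k - P.1.natDegree - P'.1.natDegree) (by omega)
      rw [Nat.sub_sub, hpw _ (by omega)] at h5
      rw [Nat.sub_sub] at h3
      change _ ≤ s * _
      have h7 : 1 / (q : ℝ) ^ (P.1.natDegree + P'.1.natDegree) =
          1 / (q : ℝ) ^ P.1.natDegree * (1 / (q : ℝ) ^ P'.1.natDegree) := by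
        rw [pow_add]
        field_simp
      rw [← h7, ← h5]
      exact_mod_cast h3)
    hκ
  have hcheb := ty1_cheb (S (2 * k)) _ M _ hM0 hvar
  have hB1 : (((S (2 * k)).filter (fun J => (∑ P ∈ Q, if P ∈ J then (1 : ℝ) else 0) < M / 2)).card : ℝ) ≤
      20 * s / M := by
    rw [le_div_iff₀ hM0]
    have h3 : (((S (2 * k)).filter (fun J => (∑ P ∈ Q, if P ∈ J then (1 : ℝ) else 0) < M / 2)).card : ℝ) *
        (M ^ 2 / 4) ≤ s * M * (1 + 2 * 2) := hcheb
    have h4 : (((S (2 * k)).filter (fun J => (∑ P ∈ Q, if P ∈ J then (1 : ℝ) else 0) < M / 2)).card : ℝ) * M * M ≤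
        20 * s * M := by nlinarith
    exact le_of_mul_le_mul_right h4 hM0
  -- two places of the same degree
  have hB2 : (((S (2 * k)).filter (fun J => ty1_Bad w J)).card : ℝ) ≤ (q : ℝ) ^ (2 * k) / w := by
    have hsub : (S (2 * k)).filter (fun J => ty1_Bad w J) ⊆ (Finset.Ioc w k).biUnion (fun d =>
        ((pls d ×ˢ pls d).filter (fun x => x.1 ≠ x.2)).biUnion
          (fun x => (S (2 * k)).filter (fun J => x.1 ∈ J ∧ x.2 ∈ J))) := by
      intro J hJ
      rw [Finset.mem_filter] at hJ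
      obtain ⟨hJ1, P, hP, P', hP', hne, hdeg, hwP⟩ := hJ
      have h3 := (hS _ _).1 hJ1
      have h4 := ty1_erase hP
      have h5 := ty1_erase (Finset.mem_erase.2 ⟨hne.symm, hP'⟩)
      rw [Finset.mem_biUnion]
      refine ⟨P.1.natDegree, Finset.mem_Ioc.2 ⟨hwP, by omega⟩, ?_⟩
      rw [Finset.mem_biUnion]
      refine ⟨(P, P'), ?_, ?_⟩
      · rw [Finset.mem_filter, Finset.mem_product]
        exact ⟨⟨(mem_pls _ _).2 rfl, (mem_pls _ _).2 hdeg.symm⟩, hne⟩
      · rw [Finset.mem_filter]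
        exact ⟨hJ1, hP, hP'⟩
    have h3 : (((S (2 * k)).filter (fun J => ty1_Bad w J)).card : ℝ) ≤
        ∑ d ∈ Finset.Ioc w k, ((((pls d ×ˢ pls d).filter (fun x => x.1 ≠ x.2)).biUnion
          (fun x => (S (2 * k)).filter (fun J => x.1 ∈ J ∧ x.2 ∈ J))).card : ℝ) := by
      have := (Finset.card_le_card hsub).trans Finset.card_biUnion_le
      exact_mod_cast this
    refine h3.trans ?_
    have h4 : ∀ d ∈ Finset.Ioc w k, ((((pls d ×ˢ pls d).filter (fun x => x.1 ≠ x.2)).biUnion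
          (fun x => (S (2 * k)).filter (fun J => x.1 ∈ J ∧ x.2 ∈ J))).card : ℝ) ≤
          (q : ℝ) ^ (2 * k) * ((d : ℝ) ^ 2)⁻¹ := by
      intro d hd
      rw [Finset.mem_Ioc] at hd
      have hd1 : 1 ≤ d := by omega
      have hd0 : (0 : ℝ) < d := by exact_mod_cast hd1
      have h5 : ((((pls d ×ˢ pls d).filter (fun x => x.1 ≠ x.2)).biUnion
          (fun x => (S (2 * k)).filter (fun J => x.1 ∈ J ∧ x.2 ∈ J))).card : ℝ) ≤
          ∑ x ∈ (pls d ×ˢ pls d).filter (fun x => x.1 ≠ x.2),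
            (((S (2 * k)).filter (fun J => x.1 ∈ J ∧ x.2 ∈ J)).card : ℝ) := by
        have := Finset.card_biUnion_le (s := (pls d ×ˢ pls d).filter (fun x => x.1 ≠ x.2))
          (t := fun x => (S (2 * k)).filter (fun J => x.1 ∈ J ∧ x.2 ∈ J))
        exact_mod_cast this
      have h6 : ∀ x ∈ (pls d ×ˢ pls d).filter (fun x => x.1 ≠ x.2),
          (((S (2 * k)).filter (fun J => x.1 ∈ J ∧ x.2 ∈ J)).card : ℝ) ≤
            (q : ℝ) ^ (2 * k - d - d) := by
        intro x hx
        rw [Finset.mem_filter, Finset.mem_product, mem_pls, mem_pls] at hx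
        have h7 := ty1_mem2_le hS (2 * k) x.1 x.2 hx.2
        rw [hx.1.1, hx.1.2] at h7
        refine le_trans ?_ (Sle _)
        exact_mod_cast h7
      have h7 := Finset.sum_le_sum h6
      rw [Finset.sum_const, nsmul_eq_mul] at h7
      have h8 : ((((pls d ×ˢ pls d).filter (fun x => x.1 ≠ x.2)).card : ℕ) : ℝ) ≤
          ((q : ℝ) ^ d / d) * ((q : ℝ) ^ d / d) := by
        have h9 := Finset.card_filter_le (pls d ×ˢ pls d) (fun x => x.1 ≠ x.2)
        rw [Finset.card_product] at h9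
        have h10 : ((((pls d ×ˢ pls d).filter (fun x => x.1 ≠ x.2)).card : ℕ) : ℝ) ≤
            ((pls d).card : ℝ) * ((pls d).card : ℝ) := by exact_mod_cast h9
        refine h10.trans ?_
        exact mul_le_mul (Nup d hd1) (Nup d hd1) (Nat.cast_nonneg _) (by positivity)
      have h11 : (q : ℝ) ^ (2 * k) = (q : ℝ) ^ (2 * k - d - d) * (q : ℝ) ^ d * (q : ℝ) ^ d := by
        rw [← pow_add, ← pow_add]
        congr 1
        omega
      calc _ ≤ _ := h5
        _ ≤ _ := h7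
        _ ≤ ((q : ℝ) ^ d / d) * ((q : ℝ) ^ d / d) * (q : ℝ) ^ (2 * k - d - d) :=
            mul_le_mul_of_nonneg_right h8 (by positivity)
        _ = (q : ℝ) ^ (2 * k) * ((d : ℝ) ^ 2)⁻¹ := by
            rw [h11]
            field_simp
    refine (Finset.sum_le_sum h4).trans ?_
    rw [← Finset.mul_sum]
    have h5 := sum_Ioc_inv_sq_le_sub (α := ℝ) (k := w) (n := k) (by omega) (by omega)
    have h6 : ∑ d ∈ Finset.Ioc w k, ((d : ℝ) ^ 2)⁻¹ ≤ (w : ℝ)⁻¹ := by
      have h7 : (0 : ℝ) ≤ (k : ℝ)⁻¹ := by positivity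
      linarith
    rw [div_eq_mul_inv]
    exact mul_le_mul_of_nonneg_left h6 (by positivity)
  -- conclusion
  have hset : ({J | J ∈ SJ F (2 * k) ∧ (Ud J w).card < m} : Set (Finset (Pl F))) =
      (((S (2 * k)).filter (fun J => (Ud J w).card < m) : Finset (Finset (Pl F))) :
        Set (Finset (Pl F))) := by
    ext J
    rw [Finset.coe_filter, Set.mem_ofPred_eq, Set.mem_ofPred_eq, hS]
    rfl
  rw [hset, Set.ncard_coe_finset, hSn]
  have hcov : (S (2 * k)).filter (fun J => (Ud J w).card < m) ⊆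
      (S (2 * k)).filter (fun J => (∑ P ∈ Q, if P ∈ J then (1 : ℝ) else 0) < M / 2) ∪
      (S (2 * k)).filter (fun J => ty1_Bad w J) := by
    intro J hJ
    rw [Finset.mem_filter] at hJ
    rw [Finset.mem_union, Finset.mem_filter, Finset.mem_filter]
    by_cases hb : ty1_Bad w J
    · right
      exact ⟨hJ.1, hb⟩
    · left
      refine ⟨hJ.1, ?_⟩
      have h3 := ty1_Ud hb Q (fun P hP => ((memQ P).1 hP).1)
      rw [Finset.sum_boole]
      have h4 : (Q.filter (fun P => P ∈ J)).card < m := lt_of_le_of_lt h3 hJ.2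
      have h5 : ((Q.filter (fun P => P ∈ J)).card : ℝ) < m := by exact_mod_cast h4
      linarith
  have hcard : (((S (2 * k)).filter (fun J => (Ud J w).card < m)).card : ℝ) ≤
      20 * s / M + (q : ℝ) ^ (2 * k) / w := by
    have h3 := (Finset.card_le_card hcov).trans (Finset.card_union_le _ _)
    have h4 : (((S (2 * k)).filter (fun J => (Ud J w).card < m)).card : ℝ) ≤
        (((S (2 * k)).filter (fun J => (∑ P ∈ Q, if P ∈ J then (1 : ℝ) else 0) < M / 2)).card : ℝ) +
        (((S (2 * k)).filter (fun J => ty1_Bad w J)).card : ℝ) := by exact_mod_cast h3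
    linarith
  refine hcard.trans ?_
  change _ ≤ ε * s
  have h3 : 20 * s / M ≤ ε / 2 * s := by
    rw [div_le_iff₀ hM0]
    have h4 : 40 ≤ M * ε := by
      rwa [div_le_iff₀ hε] at hMε
    nlinarith
  have h4 : (q : ℝ) ^ (2 * k) / w ≤ ε / 2 * s := by
    have hw00 : (0 : ℝ) < w := by linarith
    rw [div_le_iff₀ hw00]
    have h5 : 4 ≤ w * ε := by
      rwa [div_le_iff₀ hε] at hwε
    have h6 : (q : ℝ) ^ (2 * k) ≤ 2 * s := by
      rw [hs']
      have h7 : 1 / (q : ℝ) ≤ 1 / 2 := one_div_le_one_div_of_le (by norm_num) hqR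
      have h8 : 0 ≤ (q : ℝ) ^ (2 * k) := by positivity
      nlinarith
    nlinarith
  linarith

end Pool.Agent.H456.PS
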