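import Pool.Agent.H456.PS.Stm

/-!
(ty2) `s(n) = #(SJ F n) ≤ q^n`, `s(2k) ≥ (2/3) q^(2k)` (`q ≥ 3`). `∑_{J ∈ SJ(2k)} #J = ∑_P #{J ∋ P} ≤ ∑_{d=1}^{2k} N_d s(2k-d) ≤ q^(2k) ∑_{d ≤ 2k} 1/d ≤ q^(2k) (1 + log(2k))` (`#{J ∈ SJ(2k) : P ∈ J} ≤ s(2k - deg P)` by `J ↦ J.erase P`). Markov: `#{J : W₀ + √k < c #J} ≤ c q^(2k) (1 + log 2k)/(W₀ + √k) ≤ (3c/2)(1 + log 2k)/√k · s(2k)`, which is `≤ ε s(2k)` for large `k`.
-/

set_option autoImplicit false
set_option linter.all false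

open Polynomial Finset Filter

namespace Pool.Agent.H456.PS

theorem ty2_card3 (F : Type) [Field F] [Fintype F] (h : (2 : F) ≠ 0) : 3 ≤ Fintype.card F := by
  have h1 : 1 < Fintype.card F := Fintype.one_lt_card
  have h2 : Fintype.card F ≠ 2 := by
    intro e
    have := FiniteField.cast_card_eq_zero F
    rw [e] at this
    exact h (by exact_mod_cast this)
  omega

theorem ty2_harm (n : ℕ) (hn : 1 ≤ n) : ∑ d ∈ Icc 1 n, 1 / (d : ℝ) ≤ 1 + Real.log n := by
  have h := harmonic_le_one_add_log n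
  refine le_trans (le_of_eq ?_) h
  rw [harmonic_eq_sum_Icc]
  push_cast
  exact sum_congr rfl fun d _ => one_div _

theorem ty2_asymp (C ε : ℝ) (hC : 0 ≤ C) (hε : 0 < ε) : ∃ r0 : ℕ, 1 ≤ r0 ∧ ∀ r : ℕ, r0 ≤ r →
    C * (1 + Real.log 2 + 2 * Real.log ((r : ℝ) + 1)) ≤ ε * r := by
  obtain ⟨r0, hr0⟩ := exists_nat_ge ((12 * C / ε + 2) ^ 2)
  have hq : 0 ≤ 12 * C / ε := by positivity
  refine ⟨max r0 1, le_max_right _ _, fun r hr => ?_⟩
  have hr1 : (r0 : ℝ) ≤ r := by exact_mod_cast (le_max_left _ _).trans hr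
  obtain ⟨y, hy⟩ : ∃ y, y = Real.sqrt ((r : ℝ) + 1) := ⟨_, rfl⟩
  have hy2 : y ^ 2 = (r : ℝ) + 1 := by rw [hy]; exact Real.sq_sqrt (by positivity)
  have hy1 : 12 * C / ε + 2 ≤ y := by
    rw [hy]
    apply Real.le_sqrt_of_sq_le
    linarith
  have hlog : Real.log ((r : ℝ) + 1) ≤ 2 * y := by
    have h := Real.log_le_rpow_div (x := (r : ℝ) + 1) (by positivity) (ε := 1 / 2) (by norm_num)
    rw [← Real.sqrt_eq_rpow, ← hy] at h
    linarith
  have hlog2 : Real.log 2 ≤ 1 := by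
    have := Real.log_two_lt_d9
    linarith
  have h1 : C * (1 + Real.log 2 + 2 * Real.log ((r : ℝ) + 1)) ≤ C * (2 + 4 * y) :=
    mul_le_mul_of_nonneg_left (by linarith) hC
  have h2 : C * (2 + 4 * y) ≤ C * (6 * y) := mul_le_mul_of_nonneg_left (by linarith) hC
  have h3 : 12 * C ≤ ε * y := by
    have : 12 * C / ε ≤ y := by linarith
    rw [div_le_iff₀ hε] at this
    linarith
  have h4 : C * (6 * y) ≤ ε * (y ^ 2 / 2) := by nlinarith
  have h5 : y ^ 2 / 2 ≤ r := by nlinarith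
  have h6 : ε * (y ^ 2 / 2) ≤ ε * r := mul_le_mul_of_nonneg_left h5 hε.le
  linarith


theorem ty2_count {α : Type} [DecidableEq α] (deg : α → ℕ) (hdeg : ∀ P, 1 ≤ deg P)
    (T : ℕ → Finset α) (hT : ∀ d, 1 ≤ d → ∀ P, P ∈ T d ↔ deg P = d)
    (S : ℕ → Finset (Finset α)) (hS : ∀ n J, J ∈ S n ↔ ∑ P ∈ J, deg P = n) (n : ℕ) :
    ∑ J ∈ S n, J.card ≤ ∑ d ∈ Icc 1 n, (T d).card * (S (n - d)).card := by
  have h1 : ∀ J ∈ S n, J.card ≤ ∑ d ∈ Icc 1 n, ∑ P ∈ T d, (if P ∈ J then 1 else 0) := by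
    intro J hJ
    rw [hS] at hJ
    have hsub : J ⊆ (Icc 1 n).biUnion fun d => (T d).filter (· ∈ J) := by
      intro P hP
      rw [mem_biUnion]
      refine ⟨deg P, ?_, ?_⟩
      · rw [mem_Icc]
        refine ⟨hdeg P, ?_⟩
        rw [← hJ]
        exact single_le_sum (f := deg) (fun _ _ => Nat.zero_le _) hP
      · rw [mem_filter]
        exact ⟨(hT _ (hdeg P) P).2 rfl, hP⟩
    refine (card_le_card hsub).trans (card_biUnion_le.trans (le_of_eq ?_))
    exact sum_congr rfl fun d _ => card_filter _ _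
  refine (sum_le_sum h1).trans ?_
  rw [sum_comm]
  refine sum_le_sum fun d hd => ?_
  rw [mem_Icc] at hd
  rw [sum_comm]
  have h2 : ∀ P ∈ T d, ∑ J ∈ S n, (if P ∈ J then 1 else 0) ≤ (S (n - d)).card := by
    intro P hP
    rw [hT d hd.1] at hP
    rw [← card_filter]
    apply card_le_card_of_injOn (fun J => J.erase P)
    · intro J hJ
      simp only [coe_filter, Set.mem_ofPred_eq, hS] at hJ
      show J.erase P ∈ (S (n - d) : Set (Finset α))
      rw [mem_coe, hS]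
      have := add_sum_erase J deg hJ.2
      omega
    · intro J hJ J' hJ' e
      simp only [coe_filter, Set.mem_ofPred_eq] at hJ hJ'
      simp only at e
      rw [← insert_erase hJ.2, e, insert_erase hJ'.2]
  refine (sum_le_sum h2).trans (le_of_eq ?_)
  rw [sum_const, smul_eq_mul]

theorem ty2_markov {β : Type} [DecidableEq β] (S : Finset β) (card : β → ℕ) (c W r : ℕ) (ε X : ℝ)
    (hr : 1 ≤ r) (hsum : (∑ J ∈ S, (card J : ℝ)) ≤ X) (hX : c * X ≤ ε * r * S.card) :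
    ((S.filter fun J => W + r < c * card J).card : ℝ) ≤ ε * S.card := by
  have hr0 : (0 : ℝ) < r := by exact_mod_cast hr
  have h1 : (r : ℝ) * ((S.filter fun J => W + r < c * card J).card : ℝ) ≤
      ∑ J ∈ S.filter (fun J => W + r < c * card J), ((c : ℝ) * card J) := by
    rw [mul_comm, ← nsmul_eq_mul]
    apply card_nsmul_le_sum
    intro J hJ
    rw [mem_filter] at hJ
    have h2 : r ≤ c * card J := by omega
    exact_mod_cast h2
  have h2 : ∑ J ∈ S.filter (fun J => W + r < c * card J), ((c : ℝ) * card J) ≤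
      c * ∑ J ∈ S, (card J : ℝ) := by
    rw [mul_sum]
    exact sum_le_sum_of_subset_of_nonneg (filter_subset _ _) fun _ _ _ => by positivity
  have h3 : (c : ℝ) * ∑ J ∈ S, (card J : ℝ) ≤ c * X := mul_le_mul_of_nonneg_left hsum (by positivity)
  have h4 : (r : ℝ) * ((S.filter fun J => W + r < c * card J).card : ℝ) ≤ r * (ε * S.card) := by
    nlinarith
  exact le_of_mul_le_mul_left h4 hr0

theorem ty2_final {α : Type} [DecidableEq α] (deg : α → ℕ) (hdeg : ∀ P, 1 ≤ deg P) (q : ℕ)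
    (hq : 3 ≤ q) (hT : ∀ d : ℕ, 1 ≤ d → {P : α | deg P = d}.Finite ∧ d * {P : α | deg P = d}.ncard ≤ q ^ d)
    (S : ℕ → Finset (Finset α)) (hS : ∀ n J, J ∈ S n ↔ ∑ P ∈ J, deg P = n)
    (hSc : ∀ n, (S n).card + (if 2 ≤ n then q ^ (n - 1) else 0) = q ^ n)
    (c W : ℕ) (ε : ℝ) (hε : 0 < ε) : ∃ k0 : ℕ, ∀ k ≥ k0,
      (((S (2 * k)).filter fun J => W + Nat.sqrt k < c * J.card).card : ℝ) ≤ ε * (S (2 * k)).card := by
  have hex : ∀ d, ∃ T : Finset α, 1 ≤ d → (∀ P, P ∈ T ↔ deg P = d) ∧ d * T.card ≤ q ^ d := by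
    intro d
    by_cases h : 1 ≤ d
    · obtain ⟨h1, h2⟩ := hT d h
      refine ⟨h1.toFinset, fun _ => ⟨fun P => by simp, ?_⟩⟩
      rwa [← Set.ncard_eq_toFinset_card _ h1]
    · exact ⟨∅, fun h' => absurd h' h⟩
  choose T hT2 using hex
  have hsum := fun n => ty2_count deg hdeg T (fun d hd => (hT2 d hd).1) S hS n
  have hSle : ∀ n, (S n).card ≤ q ^ n := fun n => by
    have := hSc n
    omega
  have hq0 : (0 : ℝ) < q := by
    have : 0 < q := by omega
    exact_mod_cast this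
  have hbd : ∀ n, 1 ≤ n → (∑ J ∈ S n, (J.card : ℝ)) ≤ (q : ℝ) ^ n * (1 + Real.log n) := by
    intro n hn
    have h1 : (∑ J ∈ S n, (J.card : ℝ)) ≤ ∑ d ∈ Icc 1 n, ((T d).card : ℝ) * (S (n - d)).card := by
      exact_mod_cast hsum n
    refine h1.trans ?_
    have h2 : ∀ d ∈ Icc 1 n, ((T d).card : ℝ) * (S (n - d)).card ≤ (q : ℝ) ^ n * (1 / (d : ℝ)) := by
      intro d hd
      rw [mem_Icc] at hd
      have hd0 : (0 : ℝ) < d := by exact_mod_cast hd.1
      have h3 : ((T d).card : ℝ) ≤ (q : ℝ) ^ d / d := by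
        rw [le_div_iff₀ hd0, mul_comm]
        exact_mod_cast (hT2 d hd.1).2
      have h4 : ((S (n - d)).card : ℝ) ≤ (q : ℝ) ^ (n - d) := by exact_mod_cast hSle (n - d)
      calc ((T d).card : ℝ) * (S (n - d)).card ≤ (q : ℝ) ^ d / d * (q : ℝ) ^ (n - d) :=
            mul_le_mul h3 h4 (by positivity) (by positivity)
        _ = (q : ℝ) ^ n * (1 / (d : ℝ)) := by
            rw [show n = d + (n - d) by omega, pow_add, Nat.add_sub_cancel_left]
            ring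
    refine (sum_le_sum h2).trans ?_
    rw [← mul_sum]
    exact mul_le_mul_of_nonneg_left (ty2_harm n hn) (by positivity)
  obtain ⟨r0, hr01, hr0⟩ := ty2_asymp (3 / 2 * c) ε (by positivity) hε
  refine ⟨r0 ^ 2, fun k hk => ?_⟩
  have hr : r0 ≤ Nat.sqrt k := Nat.le_sqrt'.2 hk
  have hk1 : 1 ≤ k := le_trans (Nat.one_le_pow _ _ hr01) hk
  obtain ⟨r, hrr⟩ : ∃ r, r = Nat.sqrt k := ⟨_, rfl⟩
  rw [← hrr] at hr ⊢
  refine ty2_markov (S (2 * k)) (fun J => J.card) c W r ε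
    ((q : ℝ) ^ (2 * k) * (1 + Real.log ((2 * k : ℕ) : ℝ))) (hr01.trans hr) (hbd (2 * k) (by omega)) ?_
  have hkr : (k : ℝ) ≤ ((r : ℝ) + 1) ^ 2 := by
    have : k < (Nat.sqrt k + 1) ^ 2 := Nat.lt_succ_sqrt' k
    rw [← hrr] at this
    exact_mod_cast this.le
  have hlog : Real.log ((2 * k : ℕ) : ℝ) ≤ Real.log 2 + 2 * Real.log ((r : ℝ) + 1) := by
    have h1 : Real.log ((2 * k : ℕ) : ℝ) ≤ Real.log (2 * ((r : ℝ) + 1) ^ 2) := by
      apply Real.log_le_log
      · exact_mod_cast (by omega : 0 < 2 * k)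
      · push_cast
        linarith
    rw [Real.log_mul (by norm_num) (by positivity), Real.log_pow] at h1
    exact_mod_cast h1
  have hlog0 : 0 ≤ Real.log ((2 * k : ℕ) : ℝ) := Real.log_natCast_nonneg _
  have hs : (q : ℝ) ^ (2 * k) ≤ 3 / 2 * (S (2 * k)).card := by
    have h1 := hSc (2 * k)
    rw [if_pos (by omega)] at h1
    have h2 : q ^ (2 * k) = q * q ^ (2 * k - 1) := by
      rw [← pow_succ']
      congr 1
      omega
    have h3 : 3 * q ^ (2 * k - 1) ≤ q ^ (2 * k) := by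
      rw [h2]
      exact Nat.mul_le_mul_right _ hq
    have h4 : 2 * q ^ (2 * k) ≤ 3 * (S (2 * k)).card := by omega
    have h5 : (2 : ℝ) * (q : ℝ) ^ (2 * k) ≤ 3 * (S (2 * k)).card := by exact_mod_cast h4
    linarith
  have hmain := hr0 r hr
  calc (c : ℝ) * ((q : ℝ) ^ (2 * k) * (1 + Real.log ((2 * k : ℕ) : ℝ)))
      ≤ c * (3 / 2 * (S (2 * k)).card * (1 + Real.log ((2 * k : ℕ) : ℝ))) := by
        apply mul_le_mul_of_nonneg_left _ (by positivity)
        exact mul_le_mul_of_nonneg_right hs (by linarith)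
    _ = (3 / 2 * c * (1 + Real.log ((2 * k : ℕ) : ℝ))) * (S (2 * k)).card := by ring
    _ ≤ (3 / 2 * c * (1 + Real.log 2 + 2 * Real.log ((r : ℝ) + 1))) * (S (2 * k)).card := by
        apply mul_le_mul_of_nonneg_right _ (by positivity)
        apply mul_le_mul_of_nonneg_left _ (by positivity)
        linarith
    _ ≤ (ε * r) * (S (2 * k)).card := mul_le_mul_of_nonneg_right hmain (by positivity)

open Pool.Agent.H456.EC (toK toK_inj sig toK_eq reflect_toK cls)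
open Pool.Agent.H456.RN
open Pool.Agent.H456.BQ
open Pool.Agent.H456.Coh (TF)
open Pool.Agent.H456.PP (OneR NoR HasRt sx hh Tz Tq Iso3 nr IsoP nrP)
open Pool.Agent.H456.PR

theorem ty2_deg {F : Type} [Field F] (J : Finset (Pl F)) :
    (DJ J).natDegree = ∑ P ∈ J, P.1.natDegree := by
  unfold DJ
  exact natDegree_prod_of_monic _ _ fun P _ => P.2.1

theorem t_ty2 : S_irc → S_sqc → S_ty2 := by
  intro hirc hsqc F _ _ h2 c W₀ ε hε
  classical
  have hfin := fun n => (hsqc F n).1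
  obtain ⟨k0, hk0⟩ := ty2_final (α := Pl F) (fun P => P.1.natDegree) (fun P => P.2.2.natDegree_pos)
    (Fintype.card F) (ty2_card3 F h2) (fun d hd => ⟨(hirc F h2 d hd).1, (hirc F h2 d hd).2.1⟩)
    (fun n => (hfin n).toFinset)
    (by
      intro n J
      rw [Set.Finite.mem_toFinset]
      show (DJ J).natDegree = n ↔ _
      rw [ty2_deg])
    (by
      intro n
      rw [← Set.ncard_eq_toFinset_card _ (hfin n)]
      exact (hsqc F n).2) c W₀ ε hε
  refine ⟨k0, fun k hk => ?_⟩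
  have h3 := hk0 k hk
  rw [Set.ncard_eq_toFinset_card _ (hfin (2 * k))]
  have e : ({J | J ∈ SJ F (2 * k) ∧ W₀ + Nat.sqrt k < c * J.card} : Set (Finset (Pl F))) =
      (((hfin (2 * k)).toFinset.filter fun J => W₀ + Nat.sqrt k < c * J.card : Finset (Finset (Pl F))) :
        Set (Finset (Pl F))) := by
    ext J
    simp only [Set.mem_ofPred_eq, coe_filter, Set.Finite.mem_toFinset]
  rw [e, Set.ncard_coe_finset]
  exact h3

end Pool.Agent.H456.PS
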