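import Pool.Agent.H456.PS.Stm

/-!
(ty3) `s(n) = #(SJ F n) ≤ q^n`, `s(2k) ≥ (2/3) q^(2k)` (`q ≥ 3`; also for `k = 0`). `∑_{J ∈ SJ(2k)} ∑_{Q ∈ J, deg Q > D₀} q^(-deg Q) = ∑_{Q : D₀ < deg Q ≤ 2k} q^(-deg Q) #{J ∋ Q} ≤ ∑_{d>D₀} N_d q^(-d) q^(2k-d) ≤ q^(2k) ∑_{d > D₀} q^(-d) ≤ q^(2k-D₀)` (`#{J ∈ SJ(2k) : Q ∈ J} ≤ s(2k - deg Q)` by `J ↦ J.erase Q`, `N_d ≤ q^d/d ≤ q^d`). Markov: `#{J : sum > η} ≤ q^(2k-D₀)/η ≤ (3/2) q^(-D₀)/η · s(2k) ≤ ε s(2k)` for `D₀ ≥ D₁(η, ε)`.
-/

set_option autoImplicit false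
set_option linter.all false

open Polynomial Finset Filter
open Pool.Agent.H456.EC (toK toK_inj sig toK_eq reflect_toK cls)
open Pool.Agent.H456.RN
open Pool.Agent.H456.BQ
open Pool.Agent.H456.Coh (TF)
open Pool.Agent.H456.PP (OneR NoR HasRt sx hh Tz Tq Iso3 nr IsoP nrP)
open Pool.Agent.H456.PR

namespace Pool.Agent.H456.PS

/-- degree of the product -/
theorem ty3_deg {F : Type} [Field F] (J : Finset (Pl F)) :
    (DJ J).natDegree = ∑ P ∈ J, P.1.natDegree := by
  unfold DJ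
  exact Polynomial.natDegree_prod_of_monic _ _ (fun P _ => P.2.1)

theorem ty3_degQ {F : Type} [Field F] {J : Finset (Pl F)} {Q : Pl F} (h : Q ∈ J) {n : ℕ}
    (hJ : J ∈ SJ F n) : Q.1.natDegree ≤ n := by
  have h1 : (DJ J).natDegree = n := hJ
  rw [ty3_deg] at h1
  rw [← h1]
  exact Finset.single_le_sum (f := fun P : Pl F => P.1.natDegree) (fun _ _ => Nat.zero_le _) h

/-- geometric sums -/
theorem ty3_geo (x : ℝ) (h0 : 0 ≤ x) (h1 : x ≤ 1 / 2) (a b : ℕ) :
    ∑ d ∈ Finset.Ioc a b, x ^ d ≤ x ^ a := by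
  rcases Nat.lt_or_ge b a with h | h
  · rw [Finset.Ioc_eq_empty (by omega), Finset.sum_empty]
    positivity
  · have key : ∑ d ∈ Finset.Ioc a b, x ^ d ≤ x ^ a - x ^ b := by
      induction b, h using Nat.le_induction with
      | base => simp
      | succ b hb ih =>
        rw [Finset.sum_Ioc_succ_top hb]
        have h2 : x ^ (b + 1) = x ^ b * x := pow_succ x b
        have h3 : 0 ≤ x ^ b := by positivity
        nlinarith
    have : 0 ≤ x ^ b := by positivity
    linarith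

/-- the number of the sets with a given place -/
theorem ty3_erase {F : Type} [Field F] [Fintype F] (hsqc : S_sqc) (n : ℕ) (Q : Pl F)
    (S : Finset (Finset (Pl F))) (hS : ∀ J, J ∈ S ↔ J ∈ SJ F n) (hQ : Q.1.natDegree ≤ n) :
    (open Classical in ((S.filter (fun J => Q ∈ J)).card : ℝ)) ≤
      (Fintype.card F : ℝ) ^ (n - Q.1.natDegree) := by
  classical
  obtain ⟨hfin, hcard⟩ := hsqc F (n - Q.1.natDegree)
  have h1 : (S.filter (fun J => Q ∈ J)).card ≤ hfin.toFinset.card := by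
    apply Finset.card_le_card_of_injOn (fun J => J.erase Q)
    · intro J hJ
      rw [Finset.mem_coe, Finset.mem_filter] at hJ
      rw [Finset.mem_coe, Set.Finite.mem_toFinset]
      show (DJ (J.erase Q)).natDegree = n - Q.1.natDegree
      have h2 : (DJ J).natDegree = n := (hS J).mp hJ.1
      rw [ty3_deg] at h2 ⊢
      rw [← Finset.add_sum_erase J (fun P : Pl F => P.1.natDegree) hJ.2] at h2
      omega
    · intro J hJ J' hJ' h
      rw [Finset.mem_coe, Finset.mem_filter] at hJ hJ'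
      have h3 : J.erase Q = J'.erase Q := h
      rw [← Finset.insert_erase hJ.2, ← Finset.insert_erase hJ'.2, h3]
  have h4 : hfin.toFinset.card ≤ Fintype.card F ^ (n - Q.1.natDegree) := by
    rw [← Set.ncard_eq_toFinset_card _ hfin]
    omega
  have h5 := h1.trans h4
  convert (show (((S.filter (fun J => Q ∈ J)).card : ℕ) : ℝ) ≤
    (((Fintype.card F) ^ (n - Q.1.natDegree) : ℕ) : ℝ) from by exact_mod_cast h5) using 1
  push_cast
  rfl

open Classical in
/-- the sum over all squarefree polynomials -/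
theorem ty3_sum {F : Type} [Field F] [Fintype F] (h2F : (2 : F) ≠ 0) (hirc : S_irc) (hsqc : S_sqc)
    (hq : 2 ≤ Fintype.card F) (n D₀ : ℕ) (S : Finset (Finset (Pl F)))
    (hS : ∀ J, J ∈ S ↔ J ∈ SJ F n) :
    ∑ J ∈ S, ∑ Q ∈ J.filter (fun Q => D₀ < Q.1.natDegree), 1 / (Fintype.card F : ℝ) ^ Q.1.natDegree ≤
      (Fintype.card F : ℝ) ^ n * (1 / (Fintype.card F : ℝ)) ^ D₀ := by
  obtain ⟨q, hqd⟩ : ∃ q : ℝ, q = (Fintype.card F : ℝ) := ⟨_, rfl⟩
  have hq2 : (2 : ℝ) ≤ q := by rw [hqd]; exact_mod_cast hq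
  have hq0 : 0 < q := by linarith
  rw [← hqd]
  -- places of a given degree
  obtain ⟨Nd, hNd⟩ : ∃ Nd : ℕ → Finset (Pl F), ∀ d, 1 ≤ d → (∀ P, P ∈ Nd d ↔ P.1.natDegree = d) ∧
      (((Nd d).card : ℕ) : ℝ) ≤ q ^ d := by
    have hex : ∀ d : ℕ, ∃ N : Finset (Pl F), 1 ≤ d → (∀ P, P ∈ N ↔ P.1.natDegree = d) ∧
        ((N.card : ℕ) : ℝ) ≤ q ^ d := by
      intro d
      by_cases hd : 1 ≤ d
      · obtain ⟨hfin, hle, -⟩ := hirc F h2F d hd
        refine ⟨hfin.toFinset, fun _ => ⟨fun P => ?_, ?_⟩⟩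
        · rw [Set.Finite.mem_toFinset]
          exact Iff.rfl
        · rw [Set.ncard_eq_toFinset_card _ hfin] at hle
          have h3 : hfin.toFinset.card ≤ Fintype.card F ^ d :=
            le_trans (Nat.le_mul_of_pos_left _ (by omega)) hle
          rw [hqd]
          exact_mod_cast h3
      · exact ⟨∅, fun h => absurd h hd⟩
    choose Nd hNd using hex
    exact ⟨Nd, hNd⟩
  have step1 : ∀ J ∈ S, ∑ Q ∈ J.filter (fun Q => D₀ < Q.1.natDegree), 1 / q ^ Q.1.natDegree =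
      ∑ d ∈ Finset.Ioc D₀ n, ∑ Q ∈ Nd d, if Q ∈ J then 1 / q ^ d else 0 := by
    intro J hJ
    rw [← Finset.sum_fiberwise_of_maps_to (s := J.filter (fun Q => D₀ < Q.1.natDegree))
      (t := Finset.Ioc D₀ n) (g := fun Q => Q.1.natDegree) (fun Q hQ => by
        rw [Finset.mem_filter] at hQ
        rw [Finset.mem_Ioc]
        exact ⟨hQ.2, ty3_degQ hQ.1 ((hS J).mp hJ)⟩)]
    apply Finset.sum_congr rfl
    intro d hd
    rw [Finset.mem_Ioc] at hd
    have hNdd := (hNd d (by omega)).1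
    rw [← Finset.sum_filter]
    have e1 : (J.filter (fun Q => D₀ < Q.1.natDegree)).filter (fun Q => Q.1.natDegree = d) =
        (Nd d).filter (fun Q => Q ∈ J) := by
      ext Q
      rw [Finset.mem_filter, Finset.mem_filter, Finset.mem_filter, hNdd]
      constructor
      · rintro ⟨⟨h1, h2⟩, h3⟩
        exact ⟨h3, h1⟩
      · rintro ⟨h1, h2⟩
        exact ⟨⟨h2, by omega⟩, h1⟩
    rw [e1]
    apply Finset.sum_congr rfl
    intro Q hQ
    rw [Finset.mem_filter, hNdd] at hQ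
    rw [hQ.1]
  rw [Finset.sum_congr rfl step1, Finset.sum_comm]
  have step2 : ∀ d ∈ Finset.Ioc D₀ n, ∑ J ∈ S, ∑ Q ∈ Nd d, (if Q ∈ J then 1 / q ^ d else 0) ≤
      q ^ n * (1 / q) ^ d := by
    intro d hd
    rw [Finset.mem_Ioc] at hd
    obtain ⟨hNd1, hNd2⟩ := hNd d (by omega)
    rw [Finset.sum_comm]
    have e1 : ∀ Q ∈ Nd d, ∑ J ∈ S, (if Q ∈ J then 1 / q ^ d else 0) ≤ q ^ (n - d) * (1 / q ^ d) := by
      intro Q hQ
      rw [hNd1] at hQ
      rw [← Finset.sum_filter, Finset.sum_const, nsmul_eq_mul]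
      apply mul_le_mul_of_nonneg_right _ (by positivity)
      have := ty3_erase hsqc n Q S hS (by omega)
      rw [hQ] at this
      rw [hqd]
      exact this
    refine (Finset.sum_le_sum e1).trans ?_
    rw [Finset.sum_const, nsmul_eq_mul]
    have e2 : q ^ n = q ^ (n - d) * q ^ d := by
      rw [← pow_add]
      congr 1
      omega
    have e3 : ((Nd d).card : ℝ) * (q ^ (n - d) * (1 / q ^ d)) ≤ q ^ d * (q ^ (n - d) * (1 / q ^ d)) :=
      mul_le_mul_of_nonneg_right hNd2 (by positivity)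
    refine e3.trans (le_of_eq ?_)
    rw [e2, one_div, one_div, inv_pow]
    ring
  refine (Finset.sum_le_sum step2).trans ?_
  rw [← Finset.mul_sum]
  apply mul_le_mul_of_nonneg_left _ (by positivity)
  apply ty3_geo
  · positivity
  · exact one_div_le_one_div_of_le (by norm_num) hq2

theorem ty3_card {F : Type} [Field F] [Fintype F] (h2F : (2 : F) ≠ 0) : 3 ≤ Fintype.card F := by
  classical
  have h1 : ({0, 1, -1} : Finset F).card = 3 := by
    rw [Finset.card_eq_three]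
    refine ⟨0, 1, -1, zero_ne_one, ?_, ?_, rfl⟩
    · intro h
      have := neg_eq_zero.mp h.symm
      exact one_ne_zero this
    · intro h
      apply h2F
      have h3 : (1 : F) + 1 = 0 := by
        nth_rw 2 [h]
        exact add_neg_cancel 1
      rw [← one_add_one_eq_two]
      exact h3
  rw [← h1]
  exact Finset.card_le_univ _

theorem t_ty3 : S_irc → S_sqc → S_ty3 := by
  classical
  intro hirc hsqc F _ _ h2F η ε hη hε
  have hq3 := ty3_card h2F
  obtain ⟨q, hqd⟩ : ∃ q : ℝ, q = (Fintype.card F : ℝ) := ⟨_, rfl⟩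
  have hq3' : (3 : ℝ) ≤ q := by rw [hqd]; exact_mod_cast hq3
  have hq0 : 0 < q := by linarith
  obtain ⟨D₁, hD₁⟩ := exists_pow_lt_of_lt_one (show 0 < 2 / 3 * ε * η by positivity)
    (show 1 / q < 1 by rw [div_lt_one hq0]; linarith)
  refine ⟨D₁, fun D₀ hD₀ k => ?_⟩
  obtain ⟨hfin, hcard⟩ := hsqc F (2 * k)
  obtain ⟨S, hSd⟩ : ∃ S : Finset (Finset (Pl F)), S = hfin.toFinset := ⟨_, rfl⟩
  have hS : ∀ J, J ∈ S ↔ J ∈ SJ F (2 * k) := by
    intro J
    rw [hSd, Set.Finite.mem_toFinset]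
  have hSc : (SJ F (2 * k)).ncard = S.card := by
    rw [hSd, Set.ncard_eq_toFinset_card _ hfin]
  have hlow : 2 / 3 * q ^ (2 * k) ≤ (S.card : ℝ) := by
    rw [← hSc, hqd]
    rw [hqd] at hq3'
    rcases Nat.eq_zero_or_pos k with hk | hk
    · subst hk
      rw [if_neg (by omega)] at hcard
      have h3 : (SJ F (2 * 0)).ncard = 1 := by
        rw [mul_zero, pow_zero] at hcard
        rw [mul_zero]
        omega
      rw [h3]
      norm_num
    · rw [if_pos (by omega)] at hcard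
      have h4 : ((SJ F (2 * k)).ncard : ℝ) + (Fintype.card F : ℝ) ^ (2 * k - 1) =
          (Fintype.card F : ℝ) ^ (2 * k) := by exact_mod_cast hcard
      have h5 : (Fintype.card F : ℝ) ^ (2 * k) = (Fintype.card F : ℝ) ^ (2 * k - 1) *
          (Fintype.card F : ℝ) := by
        rw [← pow_succ]
        congr 1
        omega
      have h6 : (0 : ℝ) < (Fintype.card F : ℝ) ^ (2 * k - 1) := by positivity
      nlinarith
  -- the sum
  have hsum := ty3_sum h2F hirc hsqc (by omega) (2 * k) D₀ S hS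
  rw [← hqd] at hsum
  rw [hSc, ← hqd]
  obtain ⟨B, hB⟩ : ∃ B : Finset (Finset (Pl F)), B = S.filter (fun J =>
    η < ∑ Q ∈ J.filter (fun Q => D₀ < Q.1.natDegree), 1 / q ^ Q.1.natDegree) := ⟨_, rfl⟩
  have hBset : ({J | J ∈ SJ F (2 * k) ∧ η < ∑ Q ∈ J.filter (fun Q => D₀ < Q.1.natDegree),
      1 / q ^ Q.1.natDegree} : Set (Finset (Pl F))) = (B : Set (Finset (Pl F))) := by
    ext J
    rw [hB, Finset.mem_coe, Finset.mem_filter, hS]
    rfl
  have hBc : (({J | J ∈ SJ F (2 * k) ∧ η < ∑ Q ∈ J.filter (fun Q => D₀ < Q.1.natDegree),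
      1 / q ^ Q.1.natDegree} : Set (Finset (Pl F))).ncard : ℝ) = (B.card : ℝ) := by
    rw [hBset, Set.ncard_coe_finset]
  have hmark : η * B.card ≤ q ^ (2 * k) * (1 / q) ^ D₀ := by
    refine le_trans ?_ hsum
    have h7 : η * B.card = ∑ _J ∈ B, η := by
      rw [Finset.sum_const, nsmul_eq_mul, mul_comm]
    rw [h7]
    refine le_trans (Finset.sum_le_sum (g := fun J => ∑ Q ∈ J.filter (fun Q => D₀ < Q.1.natDegree),
      1 / q ^ Q.1.natDegree) ?_) ?_
    · intro J hJ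
      rw [hB, Finset.mem_filter] at hJ
      exact hJ.2.le
    · apply Finset.sum_le_sum_of_subset_of_nonneg
      · rw [hB]
        exact Finset.filter_subset _ _
      · intro J _ _
        apply Finset.sum_nonneg
        intro Q _
        positivity
  have hpow : (1 / q) ^ D₀ ≤ 2 / 3 * ε * η := by
    have h8 : (1 / q) ^ D₀ ≤ (1 / q) ^ D₁ :=
      pow_le_pow_of_le_one (by positivity) (by rw [div_le_one hq0]; linarith) hD₀
    linarith
  have hfinal : (B.card : ℝ) ≤ ε * (S.card : ℝ) := by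
    have h9 : η * B.card ≤ q ^ (2 * k) * (2 / 3 * ε * η) :=
      hmark.trans (mul_le_mul_of_nonneg_left hpow (by positivity))
    have h10 : q ^ (2 * k) * (2 / 3 * ε * η) ≤ (S.card : ℝ) * (ε * η) := by
      have := mul_le_mul_of_nonneg_right hlow (show 0 ≤ ε * η by positivity)
      linarith
    have h11 : η * B.card ≤ η * (ε * (S.card : ℝ)) := by linarith
    exact le_of_mul_le_mul_left h11 hη
  rw [← hBc] at hfinal
  convert hfinal using 1

end Pool.Agent.H456.PS
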