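import Pool.Agent.H456.PS.Stm
import Pool.Agent.H456.PR.T_typ
import Pool.Agent.H456.BQ.T_node

/-!
(tyB) Adapt PR/T_typ.lean (Chebyshev; equidistribution of the residues modulo products of two polynomials). For `i : Fin m` let `X_i(f) = 1` if `i ∈ dirs p f`, a condition modulo `N_i = p i true · p i false` (two different places). For a place `P` with `Q = q^(deg P) ≥ 3` the proportion of the cubics modulo `P` with `OneR` is `(1 - 1/Q)/2 ≥ 1/3`, with `NoR` it is `(1 - 1/Q²)/3 ≥ 8/27` (number of the monic irreducible cubics over the field with `Q` elements: `(Q³ - Q)/3`; count: the monic cubics without root; if a simpler lower bound like `≥ 1/20` is easier, take it: only some constant `c₀ > 0` independent of `P` is needed, e.g. from the count of cubics with a root `≤ Q·Q²` minus...: the number of the monic cubics with at least one root in a field with `Q` elements is exactly `Q + Q(Q-1) + Q(Q-1)(Q-2)/6 + Q(Q²-Q)/2`, a cubic without root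 is irreducible and separable).
So `E[X_i] ≥ 2 · 1/3 · 8/27 =: c₀`(or at least one of the two products), the `X_i` are pairwise independent for `n` large (CRT for the four different places), `Var(∑ X_i) ≤ m/4`, and Chebyshev gives `P(∑ X_i < n₀) ≤ (m/4)/(c₀ m/2)²` if `c₀ m/2 ≥ n₀`.
-/

set_option autoImplicit false
set_option linter.all false

open Polynomial Finset Filter
open Pool.Agent.H456.EC (toK toK_inj sig toK_eq reflect_toK cls)
open Pool.Agent.H456.RN
open Pool.Agent.H456.BQ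
open Pool.Agent.H456.Coh (TF)
open Pool.Agent.H456.PP (OneR NoR HasRt sx hh Tz Tq Iso3 nr IsoP nrP)
open Pool.Agent.H456.PR

namespace Pool.Agent.H456.PS

open Classical in
/-- the cubics over a finite ring without roots and with nonzero discriminant -/
noncomputable def tyB_N (κ : Type) [CommRing κ] [Fintype κ] : Finset (Cub κ) :=
  univ.filter (fun g => NoR (0 : κ) g)

open Classical in
/-- the roots -/
noncomputable def tyB_R {κ : Type} [CommRing κ] [Fintype κ] (g : Cub κ) : Finset κ :=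
  univ.filter (fun x => g.ev x = 0)

open Classical in
theorem tyB_mem_R {κ : Type} [CommRing κ] [Fintype κ] (g : Cub κ) (x : κ) :
    x ∈ tyB_R g ↔ g.ev x = 0 := by
  unfold tyB_R
  rw [mem_filter]
  exact ⟨fun h => h.2, fun h => ⟨mem_univ _, h⟩⟩

theorem tyB_R_le {κ : Type} [Field κ] [Fintype κ] (g : Cub κ) : (tyB_R g).card ≤ 3 := by
  classical
  obtain ⟨p, hp⟩ : ∃ p : κ[X], p = X ^ 3 + C g.a * X ^ 2 + C g.b * X + C g.c := ⟨_, rfl⟩
  have hdeg : p.natDegree = 3 := by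
    rw [hp]
    compute_degree!
  have hp0 : p ≠ 0 := by
    intro h
    rw [h, natDegree_zero] at hdeg
    exact absurd hdeg (by norm_num)
  have hsub : tyB_R g ⊆ p.roots.toFinset := by
    intro x hx
    rw [Multiset.mem_toFinset, mem_roots hp0, IsRoot.def, hp]
    have hx' : g.ev x = 0 := (tyB_mem_R g x).1 hx
    unfold Cub.ev at hx'
    simpa using hx'
  calc (tyB_R g).card ≤ p.roots.toFinset.card := card_le_card hsub
    _ ≤ p.roots.card := Multiset.toFinset_card_le _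
    _ ≤ p.natDegree := card_roots' p
    _ = 3 := hdeg

theorem tyB_sum1 (κ : Type) [Field κ] [Fintype κ] :
    ∑ g : Cub κ, (tyB_R g).card ≤ Fintype.card κ ^ 3 := by
  classical
  rw [← card_sigma]
  have h2 : ((univ : Finset (Cub κ)).sigma (fun g => tyB_R g)).card ≤
      (univ : Finset (κ × κ × κ)).card := by
    refine card_le_card_of_injOn (fun y => (y.1.a, y.1.b, y.2)) (fun _ _ => mem_coe.2 (mem_univ _)) ?_
    rintro ⟨⟨a, b, c⟩, x⟩ hx ⟨⟨a', b', c'⟩, x'⟩ hx' h
    have h3 := (tyB_mem_R _ _).1 (mem_sigma.1 (mem_coe.1 hx)).2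
    have h4 := (tyB_mem_R _ _).1 (mem_sigma.1 (mem_coe.1 hx')).2
    simp only [Prod.mk.injEq] at h
    obtain ⟨rfl, rfl, rfl⟩ := h
    unfold Cub.ev at h3 h4
    simp only at h3 h4
    have : c = c' := by linear_combination h3 - h4
    rw [this]
  refine h2.trans (le_of_eq ?_)
  rw [card_univ, Fintype.card_prod, Fintype.card_prod]
  ring

/-- the cubic with given roots -/
def tyB_c {κ : Type} [CommRing κ] (r s t : κ) : Cub κ :=
  ⟨-(r + s + t), r * s + s * t + t * r, -(r * s * t)⟩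

theorem tyB_c_ev {κ : Type} [CommRing κ] (r s t x : κ) :
    (tyB_c r s t).ev x = (x - r) * (x - s) * (x - t) := by
  simp only [Cub.ev, tyB_c]
  ring

theorem tyB_sum2 (κ : Type) [Field κ] [Fintype κ] :
    (Fintype.card κ * Fintype.card κ - Fintype.card κ) * Fintype.card κ ≤
      ∑ g : Cub κ, ((tyB_R g).card * (tyB_R g).card - (tyB_R g).card) := by
  classical
  have h1 : ∑ g : Cub κ, ((tyB_R g).card * (tyB_R g).card - (tyB_R g).card) =
      ((univ : Finset (Cub κ)).sigma (fun g => (tyB_R g).offDiag)).card := by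
    rw [card_sigma]
    exact sum_congr rfl fun g _ => (offDiag_card _).symm
  rw [h1]
  have h2 : ((univ : Finset κ).offDiag ×ˢ (univ : Finset κ)).card =
      (Fintype.card κ * Fintype.card κ - Fintype.card κ) * Fintype.card κ := by
    rw [card_product, offDiag_card, card_univ]
  rw [← h2]
  refine card_le_card_of_injOn (fun y => ⟨tyB_c y.1.1 y.1.2 y.2, y.1⟩) ?_ ?_
  · rintro ⟨⟨r, s⟩, t⟩ hy
    have hrs : r ≠ s := (mem_offDiag.1 (mem_product.1 (mem_coe.1 hy)).1).2.2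
    refine mem_coe.2 (mem_sigma.2 ⟨mem_univ _, mem_offDiag.2 ⟨?_, ?_, hrs⟩⟩)
    · rw [tyB_mem_R, tyB_c_ev]
      simp
    · rw [tyB_mem_R, tyB_c_ev]
      simp
  · rintro ⟨⟨r, s⟩, t⟩ hy ⟨⟨r', s'⟩, t'⟩ hy' h
    simp only [Sigma.mk.injEq, heq_eq_eq, Prod.mk.injEq] at h
    obtain ⟨h3, rfl, rfl⟩ := h
    have h4 := congrArg Cub.a h3
    simp only [tyB_c] at h4
    have : t = t' := by linear_combination -h4
    rw [this]

open Classical in
theorem tyB_count (κ : Type) [Field κ] [Fintype κ] (h2 : (2 : κ) ≠ 0) :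
    Fintype.card κ ^ 3 ≤ 5 * (tyB_N κ).card := by
  have hQ : 3 ≤ Fintype.card κ := by
    have h3 := Fintype.one_lt_card (α := κ)
    by_contra h4
    have h5 : Fintype.card κ = 2 := by omega
    have h6 : ((Fintype.card κ : ℕ) : κ) = 0 := Nat.cast_card_eq_zero κ
    rw [h5] at h6
    exact h2 (by exact_mod_cast h6)
  have hpt : ∀ g : Cub κ, 3 * (if g ∈ tyB_N κ then 0 else 1) +
      ((tyB_R g).card * (tyB_R g).card - (tyB_R g).card) ≤ 3 * (tyB_R g).card := by
    intro g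
    have h3 := tyB_R_le g
    by_cases hg : g ∈ tyB_N κ
    · rw [if_pos hg]
      have : tyB_R g = ∅ := by
        rw [eq_empty_iff_forall_notMem]
        intro x hx
        have h4 : NoR (0 : κ) g := (mem_filter.1 hg).2
        apply h4.2 x
        rw [zero_dvd_iff]
        exact (tyB_mem_R g x).1 hx
      rw [this]
      simp
    · rw [if_neg hg]
      have h4 : 1 ≤ (tyB_R g).card := by
        rw [Nat.one_le_iff_ne_zero, Ne, card_eq_zero]
        intro h5
        apply hg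
        have h6 : ∀ r, g.ev r ≠ 0 := by
          intro r hr
          have := (tyB_mem_R g r).2 hr
          rw [h5] at this
          exact notMem_empty _ this
        refine mem_filter.2 ⟨mem_univ _, ?_, ?_⟩
        · rw [zero_dvd_iff]
          intro h7
          obtain ⟨r, hr, -⟩ := node_cub h2 g h7
          exact h6 r hr
        · intro r
          rw [zero_dvd_iff]
          exact h6 r
      generalize (tyB_R g).card = c at h3 h4
      interval_cases c <;> omega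
  have h3 := sum_le_sum (s := (univ : Finset (Cub κ))) (fun g _ => hpt g)
  rw [sum_add_distrib, ← mul_sum, ← mul_sum] at h3
  have h4 := tyB_sum1 κ
  have h5 := tyB_sum2 κ
  have h6 : (∑ g : Cub κ, (if g ∈ tyB_N κ then 0 else 1)) + (tyB_N κ).card = Fintype.card κ ^ 3 := by
    have h7 : ∀ g : Cub κ, (if g ∈ tyB_N κ then 0 else 1) + (if g ∈ tyB_N κ then 1 else 0) = 1 := by
      intro g
      split_ifs <;> rfl
    have h8 : (tyB_N κ).card = ∑ g : Cub κ, (if g ∈ tyB_N κ then 1 else 0) := by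
      rw [sum_boole, filter_mem_eq_inter, univ_inter]
      rfl
    rw [h8, ← sum_add_distrib, sum_congr rfl (fun g _ => h7 g), sum_const, card_univ, card_Cub,
      smul_eq_mul, mul_one]
  have h9 : (Fintype.card κ * Fintype.card κ - Fintype.card κ) * Fintype.card κ +
      Fintype.card κ * Fintype.card κ = Fintype.card κ ^ 3 := by
    have : Fintype.card κ ≤ Fintype.card κ * Fintype.card κ := Nat.le_mul_self _
    zify [this]
    ring
  have h10 : 3 * (Fintype.card κ * Fintype.card κ) ≤ Fintype.card κ ^ 3 := by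
    calc 3 * (Fintype.card κ * Fintype.card κ) ≤
        Fintype.card κ * (Fintype.card κ * Fintype.card κ) := Nat.mul_le_mul_right _ hQ
      _ = Fintype.card κ ^ 3 := by ring
  omega

section

variable {F : Type} [Field F]

theorem tyB_iff (P : Pl F) (f : Cub F[X]) :
    NoR P.1 f ↔ NoR (0 : Rq (P.1 ^ 1)) (f.map (Ideal.Quotient.mk (Ideal.span {P.1 ^ 1}))) := by
  have hz : ∀ a : F[X], (0 : Rq (P.1 ^ 1)) ∣ Ideal.Quotient.mk (Ideal.span {P.1 ^ 1}) a ↔
      P.1 ∣ a := by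
    intro a
    rw [zero_dvd_iff, Pool.Agent.H456.BQ.mk_zero, pow_one]
  unfold NoR
  rw [Cub.map_disc, hz]
  refine and_congr Iff.rfl ⟨?_, ?_⟩
  · intro h r
    obtain ⟨r, rfl⟩ := Ideal.Quotient.mk_surjective r
    rw [Cub.map_ev, hz]
    exact h r
  · intro h r
    have h1 := h (Ideal.Quotient.mk _ r)
    rw [Cub.map_ev, hz] at h1
    exact h1

variable [Fintype F]

theorem tyB_res (h2 : (2 : F) ≠ 0) (P : Pl F) :
    Fintype.card (Rq (P.1 ^ 1)) ^ 3 ≤ 5 * (tyB_N (Rq (P.1 ^ 1))).card := by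
  have := typ_max P
  letI : Field (Rq (P.1 ^ 1)) := Ideal.Quotient.field _
  have h3 : (2 : Rq (P.1 ^ 1)) ≠ 0 := by
    have h4 := (map_ne_zero ((Ideal.Quotient.mk (Ideal.span {P.1 ^ 1})).comp (C : F →+* F[X]))).2 h2
    rwa [map_ofNat] at h4
  exact tyB_count _ h3

open Classical in
theorem tyB_prod (S : Finset (Pl F)) (n : ℕ) (hN : dS S 1 ≤ 2 * n + 1)
    (ψ : (P : Pl F) → Cub (Rq (P.1 ^ 1)) → ℝ) :
    ∑ f ∈ Sb F n, ∏ P ∈ S, ψ P (f.map (Ideal.Quotient.mk (Ideal.span {P.1 ^ 1}))) =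
      (Fintype.card F : ℝ) ^ (12 * n + 3) *
        ∏ P ∈ S, ((∑ g, ψ P g) / Fintype.card (Cub (Rq (P.1 ^ 1)))) := by
  have hq0 : (0 : ℝ) < Fintype.card F := by
    have : 0 < Fintype.card F := Fintype.card_pos
    exact_mod_cast this
  have hq : (Fintype.card F : ℝ) ^ (12 * n + 3) ≠ 0 := (pow_pos hq0 _).ne'
  have hK : (Fintype.card F : ℝ) ^ (3 * dS S 1) ≠ 0 := (pow_pos hq0 _).ne'
  have h1 := sum_redC S 1 n hN (fun g => (∏ P : S, (fun P : S => ψ P.1) P (g.at P)) *
    (fun _ => (1 : ℝ)) g.inf)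
  rw [sum_splitC S 1 (fun P : S => ψ P.1) (fun _ => 1)] at h1
  have h2 := sum_redC S 1 n hN (fun g => (∏ P : S, (fun (P : S) (_ : Cub (Rq (P.1.1 ^ 1))) =>
    (1 : ℝ)) P (g.at P)) * (fun _ => (1 : ℝ)) g.inf)
  rw [sum_splitC S 1 (fun (P : S) (_ : Cub (Rq (P.1.1 ^ 1))) => (1 : ℝ)) (fun _ => 1)] at h2
  obtain ⟨cX, hcX⟩ : ∃ cX : ℝ, cX = ∑ g : Cub (Rq ((X : F[X]) ^ 1)), (1 : ℝ) := ⟨_, rfl⟩
  rw [← hcX] at h1 h2
  have h3 : ∑ f ∈ Sb F n, ((∏ P : S, (1 : ℝ)) * 1) = (Fintype.card F : ℝ) ^ (12 * n + 3) := by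
    rw [prod_const_one, mul_one, sum_const, card_Sb, nsmul_eq_mul, mul_one]
    push_cast
    rfl
  have h4 : (∏ P : S, (Fintype.card (Cub (Rq (P.1.1 ^ 1))) : ℝ)) * cX =
      (Fintype.card F : ℝ) ^ (3 * dS S 1) := by
    have h5 : (1 : ℝ) = ((∏ P : S, ∑ g : Cub (Rq (P.1.1 ^ 1)), (1 : ℝ)) * cX) /
        (Fintype.card F : ℝ) ^ (3 * dS S 1) := by
      rw [← h2]
      exact ((div_eq_one_iff_eq hq).2 h3).symm
    rw [eq_div_iff hK, one_mul] at h5
    rw [h5]
    congr 1
    refine prod_congr rfl fun P _ => ?_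
    rw [sum_const, card_univ, nsmul_eq_mul, mul_one]
  have hc0 : cX ≠ 0 := by
    rintro rfl
    rw [mul_zero] at h4
    exact hK h4.symm
  rw [div_eq_iff hq] at h1
  have h6 : ∑ f ∈ Sb F n, ∏ P ∈ S, ψ P (f.map (Ideal.Quotient.mk (Ideal.span {P.1 ^ 1}))) =
      (∏ P : S, ∑ g, ψ P.1 g) * cX / (Fintype.card F : ℝ) ^ (3 * dS S 1) *
        (Fintype.card F : ℝ) ^ (12 * n + 3) := by
    rw [← h1]
    refine sum_congr rfl fun f _ => ?_
    rw [mul_one]
    exact (prod_coe_sort S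
      (fun P => ψ P (f.map (Ideal.Quotient.mk (Ideal.span {P.1 ^ 1}))))).symm
  rw [h6, ← h4, mul_div_mul_right _ _ hc0, ← prod_div_distrib, mul_comm]
  congr 1
  exact prod_coe_sort S (fun P => (∑ g, ψ P g) / (Fintype.card (Cub (Rq (P.1 ^ 1))) : ℝ))

variable {m : ℕ} (p : Fin m → Bool → Pl F)

open Classical in
/-- the indicator functions -/
noncomputable def tyB_psi (P : Pl F) (g : Cub (Rq (P.1 ^ 1))) : ℝ :=
  if (∃ k, P = p k true) then (if OneR (0 : Rq (P.1 ^ 1)) g then 1 else 0)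
  else (if NoR (0 : Rq (P.1 ^ 1)) g then 1 else 0)

/-- the means -/
noncomputable def tyB_m (P : Pl F) : ℝ :=
  (∑ g, tyB_psi p P g) / Fintype.card (Cub (Rq (P.1 ^ 1)))

/-- the indicator functions -/
noncomputable def tyB_W (P : Pl F) (f : Cub F[X]) : ℝ :=
  tyB_psi p P (f.map (Ideal.Quotient.mk (Ideal.span {P.1 ^ 1})))

/-- the indicator of the direction -/
noncomputable def tyB_Y (i : Fin m) (f : Cub F[X]) : ℝ := tyB_W p (p i true) f * tyB_W p (p i false) f

/-- its mean -/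
noncomputable def tyB_mu (i : Fin m) : ℝ := tyB_m p (p i true) * tyB_m p (p i false)

theorem tyB_psi_nn (P : Pl F) (g : Cub (Rq (P.1 ^ 1))) : 0 ≤ tyB_psi p P g := by
  unfold tyB_psi
  split_ifs <;> norm_num

theorem tyB_psi_le (P : Pl F) (g : Cub (Rq (P.1 ^ 1))) : tyB_psi p P g ≤ 1 := by
  unfold tyB_psi
  split_ifs <;> norm_num

theorem tyB_m_nn (P : Pl F) : 0 ≤ tyB_m p P := by
  unfold tyB_m
  exact div_nonneg (sum_nonneg fun g _ => tyB_psi_nn p P g) (Nat.cast_nonneg _)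

theorem tyB_m_le (P : Pl F) : tyB_m p P ≤ 1 := by
  unfold tyB_m
  rw [div_le_one (typ_cpos P)]
  calc ∑ g, tyB_psi p P g ≤ ∑ g : Cub (Rq (P.1 ^ 1)), (1 : ℝ) :=
        sum_le_sum fun g _ => tyB_psi_le p P g
    _ = _ := by rw [sum_const, card_univ, nsmul_eq_mul, mul_one]

theorem tyB_m_true (h2 : (2 : F) ≠ 0) (i : Fin m) : 1 / 4 ≤ tyB_m p (p i true) := by
  have h := typ_p_ge h2 (p i true)
  have h1 : tyB_m p (p i true) = typ_p (p i true) := by
    unfold tyB_m typ_p typ_U tyB_psi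
    congr 1
    rw [← sum_boole]
    refine sum_congr rfl fun g _ => ?_
    rw [if_pos ⟨i, rfl⟩]
  rw [h1]
  exact h

theorem tyB_m_false (h2 : (2 : F) ≠ 0) (hp : ∀ i j a b, p i a = p j b → i = j ∧ a = b)
    (i : Fin m) : 1 / 5 ≤ tyB_m p (p i false) := by
  have hn : ¬ ∃ k, p i false = p k true := by
    rintro ⟨k, hk⟩
    exact absurd (hp _ _ _ _ hk).2 (by simp)
  have h1 : tyB_m p (p i false) = ((tyB_N (Rq ((p i false).1 ^ 1))).card : ℝ) /
      Fintype.card (Cub (Rq ((p i false).1 ^ 1))) := by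
    unfold tyB_m tyB_N tyB_psi
    congr 1
    rw [← sum_boole]
    refine sum_congr rfl fun g _ => ?_
    rw [if_neg hn]
  rw [h1, le_div_iff₀ (typ_cpos _), card_Cub]
  have h := tyB_res h2 (p i false)
  have h' : ((Fintype.card (Rq ((p i false).1 ^ 1)) ^ 3 : ℕ) : ℝ) ≤
      5 * (tyB_N (Rq ((p i false).1 ^ 1))).card := by
    exact_mod_cast h
  linarith

theorem tyB_mu_ge (h2 : (2 : F) ≠ 0) (hp : ∀ i j a b, p i a = p j b → i = j ∧ a = b)
    (i : Fin m) : 1 / 20 ≤ tyB_mu p i := by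
  unfold tyB_mu
  have h3 := tyB_m_true p h2 i
  have h4 := tyB_m_false p h2 hp i
  nlinarith

theorem tyB_mu_01 (i : Fin m) : 0 ≤ tyB_mu p i ∧ tyB_mu p i ≤ 1 := by
  unfold tyB_mu
  exact ⟨mul_nonneg (tyB_m_nn _ _) (tyB_m_nn _ _),
    mul_le_one₀ (tyB_m_le _ _) (tyB_m_nn _ _) (tyB_m_le _ _)⟩

theorem tyB_Y_01 (i : Fin m) (f : Cub F[X]) : 0 ≤ tyB_Y p i f ∧ tyB_Y p i f ≤ 1 := by
  unfold tyB_Y tyB_W
  exact ⟨mul_nonneg (tyB_psi_nn _ _ _) (tyB_psi_nn _ _ _),
    mul_le_one₀ (tyB_psi_le _ _ _) (tyB_psi_nn _ _ _) (tyB_psi_le _ _ _)⟩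

open Classical in
theorem tyB_Y_le (hp : ∀ i j a b, p i a = p j b → i = j ∧ a = b) (i : Fin m) (f : Cub F[X]) :
    tyB_Y p i f ≤ if i ∈ dirs p f then 1 else 0 := by
  split_ifs with h
  · exact (tyB_Y_01 p i f).2
  · apply le_of_eq
    by_contra h1
    apply h
    unfold tyB_Y at h1
    have h3 := left_ne_zero_of_mul h1
    have h4 := right_ne_zero_of_mul h1
    have hn : ¬ ∃ k, p i false = p k true := by
      rintro ⟨k, hk⟩
      exact absurd (hp _ _ _ _ hk).2 (by simp)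
    unfold tyB_W tyB_psi at h3 h4
    rw [if_pos ⟨i, rfl⟩] at h3
    rw [if_neg hn] at h4
    have h5 : OneR (0 : Rq ((p i true).1 ^ 1))
        (f.map (Ideal.Quotient.mk (Ideal.span {(p i true).1 ^ 1}))) := by
      by_contra h6
      exact h3 (if_neg h6)
    have h6 : NoR (0 : Rq ((p i false).1 ^ 1))
        (f.map (Ideal.Quotient.mk (Ideal.span {(p i false).1 ^ 1}))) := by
      by_contra h6
      exact h4 (if_neg h6)
    unfold dirs
    rw [mem_filter]
    exact ⟨mem_univ _, true, (typ_iff _ _).2 h5, (tyB_iff _ _).2 h6⟩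

open Classical in
theorem tyB_cov (hp : ∀ i j a b, p i a = p j b → i = j ∧ a = b) (i j : Fin m) (hij : i ≠ j)
    (n : ℕ) (T : Finset (Pl F)) (hT : ∀ k a, p k a ∈ T) (hN : dS T 1 ≤ 2 * n + 1) :
    ∑ f ∈ Sb F n, (tyB_Y p i f - tyB_mu p i) * (tyB_Y p j f - tyB_mu p j) = 0 := by
  have mono : ∀ S ⊆ T, dS S 1 ≤ 2 * n + 1 := by
    intro S hS
    refine le_trans ?_ hN
    unfold dS
    exact Nat.add_le_add_right (sum_le_sum_of_subset hS) _
  have hpair : ∀ k, ({p k true, p k false} : Finset (Pl F)) ⊆ T := by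
    intro k x hx
    rw [mem_insert, mem_singleton] at hx
    rcases hx with rfl | rfl
    · exact hT _ _
    · exact hT _ _
  have hne : ∀ k, p k true ≠ p k false := by
    intro k h
    exact absurd (hp _ _ _ _ h).2 (by simp)
  have e2 : ∀ k, ∑ f ∈ Sb F n, tyB_Y p k f =
      (Fintype.card F : ℝ) ^ (12 * n + 3) * tyB_mu p k := by
    intro k
    have h := tyB_prod {p k true, p k false} n (mono _ (hpair k)) (tyB_psi p)
    rw [prod_pair (hne k)] at h
    simp only [prod_pair (hne k)] at h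
    exact h
  have hd : Disjoint ({p i true, p i false} : Finset (Pl F)) {p j true, p j false} := by
    rw [disjoint_left]
    intro x hx hx'
    rw [mem_insert, mem_singleton] at hx hx'
    rcases hx with rfl | rfl <;> rcases hx' with h | h <;> exact hij (hp _ _ _ _ h).1
  have e4 : ∑ f ∈ Sb F n, tyB_Y p i f * tyB_Y p j f =
      (Fintype.card F : ℝ) ^ (12 * n + 3) * (tyB_mu p i * tyB_mu p j) := by
    have h := tyB_prod ({p i true, p i false} ∪ {p j true, p j false}) n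
      (mono _ (union_subset (hpair i) (hpair j))) (tyB_psi p)
    simp only [prod_union hd, prod_pair (hne i), prod_pair (hne j)] at h
    exact h
  have h1 : ∀ f, (tyB_Y p i f - tyB_mu p i) * (tyB_Y p j f - tyB_mu p j) =
      tyB_Y p i f * tyB_Y p j f - tyB_mu p j * tyB_Y p i f - tyB_mu p i * tyB_Y p j f +
        tyB_mu p i * tyB_mu p j := by
    intro f
    ring
  rw [sum_congr rfl (fun f _ => h1 f), sum_add_distrib, sum_sub_distrib, sum_sub_distrib,
    ← mul_sum, ← mul_sum, e2, e2, e4, sum_const, card_Sb, nsmul_eq_mul]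
  push_cast
  ring

open Classical in
theorem tyB_var (hp : ∀ i j a b, p i a = p j b → i = j ∧ a = b)
    (n : ℕ) (T : Finset (Pl F)) (hT : ∀ k a, p k a ∈ T) (hN : dS T 1 ≤ 2 * n + 1) :
    ∑ f ∈ Sb F n, (∑ i, (tyB_Y p i f - tyB_mu p i)) ^ 2 ≤
      m * (Fintype.card F : ℝ) ^ (12 * n + 3) := by
  have h1 : ∀ f, (∑ i, (tyB_Y p i f - tyB_mu p i)) ^ 2 =
      ∑ i, ∑ j, (tyB_Y p i f - tyB_mu p i) * (tyB_Y p j f - tyB_mu p j) := by
    intro f
    rw [sq, sum_mul_sum]
  rw [sum_congr rfl (fun f _ => h1 f), sum_comm]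
  have hcard : (m : ℝ) = ((univ : Finset (Fin m)).card : ℝ) := by
    rw [card_univ, Fintype.card_fin]
  rw [hcard, ← nsmul_eq_mul]
  refine sum_le_card_nsmul _ _ _ fun i _ => ?_
  rw [sum_comm, sum_eq_single_of_mem i (mem_univ i)]
  · have h2 : ∀ f ∈ Sb F n, (tyB_Y p i f - tyB_mu p i) * (tyB_Y p i f - tyB_mu p i) ≤ 1 := by
      intro f _
      have h3 := tyB_mu_01 p i
      have h4 := tyB_Y_01 p i f
      nlinarith [h3.1, h3.2, h4.1, h4.2]
    refine (sum_le_card_nsmul _ _ _ h2).trans (le_of_eq ?_)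
    rw [card_Sb, nsmul_eq_mul, mul_one]
    push_cast
    rfl
  · intro j _ hne
    exact tyB_cov p hp i j (Ne.symm hne) n T hT hN

end

open Classical in
theorem t_tyB : S_tyB := by
  intro F _ _ h2 ε n₀ hε
  obtain ⟨m', hm'⟩ := exists_nat_ge (1600 / ε)
  refine ⟨40 * n₀ + m' + 1, fun p hp => ?_⟩
  obtain ⟨T, hT⟩ : ∃ T : Finset (Pl F), ∀ k a, p k a ∈ T :=
    ⟨univ.image (fun x : Fin (40 * n₀ + m' + 1) × Bool => p x.1 x.2), fun k a =>
      mem_image.2 ⟨(k, a), mem_univ _, rfl⟩⟩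
  filter_upwards [eventually_ge_atTop (dS T 1)] with n hn
  have hvar := tyB_var p hp n T hT (by omega)
  have hN : (0 : ℝ) < (Fintype.card F : ℝ) ^ (12 * n + 3) := by
    have : 0 < Fintype.card F := Fintype.card_pos
    positivity
  obtain ⟨t, ht⟩ : ∃ t : ℝ, t = ((40 * n₀ + m' + 1 : ℕ) : ℝ) := ⟨_, rfl⟩
  rw [← ht] at hvar
  have ht' : t = 40 * (n₀ : ℝ) + m' + 1 := by
    rw [ht]
    push_cast
    ring
  have hm0 : (0 : ℝ) ≤ m' := Nat.cast_nonneg _
  have hn0 : (0 : ℝ) ≤ n₀ := Nat.cast_nonneg _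
  have ht0 : (0 : ℝ) < t := by linarith
  have hbad : ∀ f ∈ (Sb F n).filter (fun f => (dirs p f).card < n₀),
      (t / 40) ^ 2 ≤ (∑ i, (tyB_Y p i f - tyB_mu p i)) ^ 2 := by
    intro f hf
    have hf2 : ((dirs p f).card : ℝ) < n₀ := by exact_mod_cast (mem_filter.1 hf).2
    have e1 : ∑ i, tyB_Y p i f ≤ (dirs p f).card := by
      calc ∑ i, tyB_Y p i f ≤ ∑ i, (if i ∈ dirs p f then (1 : ℝ) else 0) :=
            sum_le_sum fun i _ => tyB_Y_le p hp i f
        _ = (dirs p f).card := by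
            rw [sum_boole, filter_mem_eq_inter, univ_inter]
    have e2 : t * (1 / 20) ≤ ∑ i, tyB_mu p i := by
      have := card_nsmul_le_sum (univ : Finset (Fin (40 * n₀ + m' + 1))) (fun i => tyB_mu p i)
        (1 / 20) (fun i _ => tyB_mu_ge p h2 hp i)
      rwa [nsmul_eq_mul, card_univ, Fintype.card_fin, ← ht] at this
    rw [sum_sub_distrib]
    have h3 : t / 40 ≤ (∑ i, tyB_mu p i) - ∑ i, tyB_Y p i f := by linarith
    have h4 : (∑ i, tyB_Y p i f) - ∑ i, tyB_mu p i =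
        -((∑ i, tyB_mu p i) - ∑ i, tyB_Y p i f) := by
      ring
    rw [h4, neg_sq]
    exact pow_le_pow_left₀ (by positivity) h3 2
  have h5 := card_nsmul_le_sum _ _ _ hbad
  rw [nsmul_eq_mul] at h5
  have h6 : ∑ f ∈ (Sb F n).filter (fun f => (dirs p f).card < n₀),
      (∑ i, (tyB_Y p i f - tyB_mu p i)) ^ 2 ≤
      ∑ f ∈ Sb F n, (∑ i, (tyB_Y p i f - tyB_mu p i)) ^ 2 :=
    sum_le_sum_of_subset_of_nonneg (filter_subset _ _) (fun _ _ _ => sq_nonneg _)
  obtain ⟨B, hB⟩ : ∃ B : ℝ, B = (((Sb F n).filter (fun f => (dirs p f).card < n₀)).card : ℝ) :=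
    ⟨_, rfl⟩
  rw [← hB] at h5 ⊢
  have h7 : B * (t / 40) ^ 2 ≤ t * (Fintype.card F : ℝ) ^ (12 * n + 3) :=
    h5.trans (h6.trans hvar)
  have h8 : B * t ≤ 1600 * (Fintype.card F : ℝ) ^ (12 * n + 3) := by
    have h9 : (B * t) * t ≤ (1600 * (Fintype.card F : ℝ) ^ (12 * n + 3)) * t := by
      linarith
    exact le_of_mul_le_mul_right h9 ht0
  have h10 : 1600 ≤ ε * t := by
    rw [div_le_iff₀ hε] at hm'
    nlinarith
  have h11 : B * t ≤ (ε * (Fintype.card F : ℝ) ^ (12 * n + 3)) * t := by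
    refine h8.trans ?_
    have := mul_le_mul_of_nonneg_right h10 hN.le
    linarith
  exact le_of_mul_le_mul_right h11 ht0

end Pool.Agent.H456.PS
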