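import Pool.Agent.H456.PS.Stm2
import Pool.Agent.H456.BQ.Asm4

/-!
# A positive proportion of the cubics is not a twist at any place

The cubics which are twists at `P` are counted directly: up to a translation by a residue modulo `P` they are of the form
`g.sc P`, and the degree of `P` is at most `2 n` because `P ^ 6` divides the discriminant.
-/

set_option autoImplicit false
set_option linter.all false

open Polynomial Finset Filter
open Pool.Agent.H456.EC (toK toK_inj sig toK_eq reflect_toK cls)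
open Pool.Agent.H456.RN
open Pool.Agent.H456.BQ
open Pool.Agent.H456.Coh (TF)
open Pool.Agent.H456.PP (OneR NoR HasRt sx hh Tz Tq Iso3 nr IsoP nrP)
open Pool.Agent.H456.PR

namespace Pool.Agent.H456.PS

section

variable {F : Type} [Field F]

/-- the degree of the discriminant -/
theorem v0_disc {n : ℕ} {f : Cub F[X]} (h : CDg n f) : f.disc.natDegree ≤ 12 * n := by
  obtain ⟨h1, h3, h4⟩ := h
  have a2 := nd_pow h1 2
  have a3 := nd_pow h1 3
  have b2 := nd_pow h3 2
  have b3 := nd_pow h3 3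
  have c2 := nd_pow h4 2
  have t1 : (f.a ^ 2 * f.b ^ 2).natDegree ≤ 12 * n := nd_mul a2 b2 (by omega)
  have t2 : (4 * f.b ^ 3).natDegree ≤ 12 * n := nd_mul (nd_ofNat 4 0) b3 (by omega)
  have t3 : (4 * f.a ^ 3 * f.c).natDegree ≤ 12 * n := nd_mul (nd_mul (nd_ofNat 4 0) a3 le_rfl) h4 (by omega)
  have t4 : (27 * f.c ^ 2).natDegree ≤ 12 * n := nd_mul (nd_ofNat 27 0) c2 (by omega)
  have t5 : (18 * f.a * f.b * f.c).natDegree ≤ 12 * n :=
    nd_mul (nd_mul (nd_mul (nd_ofNat 18 0) h1 le_rfl) h3 le_rfl) h4 (by omega)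
  unfold Cub.disc
  exact nd_add ((natDegree_sub_le _ _).trans (max_le ((natDegree_sub_le _ _).trans
    (max_le ((natDegree_sub_le _ _).trans (max_le t1 t2)) t3)) t4)) t5

/-- a place at which `f` is a twist has small degree -/
theorem v0_deg {n : ℕ} {f : Cub F[X]} (hf : CDg n f) (hd : f.disc ≠ 0) {P : Pl F} (h : TwP P f) :
    P.1.natDegree ≤ 2 * n := by
  obtain ⟨g, r, hg, -⟩ := h
  have h1 : f.disc = P.1 ^ 6 * g.disc := by
    rw [← Cub.disc_sc, ← hg, Cub.disc_tr]
  have h3 := natDegree_le_of_dvd (Dvd.intro _ h1.symm) hd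
  rw [P.2.1.natDegree_pow] at h3
  have := v0_disc hf
  omega

theorem v0_cof {P g : F[X]} (hP : P.Monic) {N m : ℕ} (h : (P ^ m * g).natDegree ≤ N) :
    g.natDegree ≤ N - m * P.natDegree := by
  by_cases hg : g = 0
  · rw [hg, natDegree_zero]; exact Nat.zero_le _
  · rw [(hP.pow m).natDegree_mul' hg, hP.natDegree_pow] at h
    omega

variable [Fintype F]

open Classical in
/-- **few cubics are twists at `P`** -/
theorem v0_card {n : ℕ} (P : Pl F) (hPn : P.1.natDegree ≤ 2 * n) :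
    ((Sb F n).filter (fun f => TwP P f)).card ≤ Fintype.card F ^ (12 * n + 3 - 5 * P.1.natDegree) := by
  have hδ1 : 1 ≤ P.1.natDegree := P.2.2.natDegree_pos
  have h1 : (Sb F n).filter (fun f => TwP P f) ⊆
      (PL F P.1.natDegree ×ˢ PL F (2 * n - P.1.natDegree + 1) ×ˢ PL F (4 * n - 2 * P.1.natDegree + 1) ×ˢ
        PL F (6 * n - 3 * P.1.natDegree + 1)).image
        (fun x => ((⟨x.2.1, x.2.2.1, x.2.2.2⟩ : Cub F[X]).sc P.1).tr (-x.1)) := by
    intro f hf
    rw [mem_filter, mem_Sb] at hf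
    obtain ⟨hf, g, r, h, -⟩ := hf
    have h3 : P.1 ≠ 1 := by
      intro h3
      have h4 := congrArg natDegree h3
      rw [natDegree_one] at h4
      omega
    have er : r %ₘ P.1 + P.1 * (r /ₘ P.1) = r := modByMonic_add_div r P.1
    have hr1 : (r %ₘ P.1).natDegree < P.1.natDegree := natDegree_modByMonic_lt r P.2.1 h3
    have h5 : f.tr (r %ₘ P.1) = (g.tr (-(r /ₘ P.1))).sc P.1 := by
      rw [Cub.sc_tr, ← h, Cub.tr_tr]
      congr 1
      linear_combination er
    have h6 : CDg n (f.tr (r %ₘ P.1)) := cdg_tr hf (by omega)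
    rw [h5] at h6
    obtain ⟨k1, k3, k4⟩ := h6
    rw [mem_image]
    refine ⟨(r %ₘ P.1, (g.tr (-(r /ₘ P.1))).a, (g.tr (-(r /ₘ P.1))).b, (g.tr (-(r /ₘ P.1))).c), ?_, ?_⟩
    · rw [mem_product, mem_product, mem_product]
      refine ⟨mem_PL_of_natDegree hr1, mem_PL_iff.2 ?_, mem_PL_iff.2 ?_, mem_PL_iff.2 ?_⟩
      · have := v0_cof (g := (g.tr (-(r /ₘ P.1))).a) P.2.1 (m := 1) (N := 2 * n) (by rw [pow_one]; exact k1)
        rwa [one_mul] at this
      · exact v0_cof P.2.1 k3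
      · exact v0_cof P.2.1 k4
    · simp only
      rw [← h5, Cub.tr_tr, add_neg_cancel, Cub.tr_zero]
  refine (card_le_card h1).trans (card_image_le.trans ?_)
  rw [card_product, card_product, card_product, card_PL, card_PL, card_PL, card_PL, ← pow_add, ← pow_add, ← pow_add]
  exact Nat.pow_le_pow_right Fintype.card_pos (by omega)

/-- the sum over the places -/
theorem v0_tail (T : Finset (Pl F)) :
    ∑ P ∈ T, ((Fintype.card F : ℝ) ^ (5 * P.1.natDegree))⁻¹ ≤ 1 / 15 := by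
  classical
  have hq2 : 2 ≤ (Fintype.card F : ℝ) := q_ge
  have hq0 : (0 : ℝ) < Fintype.card F := by linarith
  obtain ⟨B, hB⟩ : ∃ B, ∀ P ∈ T, P.1.natDegree < B :=
    ⟨T.sup (fun P => P.1.natDegree) + 1, fun P hP => Nat.lt_succ_of_le (le_sup (f := fun P => P.1.natDegree) hP)⟩
  rw [← sum_fiberwise_of_maps_to (s := T) (t := Finset.Ico 1 B) (g := fun P => P.1.natDegree)
    (fun P hP => Finset.mem_Ico.2 ⟨P.2.2.natDegree_pos, hB P hP⟩)]
  have h1 : ∀ k ∈ Finset.Ico 1 B, ∑ P ∈ T.filter (fun P => P.1.natDegree = k),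
      ((Fintype.card F : ℝ) ^ (5 * P.1.natDegree))⁻¹ ≤ ((1 / 2 : ℝ) ^ 4) ^ k := by
    intro k _
    have e1 : ∀ P ∈ T.filter (fun P => P.1.natDegree = k), ((Fintype.card F : ℝ) ^ (5 * P.1.natDegree))⁻¹ =
        ((Fintype.card F : ℝ) ^ (5 * k))⁻¹ := by
      intro P hP
      rw [(mem_filter.1 hP).2]
    rw [sum_congr rfl e1, sum_const, nsmul_eq_mul]
    calc _ ≤ (Fintype.card F : ℝ) ^ k * ((Fintype.card F : ℝ) ^ (5 * k))⁻¹ :=
          mul_le_mul_of_nonneg_right (card_PlE T k) (by positivity)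
      _ = (((Fintype.card F : ℝ) ^ 4)⁻¹) ^ k := by
          rw [inv_pow, ← pow_mul, show 5 * k = k + 4 * k by ring, pow_add]
          field_simp
      _ ≤ ((1 / 2 : ℝ) ^ 4) ^ k := by
          apply pow_le_pow_left₀ (by positivity)
          rw [one_div, inv_pow]
          exact inv_anti₀ (by positivity) (pow_le_pow_left₀ (by norm_num) hq2 4)
  refine (sum_le_sum h1).trans ?_
  rcases le_or_gt 1 B with hDB | hDB
  · rw [geom_sum_Ico' (by norm_num) hDB]
    have h3 : (0 : ℝ) ≤ ((1 / 2 : ℝ) ^ 4) ^ B := by positivity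
    have h4 : ((1 / 2 : ℝ) ^ 4) ^ 1 = 1 / 16 := by norm_num
    have h5 : (1 / 15 : ℝ) * (1 - (1 / 2 : ℝ) ^ 4) = 1 / 16 := by norm_num
    rw [div_le_iff₀ (by norm_num), h4, h5]
    linarith
  · rw [Finset.Ico_eq_empty (by omega), sum_empty]
    norm_num

end

theorem t_v0 : S_v0 := by
  intro F _ _ h2
  classical
  filter_upwards [H3 (F := F) h2] with n hn
  have hq2 : 2 ≤ (Fintype.card F : ℝ) := q_ge
  have hq0 : (0 : ℝ) < Fintype.card F := by linarith
  have h1 : (Msh F n).card ≤ ((Msh F n).filter (fun f => ∀ P, ¬ TwP P f)).card +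
      ∑ P ∈ PlD F (2 * n), ((Sb F n).filter (fun f => TwP P f)).card := by
    have h3 : Msh F n ⊆ (Msh F n).filter (fun f => ∀ P, ¬ TwP P f) ∪
        (PlD F (2 * n)).biUnion (fun P => (Sb F n).filter (fun f => TwP P f)) := by
      intro f hf
      rw [mem_union, mem_filter, mem_biUnion]
      by_cases h : ∀ P, ¬ TwP P f
      · exact Or.inl ⟨hf, h⟩
      · push Not at h
        obtain ⟨P, hP⟩ := h
        obtain ⟨h4, h5, -⟩ := mem_Msh.1 hf
        exact Or.inr ⟨P, mem_PlD.2 (v0_deg h4 h5 hP), mem_filter.2 ⟨mem_Sb.2 h4, hP⟩⟩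
    exact (card_le_card h3).trans ((card_union_le _ _).trans (Nat.add_le_add_left card_biUnion_le _))
  have h4 : ∑ P ∈ PlD F (2 * n), (((Sb F n).filter (fun f => TwP P f)).card : ℝ) ≤
      (Fintype.card F : ℝ) ^ (12 * n + 3) * (1 / 15) := by
    refine le_trans ?_ (mul_le_mul_of_nonneg_left (v0_tail (PlD F (2 * n))) (by positivity))
    rw [mul_sum]
    apply sum_le_sum
    intro P hP
    have hP' := mem_PlD.1 hP
    have h5 : (((Sb F n).filter (fun f => TwP P f)).card : ℝ) ≤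
        (Fintype.card F : ℝ) ^ (12 * n + 3 - 5 * P.1.natDegree) := by
      exact_mod_cast v0_card P hP'
    refine h5.trans (le_of_eq ?_)
    rw [eq_mul_inv_iff_mul_eq₀ (by positivity), ← pow_add]
    congr 1
    omega
  have h6 : ((Msh F n).card : ℝ) ≤ (((Msh F n).filter (fun f => ∀ P, ¬ TwP P f)).card : ℝ) +
      ∑ P ∈ PlD F (2 * n), (((Sb F n).filter (fun f => TwP P f)).card : ℝ) := by
    exact_mod_cast h1
  have h7 : (0 : ℝ) < (Fintype.card F : ℝ) ^ (12 * n + 3) := by positivity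
  have h8 : (1 / 8 : ℝ) * (Fintype.card F : ℝ) ^ (12 * n + 3) ≤
      (((Msh F n).filter (fun f => ∀ P, ¬ TwP P f)).card : ℝ) := by
    linarith
  exact h8

end Pool.Agent.H456.PS
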