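import Pool.Agent.H456.PS.Stm2
import Pool.Agent.H456.PS.T_tw2

/-!
(v1) For `J ∈ 𝒮` apply `S_tw2` (PS/Stm.lean; `t_tw2 : S_tw2` is proved in PS/T_tw2.lean whose lemmas can be used) with `A = J`, `B = ∅`, `c P f := ¬ TwP P f`, `n' = n + k` (`DJ ∅ = 1`, degree `0`, `Φ (f.sc (1 ^ 2)) = Φ f`): hypotheses `Cnd P.1 3 (fun f => ¬ TwP P f)` (`TwP P` depends only on `f` modulo `P³` and is invariant under `tr`; T_tw2.lean has it), invariance under scaling by `u` prime to `P`. So `q^(2k) ∑_{f ∈ Msh n, ∀ P, ¬TwP P f} Φ(f.sc (DJ J)) = ∑_{h ∈ Msh (n+k), ∀ P, cAB J ∅ c P h} Φ h`. For `h ∈ Msh (n+k)` (minimal): `(∀ P, cAB J ∅ c P h) ↔ ∀ P, (TwP P h ↔ P ∈ J)`: for `P ∉ J`, `cAB` is `¬ TwP P h`; for `P ∈ J`, `cAB` is `tw P c h`: `h.tr r = f.sc P` with `¬ TwP P f`, which implies `TwP P h`;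
conversely if `h.tr r = f.sc P` and `TwP P f`, `f.tr r' = g.sc P`, then `h.tr (r + P r') = g.sc (P²)` contradicts the minimality of `h` at `P` (`MinAll` in `Msh`, see PS/T_tw2.lean, PR/T_tws.lean). Sum over `J ∈ 𝒮`: the set `{h ∈ Msh (n+k) : StJ (2k) h}` is the disjoint union over `J ∈ 𝒮` of `{h : ∀ P, TwP P h ↔ P ∈ J}` (`J` is determined by `h`).
-/

set_option autoImplicit false
set_option linter.all false

open Polynomial Finset Filter
open Pool.Agent.H456.EC (toK toK_inj sig toK_eq reflect_toK cls)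
open Pool.Agent.H456.RN
open Pool.Agent.H456.BQ
open Pool.Agent.H456.Coh (TF)
open Pool.Agent.H456.PP (OneR NoR HasRt sx hh Tz Tq Iso3 nr IsoP nrP)
open Pool.Agent.H456.PR

namespace Pool.Agent.H456.PS

section v1

variable {F : Type} [Field F]

theorem v1_DJ_empty : DJ (∅ : Finset (Pl F)) = 1 := by
  unfold DJ
  rw [Finset.prod_empty]

open Classical in
/-- for a minimal `h` the conditions `cAB J ∅ (¬ TwP)` say that `J` is the set of the places where `h` is a twist -/
theorem v1_loc [Fintype F] (J : Finset (Pl F)) (h : Cub F[X]) (P : Pl F) (hm : ¬ NMc P.1 h) :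
    cAB J ∅ (fun P f => ¬ TwP P f) P h ↔ (TwP P h ↔ P ∈ J) := by
  by_cases hP : P ∈ J
  · have e0 : cAB J ∅ (fun P f => ¬ TwP P f) P = tw P (fun f => ¬ TwP P f) := by
      unfold cAB
      rw [if_pos hP]
    rw [e0]
    constructor
    · rintro ⟨f, r, e, _⟩
      exact ⟨fun _ => hP, fun _ => ⟨f, r, e, trivial⟩⟩
    · intro hi
      obtain ⟨f, r, e, _⟩ := hi.2 hP
      refine ⟨f, r, e, fun hf => hm ?_⟩
      have h1 : NMc P.1 (f.sc P.1) := tw2_NMc_sc.2 hf
      rw [← e] at h1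
      exact (NMc_tr r).1 h1
  · have e0 : cAB J ∅ (fun P f => ¬ TwP P f) P = fun f => ¬ TwP P f := by
      unfold cAB
      rw [if_neg hP, if_neg (Finset.notMem_empty P)]
    rw [e0]
    constructor
    · intro hn
      exact ⟨fun ht => absurd ht hn, fun hj => absurd hj hP⟩
    · intro hi ht
      exact hP (hi.1 ht)

end v1

theorem t_v1 : S_tw2 → S_v1 := by
  classical
  intro htw F _ _ h2 k 𝒮 hS Φ hΦ n hn
  have hcard : ∀ J ∈ 𝒮, (DJ J).natDegree = 2 * k := fun J hJ => (hS J).1 hJ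
  -- the sum for one `J`
  have h1 : ∀ J ∈ 𝒮, (Fintype.card F : ℝ) ^ (2 * k) *
      ∑ f ∈ (Msh F n).filter (fun f => ∀ P, ¬ TwP P f), Φ (f.sc (DJ J)) =
      ∑ h ∈ Msh F (n + k), if (∀ P, (TwP P h ↔ P ∈ J)) then Φ h else 0 := by
    intro J hJ
    have hd := hcard J hJ
    have h0 : (DJ (∅ : Finset (Pl F))).natDegree = 0 := by
      rw [v1_DJ_empty, natDegree_one]
    have h3 := (htw F h2 J ∅ k (Finset.disjoint_empty_right J) (by rw [h0, hd, add_zero])
      (fun P f => ¬ TwP P f)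
      (fun P => ⟨fun f f' e => not_congr ((tw2_TwP_cnd P).cong f f' e),
        fun f r => not_congr ((tw2_TwP_cnd P).tr f r)⟩)
      (fun P _ f hf => hf) (fun P hP => absurd hP (Finset.notMem_empty P))
      (fun P f u hu => not_congr (tw2_TwP_unit hu))).2 Φ hΦ
      (fun f => by rw [v1_DJ_empty, one_pow, Cub.sc_one]) n (n + k) (by rw [h0, hd]; omega)
      (by rw [h0, add_zero])
    rw [h0, hd, pow_zero, one_mul] at h3
    rw [← Finset.sum_filter]
    have e1 : (Msh F (n + k)).filter (fun h => ∀ P, cAB J ∅ (fun P f => ¬ TwP P f) P h) =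
        (Msh F (n + k)).filter (fun h => ∀ P, (TwP P h ↔ P ∈ J)) := by
      apply Finset.filter_congr
      intro h hh
      rw [mem_Msh, MinAll_crv h2] at hh
      exact forall_congr' fun P => v1_loc J h P (hh.2.2.1 P)
    rw [e1] at h3
    rw [← h3]
    congr 1
    refine Finset.sum_congr rfl fun f _ => ?_
    rw [v1_DJ_empty, mul_one]
  -- the sum over `J`
  have h4 : ∑ h ∈ (Msh F (n + k)).filter (fun h => StJ (2 * k) h), Φ h =
      ∑ J ∈ 𝒮, ∑ h ∈ Msh F (n + k), if (∀ P, (TwP P h ↔ P ∈ J)) then Φ h else 0 := by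
    rw [Finset.sum_comm, Finset.sum_filter]
    refine Finset.sum_congr rfl fun h _ => ?_
    by_cases hst : StJ (2 * k) h
    · rw [if_pos hst]
      obtain ⟨J₀, hd, hJ⟩ := hst
      rw [Finset.sum_eq_single J₀]
      · rw [if_pos hJ]
      · intro J _ hne
        rw [if_neg]
        intro hc
        exact hne (Finset.ext fun P => (hc P).symm.trans (hJ P))
      · intro hn'
        exact absurd ((hS J₀).2 hd) hn'
    · rw [if_neg hst]
      symm
      apply Finset.sum_eq_zero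
      intro J hJ
      rw [if_neg]
      intro hc
      exact hst ⟨J, hcard J hJ, hc⟩
  rw [h4, ← Finset.sum_congr rfl h1, ← Finset.mul_sum]
  congr 1
  rw [Finset.sum_comm]

end Pool.Agent.H456.PS
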