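import Pool.Agent.H456.PS.Stm2

/-!
(v2) `q = #F ≥ 3`, `B = q^(12n+3)`. Let `ε' = ε/9`, `k₀` from `S_law ε'`, `k ≥ k₀`. `𝒮` = the finite set `SJ F (2k)` (finite by `S_sqc`, `#𝒮 ≥ 1`: `#𝒮 = q^(2k) - [k ≥ 1] q^(2k-1) > 0`). For `n ≥ 2k` large: `V = {f ∈ Msh n : ∀ P, ¬TwP P f}`, `#V ≥ B/8` (`S_v0`), `X = {f ∈ Msh n : ∃ j, ε' < |pJ (2k) f j - Cd j|}`, `#X ≤ ε' B ≤ 8 ε' #V`. `S_v1` with `Φ = 1`: `#{h ∈ Msh (n+k) : StJ} = q^(2k) #V #𝒮`, which gives the lower bound `c q^(12(n+k)+3)`, `c = q^(2k) · 1/8 · q^(-12k)`. `S_v1` with `Φ h = 1[NT ∅ h = 2^j] - Cd j` (`S_tri`): `∑_h Φ h = q^(2k) ∑_{f∈V} #𝒮 (pJ (2k) f j - Cd j)` (`pJ` is the quotient of `ncard`s, `SJ` finite). The absolute value is at most `q^(2k) #𝒮 (ε' #V + #X) ≤ 9 ε' q^(2k) #𝒮 #V = ε #{h : StJ}` (`0 ≤ Cd j ≤ 1` by `S_num`, so every term is at most `1`).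
The statement at level `n + k` for all large `n` gives it for all large levels.
(proof by helper105)
-/

set_option autoImplicit false
set_option linter.all false

open Polynomial Finset Filter
open Pool.Agent.H456.EC (toK toK_inj sig toK_eq reflect_toK cls)
open Pool.Agent.H456.RN
open Pool.Agent.H456.BQ
open Pool.Agent.H456.Coh (TF)
open Pool.Agent.H456.PP (OneR NoR HasRt sx hh Tz Tq Iso3 nr IsoP nrP)
open Pool.Agent.H456.PR

namespace Pool.Agent.H456.PS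

/-- the numbers `Cd j` are between `0` and `1` -/
theorem v2_Cd01 (hnum : S_num) (j : ℕ) : 0 ≤ Cd j ∧ Cd j ≤ 1 := by
  obtain ⟨h0, _, hs⟩ := hnum
  have hc : 0 < (∏' j : ℕ, (1 + (1 / 2 : ℝ) ^ j))⁻¹ := by
    have h1 : Cd 0 = (∏' j : ℕ, (1 + (1 / 2 : ℝ) ^ j))⁻¹ := by
      unfold Cd ak
      rw [Finset.range_zero, Finset.prod_empty, mul_one]
    rw [← h1]
    linarith
  have hnn : ∀ j, 0 ≤ Cd j := by
    intro j
    unfold Cd
    refine mul_nonneg hc.le ?_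
    unfold ak
    refine Finset.prod_nonneg (fun i _ => ?_)
    have h2 : (1 : ℝ) ≤ 2 ^ (i + 1) := one_le_pow₀ (by norm_num)
    exact div_nonneg (by norm_num) (by linarith)
  exact ⟨hnn j, le_hasSum hs j (fun i _ => hnn i)⟩

/-- the proportions `pJ` are between `0` and `1` -/
theorem v2_pJ01 {F : Type} [Field F] (n : ℕ) (hfin : (SJ F n).Finite) (f : Cub F[X]) (j : ℕ) :
    0 ≤ pJ n f j ∧ pJ n f j ≤ 1 := by
  unfold pJ
  refine ⟨div_nonneg (Nat.cast_nonneg _) (Nat.cast_nonneg _), ?_⟩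
  refine div_le_one_of_le₀ ?_ (Nat.cast_nonneg _)
  have h1 : ({J | J ∈ SJ F n ∧ NT ∅ (f.sc (DJ J)) = 2 ^ j} : Set (Finset (Pl F))) ⊆ SJ F n :=
    fun J hJ => hJ.1
  exact_mod_cast Set.ncard_le_ncard h1 hfin

/-- the number of the monic squarefree polynomials is positive -/
theorem v2_pos (hsqc : S_sqc) (F : Type) [Field F] [Fintype F] (n : ℕ) : 0 < (SJ F n).ncard := by
  obtain ⟨_, h⟩ := hsqc F n
  have hq : 1 < Fintype.card F := Fintype.one_lt_card
  by_cases hn : 2 ≤ n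
  · rw [if_pos hn] at h
    have h1 : Fintype.card F ^ (n - 1) < Fintype.card F ^ n := Nat.pow_lt_pow_right hq (by omega)
    omega
  · rw [if_neg hn] at h
    have h1 : 0 < Fintype.card F ^ n := pow_pos (by omega) n
    omega

open Classical in
/-- the sum over the twists in terms of the proportion -/
theorem v2_sum {F : Type} [Field F] [Fintype F] (n : ℕ) (𝒮 : Finset (Finset (Pl F)))
    (hS : ∀ J, J ∈ 𝒮 ↔ J ∈ SJ F n) (hpos : 0 < 𝒮.card) (f : Cub F[X]) (j : ℕ) :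
    ∑ J ∈ 𝒮, ((if NT ∅ (f.sc (DJ J)) = 2 ^ j then (1 : ℝ) else 0) - Cd j) =
      (𝒮.card : ℝ) * (pJ n f j - Cd j) := by
  have h1 : SJ F n = ((𝒮 : Finset (Finset (Pl F))) : Set (Finset (Pl F))) := by
    ext J
    exact (hS J).symm
  have h2 : ({J | J ∈ SJ F n ∧ NT ∅ (f.sc (DJ J)) = 2 ^ j} : Set (Finset (Pl F))) =
      ((𝒮.filter (fun J => NT ∅ (f.sc (DJ J)) = 2 ^ j) : Finset (Finset (Pl F))) :
        Set (Finset (Pl F))) := by
    ext J
    rw [Set.mem_setOf_eq, Finset.mem_coe, Finset.mem_filter, hS J]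
  have h3 : pJ n f j = ((𝒮.filter (fun J => NT ∅ (f.sc (DJ J)) = 2 ^ j)).card : ℝ) / 𝒮.card := by
    unfold pJ
    rw [h2, Set.ncard_coe_finset, h1, Set.ncard_coe_finset]
  have h4 : (𝒮.card : ℝ) ≠ 0 := by
    have : (0 : ℝ) < 𝒮.card := by exact_mod_cast hpos
    exact this.ne'
  rw [Finset.sum_sub_distrib, Finset.sum_boole, Finset.sum_const, nsmul_eq_mul, h3]
  field_simp

open Classical in
/-- the estimate of a signed sum -/
theorem v2_est {ι : Type} (V X : Finset ι) (a : ι → ℝ) (e B : ℝ) (he : 0 ≤ e)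
    (h1 : ∀ f ∈ V, |a f| ≤ 1) (hX : ∀ f ∈ V, f ∉ X → |a f| ≤ e) (hXB : (X.card : ℝ) ≤ e * B)
    (hV : (1 / 8 : ℝ) * B ≤ V.card) : |∑ f ∈ V, a f| ≤ 9 * e * V.card := by
  have h2 : |∑ f ∈ V, a f| ≤ ∑ f ∈ V, |a f| := Finset.abs_sum_le_sum_abs _ _
  have h3 : ∑ f ∈ V, |a f| ≤ ∑ f ∈ V, (e + if f ∈ X then (1 : ℝ) else 0) := by
    refine Finset.sum_le_sum (fun f hf => ?_)
    by_cases hfX : f ∈ X
    · rw [if_pos hfX]
      linarith [h1 f hf]
    · rw [if_neg hfX, add_zero]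
      exact hX f hf hfX
  have h4 : ∑ f ∈ V, (e + if f ∈ X then (1 : ℝ) else 0) = V.card * e + ((V.filter (fun f => f ∈ X)).card : ℝ) := by
    rw [Finset.sum_add_distrib, Finset.sum_const, nsmul_eq_mul, Finset.sum_boole]
  have h5 : ((V.filter (fun f => f ∈ X)).card : ℝ) ≤ X.card := by
    have : V.filter (fun f => f ∈ X) ⊆ X := fun f hf => (Finset.mem_filter.1 hf).2
    exact_mod_cast Finset.card_le_card this
  have h6 : e * B ≤ e * (8 * V.card) := mul_le_mul_of_nonneg_left (by linarith) he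
  linarith

theorem t_v2 : S_law → S_v0 → S_v1 → S_tri → S_num → S_sqc → S_v2 := by
  classical
  intro hlaw hv0 hv1 htri hnum hsqc F _ _ h2F ε hε
  have hq1 : (1 : ℝ) ≤ (Fintype.card F : ℝ) := by
    exact_mod_cast (Fintype.one_lt_card (α := F)).le
  have hq0 : (0 : ℝ) < (Fintype.card F : ℝ) := by linarith
  obtain ⟨k₀, hk₀⟩ := hlaw F h2F (ε / 9) (by positivity)
  refine ⟨k₀, fun k hk => ?_⟩
  have hfin : (SJ F (2 * k)).Finite := (hsqc F (2 * k)).1
  set 𝒮 : Finset (Finset (Pl F)) := hfin.toFinset with h𝒮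
  have hS : ∀ J, J ∈ 𝒮 ↔ J ∈ SJ F (2 * k) := fun J => hfin.mem_toFinset
  have hScard : 0 < 𝒮.card := by
    have h1 := v2_pos hsqc F (2 * k)
    rw [Set.ncard_eq_toFinset_card _ hfin] at h1
    exact h1
  have hScard' : (1 : ℝ) ≤ 𝒮.card := by exact_mod_cast hScard
  have hcount : ∀ n : ℕ, 2 * k ≤ n →
      (((Msh F (n + k)).filter (fun h => StJ (2 * k) h)).card : ℝ) =
        (Fintype.card F : ℝ) ^ (2 * k) *
          ((((Msh F n).filter (fun f => ∀ P, ¬ TwP P f)).card : ℝ) * 𝒮.card) := by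
    intro n hn
    have h1 := hv1 F h2F k 𝒮 hS (fun _ => 1) (fun _ _ => rfl) n hn
    simp only [Finset.sum_const, nsmul_eq_mul, mul_one] at h1
    exact h1
  refine ⟨?_, ?_⟩
  · -- the lower bound
    refine ⟨(Fintype.card F : ℝ) ^ (2 * k) * (1 / 8) / (Fintype.card F : ℝ) ^ (12 * k), by positivity, ?_⟩
    obtain ⟨n₁, hn₁⟩ := Filter.eventually_atTop.1 (hv0 F h2F)
    refine Filter.eventually_atTop.2 ⟨n₁ + 3 * k, fun n' hn' => ?_⟩
    obtain ⟨n, rfl⟩ : ∃ n, n' = n + k := ⟨n' - k, by omega⟩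
    rw [hcount n (by omega)]
    have h3 := hn₁ n (by omega)
    have h4 : (Fintype.card F : ℝ) ^ (12 * (n + k) + 3) =
        (Fintype.card F : ℝ) ^ (12 * n + 3) * (Fintype.card F : ℝ) ^ (12 * k) := by
      rw [← pow_add]
      congr 1
      ring
    have h5 : (Fintype.card F : ℝ) ^ (2 * k) * (1 / 8) / (Fintype.card F : ℝ) ^ (12 * k) *
        (Fintype.card F : ℝ) ^ (12 * (n + k) + 3) =
        (Fintype.card F : ℝ) ^ (2 * k) * ((1 / 8) * (Fintype.card F : ℝ) ^ (12 * n + 3)) := by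
      rw [h4]
      have : (Fintype.card F : ℝ) ^ (12 * k) ≠ 0 := by positivity
      field_simp
    rw [h5]
    refine mul_le_mul_of_nonneg_left ?_ (by positivity)
    calc (1 / 8 : ℝ) * (Fintype.card F : ℝ) ^ (12 * n + 3)
        ≤ (((Msh F n).filter (fun f => ∀ P, ¬ TwP P f)).card : ℝ) := h3
      _ ≤ (((Msh F n).filter (fun f => ∀ P, ¬ TwP P f)).card : ℝ) * 𝒮.card :=
        le_mul_of_one_le_right (Nat.cast_nonneg _) hScard'
  · -- the law
    obtain ⟨n₁, hn₁⟩ := Filter.eventually_atTop.1 (hv0 F h2F)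
    obtain ⟨n₂, hn₂⟩ := Filter.eventually_atTop.1 (hk₀ k hk)
    refine Filter.eventually_atTop.2 ⟨n₁ + n₂ + 3 * k, fun n' hn' j => ?_⟩
    obtain ⟨n, rfl⟩ : ∃ n, n' = n + k := ⟨n' - k, by omega⟩
    have h3 := hn₁ n (by omega)
    have h4 := hn₂ n (by omega)
    have h5 := hv1 F h2F k 𝒮 hS
      (fun h => (if NT ∅ h = 2 ^ j then (1 : ℝ) else 0) - Cd j)
      (fun f r => by rw [htri F ∅ f r]) n (by omega)
    have h6 : ∑ h ∈ (Msh F (n + k)).filter (fun h => StJ (2 * k) h),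
        ((if NT ∅ h = 2 ^ j then (1 : ℝ) else 0) - Cd j) =
        (((Msh F (n + k)).filter (fun h => StJ (2 * k) h ∧ NT ∅ h = 2 ^ j)).card : ℝ) -
          Cd j * ((Msh F (n + k)).filter (fun h => StJ (2 * k) h)).card := by
      rw [Finset.sum_sub_distrib, Finset.sum_boole, Finset.sum_const, nsmul_eq_mul,
        Finset.filter_filter]
      ring
    have h7 : ∑ f ∈ (Msh F n).filter (fun f => ∀ P, ¬ TwP P f), ∑ J ∈ 𝒮,
        ((if NT ∅ (f.sc (DJ J)) = 2 ^ j then (1 : ℝ) else 0) - Cd j) =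
        (𝒮.card : ℝ) * ∑ f ∈ (Msh F n).filter (fun f => ∀ P, ¬ TwP P f), (pJ (2 * k) f j - Cd j) := by
      rw [Finset.mul_sum]
      exact Finset.sum_congr rfl (fun f _ => v2_sum (2 * k) 𝒮 hS hScard f j)
    have h8 : |∑ f ∈ (Msh F n).filter (fun f => ∀ P, ¬ TwP P f), (pJ (2 * k) f j - Cd j)| ≤
        9 * (ε / 9) * ((Msh F n).filter (fun f => ∀ P, ¬ TwP P f)).card := by
      refine v2_est _ ((Msh F n).filter (fun f => ∃ j, ε / 9 < |pJ (2 * k) f j - Cd j|)) _ (ε / 9)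
        ((Fintype.card F : ℝ) ^ (12 * n + 3)) (by positivity) ?_ ?_ ?_ h3
      · intro f _
        have h9 := v2_pJ01 (2 * k) hfin f j
        have h10 := v2_Cd01 hnum j
        rw [abs_le]
        constructor <;> linarith [h9.1, h9.2, h10.1, h10.2]
      · intro f hf hfX
        by_contra hcon
        push Not at hcon
        exact hfX (Finset.mem_filter.2 ⟨(Finset.mem_filter.1 hf).1, j, hcon⟩)
      · exact h4
    rw [← h6, h5, h7, hcount n (by omega), abs_mul, abs_mul, abs_of_nonneg (by positivity),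
      abs_of_nonneg (by positivity)]
    calc (Fintype.card F : ℝ) ^ (2 * k) * ((𝒮.card : ℝ) *
          |∑ f ∈ (Msh F n).filter (fun f => ∀ P, ¬ TwP P f), (pJ (2 * k) f j - Cd j)|)
        ≤ (Fintype.card F : ℝ) ^ (2 * k) * ((𝒮.card : ℝ) *
          (9 * (ε / 9) * ((Msh F n).filter (fun f => ∀ P, ¬ TwP P f)).card)) := by
          refine mul_le_mul_of_nonneg_left ?_ (by positivity)
          exact mul_le_mul_of_nonneg_left h8 (by positivity)
      _ = _ := by ring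

end Pool.Agent.H456.PS
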