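import Pool.Agent.H456.PS.T_sqq
import Pool.Agent.H456.PS.T_lcn
import Pool.Agent.H456.PS.T_nrt
import Pool.Agent.H456.PS.T_f1
import Pool.Agent.H456.PS.T_f2
import Pool.Agent.H456.PS.T_fn
import Pool.Agent.H456.PS.T_nsq
import Pool.Agent.H456.PS.T_tw2
import Pool.Agent.H456.PS.T_avD
import Pool.Agent.H456.PS.T_tyB
import Pool.Agent.H456.PS.T_box
import Pool.Agent.H456.PS.T_kst
import Pool.Agent.H456.PS.T_grd
import Pool.Agent.H456.PS.T_irc
import Pool.Agent.H456.PS.T_sqc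
import Pool.Agent.H456.PS.T_ty1
import Pool.Agent.H456.PS.T_ty2
import Pool.Agent.H456.PS.T_ty3
import Pool.Agent.H456.PS.T_prt
import Pool.Agent.H456.PS.T_law
import Pool.Agent.H456.PS.T_v0
import Pool.Agent.H456.PS.T_v1
import Pool.Agent.H456.PS.T_v2
import Pool.Agent.H456.PR.All

/-!
# The lemmas of the second part without hypotheses
-/

set_option autoImplicit false
set_option linter.all false

namespace Pool.Agent.H456.PS

open Pool.Agent.H456.PR

theorem b_nrt : S_nrt := t_nrt a_hlf t_lcn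
theorem b_f1 : S_f1 := t_f1 a_sqr b_nrt
theorem b_f2 : S_f2 := t_f2 a_sqr a_sxn a_rcg b_nrt
theorem b_fn : S_fn := t_fn b_f1 b_f2 a_lu a_grp a_pw2
theorem b_avD : S_avD := t_avD a_tri t_nsq a_up a_low t_tw2
theorem b_box : S_box := t_box b_fn b_avD t_tyB a_bdr a_cau a_bal
theorem b_grd : S_grd := t_grd t_kst
theorem b_ty1 : S_ty1 := t_ty1 t_irc t_sqc
theorem b_ty2 : S_ty2 := t_ty2 t_irc t_sqc
theorem b_ty3 : S_ty3 := t_ty3 t_irc t_sqc
theorem b_prt : S_prt := t_prt b_grd t_irc t_sqc b_ty1 b_ty2 b_ty3 t_sqq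
theorem b_law : S_law := t_law b_box b_prt a_num
theorem b_v2 : S_v2 := t_v2 b_law t_v0 (t_v1 t_tw2) a_tri a_num t_sqc

end Pool.Agent.H456.PS
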