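import Pool.Agent.H456.PS.Out5

/-!
# The proportion of the trivial Selmer groups
-/

set_option autoImplicit false
set_option linter.all false

open Polynomial WeierstrassCurve Finset Filter
open Pool.Agent.H456.EC
open Pool.Agent.H456.RN
open Pool.Agent.H456.BQ
open Pool.Agent.H456.Coh
open Pool.Agent.H456.PR
open Pool.Agent.H456.Pub (SameClass Tors Prim Killed twist law prop twistP SelTwo SelInf SelInfTwo rank card_tors card_prim
  sqf share starFam DivBy s2_card sI_card mean mean_coe)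

namespace Pool.Agent.H456.PS

theorem share_mono {A : Type} {S : Set A} (hS : S.Finite) {p q : A → Prop} (h : ∀ x ∈ S, p x → q x) :
    share S p ≤ share S q := by
  unfold share
  apply div_le_div_of_nonneg_right _ (Nat.cast_nonneg _)
  have h1 : ({x | x ∈ S ∧ p x} : Set A).ncard ≤ ({x | x ∈ S ∧ q x} : Set A).ncard :=
    Set.ncard_le_ncard (fun x hx => ⟨hx.1, h x hx.1 hx.2⟩) (hS.subset fun x hx => hx.1)
  exact_mod_cast h1

section

variable {F : Type} [Field F] [Fintype F]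

open Classical in
theorem triv_low (h2 : (2 : F) ≠ 0) {E : WeierstrassCurve (RatFunc F)} (hE : E.Δ ≠ 0)
    (hc : Nat.card (SelTwo E) = 2 ^ 0) : Finite E.toAffine.Point ∧ Nat.card (SelInf E) = 1 := by
  rw [(card_tors _ 2).1] at hc
  refine ⟨(t_rk F h2 _ hE 0 hc).2.2 rfl, ?_⟩
  rw [card_prim']
  exact t_sh F h2 _ hE (by rw [pow_zero] at hc; exact hc)

open Classical in
theorem triv_up {E : WeierstrassCurve (RatFunc F)} (hc : Nat.card (SelInf E) = 1) :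
    Nat.card (SelInfTwo E) = 2 ^ 0 := by
  rw [card_prim'] at hc
  rw [(card_prim _ 2 2).1, pow_zero]
  obtain ⟨h1, h3⟩ := Nat.card_eq_one_iff_unique.1 hc
  rw [Nat.card_eq_one_iff_unique]
  exact ⟨⟨fun x y => Subtype.ext (h1.elim _ _)⟩, ⟨⟨0, smul_zero _⟩⟩⟩

theorem finite_cls' (d : ℕ) : (cls '' Eqn F d).Finite := finite_cls d

/-- **the final form for the twists** -/
theorem fin_sqf3 (hx1 : S_x1) (hx2 : S_x2) (hl : S_law) (h2 : (2 : F) ≠ 0) (ε : ℝ) (hε : 0 < ε) :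
    ∃ k₀ : ℕ, ∀ k ≥ k₀, (sqf F (2 * k)).Finite ∧ (sqf F (2 * k)).Nonempty ∧
      ∀ᶠ d in atTop, ∃ B : Set (KC F), B ⊆ cls '' Eqn F d ∧ (B.ncard : ℝ) ≤ ε * ((cls '' Eqn F d).ncard : ℝ) ∧
        ∀ κ ∈ cls '' Eqn F d, κ ∉ B →
          (∀ j : ℕ, |share (sqf F (2 * k)) (fun D => Nat.card (SelTwo (twistP κ.out D)) = 2 ^ j) - law j| ≤ ε) ∧
          (∀ j : ℕ, |share (sqf F (2 * k)) (fun D => Nat.card (SelInfTwo (twistP κ.out D)) = 2 ^ j) - law j| ≤ ε) ∧
          |share (sqf F (2 * k)) (fun D => Finite (twistP κ.out D).toAffine.Point ∧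
            Nat.card (SelInf (twistP κ.out D)) = 1) - law 0| ≤ ε ∧
          0.629 - 2 * ε ≤ share (sqf F (2 * k)) (fun D => rank (twistP κ.out D) ≤ 1) ∧
          mean (sqf F (2 * k)) (fun D => rank (twistP κ.out D)) ≤ 1.265 + ε := by
  obtain ⟨k₀, hk⟩ := fin_sqf2 (F := F) hx1 hx2 hl h2 ε hε
  refine ⟨k₀, fun k hk0 => ?_⟩
  obtain ⟨hfin, hnon, hd⟩ := hk k hk0
  refine ⟨hfin, hnon, ?_⟩
  filter_upwards [hd] with d hd1
  obtain ⟨B, hB, hBc, hκ⟩ := hd1
  refine ⟨B, hB, hBc, fun κ hk1 hkB => ?_⟩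
  obtain ⟨a1, a2, a3, a4, a5⟩ := hκ κ hk1 hkB
  refine ⟨a1, a2, ?_, a4, a5⟩
  have hk' := mem_CL_iff.1 hk1
  have hΔ := KC_Δ h2 hk'
  have b1 := abs_le.1 (a1 0)
  have b2 := abs_le.1 (a2 0)
  have c1 : share (sqf F (2 * k)) (fun D => Nat.card (SelTwo (twistP κ.out D)) = 2 ^ 0) ≤
      share (sqf F (2 * k)) (fun D => Finite (twistP κ.out D).toAffine.Point ∧
            Nat.card (SelInf (twistP κ.out D)) = 1) := by
    apply share_mono hfin
    intro D hD hc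
    have hD0 : toK F D ≠ 0 := (map_ne_zero_iff _ toK_inj).2 hD.1.ne_zero
    exact triv_low h2 (twE_Δ h2 hΔ hD0) hc
  have c2 : share (sqf F (2 * k)) (fun D => Finite (twistP κ.out D).toAffine.Point ∧
            Nat.card (SelInf (twistP κ.out D)) = 1) ≤
      share (sqf F (2 * k)) (fun D => Nat.card (SelInfTwo (twistP κ.out D)) = 2 ^ 0) := by
    apply share_mono hfin
    intro D hD hc
    exact triv_up hc.2
  rw [abs_le]
  constructor <;> linarith [b1.1, b1.2, b2.1, b2.2]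

/-- **the final form for the families** -/
theorem fin_star3 (hx1 : S_x1) (hx2 : S_x2) (hx3 : S_x3) (hv0 : S_v0) (hv1 : S_v1) (hv2 : S_v2) (hv3 : S_v3)
    (hv4 : S_v4) (h2 : (2 : F) ≠ 0) (ε : ℝ) (hε : 0 < ε) :
    ∃ k₀ : ℕ, ∀ k ≥ k₀, (∃ δ : ℝ, 0 < δ ∧ ∀ᶠ d : ℕ in atTop,
        δ * ((cls '' Eqn F d).ncard : ℝ) ≤ ((starFam F (2 * k) d).ncard : ℝ)) ∧
      ∀ᶠ d : ℕ in atTop,
        (∀ j : ℕ, |share (starFam F (2 * k) d) (fun κ => Nat.card (SelTwo κ.out) = 2 ^ j) - law j| ≤ ε) ∧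
        (∀ j : ℕ, |share (starFam F (2 * k) d) (fun κ => Nat.card (SelInfTwo κ.out) = 2 ^ j) - law j| ≤ ε) ∧
        |share (starFam F (2 * k) d) (fun κ => Finite κ.out.toAffine.Point ∧
          Nat.card (SelInf κ.out) = 1) - law 0| ≤ ε ∧
        0.629 - 2 * ε ≤ share (starFam F (2 * k) d) (fun κ => rank κ.out ≤ 1) ∧
        mean (starFam F (2 * k) d) (fun κ => rank κ.out) ≤ 1.265 + ε := by
  obtain ⟨k₀, hk⟩ := fin_star2 (F := F) hx1 hx2 hx3 hv0 hv1 hv2 hv3 hv4 h2 ε hε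
  refine ⟨k₀, fun k hk0 => ?_⟩
  obtain ⟨h1, h3⟩ := hk k hk0
  refine ⟨h1, ?_⟩
  filter_upwards [h3] with d hd
  obtain ⟨a1, a2, a3, a4, a5⟩ := hd
  refine ⟨a1, a2, ?_, a4, a5⟩
  have hfin : (starFam F (2 * k) d).Finite := (finite_cls' d).subset fun κ hκ => hκ.1
  have b1 := abs_le.1 (a1 0)
  have b2 := abs_le.1 (a2 0)
  have c1 : share (starFam F (2 * k) d) (fun κ => Nat.card (SelTwo κ.out) = 2 ^ 0) ≤
      share (starFam F (2 * k) d) (fun κ => Finite κ.out.toAffine.Point ∧ Nat.card (SelInf κ.out) = 1) := by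
    apply share_mono hfin
    intro κ hκ hc
    exact triv_low h2 (KC_Δ h2 (mem_CL_iff.1 hκ.1)) hc
  have c2 : share (starFam F (2 * k) d) (fun κ => Finite κ.out.toAffine.Point ∧ Nat.card (SelInf κ.out) = 1) ≤
      share (starFam F (2 * k) d) (fun κ => Nat.card (SelInfTwo κ.out) = 2 ^ 0) := by
    apply share_mono hfin
    intro κ hκ hc
    exact triv_up hc.2
  rw [abs_le]
  constructor <;> linarith [b1.1, b1.2, b2.1, b2.2]

end

end Pool.Agent.H456.PS
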