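import Pool.Agent.H456.PS.Stm3
import Pool.Agent.H456.PS.T_avD
import Pool.Agent.H456.BQ.SAll

/-!
(x1) Like PS/T_avD.lean (finished, its lemmas can be used), only simpler. `B = q^(12n+3)`, `#(Msh F n) ≤ B`. Partition `Msh F n` by the set `T₁ = {P ∈ J : TwP P f}` (`T₁ ⊆ J`; `A = J \ T₁`, `DJ J = DJ A * DJ T₁`, `c P f := if P ∈ A then ¬ TwP P f else if P ∈ T₁ then TwP P f else True`, `Cnd P.1 3 (c P)`, see T_tw2/T_avD). `S_tw2` (with `A`, `B := T₁`, `Φ h = NT ∅ h - 1` - the FULL function, also for `BadC`; invariant by `S_tri`, `S_nsq`): `∑_{f ∈ Msh n, c} (NT ∅ (f.sc (DJ J)) - 1) = q^(deg DJ T₁ - deg DJ A) ∑_{h ∈ Msh n', cAB} (NT ∅ h - 1)`, `n' + deg DJ T₁ = n + k`. On the right split into `¬ BadC h`: at most `2 #{h : cAB} + δ q^(12n'+3)` by `S_up` with `T = ∅` (`Cnd P.1 6`, `S₀ = J`), and `BadC h`: at most `δ q^(12n'+3)` by `bad_limS hypU_all h2` (BQ/SUp.lean, `hypU_all` in BQ/SAll.lean; `Msh ⊆ Sb`, `disc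 ≠ 0`, terms `≥ 0` by `card_Sel_ge`). `S_tw2` with `Φ = 1` gives `q^(deg DJ T₁) #{h : cAB} = q^(deg DJ A) #{f : c}`. So `∑_{f : c} (NT - 1) ≤ 2 #{f : c} + C δ B` with a constant `C` depending only on `J`, `q`; choose `δ` small, sum over the `2^#J` sets `T₁`: `∑_f NT ≤ 3 #Msh + B ≤ 4 B`.
-/

set_option autoImplicit false
set_option linter.all false

open Polynomial Finset Filter
open Pool.Agent.H456.EC (toK toK_inj sig toK_eq reflect_toK cls)
open Pool.Agent.H456.RN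
open Pool.Agent.H456.BQ
open Pool.Agent.H456.Coh (TF)
open Pool.Agent.H456.PP (OneR NoR HasRt sx hh Tz Tq Iso3 nr IsoP nrP)
open Pool.Agent.H456.PR

namespace Pool.Agent.H456.PS

theorem x1_NT {F : Type} [Field F] (f : Cub F[X]) : NT ∅ f = Nat.card (Sel (f.map (toK F))) :=
  Nat.card_congr (Equiv.subtypeUnivEquiv fun σ P hP => absurd hP (notMem_empty P))

open Classical in
/-- the upper bound for the sum over the twisted family, including the exceptional cubics -/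
theorem x1_V {F : Type} [Field F] [Fintype F] (h2 : (2 : F) ≠ 0) {n : ℕ} {c : Cub F[X] → Prop} {η : ℝ}
    (h3 : ∑ f ∈ (Msh F n).filter (fun f => ¬ BadC f ∧ c f), ((NT ∅ f : ℝ) - 1) ≤
      2 * (((Msh F n).filter (fun f => c f)).card : ℝ) + η)
    (h4 : ∑ f ∈ (Sb F n).filter (fun f => f.disc ≠ 0 ∧ BadC f), ((Nat.card (Sel (f.map (toK F))) : ℝ) - 1) ≤ η) :
    ∑ f ∈ (Msh F n).filter (fun f => c f), ((NT ∅ f : ℝ) - 1) ≤
      2 * (((Msh F n).filter (fun f => c f)).card : ℝ) + 2 * η := by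
  have e1 := (sum_filter_add_sum_filter_not ((Msh F n).filter (fun f => c f)) (fun f => BadC f)
    (fun f => (NT ∅ f : ℝ) - 1)).symm
  have e2 : ∑ f ∈ ((Msh F n).filter (fun f => c f)).filter (fun f => ¬ BadC f), ((NT ∅ f : ℝ) - 1) =
      ∑ f ∈ (Msh F n).filter (fun f => ¬ BadC f ∧ c f), ((NT ∅ f : ℝ) - 1) := by
    refine sum_congr ?_ fun _ _ => rfl
    ext f
    simp only [mem_filter]
    exact ⟨fun h => ⟨h.1.1, h.2, h.1.2⟩, fun h => ⟨⟨h.1, h.2.2⟩, h.2.1⟩⟩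
  have e3 : ∑ f ∈ ((Msh F n).filter (fun f => c f)).filter (fun f => BadC f), ((NT ∅ f : ℝ) - 1) ≤
      ∑ f ∈ (Sb F n).filter (fun f => f.disc ≠ 0 ∧ BadC f), ((Nat.card (Sel (f.map (toK F))) : ℝ) - 1) := by
    have e4 : ∑ f ∈ ((Msh F n).filter (fun f => c f)).filter (fun f => BadC f), ((NT ∅ f : ℝ) - 1) =
        ∑ f ∈ ((Msh F n).filter (fun f => c f)).filter (fun f => BadC f),
          ((Nat.card (Sel (f.map (toK F))) : ℝ) - 1) := by
      refine sum_congr rfl fun f _ => ?_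
      rw [x1_NT]
    rw [e4]
    refine sum_le_sum_of_subset_of_nonneg ?_ ?_
    · intro f hf
      rw [mem_filter, mem_filter, mem_Msh] at hf
      rw [mem_filter, mem_Sb]
      exact ⟨hf.1.1.1, hf.1.1.2.1, hf.2⟩
    · intro f hf _
      rw [mem_filter] at hf
      exact card_Sel_ge hypU_all h2 hf.2.1
  rw [e1, e2]
  linarith

open Classical in
theorem t_x1 : S_up → S_tw2 → S_nsq → S_tri → S_x1 := by
  intro hup htw2 hnsq htri F _ _ h2 J hJ
  obtain ⟨k, hk⟩ := hJ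
  obtain ⟨D₀, hJd⟩ : ∃ D₀ : ℕ, ∀ P ∈ J, P.1.natDegree ≤ D₀ :=
    ⟨∑ P ∈ J, P.1.natDegree, fun P hP =>
      single_le_sum (f := fun P : Pl F => P.1.natDegree) (fun i _ => Nat.zero_le _) hP⟩
  obtain ⟨τ, -⟩ : ∃ τ : Pl F → Fin 3, τ = fun _ => 0 := ⟨_, rfl⟩
  have hq1 : (1 : ℝ) ≤ (Fintype.card F : ℝ) := by
    have : 0 < Fintype.card F := Fintype.card_pos
    exact_mod_cast this
  have hq0 : (0 : ℝ) < (Fintype.card F : ℝ) := by linarith
  obtain ⟨δ, hδ⟩ : ∃ δ : ℝ, δ = 1 / 2 ^ J.card := ⟨_, rfl⟩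
  have hδ0 : 0 < δ := by rw [hδ]; positivity
  have hε' : 0 < (δ / 2) / (Fintype.card F : ℝ) ^ (12 * k) := by positivity
  have hmul : ∀ B ⊆ J, DJ (J \ B) * DJ B = DJ J := fun B hB => by
    unfold DJ
    exact prod_sdiff hB
  have hmon : ∀ B : Finset (Pl F), (DJ B).Monic := fun B => monic_prod_of_monic _ _ fun P _ => P.2.1
  have hdeg : ∀ B ⊆ J, (DJ (J \ B)).natDegree + (DJ B).natDegree = 2 * k := by
    intro B hB
    rw [← (hmon _).natDegree_mul (hmon _), hmul B hB, hk]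
    ring
  have hA : ∀ B ⊆ J, ∀ P ∈ J \ B, ∀ f, avD_c ∅ J D₀ D₀ τ B P f → ¬ TwP P f := by
    intro B hB P hP f hf htw
    rw [Finset.mem_sdiff] at hP
    exact hP.2 ((avD_c_Js (notMem_empty P) hP.1 hf).1 htw)
  have hB' : ∀ B ⊆ J, ∀ P ∈ B, ∀ f, avD_c ∅ J D₀ D₀ τ B P f → TwP P f := by
    intro B hB P hP f hf
    exact (avD_c_Js (notMem_empty P) (hB hP) hf).2 hP
  have htw := fun (B : Finset (Pl F)) (hB : B ⊆ J) => htw2 F h2 (J \ B) B k sdiff_disjoint
    (hdeg B hB) (avD_c ∅ J D₀ D₀ τ B) (avD_cnd ∅ J D₀ D₀ τ B) (hA B hB) (hB' B hB)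
    (fun P f u hu => avD_c_sc ∅ J D₀ D₀ τ B P f u hu)
  have hU : ∀ᶠ n in atTop, ∀ B ∈ J.powerset,
      ∑ f ∈ (Msh F (n + k - (DJ B).natDegree)).filter
        (fun f => ¬ BadC f ∧ ∀ P, cAB (J \ B) B (avD_c ∅ J D₀ D₀ τ B) P f), ((NT ∅ f : ℝ) - 1) ≤
      2 * (((Msh F (n + k - (DJ B).natDegree)).filter
        (fun f => ∀ P, cAB (J \ B) B (avD_c ∅ J D₀ D₀ τ B) P f)).card : ℝ) +
        (δ / 2) / (Fintype.card F : ℝ) ^ (12 * k) * (Fintype.card F : ℝ) ^ (12 * (n + k - (DJ B).natDegree) + 3) := by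
    rw [Filter.eventually_all_finset]
    intro B hB
    rw [mem_powerset] at hB
    have h5 := hup F h2 6 (cAB (J \ B) B (avD_c ∅ J D₀ D₀ τ B)) (htw B hB).1 (J ∪ (∅ ∪ PlD F D₀))
      (fun P hP f => avD_triv ∅ D₀ D₀ τ (Finset.Subset.refl J) sdiff_subset hB P hP f) ∅
      (fun P hP => absurd hP (notMem_empty P)) _ hε'
    have h6 := ((tendsto_sub_atTop_nat (DJ B).natDegree).comp (tendsto_add_atTop_nat k)).eventually h5
    filter_upwards [h6] with n hn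
    have h7 : (2 : ℝ) / 2 ^ (∅ : Finset (Pl F)).card = 2 := by
      rw [card_empty, pow_zero, div_one]
    rw [h7] at hn
    exact hn
  have hL : ∀ᶠ n in atTop, ∀ B ∈ J.powerset,
      ∑ f ∈ (Sb F (n + k - (DJ B).natDegree)).filter (fun f => f.disc ≠ 0 ∧ BadC f),
        ((Nat.card (Sel (f.map (toK F))) : ℝ) - 1) ≤
        (δ / 2) / (Fintype.card F : ℝ) ^ (12 * k) * (Fintype.card F : ℝ) ^ (12 * (n + k - (DJ B).natDegree) + 3) := by
    rw [Filter.eventually_all_finset]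
    intro B hB
    have h5 := (bad_limS hypU_all h2 (F := F)).eventually (gt_mem_nhds hε')
    have h6 := ((tendsto_sub_atTop_nat (DJ B).natDegree).comp (tendsto_add_atTop_nat k)).eventually h5
    filter_upwards [h6] with n hn
    have h8 := (div_lt_iff₀ (pow_pos hq0 _)).1 hn
    exact h8.le
  filter_upwards [hU, hL, eventually_ge_atTop (2 * k)] with n hUn hLn hn2k
  have hlev : ∀ B ⊆ J, (n + k - (DJ B).natDegree) + (DJ B).natDegree = n + k := by
    intro B hB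
    have h3 := hdeg B hB
    omega
  have hXB : ∀ B ⊆ J, (Msh F n).filter (fun f => ∀ P, avD_c ∅ J D₀ D₀ τ B P f) =
      (Msh F n).filter (fun f => J.filter (fun P => TwP P f) = B) := by
    intro B hB
    ext f
    rw [mem_filter, mem_filter, avD_all (T := ∅) (fun P hP => absurd hP (notMem_empty P)) hJd τ hB]
    refine and_congr_right fun _ => ⟨fun h => h.2, fun h => ⟨fun P => ?_, h⟩⟩
    unfold avD_b
    rw [if_neg (notMem_empty P), if_neg (fun h => absurd h.2 (not_le.2 h.1))]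
    trivial
  have hsum : ∀ B ⊆ J, ∀ (Φ : Cub F[X] → ℝ), (∀ f r, Φ (f.tr r) = Φ f) → (∀ f, Φ (f.sc (DJ B ^ 2)) = Φ f) →
      (Fintype.card F : ℝ) ^ (DJ (J \ B)).natDegree *
        ∑ f ∈ (Msh F n).filter (fun f => J.filter (fun P => TwP P f) = B), Φ (f.sc (DJ J)) =
      (Fintype.card F : ℝ) ^ (DJ B).natDegree * ∑ h ∈ (Msh F (n + k - (DJ B).natDegree)).filter
        (fun h => ∀ P, cAB (J \ B) B (avD_c ∅ J D₀ D₀ τ B) P h), Φ h := by
    intro B hB Φ hΦ hΦ'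
    have h3 := (htw B hB).2 Φ hΦ hΦ' n (n + k - (DJ B).natDegree) ((hdeg B hB).le.trans hn2k) (hlev B hB)
    rw [hmul B hB, hXB B hB] at h3
    exact h3
  have hcard : ∀ B ⊆ J, (Fintype.card F : ℝ) ^ (DJ (J \ B)).natDegree *
        (((Msh F n).filter (fun f => J.filter (fun P => TwP P f) = B)).card : ℝ) =
      (Fintype.card F : ℝ) ^ (DJ B).natDegree * (((Msh F (n + k - (DJ B).natDegree)).filter
        (fun h => ∀ P, cAB (J \ B) B (avD_c ∅ J D₀ D₀ τ B) P h)).card : ℝ) := by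
    intro B hB
    have h := hsum B hB (fun _ => 1) (fun _ _ => rfl) (fun _ => rfl)
    simpa using h
  have hfib : ∀ g : Cub F[X] → ℝ, ∑ B ∈ J.powerset, ∑ f ∈ (Msh F n).filter (fun f => J.filter (fun P => TwP P f) = B),
      g f = ∑ f ∈ Msh F n, g f := fun g =>
    sum_fiberwise_of_maps_to (fun f _ => mem_powerset.2 (filter_subset _ _)) g
  have hfibc : ∑ B ∈ J.powerset, (((Msh F n).filter (fun f => J.filter (fun P => TwP P f) = B)).card : ℝ) =
      (Msh F n).card := by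
    have h := hfib (fun _ => 1)
    simpa using h
  have herr : ∑ B ∈ J.powerset, δ * (Fintype.card F : ℝ) ^ (12 * n + 3) =
      (Fintype.card F : ℝ) ^ (12 * n + 3) := by
    rw [sum_const, card_powerset, nsmul_eq_mul, hδ]
    push_cast
    field_simp
  have hMB : ((Msh F n).card : ℝ) ≤ (Fintype.card F : ℝ) ^ (12 * n + 3) := by
    have h1 : (Msh F n).card ≤ (Sb F n).card := by
      apply card_le_card
      intro f hf
      rw [mem_Sb]
      exact (mem_Msh.1 hf).1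
    rw [card_Sb] at h1
    exact_mod_cast h1
  have h6 : ∑ f ∈ Msh F n, ((NT ∅ (f.sc (DJ J)) : ℝ) - 1) ≤
      2 * ((Msh F n).card : ℝ) + (Fintype.card F : ℝ) ^ (12 * n + 3) := by
    rw [← hfib, ← hfibc, mul_sum, ← herr, ← sum_add_distrib]
    refine sum_le_sum fun B hB => ?_
    have h5 := hUn B hB
    have h5' := hLn B hB
    rw [mem_powerset] at hB
    refine avD_up hq1 hδ0 (hlev B hB) (hcard B hB) (hsum B hB (fun g => (NT ∅ g : ℝ) - 1) ?_ ?_) ?_
    · intro f r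
      simp only [htri F ∅ f r]
    · intro f
      simp only [hnsq F ∅ f (DJ B) (avg_DJ_ne B)]
    · refine (x1_V h2 h5 h5').trans (le_of_eq ?_)
      ring
  have h7 : ∑ f ∈ Msh F n, ((NT ∅ (f.sc (DJ J)) : ℝ) - 1) =
      ∑ f ∈ Msh F n, (NT ∅ (f.sc (DJ J)) : ℝ) - ((Msh F n).card : ℝ) := by
    rw [sum_sub_distrib, sum_const, nsmul_eq_mul, mul_one]
  rw [h7] at h6
  linarith

end Pool.Agent.H456.PS
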