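import Pool.Agent.H456.PS.Stm3
import Pool.Agent.H456.PR.T_num
import Pool.Agent.H456.PR.T_eul

/-!
(x2) `Cd j = Π⁻¹ ak j`, `Π = ∑ ak j ≥ ∑_{j < 7} ak j ≥ 4.768`, and `∑_{j < J} j ak j + 2 J ak J ≤ 6.0314` for `J ≥ 6`.
-/

set_option autoImplicit false
set_option linter.all false

open Polynomial Finset Filter
open Pool.Agent.H456.PR

namespace Pool.Agent.H456.PS

theorem x2_prod : (4.768 : ℝ) ≤ ∏' j : ℕ, (1 + (1 / 2 : ℝ) ^ j) := by
  have h := t_eul.2.1
  have h1 := sum_le_hasSum (range 7) (fun i _ => (eul_pos i).le) h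
  refine le_trans ?_ h1
  simp only [sum_range_succ, range_zero, sum_empty, eul_succ, eul_zero]
  norm_num

theorem x2_ind (J : ℕ) (hJ : 6 ≤ J) : ∑ j ∈ range J, (j : ℝ) * ak j + 2 * J * ak J ≤ 6.0314 := by
  induction J, hJ using Nat.le_induction with
  | base =>
    simp only [sum_range_succ, range_zero, sum_empty, eul_succ, eul_zero]
    norm_num
  | succ J hJ ih =>
    refine le_trans ?_ ih
    rw [sum_range_succ, eul_succ]
    have hp := eul_pos J
    have hJ' : (6 : ℝ) ≤ J := by exact_mod_cast hJ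
    have hd : (8 : ℝ) * J ≤ 2 ^ (J + 1) - 1 := by
      have h1 : ∀ n : ℕ, 6 ≤ n → (8 : ℝ) * n ≤ 2 ^ (n + 1) - 1 := by
        intro n hn
        induction n, hn using Nat.le_induction with
        | base => norm_num
        | succ n hn ih2 =>
          have hn' : (6 : ℝ) ≤ n := by exact_mod_cast hn
          rw [pow_succ]
          push_cast
          linarith
      exact h1 J hJ
    have h3 : 2 / ((2 : ℝ) ^ (J + 1) - 1) ≤ 2 / (8 * J) :=
      div_le_div_of_nonneg_left (by norm_num) (by linarith) hd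
    have h4 : 2 * ((J : ℝ) + 1) * (2 / (8 * J)) ≤ J := by
      rw [mul_div_assoc', div_le_iff₀ (by linarith)]
      nlinarith
    have h5 : 2 * ((J : ℝ) + 1) * (2 / (2 ^ (J + 1) - 1)) ≤ J :=
      (mul_le_mul_of_nonneg_left h3 (by linarith)).trans h4
    have h6 := mul_le_mul_of_nonneg_left h5 hp.le
    push_cast
    nlinarith

theorem t_x2 : S_x2 := by
  intro J
  have hP := x2_prod
  have hP0 : (0 : ℝ) < ∏' j : ℕ, (1 + (1 / 2 : ℝ) ^ j) := by linarith
  have e : ∑ j ∈ range J, (j : ℝ) * Cd j =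
      (∏' j : ℕ, (1 + (1 / 2 : ℝ) ^ j))⁻¹ * ∑ j ∈ range J, (j : ℝ) * ak j := by
    rw [mul_sum]
    refine sum_congr rfl fun j _ => ?_
    unfold Cd
    ring
  have h1 : ∑ j ∈ range J, (j : ℝ) * ak j ≤ 6.0314 := by
    have h2 : ∑ j ∈ range J, (j : ℝ) * ak j ≤ ∑ j ∈ range (max J 6), (j : ℝ) * ak j :=
      sum_le_sum_of_subset_of_nonneg (range_mono (le_max_left _ _))
        (fun j _ _ => mul_nonneg (Nat.cast_nonneg _) (eul_pos j).le)
    have h3 := x2_ind (max J 6) (le_max_right _ _)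
    have h4 : 0 ≤ 2 * ((max J 6 : ℕ) : ℝ) * ak (max J 6) :=
      mul_nonneg (by positivity) (eul_pos _).le
    linarith
  rw [e, inv_mul_le_iff₀ hP0]
  linarith

end Pool.Agent.H456.PS
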