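import Pool.Agent.H456.PS.All
import Pool.Agent.H456.PS.Out6
import Pool.Agent.H456.PS.T_x1
import Pool.Agent.H456.PS.T_x2

/-!
# The theorem on the twists without hypotheses
-/

set_option autoImplicit false
set_option linter.all false

open Polynomial WeierstrassCurve Filter
open Pool.Agent.H456.EC
open Pool.Agent.H456.RN
open Pool.Agent.H456.BQ
open Pool.Agent.H456.PR
open Pool.Agent.H456.Pub (law twistP SelTwo SelInf SelInfTwo rank sqf share mean)

namespace Pool.Agent.H456.PS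

theorem b_x1 : S_x1 := t_x1 a_up t_tw2 t_nsq a_tri

/-- **the law for all squarefree twists of degree `2 k` of almost all elliptic curves** -/
theorem sqf_all {F : Type} [Field F] [Fintype F] (h2 : (2 : F) ≠ 0) (ε : ℝ) (hε : 0 < ε) :
    ∃ k₀ : ℕ, ∀ k ≥ k₀, (sqf F (2 * k)).Finite ∧ (sqf F (2 * k)).Nonempty ∧
      ∀ᶠ d in atTop, ∃ B : Set (KC F), B ⊆ cls '' Eqn F d ∧ (B.ncard : ℝ) ≤ ε * ((cls '' Eqn F d).ncard : ℝ) ∧
        ∀ κ ∈ cls '' Eqn F d, κ ∉ B →
          (∀ j : ℕ, |share (sqf F (2 * k)) (fun D => Nat.card (SelTwo (twistP κ.out D)) = 2 ^ j) - law j| ≤ ε) ∧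
          (∀ j : ℕ, |share (sqf F (2 * k)) (fun D => Nat.card (SelInfTwo (twistP κ.out D)) = 2 ^ j) - law j| ≤ ε) ∧
          |share (sqf F (2 * k)) (fun D => Finite (twistP κ.out D).toAffine.Point ∧
            Nat.card (SelInf (twistP κ.out D)) = 1) - law 0| ≤ ε ∧
          0.629 - 2 * ε ≤ share (sqf F (2 * k)) (fun D => rank (twistP κ.out D) ≤ 1) ∧
          mean (sqf F (2 * k)) (fun D => rank (twistP κ.out D)) ≤ 1.265 + ε :=
  fin_sqf3 b_x1 t_x2 b_law h2 ε hε

end Pool.Agent.H456.PS
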