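import Pool.Agent.H456.PS.Stm2
import Pool.Agent.H456.PS.T_tw2

/-!
(v3) `f ∈ Msh F n` is minimal at all places, so `←` is clear. `→`: let `f'` be with `cls (crv f') = cls (crv f)`,
`MinAt P f'`, `TwP P f'`. Equal classes give coprime `α, β` and `r` with `(f'.sc β²).tr r = f.sc α²` (as `2 ≠ 0`).
If `P ∣ α` then `f'` is not minimal at `P`, if `P ∣ β` then `f` is not minimal at `P`. So `α` and `β` are prime to
`P`, and `TwP P f' ↔ TwP P (f'.sc β²) ↔ TwP P (f.sc α²) ↔ TwP P f`.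
-/

set_option autoImplicit false
set_option linter.all false

open Polynomial Finset Filter
open Pool.Agent.H456.EC (toK toK_inj sig toK_eq reflect_toK cls)
open Pool.Agent.H456.RN
open Pool.Agent.H456.BQ
open Pool.Agent.H456.Coh (TF)
open Pool.Agent.H456.PP (OneR NoR HasRt sx hh Tz Tq Iso3 nr IsoP nrP)
open Pool.Agent.H456.PR

namespace Pool.Agent.H456.PS

section v3

variable {F : Type} [Field F]

/-- equal classes, in terms of the cubics -/
theorem v3_iso (h2 : (2 : F) ≠ 0) {f f' : Cub F[X]} (h : cls (crv f') = cls (crv f)) :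
    ∃ α β r : F[X], α ≠ 0 ∧ β ≠ 0 ∧ IsCoprime α β ∧ (f'.sc (β ^ 2)).tr r = f.sc (α ^ 2) := by
  obtain ⟨α, β, r, s, t, hα, hβ, hc, he⟩ := EC.cls_eq_exists h
  have h2' : (2 : F[X]) ≠ 0 := by
    intro h0
    have h1 := congrArg (Polynomial.eval 0) h0
    simp only [Polynomial.eval_ofNat, Polynomial.eval_zero] at h1
    exact h2 h1
  have e1 := congrArg WeierstrassCurve.a₁ he
  have e2 := congrArg WeierstrassCurve.a₂ he
  have e3 := congrArg WeierstrassCurve.a₃ he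
  have e4 := congrArg WeierstrassCurve.a₄ he
  have e6 := congrArg WeierstrassCurve.a₆ he
  simp only [EC.tr_a₁, EC.tr_a₂, EC.tr_a₃, EC.tr_a₄, EC.tr_a₆, EC.sc, crv] at e1 e2 e3 e4 e6
  have hs : s = 0 := by
    apply mul_left_cancel₀ h2'
    linear_combination e1
  subst hs
  have ht : t = 0 := by
    apply mul_left_cancel₀ h2'
    linear_combination e3
  subst ht
  refine ⟨α, β, r, hα, hβ, hc, ?_⟩
  ext1
  · simp only [Cub.tr, Cub.sc]; linear_combination e2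
  · simp only [Cub.tr, Cub.sc]; linear_combination e4
  · simp only [Cub.tr, Cub.sc]; linear_combination e6

theorem v3_NMc_dvd {P α : F[X]} {f : Cub F[X]} (h : P ∣ α) : NMc P (f.sc (α ^ 2)) := by
  obtain ⟨γ, rfl⟩ := h
  refine ⟨0, f.sc (γ ^ 2), ?_⟩
  rw [Cub.tr_zero, Cub.sc_sc]
  congr 1
  ring

end v3

theorem t_v3 : S_v3 := by
  intro F _ _ h2 n f hf P
  rw [mem_Msh] at hf
  obtain ⟨-, hdisc, hmin⟩ := hf
  have hm : ¬ NMc P.1 f := ((MinAll_crv h2).1 hmin).1 P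
  constructor
  · rintro ⟨f', -, hcls, hmin', htw⟩
    have hm' : ¬ NMc P.1 f' := by
      rintro ⟨r, g, e⟩
      exact hmin' ⟨g, r, e⟩
    obtain ⟨α, β, r, hα, hβ, hc, he⟩ := v3_iso h2 hcls
    have hPα : ¬ P.1 ∣ α := by
      intro hd
      have hPβ : ¬ P.1 ∣ β := fun hd' => P.2.2.not_isUnit (hc.isUnit_of_dvd' hd hd')
      have h1 : NMc P.1 (f.sc (α ^ 2)) := v3_NMc_dvd hd
      rw [← he, NMc_tr] at h1
      exact hm' ((tw2_NMc_unit (fun h => hPβ (P.2.2.prime.dvd_of_dvd_pow h))).1 h1)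
    have hPβ : ¬ P.1 ∣ β := by
      intro hd
      have h1 : NMc P.1 (f'.sc (β ^ 2)) := v3_NMc_dvd hd
      rw [← NMc_tr r, he] at h1
      exact hm ((tw2_NMc_unit (fun h => hPα (P.2.2.prime.dvd_of_dvd_pow h))).1 h1)
    have h1 : TwP P (f'.sc (β ^ 2)) := tw2_TwP_sc _ htw
    rw [← (tw2_TwP_cnd P).tr _ r, he] at h1
    exact (tw2_TwP_unit (fun h => hPα (P.2.2.prime.dvd_of_dvd_pow h))).1 h1
  · intro htw
    refine ⟨f, hdisc, rfl, ?_, htw⟩
    rintro ⟨g, r, e⟩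
    exact hm ⟨r, g, e⟩

end Pool.Agent.H456.PS
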