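import Pool.Agent.H456.PS.Stm2
import Pool.Agent.H456.PR.T_clU

/-!
(v4) Signed version of PR/T_clU.lean (use `clsC_x`/the proof of `clsC_dec` in BQ/T_clsC.lean for signed `w`: `∑_{κ∈CLe F n} w κ = clsC_k F n * ∑_{f∈Msh F n} w(cls (crv f)) * st n (crv f)`, `st = 2` for `f` not `BadC`, `0 ≤ st ≤ 16 q`). Let `B = q^(12n+3)`, `Σv = ∑_{f∈Msh n} v ≥ c B`. `t_badc` with `δ = c ε / (16 q)`: `#Bad ≤ δ B`. For `n` large and all `i`: `|∑_{CLe n} w i| ≤ k_n (2 |∑_{Msh} w i| + 16 q #Bad) ≤ k_n 3 ε Σv`, and `∑_{CLe n} v ≥ k_n · 2 Σv` (`st_ge`), so `|∑_{CLe n} w i| ≤ (3/2) ε ∑_{CLe n} v`. Sum over `e ≤ d` (`sum_CL`): the terms with `e < n₀` contribute at most the constant `C₀ = ∑_{e<n₀} #CLe e` for all `i` (`|w| ≤ 1`), and `∑_{CL d} v → ∞` (`clsC_inf`), so `|∑_{CL d} w i| ≤ (3/2) ε ∑ v + C₀ ≤ 3 ε ∑_{CL d} v` for large `d`, uniformly in `i`; the first part is `S_clsL`.  (Proof by helper80.)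
-/

set_option autoImplicit false
set_option linter.all false

open Polynomial Finset Filter
open Pool.Agent.H456.EC (toK toK_inj sig toK_eq reflect_toK cls Eqn st st_le)
open Pool.Agent.H456.RN
open Pool.Agent.H456.BQ
open Pool.Agent.H456.Coh (TF)
open Pool.Agent.H456.PP (OneR NoR HasRt sx hh Tz Tq Iso3 nr IsoP nrP)
open Pool.Agent.H456.PR

namespace Pool.Agent.H456.PS

/-- partial sums, uniformly in `i` -/
theorem v4_sum {ι : Type} (x : ι → ℕ → ℝ) (a y : ℕ → ℝ) {ε : ℝ} (hε : 0 < ε) (hy0 : ∀ n, 0 ≤ y n)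
    (hxa : ∀ i n, |x i n| ≤ a n) (ha : ∀ n, 0 ≤ a n)
    (h : ∀ᶠ n in atTop, ∀ i, |x i n| ≤ (3 / 2 * ε) * y n)
    (hyinf : Tendsto (fun d => ∑ e ∈ range (d + 1), y e) atTop atTop) :
    ∀ᶠ d in atTop, ∀ i, |∑ e ∈ range (d + 1), x i e| ≤ 3 * ε * ∑ e ∈ range (d + 1), y e := by
  rw [eventually_atTop] at h
  obtain ⟨N, hN⟩ := h
  obtain ⟨B, hB⟩ : ∃ B : ℝ, B = ∑ e ∈ range N, a e := ⟨_, rfl⟩
  filter_upwards [hyinf.eventually_ge_atTop (B / ε)] with d hd i
  have e1 : ∀ e ∈ range (d + 1), |x i e| ≤ (if e < N then a e else 0) + (3 / 2 * ε) * y e := by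
    intro e _
    split_ifs with he
    · have : 0 ≤ (3 / 2 * ε) * y e := mul_nonneg (by positivity) (hy0 e)
      have := hxa i e
      linarith
    · rw [zero_add]
      exact hN e (by omega) i
  have h2 := sum_le_sum e1
  rw [sum_add_distrib, ← mul_sum, ← sum_filter] at h2
  have h3 : ∑ e ∈ (range (d + 1)).filter (fun e => e < N), a e ≤ B := by
    rw [hB]
    apply sum_le_sum_of_subset_of_nonneg
    · intro e he
      rw [mem_filter] at he
      exact mem_range.2 he.2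
    · intro e _ _; exact ha e
  rw [div_le_iff₀ hε] at hd
  have h4 := abs_sum_le_sum_abs (fun e => x i e) (range (d + 1))
  have h5 : (0 : ℝ) ≤ ∑ e ∈ range (d + 1), y e := sum_nonneg fun e _ => hy0 e
  have h6 : B ≤ ε * ∑ e ∈ range (d + 1), y e := by linarith
  have h7 : 0 ≤ ε * ∑ e ∈ range (d + 1), y e := mul_nonneg hε.le h5
  linarith

section

variable {F : Type} [Field F] [Fintype F]

theorem v4_kQ (n : ℕ) : 1 ≤ clsC_k F n * (Fintype.card F : ℝ) ^ (12 * n + 3) := by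
  have hq2 : 2 ≤ (Fintype.card F : ℝ) := q_ge
  have hq1 : 0 < (Fintype.card F : ℝ) - 1 := by linarith
  unfold clsC_k
  rw [div_mul_eq_mul_div, le_div_iff₀ (by positivity), one_mul, ← pow_add]
  have e3 : ((Fintype.card F : ℝ) - 1) * (Fintype.card F : ℝ) ^ (6 * n + 3) ≤
      (Fintype.card F : ℝ) * (Fintype.card F : ℝ) ^ (6 * n + 3) :=
    mul_le_mul_of_nonneg_right (by linarith) (by positivity)
  refine e3.trans ?_
  rw [← pow_succ']
  exact pow_le_pow_right₀ (by linarith) (by omega)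

open Classical in
/-- the upper bound for a signed sum over the classes -/
theorem v4_up (h2 : (2 : F) ≠ 0) (w : KC F → ℝ) (hw : ∀ κ, |w κ| ≤ 1) (n : ℕ) :
    |∑ κ ∈ CLe F n, w κ| ≤ clsC_k F n * (2 * |∑ f ∈ Msh F n, w (cls (crv f))| +
      16 * (Fintype.card F : ℝ) * (((Msh F n).filter (fun f => BadC f)).card : ℝ)) := by
  rw [clsC_x h2 w n, abs_mul, abs_of_pos (clsC_k_pos n)]
  refine mul_le_mul_of_nonneg_left ?_ (clsC_k_pos n).le
  have hq2 : 2 ≤ (Fintype.card F : ℝ) := q_ge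
  have e1 : ∑ f ∈ Msh F n, w (cls (crv f)) * (st n (crv f) : ℝ) =
      2 * ∑ f ∈ Msh F n, w (cls (crv f)) +
        ∑ f ∈ (Msh F n).filter (fun f => BadC f), w (cls (crv f)) * ((st n (crv f) : ℝ) - 2) := by
    rw [mul_sum, sum_filter, ← sum_add_distrib]
    apply sum_congr rfl
    intro f hf
    split_ifs with hb
    · ring
    · unfold BadC at hb
      rw [not_or, not_or] at hb
      rw [st_eq h2 n hb.1.1 hb.1.2]
      push_cast
      ring
  rw [e1]
  refine (abs_add_le _ _).trans ?_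
  have e2 : |2 * ∑ f ∈ Msh F n, w (cls (crv f))| = 2 * |∑ f ∈ Msh F n, w (cls (crv f))| := by
    rw [abs_mul, abs_of_pos (two_pos : (0 : ℝ) < 2)]
  rw [e2]
  have e3 : |∑ f ∈ (Msh F n).filter (fun f => BadC f), w (cls (crv f)) * ((st n (crv f) : ℝ) - 2)| ≤
      ∑ f ∈ (Msh F n).filter (fun f => BadC f), (16 * (Fintype.card F : ℝ)) := by
    refine (abs_sum_le_sum_abs _ _).trans (sum_le_sum fun f _ => ?_)
    rw [abs_mul]
    have g1 : |(st n (crv f) : ℝ) - 2| ≤ 16 * (Fintype.card F : ℝ) := by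
      have g2 := clsC_st n f
      have g3 : (2 : ℝ) ≤ (st n (crv f) : ℝ) := by exact_mod_cast st_ge h2 n f
      rw [abs_of_nonneg (by linarith)]
      linarith
    calc |w (cls (crv f))| * |(st n (crv f) : ℝ) - 2| ≤ 1 * (16 * (Fintype.card F : ℝ)) :=
          mul_le_mul (hw _) g1 (abs_nonneg _) zero_le_one
      _ = 16 * (Fintype.card F : ℝ) := one_mul _
  rw [sum_const, nsmul_eq_mul] at e3
  linarith

open Classical in
/-- the lower bound for a sum over the classes -/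
theorem v4_low (h2 : (2 : F) ≠ 0) (v : KC F → ℝ) (hv : ∀ κ, 0 ≤ v κ) (n : ℕ) :
    clsC_k F n * (2 * ∑ f ∈ Msh F n, v (cls (crv f))) ≤ ∑ κ ∈ CLe F n, v κ := by
  rw [clsC_x h2 v n]
  refine mul_le_mul_of_nonneg_left ?_ (clsC_k_pos n).le
  rw [mul_sum]
  apply sum_le_sum
  intro f _
  rw [mul_comm]
  apply mul_le_mul_of_nonneg_left _ (hv _)
  exact_mod_cast st_ge h2 n f

end

open Classical in
theorem v4_main (hbadc : S_badc) : S_v4 := by
  intro F _ _ h2 ι w v hw hv c ε hc hε H1 H2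
  refine ⟨(t_clsC hbadc).2 F h2 v (fun κ => (hv κ).1) c hc H1, ?_⟩
  have hq2 : 2 ≤ (Fintype.card F : ℝ) := q_ge
  have hbad := hbadc F h2 (c * ε / (16 * (Fintype.card F : ℝ))) (by positivity)
  have hk0 := fun n => clsC_k_pos (F := F) n
  have hkQ := fun n => v4_kQ (F := F) n
  have hlow := fun n => v4_low (F := F) h2 v (fun κ => (hv κ).1) n
  have hup := fun i n => v4_up (F := F) h2 (w i) (hw i) n
  have hMb : ∀ n, (((Msh F n).filter (fun f => BadC f)).card : ℝ) ≤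
      (((Sb F n).filter (fun f => BadC f)).card : ℝ) := by
    intro n
    have : ((Msh F n).filter (fun f => BadC f)).card ≤ ((Sb F n).filter (fun f => BadC f)).card := by
      apply card_le_card
      intro f hf
      rw [mem_filter] at hf ⊢
      exact ⟨mem_Sb.2 (mem_Msh.1 hf.1).1, hf.2⟩
    exact_mod_cast this
  obtain ⟨q, hq⟩ : ∃ q : ℝ, q = (Fintype.card F : ℝ) := ⟨_, rfl⟩
  rw [← hq] at hq2 H1 hbad hkQ hup
  have hq0 : 0 < q := by linarith
  have hy0 : ∀ n, 0 ≤ ∑ κ ∈ CLe F n, v κ := fun n => sum_nonneg fun κ _ => (hv κ).1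
  have hxy : ∀ᶠ n in atTop, ∀ i, |∑ κ ∈ CLe F n, w i κ| ≤ (3 / 2 * ε) * ∑ κ ∈ CLe F n, v κ := by
    filter_upwards [H1, H2, hbad] with n n1 n2 n3 i
    refine (hup i n).trans ?_
    have hkn := hk0 n
    obtain ⟨V, hV⟩ : ∃ V : ℝ, V = ∑ f ∈ Msh F n, v (cls (crv f)) := ⟨_, rfl⟩
    obtain ⟨W, hW⟩ : ∃ W : ℝ, W = |∑ f ∈ Msh F n, w i (cls (crv f))| := ⟨_, rfl⟩
    obtain ⟨T, hT⟩ : ∃ T : ℝ, T = (((Msh F n).filter (fun f => BadC f)).card : ℝ) := ⟨_, rfl⟩
    obtain ⟨k, hk⟩ : ∃ k : ℝ, k = clsC_k F n := ⟨_, rfl⟩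
    obtain ⟨Q, hQ⟩ : ∃ Q : ℝ, Q = q ^ (12 * n + 3) := ⟨_, rfl⟩
    have n2i := n2 i
    have hl := hlow n
    have hm := (hMb n).trans n3
    rw [← hV, ← hQ] at n1
    rw [← hV, ← hW] at n2i
    rw [← hV, ← hk] at hl
    rw [← hT, ← hQ] at hm
    rw [← hk] at hkn
    rw [← hW, ← hT, ← hk]
    have f1 : 16 * q * T ≤ ε * V := by
      have e1 : 16 * q * T ≤ 16 * q * (c * ε / (16 * q) * Q) :=
        mul_le_mul_of_nonneg_left hm (by positivity)
      have e2 : 16 * q * (c * ε / (16 * q) * Q) = ε * (c * Q) := by field_simp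
      have e3 : ε * (c * Q) ≤ ε * V := mul_le_mul_of_nonneg_left n1 hε.le
      linarith
    calc k * (2 * W + 16 * q * T) ≤ k * (3 * ε * V) :=
          mul_le_mul_of_nonneg_left (by linarith) hkn.le
      _ = (3 / 2 * ε) * (k * (2 * V)) := by ring
      _ ≤ (3 / 2 * ε) * ∑ κ ∈ CLe F n, v κ := mul_le_mul_of_nonneg_left hl (by positivity)
  have hyinf : Tendsto (fun d => ∑ e ∈ range (d + 1), ∑ κ ∈ CLe F e, v κ) atTop atTop := by
    refine clsC_inf _ hy0 (b := 2 * c) (by positivity) ?_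
    filter_upwards [H1] with n hn
    refine le_trans ?_ (hlow n)
    have h3 := hk0 n
    have h4 := hkQ n
    calc 2 * c ≤ 2 * c * (clsC_k F n * q ^ (12 * n + 3)) := by
          have h5 : 0 < 2 * c := by positivity
          nlinarith
      _ = clsC_k F n * (2 * (c * q ^ (12 * n + 3))) := by ring
      _ ≤ clsC_k F n * (2 * ∑ f ∈ Msh F n, v (cls (crv f))) :=
          mul_le_mul_of_nonneg_left (by linarith) h3.le
  have hfin := v4_sum (fun i n => ∑ κ ∈ CLe F n, w i κ) (fun n => ((CLe F n).card : ℝ))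
    (fun n => ∑ κ ∈ CLe F n, v κ) hε hy0 (fun i n => by
      refine (abs_sum_le_sum_abs _ _).trans ?_
      refine (sum_le_sum fun κ _ => hw i κ).trans ?_
      rw [sum_const, nsmul_eq_mul, mul_one]) (fun n => Nat.cast_nonneg _) hxy hyinf
  filter_upwards [hfin] with d hd i
  have := hd i
  rw [sum_CL, sum_CL]
  exact this

theorem t_v4 : S_v4 := v4_main t_badc

end Pool.Agent.H456.PS
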