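import Pool.Agent.H456.PS.Stm3
import Pool.Agent.H456.PS.T_v4

/-!
(x3) Like PS/T_v4.lean and PR/T_clU.lean (finished, their lemmas can be used). `∑_{κ∈CLe F n} w κ = clsC_k F n * ∑_{f∈Msh F n} w(cls (crv f)) * st n (crv f)` (`clsC_x`), `st = 2` for `f` not `BadC`, `0 ≤ st ≤ 16 q` (`clsC_st`). With `B = q^(12n+3)`, `Σv = ∑_{f∈Msh n} v ≥ c B`; third hypothesis with `ε = c M / (16 q)`: for `n` large `∑_{CLe n} w ≤ k_n (2 M Σv + 16 q ε B) ≤ 3 k_n M Σv`, and `∑_{CLe n} v ≥ k_n 2 Σv` (`v4_low`), so `∑_{CLe n} w ≤ (3/2) M ∑_{CLe n} v`. Sum over `e ≤ d` (`sum_CL`): the terms with `e < n₀` contribute at most the constant `∑_{e<n₀} ∑_{κ∈CLe e} w κ`, and `∑_{CL d} v → ∞` (as in T_v4.lean), so `∑_{CL d} w ≤ 3 M ∑_{CL d} v` for large `d` (compare `clU_upper`, `v4_sum`).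
-/

set_option autoImplicit false
set_option linter.all false

open Polynomial Finset Filter
open Pool.Agent.H456.EC (toK toK_inj sig toK_eq reflect_toK cls)
open Pool.Agent.H456.RN
open Pool.Agent.H456.BQ
open Pool.Agent.H456.Coh (TF)
open Pool.Agent.H456.PP (OneR NoR HasRt sx hh Tz Tq Iso3 nr IsoP nrP)
open Pool.Agent.H456.PR

namespace Pool.Agent.H456.PS

open Classical in
theorem t_x3 : S_x3 := by
  intro F _ _ h2 w v hw hv c M hc hM H1 H2 H3'
  have hq2 : 2 ≤ (Fintype.card F : ℝ) := q_ge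
  have hbad := H3' (c * M / (16 * (Fintype.card F : ℝ))) (by positivity)
  have hk0 := fun n => clsC_k_pos (F := F) n
  have hkQ := fun n => v4_kQ (F := F) n
  have hlow := fun n => v4_low (F := F) h2 v (fun κ => (hv κ).1) n
  have hdw := fun n => clsC_dec (F := F) h2 w hw n
  obtain ⟨q, hq⟩ : ∃ q : ℝ, q = (Fintype.card F : ℝ) := ⟨_, rfl⟩
  rw [← hq] at hq2 H1 hbad hkQ hdw
  have hq0 : 0 < q := by linarith
  have hy0 : ∀ n, 0 ≤ ∑ κ ∈ CLe F n, v κ := fun n => sum_nonneg fun κ _ => (hv κ).1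
  have hxy : ∀ᶠ n in atTop, ∑ κ ∈ CLe F n, w κ ≤ (3 / 2 * M) * ∑ κ ∈ CLe F n, v κ := by
    filter_upwards [H1, H2, hbad] with n n1 n2 n3
    obtain ⟨B, hB0, hB1, hB2⟩ := hdw n
    rw [hB2]
    have hkn := hk0 n
    have hl := hlow n
    obtain ⟨Q, hQ⟩ : ∃ Q : ℝ, Q = q ^ (12 * n + 3) := ⟨_, rfl⟩
    obtain ⟨V, hV⟩ : ∃ V : ℝ, V = ∑ f ∈ Msh F n, v (cls (crv f)) := ⟨_, rfl⟩
    obtain ⟨S, hS⟩ : ∃ S : ℝ, S = ∑ f ∈ (Msh F n).filter (fun f => ¬ BadC f), w (cls (crv f)) :=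
      ⟨_, rfl⟩
    obtain ⟨T, hT⟩ : ∃ S : ℝ, S = ∑ f ∈ (Msh F n).filter (fun f => BadC f), w (cls (crv f)) :=
      ⟨_, rfl⟩
    obtain ⟨k, hk⟩ : ∃ k : ℝ, k = clsC_k F n := ⟨_, rfl⟩
    rw [← hV, ← hQ] at n1
    rw [← hV, ← hS] at n2
    rw [← hT, ← hQ] at n3
    rw [← hT] at hB1
    rw [← hV, ← hk] at hl
    rw [← hk] at hkn
    rw [← hS, ← hk]
    have f1 : B ≤ M * V := by
      have e1 : 16 * q * T ≤ 16 * q * (c * M / (16 * q) * Q) :=
        mul_le_mul_of_nonneg_left n3 (by positivity)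
      have e2 : 16 * q * (c * M / (16 * q) * Q) = M * (c * Q) := by field_simp
      have e3 : M * (c * Q) ≤ M * V := mul_le_mul_of_nonneg_left n1 hM.le
      linarith
    calc k * (B + 2 * S) ≤ k * (3 * (M * V)) :=
          mul_le_mul_of_nonneg_left (by linarith) hkn.le
      _ = (3 / 2 * M) * (k * (2 * V)) := by ring
      _ ≤ (3 / 2 * M) * ∑ κ ∈ CLe F n, v κ := mul_le_mul_of_nonneg_left hl (by positivity)
  have hyinf : Tendsto (fun d => ∑ e ∈ range (d + 1), ∑ κ ∈ CLe F e, v κ) atTop atTop := by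
    refine clsC_inf _ hy0 (b := 2 * c) (by positivity) ?_
    filter_upwards [H1] with n hn
    refine le_trans ?_ (hlow n)
    have h3 := hk0 n
    have h4 := hkQ n
    calc 2 * c ≤ 2 * c * (clsC_k F n * q ^ (12 * n + 3)) := by
          have h5 : 0 < 2 * c := by positivity
          nlinarith
      _ = clsC_k F n * (2 * (c * q ^ (12 * n + 3))) := by ring
      _ ≤ clsC_k F n * (2 * ∑ f ∈ Msh F n, v (cls (crv f))) :=
          mul_le_mul_of_nonneg_left (by linarith) h3.le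
  have hfin := clU_upper (fun n => ∑ κ ∈ CLe F n, w κ) (fun n => ∑ κ ∈ CLe F n, v κ)
    (c := 3 / 2 * M) (by positivity) (fun n => sum_nonneg fun κ _ => hw κ) hy0 hxy hyinf
  filter_upwards [hfin] with d hd
  rw [sum_CL, sum_CL]
  refine hd.trans (le_of_eq ?_)
  ring

end Pool.Agent.H456.PS
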