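import Pool.Agent.H456.PS.All2
import Pool.Agent.H456.PS.T_v3
import Pool.Agent.H456.PS.T_v4
import Pool.Agent.H456.PS.T_x3

/-!
# The theorem on the families without hypotheses
-/

set_option autoImplicit false
set_option linter.all false

open Polynomial WeierstrassCurve Filter
open Pool.Agent.H456.EC
open Pool.Agent.H456.RN
open Pool.Agent.H456.BQ
open Pool.Agent.H456.PR
open Pool.Agent.H456.Pub (law SelTwo SelInf SelInfTwo rank share mean starFam)

namespace Pool.Agent.H456.PS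

/-- **the law for the elliptic curves whose starred finite fibres have total degree `2 k`** -/
theorem star_all {F : Type} [Field F] [Fintype F] (h2 : (2 : F) ≠ 0) (ε : ℝ) (hε : 0 < ε) :
    ∃ k₀ : ℕ, ∀ k ≥ k₀, (∃ δ : ℝ, 0 < δ ∧ ∀ᶠ d : ℕ in atTop,
        δ * ((cls '' Eqn F d).ncard : ℝ) ≤ ((starFam F (2 * k) d).ncard : ℝ)) ∧
      ∀ᶠ d : ℕ in atTop,
        (∀ j : ℕ, |share (starFam F (2 * k) d) (fun κ => Nat.card (SelTwo κ.out) = 2 ^ j) - law j| ≤ ε) ∧
        (∀ j : ℕ, |share (starFam F (2 * k) d) (fun κ => Nat.card (SelInfTwo κ.out) = 2 ^ j) - law j| ≤ ε) ∧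
        |share (starFam F (2 * k) d) (fun κ => Finite κ.out.toAffine.Point ∧
          Nat.card (SelInf κ.out) = 1) - law 0| ≤ ε ∧
        0.629 - 2 * ε ≤ share (starFam F (2 * k) d) (fun κ => rank κ.out ≤ 1) ∧
        mean (starFam F (2 * k) d) (fun κ => rank κ.out) ≤ 1.265 + ε :=
  fin_star3 b_x1 t_x2 t_x3 t_v0 (t_v1 t_tw2) b_v2 t_v3 t_v4 h2 ε hε

end Pool.Agent.H456.PS
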