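import Pool.Agent.H456.PS.All
import Pool.Agent.H456.PS.Out6
import Pool.Agent.H456.PS.T_v3
import Pool.Agent.H456.PS.T_v4

/-!
# The law for the families: the orders of the Selmer groups
-/

set_option autoImplicit false
set_option linter.all false

open Polynomial WeierstrassCurve Finset Filter
open Pool.Agent.H456.EC
open Pool.Agent.H456.RN
open Pool.Agent.H456.BQ
open Pool.Agent.H456.Coh
open Pool.Agent.H456.PR
open Pool.Agent.H456.Pub (law SelTwo SelInf SelInfTwo share starFam sqf twistP)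

namespace Pool.Agent.H456.PS

variable {F : Type} [Field F] [Fintype F]

/-- **the law for the elliptic curves whose starred finite fibres have total degree `2 k`** -/
theorem star_law (h2 : (2 : F) ≠ 0) (ε : ℝ) (hε : 0 < ε) :
    ∃ k₀ : ℕ, ∀ k ≥ k₀, (∃ δ : ℝ, 0 < δ ∧ ∀ᶠ d : ℕ in atTop,
        δ * ((cls '' Eqn F d).ncard : ℝ) ≤ ((starFam F (2 * k) d).ncard : ℝ)) ∧
      ∀ᶠ d : ℕ in atTop,
        (∀ j : ℕ, |share (starFam F (2 * k) d) (fun κ => Nat.card (SelTwo κ.out) = 2 ^ j) - law j| ≤ ε) ∧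
        (∀ j : ℕ, |share (starFam F (2 * k) d) (fun κ => Nat.card (SelInfTwo κ.out) = 2 ^ j) - law j| ≤ ε) ∧
        |share (starFam F (2 * k) d) (fun κ => Finite κ.out.toAffine.Point ∧ Nat.card (SelInf κ.out) = 1) - law 0| ≤
          ε := by
  obtain ⟨k₀, hk⟩ := fin_star (F := F) b_v2 t_v3 t_v4 h2 ε hε
  refine ⟨k₀, fun k hk0 => ?_⟩
  obtain ⟨h1, h3⟩ := hk k hk0
  refine ⟨h1, ?_⟩
  filter_upwards [h3] with d hd
  obtain ⟨a1, a2, a3, a4⟩ := hd
  refine ⟨a1, a2, ?_⟩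
  have hfin : (starFam F (2 * k) d).Finite := (finite_cls' d).subset fun κ hκ => hκ.1
  have b1 := abs_le.1 (a1 0)
  have b2 := abs_le.1 (a2 0)
  have c1 : share (starFam F (2 * k) d) (fun κ => Nat.card (SelTwo κ.out) = 2 ^ 0) ≤
      share (starFam F (2 * k) d) (fun κ => Finite κ.out.toAffine.Point ∧ Nat.card (SelInf κ.out) = 1) := by
    apply share_mono hfin
    intro κ hκ hc
    exact triv_low h2 (KC_Δ h2 (mem_CL_iff.1 hκ.1)) hc
  have c2 : share (starFam F (2 * k) d) (fun κ => Finite κ.out.toAffine.Point ∧ Nat.card (SelInf κ.out) = 1) ≤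
      share (starFam F (2 * k) d) (fun κ => Nat.card (SelInfTwo κ.out) = 2 ^ 0) := by
    apply share_mono hfin
    intro κ hκ hc
    exact triv_up hc.2
  rw [abs_le]
  constructor <;> linarith [b1.1, b1.2, b2.1, b2.2]

/-- **the trivial Selmer groups in the families of twists** -/
theorem sqf_triv (h2 : (2 : F) ≠ 0) (ε : ℝ) (hε : 0 < ε) :
    ∃ k₀ : ℕ, ∀ k ≥ k₀, (sqf F (2 * k)).Finite ∧ (sqf F (2 * k)).Nonempty ∧
      ∀ᶠ d : ℕ in atTop, ∃ B ⊆ cls '' Eqn F d, (B.ncard : ℝ) ≤ ε * ((cls '' Eqn F d).ncard : ℝ) ∧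
        ∀ κ ∈ cls '' Eqn F d, κ ∉ B →
          |share (sqf F (2 * k)) (fun D => Finite (twistP κ.out D).toAffine.Point ∧
            Nat.card (SelInf (twistP κ.out D)) = 1) - law 0| ≤ ε := by
  obtain ⟨k₀, hk⟩ := fin_sqf (F := F) b_law h2 ε hε
  refine ⟨k₀, fun k hk0 => ?_⟩
  obtain ⟨hfin, hnon, hd⟩ := hk k hk0
  refine ⟨hfin, hnon, ?_⟩
  filter_upwards [hd] with d hd1
  obtain ⟨B, hB, hBc, hκ⟩ := hd1
  refine ⟨B, hB, hBc, fun κ hk1 hkB => ?_⟩
  obtain ⟨a1, a2, a3, a4⟩ := hκ κ hk1 hkB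
  have hk' := mem_CL_iff.1 hk1
  have hΔ := KC_Δ h2 hk'
  have b1 := abs_le.1 (a1 0)
  have b2 := abs_le.1 (a2 0)
  have c1 : share (sqf F (2 * k)) (fun D => Nat.card (SelTwo (twistP κ.out D)) = 2 ^ 0) ≤
      share (sqf F (2 * k)) (fun D => Finite (twistP κ.out D).toAffine.Point ∧
            Nat.card (SelInf (twistP κ.out D)) = 1) := by
    apply share_mono hfin
    intro D hD hc
    have hD0 : toK F D ≠ 0 := (map_ne_zero_iff _ toK_inj).2 hD.1.ne_zero
    exact triv_low h2 (twE_Δ h2 hΔ hD0) hc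
  have c2 : share (sqf F (2 * k)) (fun D => Finite (twistP κ.out D).toAffine.Point ∧
            Nat.card (SelInf (twistP κ.out D)) = 1) ≤
      share (sqf F (2 * k)) (fun D => Nat.card (SelInfTwo (twistP κ.out D)) = 2 ^ 0) := by
    apply share_mono hfin
    intro D hD hc
    exact triv_up hc.2
  rw [abs_le]
  constructor <;> linarith [b1.1, b1.2, b2.1, b2.2]

theorem law_zero : (0.2097 : ℝ) < law 0 := a_num.1

end Pool.Agent.H456.PS
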