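import Pool.Agent.H456.PS.Out6
import Pool.Agent.H456.Pub.Sha
import Pool.Agent.H456.Coh.T_ctrl
import Pool.Agent.H456.Coh.T_div

/-!
# The 2-primary part of the Tate-Shafarevich group is trivial if the `2^∞`-Selmer group is trivial
-/

set_option autoImplicit false
set_option linter.all false

open Polynomial WeierstrassCurve IsDedekindDomain
open Pool.Agent.H456.BQ
open Pool.Agent.H456.EC (toK toK_inj sig toK_eq reflect_toK)
open Pool.Agent.H456.Coh (t_div ctrl_div ctrl_mul ctrl_lc ctrl_loc ctrl_mk ctrl_mk_zero SelmerGroup primaryPts selCocycles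
  coboundaries)
open Pool.Agent.H456.Pub (Gal Pt IsCocycle IsCobound SelInf ShaTwoTrivial)
open Pool.Agent.H456.PR (card_prim')

namespace Pool.Agent.H456.PS

variable {F : Type} [Field F]

theorem div_pow {L : Type} [Field L] [IsSepClosed L] [DecidableEq L] (h2 : (2 : L) ≠ 0) (E : WeierstrassCurve L) (hE : E.Δ ≠ 0) (n : ℕ) :
    ∀ P : E.toAffine.Point, ∃ Q : E.toAffine.Point, 2 ^ n • Q = P := by
  induction n with
  | zero => exact fun P => ⟨P, by rw [pow_zero, one_smul]⟩
  | succ n ih =>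
    intro P
    obtain ⟨R, hR⟩ := ctrl_div t_div L h2 E hE P
    obtain ⟨Q, hQ⟩ := ih R
    exact ⟨Q, by rw [pow_succ', mul_smul, hQ, hR]⟩

open Classical in
theorem sha_zero (h2 : (2 : F) ≠ 0) {E : WeierstrassCurve (RatFunc F)} (hE : E.Δ ≠ 0)
    (hc : Nat.card (SelInf E) = 1) : ShaTwoTrivial E := by
  refine ⟨fun c hco hfin hinf n hn => ?_⟩
  have h2K : (2 : RatFunc F) ≠ 0 := by
    have h1 : (algebraMap F (RatFunc F)) 2 ≠ 0 := by
      rw [Ne, map_eq_zero]
      exact h2
    rwa [map_ofNat] at h1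
  have h2s : (2 : SeparableClosure (RatFunc F)) ≠ 0 := by
    have h1 : (algebraMap (RatFunc F) (SeparableClosure (RatFunc F))) 2 ≠ 0 := by
      rw [Ne, map_eq_zero]
      exact h2K
    rwa [map_ofNat] at h1
  have hE' : (E.toAffine.baseChange (SeparableClosure (RatFunc F))).Δ ≠ 0 := by
    have h1 : (E.map (algebraMap (RatFunc F) (SeparableClosure (RatFunc F)))).Δ ≠ 0 := by
      rw [WeierstrassCurve.map_Δ, Ne, map_eq_zero]
      exact hE
    exact h1
  obtain ⟨T, -, hT⟩ := hn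
  obtain ⟨S, hS⟩ := div_pow h2s _ hE' n T
  have hS' : 2 ^ n • S = T := hS
  have hcσ : ∀ σ, 2 ^ n • c σ = Affine.Point.map σ.toAlgHom T - T := fun σ => hT σ
  let c' : selCocycles E (primaryPts E 2) := ⟨fun σ => c σ - (Affine.Point.map σ.toAlgHom S - S), by
    refine ⟨fun σ => ?_, fun σ τ => ?_, ?_, fun v => ?_, ?_⟩
    · refine ⟨n, ?_⟩
      simp only []
      rw [smul_sub, smul_sub, hcσ, ← map_nsmul, hS', sub_self]
    · simp only [hco.mul, ctrl_mul, map_sub]
      abel
    · exact hco.cont.sub (ctrl_lc E S)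
    · exact ctrl_loc E S (hfin v).triv
    · exact ctrl_loc E S hinf.triv⟩
  rw [card_prim'] at hc
  obtain ⟨h1, h3⟩ := Nat.card_eq_one_iff_unique.1 hc
  have h4 : ctrl_mk E _ c' = 0 := h1.elim _ _
  rw [ctrl_mk_zero] at h4
  obtain ⟨R, -, hR⟩ := h4
  refine ⟨S + R, trivial, fun σ => ?_⟩
  have h5 : c σ - (Affine.Point.map σ.toAlgHom S - S) = Affine.Point.map σ.toAlgHom R - R := hR σ
  rw [map_add, sub_eq_iff_eq_add.1 h5]
  abel

end Pool.Agent.H456.PS
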