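import Pool.Agent.H456.PS.All4
import Pool.Agent.H456.PS.Out7

/-!
# The Tate-Shafarevich groups
-/

set_option autoImplicit false
set_option linter.all false

open Polynomial WeierstrassCurve Finset Filter
open Pool.Agent.H456.EC
open Pool.Agent.H456.RN
open Pool.Agent.H456.BQ
open Pool.Agent.H456.Coh
open Pool.Agent.H456.PR
open Pool.Agent.H456.Pub (law SelTwo SelInf SelInfTwo share starFam sqf twistP ShaTwoTrivial)

namespace Pool.Agent.H456.PS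

theorem share_congr {A : Type} {S : Set A} {p q : A → Prop} (h : ∀ x ∈ S, (p x ↔ q x)) : share S p = share S q := by
  unfold share
  have e : ({x | x ∈ S ∧ p x} : Set A) = {x | x ∈ S ∧ q x} := by
    ext x
    exact ⟨fun hx => ⟨hx.1, (h x hx.1).1 hx.2⟩, fun hx => ⟨hx.1, (h x hx.1).2 hx.2⟩⟩
  rw [e]

variable {F : Type} [Field F] [Fintype F]

/-- **the trivial Selmer groups in the families of twists** -/
theorem sqf_sha (h2 : (2 : F) ≠ 0) (ε : ℝ) (hε : 0 < ε) :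
    ∃ k₀ : ℕ, ∀ k ≥ k₀, (sqf F (2 * k)).Finite ∧ (sqf F (2 * k)).Nonempty ∧
      ∀ᶠ d : ℕ in atTop, ∃ B ⊆ cls '' Eqn F d, (B.ncard : ℝ) ≤ ε * ((cls '' Eqn F d).ncard : ℝ) ∧
        ∀ κ ∈ cls '' Eqn F d, κ ∉ B →
          |share (sqf F (2 * k)) (fun D => Finite (twistP κ.out D).toAffine.Point ∧
            Nat.card (SelInf (twistP κ.out D)) = 1 ∧ ShaTwoTrivial (twistP κ.out D)) - law 0| ≤ ε := by
  obtain ⟨k₀, hk⟩ := sqf_triv (F := F) h2 ε hε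
  refine ⟨k₀, fun k hk0 => ?_⟩
  obtain ⟨hfin, hnon, hd⟩ := hk k hk0
  refine ⟨hfin, hnon, ?_⟩
  filter_upwards [hd] with d hd1
  obtain ⟨B, hB, hBc, hκ⟩ := hd1
  refine ⟨B, hB, hBc, fun κ hk1 hkB => ?_⟩
  have h := hκ κ hk1 hkB
  have hΔ := KC_Δ h2 (mem_CL_iff.1 hk1)
  rw [share_congr (q := fun D => Finite (twistP κ.out D).toAffine.Point ∧ Nat.card (SelInf (twistP κ.out D)) = 1)]
  · exact h
  · intro D hD
    have hD0 : toK F D ≠ 0 := (map_ne_zero_iff _ toK_inj).2 hD.1.ne_zero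
    exact ⟨fun x => ⟨x.1, x.2.1⟩, fun x => ⟨x.1, x.2, sha_zero h2 (twE_Δ h2 hΔ hD0) x.2⟩⟩

/-- **the trivial Selmer groups in the height ordered families** -/
theorem star_sha (h2 : (2 : F) ≠ 0) (ε : ℝ) (hε : 0 < ε) :
    ∃ k₀ : ℕ, ∀ k ≥ k₀, (∃ δ : ℝ, 0 < δ ∧ ∀ᶠ d : ℕ in atTop,
        δ * ((cls '' Eqn F d).ncard : ℝ) ≤ ((starFam F (2 * k) d).ncard : ℝ)) ∧
      ∀ᶠ d : ℕ in atTop,
        |share (starFam F (2 * k) d) (fun κ => Finite κ.out.toAffine.Point ∧ Nat.card (SelInf κ.out) = 1 ∧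
          ShaTwoTrivial κ.out) - law 0| ≤ ε := by
  obtain ⟨k₀, hk⟩ := star_law (F := F) h2 ε hε
  refine ⟨k₀, fun k hk0 => ?_⟩
  obtain ⟨h1, h3⟩ := hk k hk0
  refine ⟨h1, ?_⟩
  filter_upwards [h3] with d hd
  rw [share_congr (q := fun κ => Finite κ.out.toAffine.Point ∧ Nat.card (SelInf κ.out) = 1)]
  · exact hd.2.2
  · intro κ hκ
    exact ⟨fun x => ⟨x.1, x.2.1⟩, fun x => ⟨x.1, x.2, sha_zero h2 (KC_Δ h2 (mem_CL_iff.1 hκ.1)) x.2⟩⟩

end Pool.Agent.H456.PS
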