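import Pool.Agent.H456.PS.Def

/-!
# The Poonen-Rains law for all squarefree twists of almost all elliptic curves over `F(t)`: statements
-/

set_option autoImplicit false
set_option linter.all false

open Polynomial Finset Filter
open Pool.Agent.H456.EC (toK toK_inj sig toK_eq reflect_toK cls)
open Pool.Agent.H456.RN
open Pool.Agent.H456.BQ
open Pool.Agent.H456.Coh (TF)
open Pool.Agent.H456.PP (OneR NoR HasRt sx hh Tz Tq Iso3 nr IsoP nrP)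
open Pool.Agent.H456.PR

namespace Pool.Agent.H456.PS

/-! ### Group A: one elliptic curve -/

/-- **(sqq)** the product of two polynomials with the same quadratic residue symbol is a square. -/
def S_sqq : Prop := ∀ (F : Type) [Field F] [Fintype F], (2 : F) ≠ 0 → ∀ (P : Pl F) (u v : F[X]), ¬ P.1 ∣ u → ¬ P.1 ∣ v →
  (SqM P u ↔ SqM P v) → SqM P (u * v)

/-- **(lcn)** the classes of the points over the completion at a place where the cubic has no root are trivial. -/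
def S_lcn : Prop := ∀ (F : Type) [Field F] [Fintype F], (2 : F) ≠ 0 → ∀ (P : Pl F) (O L : Type) [CommRing O] [IsDomain O]
  [Field L] [Algebra O L] [IsFractionRing O L] (π : O) (ι : F[X] →+* O), Lc4 P.1 π ι → ∀ f : Cub O, NoR π f →
    ∀ D : O, ¬ π ^ 2 ∣ D → ∀ x y : L, y ^ 2 = ((f.sc D).map (algebraMap O L)).ev x →
    SqA ((f.sc D).map (algebraMap O L)) x (-1) 0

/-- **(nrt)** the classes are trivial at a place where the cubic has no root. -/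
def S_nrt : Prop := ∀ (F : Type) [Field F] [Fintype F], (2 : F) ≠ 0 → ∀ (P : Pl F) (f : Cub F[X]), NoR P.1 f →
  ∀ D : F[X], ¬ P.1 ^ 2 ∣ D → ∀ s : Q4 (RatFunc F) × RatFunc F, s.1.res = ((f.map (toK F)).sc 4).tr s.2 →
    LS P (s.1.smul (toK F D)) → Rt P s

open Classical in
/-- **(f1)** the classes which are trivial at `P` are the same for the two twists. -/
def S_f1 : Prop := ∀ (F : Type) [Field F] [Fintype F], (2 : F) ≠ 0 → ∀ (D₀ : ℕ) (J : Finset (Pl F)) (P P' : Pl F)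
  (f : Cub F[X]), Flp D₀ J P P' f → ∀ s : Q4 (RatFunc F) × RatFunc F,
    s.1.res = ((f.map (toK F)).sc 4).tr s.2 → Rt P s → (IsD (DJ (insert P' J)) s ↔ IsD (DJ (insert P J)) s)

open Classical in
/-- **(f2)** not both twists have classes which are nontrivial at `P`. -/
def S_f2 : Prop := ∀ (F : Type) [Field F] [Fintype F], (2 : F) ≠ 0 → ∀ (D₀ : ℕ) (J : Finset (Pl F)) (P P' : Pl F)
  (f : Cub F[X]), Flp D₀ J P P' f → ∀ s₁ s₂ : Q4 (RatFunc F) × RatFunc F,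
    s₁.1.res = ((f.map (toK F)).sc 4).tr s₁.2 → s₂.1.res = ((f.map (toK F)).sc 4).tr s₂.2 →
    IsD (DJ (insert P' J)) s₁ → ¬ Rt P s₁ → IsD (DJ (insert P J)) s₂ → ¬ Rt P s₂ → False

open Classical in
/-- **(fn)** the numbers of the classes for the two twists. -/
def S_fn : Prop := ∀ (F : Type) [Field F] [Fintype F], (2 : F) ≠ 0 → ∀ (D₀ : ℕ) (J : Finset (Pl F)) (P P' : Pl F)
  (f : Cub F[X]), Flp D₀ J P P' f → ¬ BadC f →
    Finite (Sel ((f.sc (DJ (insert P' J))).map (toK F))) ∧ Finite (Sel ((f.sc (DJ (insert P J))).map (toK F))) ∧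
    (∃ k : ℕ, NT ∅ (f.sc (DJ (insert P' J))) = 2 ^ k) ∧ (∃ k : ℕ, NT ∅ (f.sc (DJ (insert P J))) = 2 ^ k) ∧
    NT ∅ (f.sc (DJ (insert P' J))) + NT ∅ (f.sc (DJ (insert P J))) ≤ 3 * NT {P} (f.sc (DJ (insert P' J))) ∧
    NT ∅ (f.sc (DJ (insert P' J))) ≤ 2 * NT {P} (f.sc (DJ (insert P' J))) ∧
    NT ∅ (f.sc (DJ (insert P J))) ≤ 2 * NT {P} (f.sc (DJ (insert P' J))) ∧
    ∀ T' : Finset (Pl F), P ∈ T' → NT T' (f.sc (DJ (insert P' J))) = NT T' (f.sc (DJ (insert P J)))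

/-- **(nsq)** invariance under twists by squares. -/
def S_nsq : Prop := ∀ (F : Type) [Field F] (T : Finset (Pl F)) (f : Cub F[X]) (u : F[X]), u ≠ 0 →
  NT T (f.sc (u ^ 2)) = NT T f

/-! ### Group B: averages over the elliptic curves -/

open Classical in
/-- **(tw2)** sums over the twists. -/
def S_tw2 : Prop := ∀ (F : Type) [Field F] [Fintype F], (2 : F) ≠ 0 → ∀ (A B : Finset (Pl F)) (k : ℕ), Disjoint A B →
  (DJ A).natDegree + (DJ B).natDegree = 2 * k → ∀ (c : Pl F → Cub F[X] → Prop), (∀ P, Cnd P.1 3 (c P)) →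
  (∀ P ∈ A, ∀ f, c P f → ¬ TwP P f) → (∀ P ∈ B, ∀ f, c P f → TwP P f) →
  (∀ (P : Pl F) (f : Cub F[X]) (u : F[X]), ¬ P.1 ∣ u → (c P (f.sc u) ↔ c P f)) →
  (∀ P, Cnd P.1 6 (cAB A B c P)) ∧
  ∀ (Φ : Cub F[X] → ℝ), (∀ f r, Φ (f.tr r) = Φ f) → (∀ f, Φ (f.sc (DJ B ^ 2)) = Φ f) →
    ∀ n n' : ℕ, (DJ A).natDegree + (DJ B).natDegree ≤ n → n' + (DJ B).natDegree = n + k →
    (Fintype.card F : ℝ) ^ (DJ A).natDegree * ∑ f ∈ (Msh F n).filter (fun f => ∀ P, c P f), Φ (f.sc (DJ A * DJ B)) =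
      (Fintype.card F : ℝ) ^ (DJ B).natDegree * ∑ h ∈ (Msh F n').filter (fun h => ∀ P, cAB A B c P h), Φ h

open Classical in
/-- **(avD)** the averages over the good cubics with given types. -/
def S_avD : Prop := ∀ (F : Type) [Field F] [Fintype F], (2 : F) ≠ 0 → ∀ (T : Finset (Pl F)) (D₀ : ℕ),
  (∀ P ∈ T, D₀ < P.1.natDegree) → ∀ J : Finset (Pl F), Even (DJ J).natDegree →
  (∀ P ∈ J, D₀ < P.1.natDegree → P ∈ T) → ∀ (τ : Pl F → Fin 3) (ε : ℝ), 0 < ε → ∀ᶠ n in atTop,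
  ∀ s : Finset (Cub F[X]), (∀ f, f ∈ s ↔ InT T D₀ τ n f) →
    (∀ T' ⊆ T, (∀ P ∈ T', τ P = 1 ∧ P ∉ J) → ∑ f ∈ s, ((NT T' (f.sc (DJ J)) : ℝ) - 1) ≤
      2 / 2 ^ T'.card * (s.card : ℝ) + ε * (Fintype.card F : ℝ) ^ (12 * n + 3)) ∧
    2 * (s.card : ℝ) - ε * (Fintype.card F : ℝ) ^ (12 * n + 3) ≤ ∑ f ∈ s, ((NT ∅ (f.sc (DJ J)) : ℝ) - 1)

open Classical in
/-- **(tyB)** almost all cubics have many directions. -/
def S_tyB : Prop := ∀ (F : Type) [Field F] [Fintype F], (2 : F) ≠ 0 → ∀ (ε : ℝ) (n₀ : ℕ), 0 < ε → ∃ m : ℕ,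
  ∀ p : Fin m → Bool → Pl F, (∀ i j a b, p i a = p j b → i = j ∧ a = b) → ∀ᶠ n in atTop,
    (((Sb F n).filter (fun f => (dirs p f).card < n₀)).card : ℝ) ≤ ε * (Fintype.card F : ℝ) ^ (12 * n + 3)

open Classical in
/-- **(box)** the law for the twists of a box. -/
def S_box : Prop := ∀ (F : Type) [Field F] [Fintype F], (2 : F) ≠ 0 → ∀ ε : ℝ, 0 < ε → ∃ (m : ℕ) (η : ℝ) (D₁ : ℕ), 0 < η ∧
  ∀ D₀ ≥ D₁, ∀ (J : Finset (Pl F)) (p : Fin m → Bool → Pl F), BoxOK D₀ η J p → (∀ v, Even (DJ (vtx J p v)).natDegree) →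
    ∀ᶠ n in atTop, (((Msh F n).filter (fun f => ∃ k, ε < |prb J p f k - Cd k|)).card : ℝ) ≤
      ε * (Fintype.card F : ℝ) ^ (12 * n + 3)

/-! ### Group C: boxes in the set of the squarefree polynomials -/

/-- **(kst)** dense subsets of large products contain boxes. -/
def S_kst : Prop := ∀ (m : ℕ) (V : Fin m → Type) [∀ i, Fintype (V i)] (𝒜 : Finset (∀ i, V i)) (δ : ℝ), 0 < δ →
  (∀ i, (2 / δ) ^ (2 ^ m) ≤ (Fintype.card (V i) : ℝ)) → δ * ∏ i, (Fintype.card (V i) : ℝ) ≤ 𝒜.card →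
  ∃ x : ∀ i, Bool → V i, (∀ i, x i true ≠ x i false) ∧ ∀ b : Fin m → Bool, (fun i => x i (b i)) ∈ 𝒜

/-- **(grd)** almost all elements of a large product are in disjoint monochromatic boxes. -/
def S_grd : Prop := ∀ (m : ℕ) (V : Fin m → Type) [∀ i, Fintype (V i)] (C : Type) [Fintype C] (c : (∀ i, V i) → C) (ε : ℝ),
  0 < ε → (∀ i, (2 * (Fintype.card C : ℝ) / ε) ^ (2 ^ m) ≤ (Fintype.card (V i) : ℝ)) →
  ∃ I : Finset (∀ i, Bool → V i), (∀ x ∈ I, ∀ i, x i true ≠ x i false) ∧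
    (∀ x ∈ I, ∀ b b' : Fin m → Bool, c (fun i => x i (b i)) = c (fun i => x i (b' i))) ∧
    (∀ x ∈ I, ∀ y ∈ I, ∀ b b' : Fin m → Bool, (fun i => x i (b i)) = (fun i => y i (b' i)) → x = y ∧ b = b') ∧
    (1 - ε) * ∏ i, (Fintype.card (V i) : ℝ) ≤ I.card * 2 ^ m

/-- **(irc)** the number of the places of degree `d`. -/
def S_irc : Prop := ∀ (F : Type) [Field F] [Fintype F], (2 : F) ≠ 0 → ∀ d : ℕ, 1 ≤ d →
  {P : Pl F | P.1.natDegree = d}.Finite ∧ d * {P : Pl F | P.1.natDegree = d}.ncard ≤ Fintype.card F ^ d ∧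
  Fintype.card F ^ d ≤ 2 * d * {P : Pl F | P.1.natDegree = d}.ncard

/-- **(sqc)** the number of the monic squarefree polynomials of degree `n`. -/
def S_sqc : Prop := ∀ (F : Type) [Field F] [Fintype F] (n : ℕ), (SJ F n).Finite ∧
  (SJ F n).ncard + (if 2 ≤ n then Fintype.card F ^ (n - 1) else 0) = Fintype.card F ^ n

/-- **(ty1)** most squarefree polynomials have many prime factors whose degrees are large and unique. -/
def S_ty1 : Prop := ∀ (F : Type) [Field F] [Fintype F], (2 : F) ≠ 0 → ∀ (m W₀ : ℕ) (ε : ℝ), 0 < ε → ∃ k₀ : ℕ, ∀ k ≥ k₀,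
  (({J | J ∈ SJ F (2 * k) ∧ (Ud J (W₀ + Nat.sqrt k)).card < m} : Set (Finset (Pl F))).ncard : ℝ) ≤
    ε * ((SJ F (2 * k)).ncard : ℝ)

/-- **(ty2)** most squarefree polynomials have few prime factors. -/
def S_ty2 : Prop := ∀ (F : Type) [Field F] [Fintype F], (2 : F) ≠ 0 → ∀ (c W₀ : ℕ) (ε : ℝ), 0 < ε → ∃ k₀ : ℕ, ∀ k ≥ k₀,
  (({J | J ∈ SJ F (2 * k) ∧ W₀ + Nat.sqrt k < c * J.card} : Set (Finset (Pl F))).ncard : ℝ) ≤
    ε * ((SJ F (2 * k)).ncard : ℝ)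

open Classical in
/-- **(ty3)** the sum of `1 / |Q|` over the large prime factors is small for most squarefree polynomials. -/
def S_ty3 : Prop := ∀ (F : Type) [Field F] [Fintype F], (2 : F) ≠ 0 → ∀ (η ε : ℝ), 0 < η → 0 < ε → ∃ D₁ : ℕ, ∀ D₀ ≥ D₁,
  ∀ k : ℕ, (({J | J ∈ SJ F (2 * k) ∧ η < ∑ Q ∈ J.filter (fun Q => D₀ < Q.1.natDegree),
    1 / (Fintype.card F : ℝ) ^ Q.1.natDegree} : Set (Finset (Pl F))).ncard : ℝ) ≤ ε * ((SJ F (2 * k)).ncard : ℝ)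

/-- **(prt)** most squarefree polynomials of degree `2 k` are in disjoint good boxes. -/
def S_prt : Prop := ∀ (F : Type) [Field F] [Fintype F], (2 : F) ≠ 0 → ∀ (η ε : ℝ), 0 < η → 0 < ε → ∃ D₁ : ℕ, ∀ D₀ ≥ D₁,
  ∀ m : ℕ, ∃ k₀ : ℕ, ∀ k ≥ k₀, ∃ (N : ℕ) (J : Fin N → Finset (Pl F)) (p : Fin N → Fin m → Bool → Pl F),
    (∀ x, BoxOK D₀ η (J x) (p x)) ∧ (∀ x v, vtx (J x) (p x) v ∈ SJ F (2 * k)) ∧
    (∀ x y v v', vtx (J x) (p x) v = vtx (J y) (p y) v' → x = y ∧ v = v') ∧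
    (1 - ε) * ((SJ F (2 * k)).ncard : ℝ) ≤ N * 2 ^ m

open Classical in
/-- **(law)** the law for all squarefree twists. -/
def S_law : Prop := ∀ (F : Type) [Field F] [Fintype F], (2 : F) ≠ 0 → ∀ ε : ℝ, 0 < ε → ∃ k₀ : ℕ, ∀ k ≥ k₀, ∀ᶠ n in atTop,
  (((Msh F n).filter (fun f => ∃ j, ε < |pJ (2 * k) f j - Cd j|)).card : ℝ) ≤ ε * (Fintype.card F : ℝ) ^ (12 * n + 3)

end Pool.Agent.H456.PS
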