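import Pool.Agent.H456.PS.Stm

/-!
(sqc) `J ↦ DJ J = ∏_{P∈J} P` is a bijection from the finite sets of places to the monic squarefree polynomials (unique factorization; compare PR/Out.lean). Let `s(n) = #(SJ F n)`; every monic polynomial is uniquely `A B²` with `A` monic squarefree, `B` monic: `q^n = ∑_{j ≤ n/2} s(n - 2j) q^j`. Hence for `n ≥ 2`: `q^n = s(n) + q ∑_{j'} s(n - 2 - 2j') q^(j') = s(n) + q · q^(n-2)`. Number of monic polynomials of degree `n`: `q^n`. Finiteness: injective image in the finite set of monic polynomials of degree `n`. (Mathlib: `UniqueFactorizationMonoid`, `Squarefree`, `Nat.sq_mul_squarefree`-analogue: existence by taking `B` of maximal degree with `B² ∣ D`, uniqueness: if `A B² = A' B'²`, compare the multiplicities of each `P`: parity.) Alternatively count via `multiplicity` functions. The library may have the number of squarefree polynomials (grep INDEX.tsv for 'squarefree').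
-/

set_option autoImplicit false
set_option linter.all false

open Polynomial Finset Filter
open Pool.Agent.H456.EC (toK toK_inj sig toK_eq reflect_toK cls)
open Pool.Agent.H456.RN
open Pool.Agent.H456.BQ
open Pool.Agent.H456.Coh (TF)
open Pool.Agent.H456.PP (OneR NoR HasRt sx hh Tz Tq Iso3 nr IsoP nrP)
open Pool.Agent.H456.PR

namespace Pool.Agent.H456.PS

section sqcgen

variable {F : Type} [Field F]

/-- the product of a multiset of places -/
noncomputable def sqc_pr (m : Multiset {P : F[X] // P.Monic ∧ Irreducible P}) : F[X] :=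
  (m.map Subtype.val).prod

theorem sqc_monic (m : Multiset {P : F[X] // P.Monic ∧ Irreducible P}) : (sqc_pr m).Monic := by
  unfold sqc_pr
  induction m using Multiset.induction_on with
  | empty => simp
  | cons a m ih =>
    rw [Multiset.map_cons, Multiset.prod_cons]
    exact a.2.1.mul ih

theorem sqc_add (m m' : Multiset {P : F[X] // P.Monic ∧ Irreducible P}) :
    sqc_pr (m + m') = sqc_pr m * sqc_pr m' := by
  unfold sqc_pr
  rw [Multiset.map_add, Multiset.prod_add]

theorem sqc_deg_add (m m' : Multiset {P : F[X] // P.Monic ∧ Irreducible P}) :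
    (sqc_pr (m + m')).natDegree = (sqc_pr m).natDegree + (sqc_pr m').natDegree := by
  rw [sqc_add, (sqc_monic m).natDegree_mul (sqc_monic m')]

open UniqueFactorizationMonoid in
theorem sqc_nf [DecidableEq F] (m : Multiset {P : F[X] // P.Monic ∧ Irreducible P}) :
    normalizedFactors (sqc_pr m) = m.map Subtype.val := by
  unfold sqc_pr
  rw [normalizedFactors_multiset_prod _ (by
    intro h0
    rw [Multiset.mem_map] at h0
    obtain ⟨P, -, hP⟩ := h0
    exact P.2.2.ne_zero hP)]
  rw [Multiset.map_map]
  have : m.map (normalizedFactors ∘ Subtype.val) =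
      m.map (fun P : {P : F[X] // P.Monic ∧ Irreducible P} => ({P.1} : Multiset F[X])) := by
    refine Multiset.map_congr rfl fun P _ => ?_
    rw [Function.comp_apply, normalizedFactors_irreducible P.2.2, P.2.1.normalize_eq_self]
  rw [this]
  induction m using Multiset.induction_on with
  | empty => simp
  | cons a m ih =>
    rw [Multiset.map_cons, Multiset.sum_cons, Multiset.map_cons, Multiset.singleton_add]
    congr 1
    apply ih
    exact Multiset.map_congr rfl fun P _ => by
      rw [Function.comp_apply, normalizedFactors_irreducible P.2.2, P.2.1.normalize_eq_self]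

theorem sqc_inj : Function.Injective (sqc_pr (F := F)) := by
  classical
  intro m m' h
  have := congrArg UniqueFactorizationMonoid.normalizedFactors h
  rw [sqc_nf, sqc_nf] at this
  exact Multiset.map_injective Subtype.val_injective this

open UniqueFactorizationMonoid in
theorem sqc_surj {f : F[X]} (hf : f.Monic) : ∃ m, sqc_pr m = f := by
  classical
  have h1 : ∀ P ∈ normalizedFactors f, P.Monic ∧ Irreducible P := by
    intro P hP
    refine ⟨?_, irreducible_of_normalized_factor P hP⟩
    have h2 := normalize_normalized_factor P hP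
    rw [← h2]
    exact Polynomial.monic_normalize (irreducible_of_normalized_factor P hP).ne_zero
  refine ⟨(normalizedFactors f).pmap (fun P hP => ⟨P, hP⟩) h1, ?_⟩
  unfold sqc_pr
  rw [Multiset.map_pmap, Multiset.pmap_eq_map, Multiset.map_id', prod_normalizedFactors_eq hf.ne_zero,
    hf.normalize_eq_self]

/-- the equivalence with the monic polynomials of degree `n` -/
noncomputable def sqc_equiv (F : Type) [Field F] (n : ℕ) :
    {m : Multiset {P : F[X] // P.Monic ∧ Irreducible P} // (sqc_pr m).natDegree = n} ≃
      {f : F[X] // f.Monic ∧ f.natDegree = n} :=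
  Equiv.ofBijective (fun m => ⟨sqc_pr m.1, sqc_monic m.1, m.2⟩) (by
    constructor
    · intro m m' h
      exact Subtype.ext (sqc_inj (congrArg Subtype.val h))
    · rintro ⟨f, hf, hn⟩
      obtain ⟨m, rfl⟩ := sqc_surj hf
      exact ⟨⟨m, hn⟩, rfl⟩)

theorem sqc_card (F : Type) [Field F] [Fintype F] (n : ℕ) :
    Finite {m : Multiset {P : F[X] // P.Monic ∧ Irreducible P} // (sqc_pr m).natDegree = n} ∧
    Nat.card {m : Multiset {P : F[X] // P.Monic ∧ Irreducible P} // (sqc_pr m).natDegree = n} =
      Fintype.card F ^ n := by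
  have e := (sqc_equiv F n).trans ((Polynomial.monicEquivDegreeLT n).trans
    (Polynomial.degreeLTEquiv F n).toEquiv)
  refine ⟨Finite.of_equiv _ e.symm, ?_⟩
  rw [Nat.card_congr e, Nat.card_eq_fintype_card, Fintype.card_fun, Fintype.card_fin]

theorem sqc_decomp {α : Type} [DecidableEq α] (m : Multiset α) :
    ∃ (J : Finset α) (B : Multiset α), J.1 + (B + B) = m := by
  refine ⟨m.toFinset.filter (fun a => m.count a % 2 = 1),
    ∑ a ∈ m.toFinset, Multiset.replicate (m.count a / 2) a, ?_⟩
  ext a
  have hB : Multiset.count a (∑ a ∈ m.toFinset, Multiset.replicate (m.count a / 2) a) =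
      m.count a / 2 := by
    rw [Multiset.count_sum']
    simp only [Multiset.count_replicate]
    rw [Finset.sum_ite_eq']
    split_ifs with h
    · rfl
    · rw [Multiset.mem_toFinset] at h
      rw [Multiset.count_eq_zero_of_notMem h, Nat.zero_div]
  have hJ : Multiset.count a (m.toFinset.filter (fun a => m.count a % 2 = 1)).1 =
      m.count a % 2 := by
    by_cases h : a ∈ m.toFinset.filter (fun a => m.count a % 2 = 1)
    · rw [Multiset.count_eq_one_of_mem (Finset.nodup _) h]
      exact ((Finset.mem_filter.mp h).2).symm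
    · rw [Multiset.count_eq_zero_of_notMem h]
      rw [Finset.mem_filter, Multiset.mem_toFinset] at h
      by_cases ha : a ∈ m
      · have : ¬ m.count a % 2 = 1 := fun h2 => h ⟨ha, h2⟩
        omega
      · rw [Multiset.count_eq_zero_of_notMem ha]
  rw [Multiset.count_add, Multiset.count_add, hB, hJ]
  omega

theorem sqc_uniq {α : Type} [DecidableEq α] {J J' : Finset α} {B B' : Multiset α}
    (h : J.1 + (B + B) = J'.1 + (B' + B')) : J = J' ∧ B = B' := by
  have hc : ∀ a, Multiset.count a J.1 = Multiset.count a J'.1 ∧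
      Multiset.count a B = Multiset.count a B' := by
    intro a
    have h1 := congrArg (Multiset.count a) h
    rw [Multiset.count_add, Multiset.count_add, Multiset.count_add, Multiset.count_add] at h1
    have h2 := Multiset.nodup_iff_count_le_one.mp J.nodup a
    have h3 := Multiset.nodup_iff_count_le_one.mp J'.nodup a
    omega
  exact ⟨Finset.val_injective (Multiset.ext.mpr fun a => (hc a).1),
    Multiset.ext.mpr fun a => (hc a).2⟩

/-- the decomposition of the multisets of degree `n` -/
noncomputable def sqc_map (F : Type) [Field F] (n : ℕ)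
    (x : Σ j : Fin (n / 2 + 1),
      {J : Finset {P : F[X] // P.Monic ∧ Irreducible P} // (sqc_pr J.1).natDegree = n - 2 * j} ×
      {B : Multiset {P : F[X] // P.Monic ∧ Irreducible P} // (sqc_pr B).natDegree = j}) :
    {m : Multiset {P : F[X] // P.Monic ∧ Irreducible P} // (sqc_pr m).natDegree = n} :=
  ⟨x.2.1.1.1 + (x.2.2.1 + x.2.2.1), by
    rw [sqc_deg_add, sqc_deg_add, x.2.1.2, x.2.2.2]
    have := x.1.2
    omega⟩

theorem sqc_map_bij (F : Type) [Field F] (n : ℕ) : Function.Bijective (sqc_map F n) := by
  classical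
  constructor
  · rintro ⟨j, ⟨J, hJ⟩, ⟨B, hB⟩⟩ ⟨j', ⟨J', hJ'⟩, ⟨B', hB'⟩⟩ h
    have h1 : J.1 + (B + B) = J'.1 + (B' + B') := congrArg Subtype.val h
    obtain ⟨rfl, rfl⟩ := sqc_uniq h1
    have : j = j' := Fin.ext (hB.symm.trans hB')
    subst this
    rfl
  · rintro ⟨m, hm⟩
    obtain ⟨J, B, rfl⟩ := sqc_decomp m
    have h1 : (sqc_pr J.1).natDegree + ((sqc_pr B).natDegree + (sqc_pr B).natDegree) = n := by
      rw [← hm, sqc_deg_add, sqc_deg_add]
    refine ⟨⟨⟨(sqc_pr B).natDegree, by omega⟩, ⟨J, ?_⟩, ⟨B, rfl⟩⟩, rfl⟩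
    show (sqc_pr J.1).natDegree = n - 2 * (sqc_pr B).natDegree
    omega

theorem sqc_fin (F : Type) [Field F] [Fintype F] (n : ℕ) :
    Finite {J : Finset {P : F[X] // P.Monic ∧ Irreducible P} // (sqc_pr J.1).natDegree = n} := by
  have := (sqc_card F n).1
  refine Finite.of_injective (β := {m : Multiset {P : F[X] // P.Monic ∧ Irreducible P} //
    (sqc_pr m).natDegree = n}) (fun J => ⟨J.1.1, J.2⟩) ?_
  intro J J' h
  exact Subtype.ext (Finset.val_injective (congrArg Subtype.val h))

theorem sqc_sum (F : Type) [Field F] [Fintype F] (n : ℕ) :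
    Fintype.card F ^ n = ∑ j ∈ range (n / 2 + 1),
      Nat.card {J : Finset {P : F[X] // P.Monic ∧ Irreducible P} //
        (sqc_pr J.1).natDegree = n - 2 * j} * Fintype.card F ^ j := by
  have := fun k => (sqc_card F k).1
  have := fun k => sqc_fin F k
  rw [← (sqc_card F n).2, ← Nat.card_congr (Equiv.ofBijective _ (sqc_map_bij F n)),
    Nat.card_sigma]
  rw [← Fin.sum_univ_eq_sum_range (fun j => Nat.card {J : Finset {P : F[X] // P.Monic ∧
    Irreducible P} // (sqc_pr J.1).natDegree = n - 2 * j} * Fintype.card F ^ j)]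
  refine Finset.sum_congr rfl fun j _ => ?_
  rw [Nat.card_prod, (sqc_card F j).2]

theorem sqc_main (F : Type) [Field F] [Fintype F] (n : ℕ) :
    {J : Finset {P : F[X] // P.Monic ∧ Irreducible P} | (∏ P ∈ J, P.1).natDegree = n}.Finite ∧
    {J : Finset {P : F[X] // P.Monic ∧ Irreducible P} | (∏ P ∈ J, P.1).natDegree = n}.ncard +
      (if 2 ≤ n then Fintype.card F ^ (n - 1) else 0) = Fintype.card F ^ n := by
  have hfin := sqc_fin F n
  refine ⟨Set.finite_coe_iff.mp hfin, ?_⟩
  have hcard : {J : Finset {P : F[X] // P.Monic ∧ Irreducible P} |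
      (∏ P ∈ J, P.1).natDegree = n}.ncard =
      Nat.card {J : Finset {P : F[X] // P.Monic ∧ Irreducible P} //
        (sqc_pr J.1).natDegree = n} := (Nat.card_coe_set_eq _).symm
  rw [hcard]
  have h1 := sqc_sum F n
  split_ifs with hn
  · obtain ⟨k, rfl⟩ := Nat.exists_eq_add_of_le hn
    have h2 := sqc_sum F k
    have e1 : (2 + k) / 2 + 1 = (k / 2 + 1) + 1 := by omega
    rw [e1, Finset.sum_range_succ'] at h1
    have e2 : ∑ j ∈ range (k / 2 + 1), Nat.card {J : Finset {P : F[X] // P.Monic ∧ Irreducible P} //
        (sqc_pr J.1).natDegree = 2 + k - 2 * (j + 1)} * Fintype.card F ^ (j + 1) =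
        Fintype.card F * Fintype.card F ^ k := by
      rw [h2, Finset.mul_sum]
      refine Finset.sum_congr rfl fun j _ => ?_
      have e3 : 2 + k - 2 * (j + 1) = k - 2 * j := by omega
      rw [e3, pow_succ]
      ring
    rw [e2] at h1
    have e4 : Fintype.card F ^ (2 + k - 1) = Fintype.card F * Fintype.card F ^ k := by
      have : 2 + k - 1 = k + 1 := by omega
      rw [this, pow_succ]
      ring
    rw [e4, h1]
    simp only [mul_zero, Nat.sub_zero, pow_zero, mul_one]
    ring
  · have e1 : n / 2 = 0 := by omega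
    rw [e1, zero_add, Finset.sum_range_one, pow_zero, mul_one, mul_zero, Nat.sub_zero] at h1
    rw [h1, add_zero]

end sqcgen

theorem t_sqc : S_sqc := by
  intro F _ _ n
  exact sqc_main F n

end Pool.Agent.H456.PS
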