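import Pool.Agent.H456.PR.All
import Pool.Agent.H456.PS.Stm
import Pool.Agent.H456.PS.T_sqc
import Pool.Agent.H456.Pub.Law2

/-!
# The law for all squarefree twists: the final form
-/

set_option autoImplicit false
set_option linter.all false

open Polynomial WeierstrassCurve Finset Filter
open Pool.Agent.H456.EC
open Pool.Agent.H456.RN
open Pool.Agent.H456.BQ
open Pool.Agent.H456.Coh
open Pool.Agent.H456.PR
open Pool.Agent.H456.Pub (SameClass Tors Prim Killed twist law prop twistP SelTwo SelInf SelInfTwo rank card_tors card_prim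
  sqf share)

namespace Pool.Agent.H456.PS

section

variable {F : Type} [Field F]

theorem NMc_C {P : F[X]} {u : F} (hu : u ≠ 0) {f : Cub F[X]} (h : NMc P (f.sc (C u))) : NMc P f := by
  refine tws_NMc_unit (P := P) (u := C u) ?_ h
  exact ⟨0, C u⁻¹, by rw [zero_mul, zero_add, ← C_mul, inv_mul_cancel₀ hu, C_1]⟩

end

variable {F : Type} [Field F] [Fintype F]

theorem Msh_C (h2 : (2 : F) ≠ 0) {n : ℕ} {f : Cub F[X]} (hf : f ∈ Msh F n) {u : F} (hu : u ≠ 0) :
    f.sc (C u) ∈ Msh F n := by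
  rw [mem_Msh, MinAll_crv h2] at hf ⊢
  obtain ⟨hd, h0, h1, h3⟩ := hf
  refine ⟨?_, ?_, fun P hP => h1 P (NMc_C hu hP), fun hP => h3 ?_⟩
  · exact tws_cdg_sc (n := n) (k := 0) (D := C u) (by rw [natDegree_C]) hd
  · rw [Cub.disc_sc]
    exact mul_ne_zero (pow_ne_zero _ (C_ne_zero.2 hu)) h0
  · have e := tws_crev (n := n) (k := 0) hd (C u) (by rw [natDegree_C])
    have e2 : reflect (2 * 0) (C u) = C u := by simp
    rw [e2, add_zero] at e
    rw [e] at hP
    exact NMc_C hu hP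

open Classical in
/-- the law for all twists by constants simultaneously -/
theorem law_C (hl : S_law) (h2 : (2 : F) ≠ 0) (ε : ℝ) (hε : 0 < ε) : ∃ k₀ : ℕ, ∀ k ≥ k₀, ∀ᶠ n in atTop,
    (((Msh F n).filter (fun f => ∃ u : F, u ≠ 0 ∧ ∃ j, ε < |pJ (2 * k) (f.sc (C u)) j - Cd j|)).card : ℝ) ≤
      ε * (Fintype.card F : ℝ) ^ (12 * n + 3) := by
  have hq : (0 : ℝ) < Fintype.card F := by exact_mod_cast Fintype.card_pos
  have hq1 : (1 : ℝ) ≤ Fintype.card F := by exact_mod_cast Fintype.card_pos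
  obtain ⟨k₀, hk⟩ := hl F h2 (ε / Fintype.card F) (by positivity)
  refine ⟨k₀, fun k hk0 => (hk k hk0).mono fun n hn => ?_⟩
  set δ := ε / (Fintype.card F : ℝ) with hδ
  have hδε : δ ≤ ε := div_le_self hε.le hq1
  set X := (Msh F n).filter (fun f => ∃ j, δ < |pJ (2 * k) f j - Cd j|) with hX
  have h1 : (Msh F n).filter (fun f => ∃ u : F, u ≠ 0 ∧ ∃ j, ε < |pJ (2 * k) (f.sc (C u)) j - Cd j|) ⊆
      (univ : Finset F).biUnion (fun u => (Msh F n).filter (fun f => u ≠ 0 ∧ f.sc (C u) ∈ X)) := by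
    intro f hf
    rw [mem_filter] at hf
    obtain ⟨hf, u, hu, j, hj⟩ := hf
    rw [mem_biUnion]
    refine ⟨u, mem_univ u, mem_filter.2 ⟨hf, hu, ?_⟩⟩
    rw [hX, mem_filter]
    exact ⟨Msh_C h2 hf hu, j, lt_of_le_of_lt hδε hj⟩
  have h3 : ∀ u : F, ((Msh F n).filter (fun f => u ≠ 0 ∧ f.sc (C u) ∈ X)).card ≤ X.card := by
    intro u
    apply card_le_card_of_injOn (fun f => f.sc (C u))
    · intro f hf
      rw [mem_coe, mem_filter] at hf
      exact hf.2.2
    · intro f hf g hg h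
      rw [mem_coe, mem_filter] at hf
      exact tws_sc_inj (C_ne_zero.2 hf.2.1) h
  have h4 := (card_le_card h1).trans (card_biUnion_le.trans (sum_le_sum fun u _ => h3 u))
  rw [sum_const, card_univ, smul_eq_mul] at h4
  have h5 : (((Msh F n).filter (fun f => ∃ u : F, u ≠ 0 ∧ ∃ j, ε < |pJ (2 * k) (f.sc (C u)) j - Cd j|)).card : ℝ) ≤
      (Fintype.card F : ℝ) * X.card := by exact_mod_cast h4
  refine h5.trans ((mul_le_mul_of_nonneg_left hn hq.le).trans (le_of_eq ?_))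
  rw [hδ]
  field_simp

open Classical in
/-- the nonzero constants -/
noncomputable def Uc (F : Type) [Field F] [Fintype F] : Finset F := univ.filter (fun u => u ≠ 0)

open Classical in
/-- the squarefree polynomials from the sets of places -/
noncomputable def SqF (𝒮 : Finset (Finset (Pl F))) : Finset F[X] :=
  (Uc F ×ˢ 𝒮).image (fun x => C x.1 * DJ x.2)

theorem SqF_inj {u u' : F} {J J' : Finset (Pl F)} (hu : u ≠ 0) (h : C u * DJ J = C u' * DJ J') : u = u' ∧ J = J' := by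
  have h1 : u = u' := by
    have := congrArg leadingCoeff h
    rwa [leadingCoeff_mul, leadingCoeff_mul, (DJ_monic J).leadingCoeff, (DJ_monic J').leadingCoeff, leadingCoeff_C,
      leadingCoeff_C, mul_one, mul_one] at this
  subst h1
  exact ⟨rfl, DJ_inj (mul_left_cancel₀ (C_ne_zero.2 hu) h)⟩

open Classical in
theorem SqF_card (𝒮 : Finset (Finset (Pl F))) : (SqF 𝒮).card = (Uc F).card * 𝒮.card := by
  unfold SqF
  rw [card_image_of_injOn, card_product]
  intro x hx y hy h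
  rw [mem_coe, mem_product] at hx
  obtain ⟨h1, h2⟩ := SqF_inj (by have := hx.1; unfold Uc at this; exact (mem_filter.1 this).2) h
  exact Prod.ext h1 h2

open Classical in
/-- the proportion for the squarefree polynomials is the average over the constants -/
theorem prS_SqF (ht : S_ctw) (h2 : (2 : F) ≠ 0) {m : ℕ} {𝒮 : Finset (Finset (Pl F))} (hS : ∀ J, J ∈ 𝒮 ↔ J ∈ SJ F m)
    {f : Cub F[X]} (hf : f.disc ≠ 0) (j : ℕ) :
    prS (SqF 𝒮) (cls (crv f)).out j = (∑ u ∈ Uc F, pJ m (f.sc (C u)) j) / (Uc F).card := by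
  have hSJ : (SJ F m) = (𝒮 : Set (Finset (Pl F))) := by
    ext J
    rw [mem_coe, hS]
  have hp : ∀ u : F, pJ m (f.sc (C u)) j =
      ((𝒮.filter (fun J => NT ∅ ((f.sc (C u)).sc (DJ J)) = 2 ^ j)).card : ℝ) / 𝒮.card := by
    intro u
    unfold pJ
    have e : ({J | J ∈ SJ F m ∧ NT ∅ ((f.sc (C u)).sc (DJ J)) = 2 ^ j} : Set (Finset (Pl F))) =
        ((𝒮.filter (fun J => NT ∅ ((f.sc (C u)).sc (DJ J)) = 2 ^ j)) : Finset (Finset (Pl F))) := by
      ext J
      rw [mem_coe, mem_filter, hS]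
      exact Iff.rfl
    rw [e, hSJ, Set.ncard_coe_finset, Set.ncard_coe_finset]
  simp only [hp]
  unfold prS
  rw [SqF_card]
  have hc : (((SqF 𝒮).filter (fun D => Nat.card (SelmerGroup (twE (toK F D) (cls (crv f)).out)
      (torsionPts (twE (toK F D) (cls (crv f)).out) 2)) = 2 ^ j)).card : ℝ) =
      ∑ u ∈ Uc F, ((𝒮.filter (fun J => NT ∅ ((f.sc (C u)).sc (DJ J)) = 2 ^ j)).card : ℝ) := by
    have e1 : (SqF 𝒮).filter (fun D => Nat.card (SelmerGroup (twE (toK F D) (cls (crv f)).out)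
        (torsionPts (twE (toK F D) (cls (crv f)).out) 2)) = 2 ^ j) =
        ((Uc F).sigma (fun u => 𝒮.filter (fun J => NT ∅ ((f.sc (C u)).sc (DJ J)) = 2 ^ j))).image
          (fun x => C x.1 * DJ x.2) := by
      ext D
      simp only [SqF, mem_filter, mem_image, mem_product, mem_sigma, Prod.exists]
      constructor
      · rintro ⟨⟨u, J, ⟨hu, hJ⟩, rfl⟩, h⟩
        refine ⟨⟨u, J⟩, ⟨hu, hJ, ?_⟩, rfl⟩
        have hu0 : u ≠ 0 := by unfold Uc at hu; exact (mem_filter.1 hu).2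
        rw [Cub.sc_sc, ← ht F h2 f hf (C u * DJ J) (mul_ne_zero (C_ne_zero.2 hu0) (DJ_ne J))]
        exact h
      · rintro ⟨⟨u, J⟩, ⟨hu, hJ, h⟩, rfl⟩
        have hu0 : u ≠ 0 := by
          change u ∈ Uc F at hu
          unfold Uc at hu; exact (mem_filter.1 hu).2
        refine ⟨⟨u, J, ⟨hu, hJ⟩, rfl⟩, ?_⟩
        rw [ht F h2 f hf (C u * DJ J) (mul_ne_zero (C_ne_zero.2 hu0) (DJ_ne J)), ← Cub.sc_sc]
        exact h
    rw [e1, card_image_of_injOn, card_sigma]
    · push_cast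
      rfl
    · rintro ⟨u, J⟩ hx ⟨u', J'⟩ hy h
      rw [mem_coe, mem_sigma] at hx
      have hu0 : u ≠ 0 := by
        have := hx.1
        unfold Uc at this; exact (mem_filter.1 this).2
      obtain ⟨h1, h2⟩ := SqF_inj hu0 h
      subst h1; subst h2; rfl
  rw [hc, ← sum_div]
  push_cast
  rw [div_div, mul_comm]


open Classical in
/-- **the law for the isomorphism classes** -/
theorem law_CL2 (hl : S_law) (hc : S_clU) (ht : S_ctw) (h2 : (2 : F) ≠ 0) (ε : ℝ) (hε : 0 < ε) :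
    ∃ k₀ : ℕ, ∀ k ≥ k₀, ∀ 𝒮 : Finset (Finset (Pl F)), (∀ J, J ∈ 𝒮 ↔ J ∈ SJ F (2 * k)) →
      ∀ᶠ d in atTop, (((CL F d).filter (fun κ => ∃ j, ε < |prS (SqF 𝒮) κ.out j - Cd j|)).card : ℝ) ≤
        ε * (CL F d).card := by
  obtain ⟨k₀, hk⟩ := law_C hl h2 (ε / 1000) (by positivity)
  refine ⟨k₀, fun k hk0 𝒮 hS => ?_⟩
  have hn := hk k hk0
  set w : KC F → ℝ := fun κ => if ∃ j, ε < |prS (SqF 𝒮) κ.out j - Cd j| then 1 else 0 with hw
  have h1 := hc F h2 w (fun κ => by simp only [hw]; split_ifs <;> norm_num) (ε / 1000) (by positivity) ?_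
  · filter_upwards [h1] with d hd
    simp only [hw, sum_boole] at hd
    refine hd.trans (le_of_eq ?_)
    ring
  · filter_upwards [hn] with n h3
    refine le_trans ?_ h3
    have h4 : ∑ f ∈ Msh F n, w (cls (crv f)) =
        (((Msh F n).filter (fun f => ∃ j, ε < |prS (SqF 𝒮) (cls (crv f)).out j - Cd j|)).card : ℝ) := by
      simp only [hw, sum_boole]
    rw [h4]
    have h5 : ((Msh F n).filter (fun f => ∃ j, ε < |prS (SqF 𝒮) (cls (crv f)).out j - Cd j|)).card ≤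
        ((Msh F n).filter (fun f => ∃ u : F, u ≠ 0 ∧ ∃ j, ε / 1000 < |pJ (2 * k) (f.sc (C u)) j - Cd j|)).card := by
      apply card_le_card
      intro f hf
      rw [mem_filter] at hf ⊢
      obtain ⟨hfM, j, hj⟩ := hf
      refine ⟨hfM, ?_⟩
      by_contra hcon
      push Not at hcon
      rw [prS_SqF ht h2 hS (mem_Msh.1 hfM).2.1] at hj
      have hU : (0 : ℝ) < (Uc F).card := by
        have : (Uc F).Nonempty := ⟨1, by unfold Uc; exact mem_filter.2 ⟨mem_univ _, one_ne_zero⟩⟩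
        exact_mod_cast this.card_pos
      have h6 : (∑ u ∈ Uc F, pJ (2 * k) (f.sc (C u)) j) / (Uc F).card - Cd j =
          (∑ u ∈ Uc F, (pJ (2 * k) (f.sc (C u)) j - Cd j)) / (Uc F).card := by
        rw [sum_sub_distrib, sum_const, nsmul_eq_mul, sub_div, mul_div_cancel_left₀ _ hU.ne']
      rw [h6, abs_div, abs_of_pos hU, lt_div_iff₀ hU] at hj
      have h7 : |∑ u ∈ Uc F, (pJ (2 * k) (f.sc (C u)) j - Cd j)| ≤ ∑ u ∈ Uc F, ε / 1000 := by
        refine (abs_sum_le_sum_abs _ _).trans (sum_le_sum fun u hu => ?_)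
        exact hcon u (by unfold Uc at hu; exact (mem_filter.1 hu).2) j
      rw [sum_const, nsmul_eq_mul] at h7
      have h8 := hj.trans_le h7
      have h9 : ((Uc F).card : ℝ) * (ε / 1000) ≤ ε * (Uc F).card := by
        rw [mul_comm]
        apply mul_le_mul_of_nonneg_right _ hU.le
        linarith
      linarith
    exact_mod_cast h5

section

omit [Fintype F] in
theorem assoc_C {u : F} (hu : u ≠ 0) (D : F[X]) : Associated D (C u * D) :=
  ⟨(isUnit_C.2 (isUnit_iff_ne_zero.2 hu)).unit, by rw [IsUnit.unit_spec, mul_comm]⟩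

omit [Fintype F] in
theorem DJ_surj {D : F[X]} (hm : D.Monic) (hs : Squarefree D) : ∃ J : Finset (Pl F), DJ J = D := by
  obtain ⟨m, hmD⟩ := sqc_surj hm
  have hn : m.Nodup := by
    rw [Multiset.nodup_iff_ne_cons_cons]
    rintro a t rfl
    apply a.2.2.not_isUnit
    apply hs
    rw [← hmD]
    unfold sqc_pr
    rw [Multiset.map_cons, Multiset.map_cons, Multiset.prod_cons, Multiset.prod_cons, ← mul_assoc]
    exact dvd_mul_right _ _
  exact ⟨⟨m, hn⟩, hmD⟩

theorem mem_SqF {m : ℕ} {𝒮 : Finset (Finset (Pl F))} (hS : ∀ J, J ∈ 𝒮 ↔ J ∈ SJ F m) (D : F[X]) :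
    D ∈ SqF 𝒮 ↔ D ∈ sqf F m := by
  classical
  unfold SqF sqf
  rw [mem_image, Set.mem_setOf_eq]
  constructor
  · rintro ⟨⟨u, J⟩, h, rfl⟩
    rw [mem_product] at h
    obtain ⟨hu, hJ⟩ := h
    have hu0 : u ≠ 0 := by
      change u ∈ Uc F at hu
      unfold Uc at hu; exact (mem_filter.1 hu).2
    have hJ' : (DJ J).natDegree = m := (hS J).1 hJ
    refine ⟨?_, ?_⟩
    · have h1 : Associated (DJ J) (C u * DJ J) :=
        assoc_C hu0 (DJ J)
      exact (h1.squarefree_iff).1 (DJ_sqf J)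
    · rw [natDegree_C_mul hu0]
      exact hJ'
  · rintro ⟨hs, hd⟩
    have h0 : D ≠ 0 := hs.ne_zero
    have hl : D.leadingCoeff ≠ 0 := leadingCoeff_ne_zero.2 h0
    have hm : (C D.leadingCoeff⁻¹ * D).Monic := by
      rw [mul_comm]
      exact monic_mul_C_of_leadingCoeff_mul_eq_one (mul_inv_cancel₀ hl)
    have hs' : Squarefree (C D.leadingCoeff⁻¹ * D) := by
      have h1 : Associated D (C D.leadingCoeff⁻¹ * D) :=
        assoc_C (inv_ne_zero hl) D
      exact (h1.squarefree_iff).1 hs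
    obtain ⟨J, hJ⟩ := DJ_surj hm hs'
    refine ⟨(D.leadingCoeff, J), ?_, ?_⟩
    · rw [mem_product]
      refine ⟨?_, (hS J).2 ?_⟩
      · change D.leadingCoeff ∈ Uc F
        unfold Uc
        exact mem_filter.2 ⟨mem_univ _, hl⟩
      · change (DJ J).natDegree = m
        rw [hJ, natDegree_C_mul (inv_ne_zero hl), hd]
    · change C D.leadingCoeff * DJ J = D
      rw [hJ, ← mul_assoc, ← C_mul, mul_inv_cancel₀ hl, C_1, one_mul]

theorem share_coe {A : Type} (𝒟 : Finset A) (p : A → Prop) : share (𝒟 : Set A) p = prop 𝒟 p := by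
  classical
  unfold share prop
  have e : ({x | x ∈ (𝒟 : Set A) ∧ p x} : Set A) = ((𝒟.filter p : Finset A) : Set A) := by
    ext x
    simp
  rw [e, Set.ncard_coe_finset, Set.ncard_coe_finset]

end

/-- **the final form**, for any finite set of twists with the law for almost all classes -/
theorem fin_of (H : HypR) (h2 : (2 : F) ≠ 0) (ε : ℝ) (hε : 0 < ε) {𝒟 : Finset F[X]} (hne : ∀ D ∈ 𝒟, D ≠ 0)
    (h4 : ∀ᶠ d in atTop, ((by classical exact (CL F d).filter (fun κ => ∃ j, ε / 2 < |prS 𝒟 κ.out j - Cd j|) :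
      Finset (KC F)).card : ℝ) ≤ ε / 2 * (CL F d).card) :
      ∀ᶠ d in atTop, ∃ B : Set (KC F), B ⊆ cls '' Eqn F d ∧ (B.ncard : ℝ) ≤ ε * ((cls '' Eqn F d).ncard : ℝ) ∧
        ∀ κ ∈ cls '' Eqn F d, κ ∉ B →
          (∀ k : ℕ, |prop 𝒟 (fun D => Nat.card (SelTwo (twistP κ.out D)) = 2 ^ k) - law k| ≤ ε) ∧
          (∀ k : ℕ, |prop 𝒟 (fun D => Nat.card (SelInfTwo (twistP κ.out D)) = 2 ^ k) - law k| ≤ ε) ∧
          0.2097 - ε ≤ prop 𝒟 (fun D => Finite (twistP κ.out D).toAffine.Point ∧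
            Nat.card (SelInf (twistP κ.out D)) = 1) ∧
          0.629 - 2 * ε ≤ prop 𝒟 (fun D => rank (twistP κ.out D) ≤ 1) := by
  classical
  filter_upwards [h4, two_neg h2 (ε / 2) (half_pos hε)] with d h5 h6
  have h5' : (((CL F d).filter (fun κ => ∃ j, ε / 2 < |prS 𝒟 κ.out j - Cd j|)).card : ℝ) ≤ ε / 2 * (CL F d).card := by
    convert h5
  set B : Finset (KC F) := (CL F d).filter (fun κ => ∃ k, ε / 2 < |prS 𝒟 κ.out k - Cd k|) ∪
    (CL F d).filter (fun κ => ¬ ∀ T : κ.out.toAffine.Point, 2 • T = 0 → T = 0) with hB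
  refine ⟨(B : Set (KC F)), ?_, ?_, ?_⟩
  · rw [← coe_CL]
    exact coe_subset.2 (union_subset (filter_subset _ _) (filter_subset _ _))
  · rw [Set.ncard_coe_finset, ← coe_CL, Set.ncard_coe_finset]
    have h7 := card_union_le ((CL F d).filter (fun κ => ∃ k, ε / 2 < |prS 𝒟 κ.out k - Cd k|))
      ((CL F d).filter (fun κ => ¬ ∀ T : κ.out.toAffine.Point, 2 • T = 0 → T = 0))
    have h8 : ((B.card : ℕ) : ℝ) ≤
      ((CL F d).filter (fun κ => ∃ k, ε / 2 < |prS 𝒟 κ.out k - Cd k|)).card +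
      ((CL F d).filter (fun κ => ¬ ∀ T : κ.out.toAffine.Point, 2 • T = 0 → T = 0)).card := by exact_mod_cast h7
    have e : ε * ((CL F d).card : ℝ) = ε / 2 * (CL F d).card + ε / 2 * (CL F d).card := by ring
    rw [e]
    refine h8.trans (add_le_add h5' ?_)
    convert h6
  · intro κ hk hkB
    have hk' := mem_CL_iff.1 hk
    rw [mem_coe, hB, mem_union, not_or, mem_filter, mem_filter] at hkB
    have ht : ∀ T : κ.out.toAffine.Point, 2 • T = 0 → T = 0 := by
      by_contra hc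
      exact hkB.2 ⟨hk', hc⟩
    have hl : ∀ k, |prS 𝒟 κ.out k - Cd k| ≤ ε := by
      intro k
      by_contra hc
      push Not at hc
      exact hkB.1 ⟨hk', k, by linarith⟩
    have hΔ := KC_Δ h2 hk'
    obtain ⟨r1, r2⟩ := rank_one H h2 hne hΔ ε hl
    refine ⟨fun k => ?_, fun k => ?_, r1, r2⟩
    · rw [← prS_prop]
      exact hl k
    · rw [prop_inf h2 hne hΔ (fun T hT => ht T (by convert hT)) k, ← prS_prop]
      exact hl k

/-- **the law for all squarefree twists of degree `2 k`** -/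
theorem fin_sqf (hl : S_law) (h2 : (2 : F) ≠ 0) (ε : ℝ) (hε : 0 < ε) :
    ∃ k₀ : ℕ, ∀ k ≥ k₀, (sqf F (2 * k)).Finite ∧ (sqf F (2 * k)).Nonempty ∧
      ∀ᶠ d in atTop, ∃ B : Set (KC F), B ⊆ cls '' Eqn F d ∧ (B.ncard : ℝ) ≤ ε * ((cls '' Eqn F d).ncard : ℝ) ∧
        ∀ κ ∈ cls '' Eqn F d, κ ∉ B →
          (∀ j : ℕ, |share (sqf F (2 * k)) (fun D => Nat.card (SelTwo (twistP κ.out D)) = 2 ^ j) - law j| ≤ ε) ∧
          (∀ j : ℕ, |share (sqf F (2 * k)) (fun D => Nat.card (SelInfTwo (twistP κ.out D)) = 2 ^ j) - law j| ≤ ε) ∧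
          0.2097 - ε ≤ share (sqf F (2 * k)) (fun D => Finite (twistP κ.out D).toAffine.Point ∧
            Nat.card (SelInf (twistP κ.out D)) = 1) ∧
          0.629 - 2 * ε ≤ share (sqf F (2 * k)) (fun D => rank (twistP κ.out D) ≤ 1) := by
  classical
  obtain ⟨k₀, hk⟩ := law_CL2 hl t_clU t_ctw h2 (ε / 2) (half_pos hε)
  refine ⟨k₀, fun k hk0 => ?_⟩
  obtain ⟨hfin, hcard⟩ := t_sqc F (2 * k)
  set 𝒮 := hfin.toFinset with h𝒮
  have hS : ∀ J, J ∈ 𝒮 ↔ J ∈ SJ F (2 * k) := fun J => hfin.mem_toFinset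
  have hcoe : (sqf F (2 * k)) = ((SqF 𝒮 : Finset F[X]) : Set F[X]) := by
    ext D
    rw [mem_coe, mem_SqF hS]
  have hne : ∀ D ∈ SqF 𝒮, D ≠ 0 := fun D hD => ((mem_SqF hS D).1 hD).1.ne_zero
  have h𝒮0 : 𝒮.Nonempty := by
    rw [h𝒮, Set.Finite.toFinset_nonempty]
    by_contra hcon
    rw [Set.not_nonempty_iff_eq_empty] at hcon
    rw [hcon, Set.ncard_empty, zero_add] at hcard
    have hq : 1 < Fintype.card F := Fintype.one_lt_card
    split_ifs at hcard with hk2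
    · exact absurd hcard (Nat.pow_lt_pow_right hq (by omega)).ne
    · exact (pow_pos (by omega : 0 < Fintype.card F) _).ne hcard
  have hfin2 : (sqf F (2 * k)).Finite := by
    rw [hcoe]
    exact finite_toSet _
  have hnon : (sqf F (2 * k)).Nonempty := by
    obtain ⟨J, hJ⟩ := h𝒮0
    refine ⟨DJ J, DJ_sqf J, (hS J).1 hJ⟩
  refine ⟨hfin2, hnon, ?_⟩
  rw [hcoe]
  simp only [share_coe]
  refine fin_of hypR_all h2 ε hε hne ?_
  filter_upwards [hk k hk0 𝒮 hS] with d hd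
  convert hd

end Pool.Agent.H456.PS
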