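import Pool.Agent.H456.PR.Stm

/-!
# The Poonen-Rains law for all squarefree twists of almost all elliptic curves over `F(t)`: definitions
-/

set_option autoImplicit false
set_option linter.all false

open Polynomial Finset Filter
open Pool.Agent.H456.EC (toK toK_inj sig toK_eq reflect_toK cls)
open Pool.Agent.H456.RN
open Pool.Agent.H456.BQ
open Pool.Agent.H456.Coh (TF)
open Pool.Agent.H456.PP (OneR NoR HasRt sx hh Tz Tq Iso3 nr IsoP nrP)
open Pool.Agent.H456.PR

namespace Pool.Agent.H456.PS

section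

variable {F : Type} [Field F]

/-- up to a translation `f` is a twist by `P` -/
def TwP (P : Pl F) (f : Cub F[X]) : Prop := tw P (fun _ => True) f

open Classical in
/-- the conditions on the twists by `DJ A * DJ B` (up to squares: at the places of `B` the cubics `f` are twists) -/
noncomputable def cAB (A B : Finset (Pl F)) (c : Pl F → Cub F[X] → Prop) (P : Pl F) : Cub F[X] → Prop :=
  if P ∈ A then tw P (c P) else if P ∈ B then (fun h => c P (h.sc P.1) ∧ ¬ TwP P h) else c P

open Classical in
/-- the type of the place `P` for the cubic `f`: `1` if there is exactly one root, `2` if there is no root -/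
noncomputable def ty (P : Pl F) (f : Cub F[X]) : Fin 3 := if OneR P.1 f then 1 else if NoR P.1 f then 2 else 0

open Classical in
/-- the vertices of the box -/
noncomputable def vtx {m : ℕ} (J : Finset (Pl F)) (p : Fin m → Bool → Pl F) (v : Fin m → Bool) : Finset (Pl F) :=
  J ∪ Finset.univ.image (fun i => p i (v i))

open Classical in
/-- the directions of the box along which the twist changes at exactly one place, where `f` has one root -/
noncomputable def dirs {m : ℕ} (p : Fin m → Bool → Pl F) (f : Cub F[X]) : Finset (Fin m) :=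
  Finset.univ.filter (fun i => ∃ a : Bool, OneR (p i a).1 f ∧ NoR (p i (!a)).1 f)

open Classical in
/-- the proportion of the vertices of the box whose 2-Selmer set has `2 ^ k` elements -/
noncomputable def prb {m : ℕ} (J : Finset (Pl F)) (p : Fin m → Bool → Pl F) (f : Cub F[X]) (k : ℕ) : ℝ :=
  ((Finset.univ.filter (fun v : Fin m → Bool => NT ∅ (f.sc (DJ (vtx J p v))) = 2 ^ k)).card : ℝ) / 2 ^ m

/-- the finite sets of places of total degree `n`, i.e. the monic squarefree polynomials of degree `n` -/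
def SJ (F : Type) [Field F] (n : ℕ) : Set (Finset (Pl F)) := {J | (DJ J).natDegree = n}

/-- the proportion of the twists by the monic squarefree polynomials of degree `n` whose 2-Selmer set has `2 ^ k`
elements -/
noncomputable def pJ (n : ℕ) (f : Cub F[X]) (k : ℕ) : ℝ :=
  (({J | J ∈ SJ F n ∧ NT ∅ (f.sc (DJ J)) = 2 ^ k} : Set (Finset (Pl F))).ncard : ℝ) / ((SJ F n).ncard : ℝ)

/-- the conditions for the flip of `P'` to `P` -/
structure Flp (D₀ : ℕ) (J : Finset (Pl F)) (P P' : Pl F) (f : Cub F[X]) : Prop where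
  nP : P ∉ J
  nP' : P' ∉ J
  deg : P.1.natDegree = P'.1.natDegree
  big : D₀ < P.1.natDegree
  small : ∀ Q : Pl F, Q.1.natDegree ≤ D₀ → SqM Q (P.1 * P'.1)
  sqJ : ∀ Q ∈ J, SqM Q (P.1 * P'.1)
  sqf : ∀ Q : Pl F, D₀ < Q.1.natDegree → ¬ Q.1 ^ 2 ∣ f.disc
  one : OneR P.1 f
  no : NoR P'.1 f

open Classical in
/-- the degrees `> w` of exactly one place of `J` -/
noncomputable def Ud (J : Finset (Pl F)) (w : ℕ) : Finset ℕ :=
  (J.image (fun P => P.1.natDegree)).filter (fun d => w < d ∧ (J.filter (fun P => P.1.natDegree = d)).card = 1)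

/-- the good cubics of height `n` with the types `τ` at the places of `T` -/
def InT [Fintype F] (T : Finset (Pl F)) (D₀ : ℕ) (τ : Pl F → Fin 3) (n : ℕ) (f : Cub F[X]) : Prop :=
  f ∈ Msh F n ∧ GoodF T D₀ f ∧ ∀ P ∈ T, ty P f = τ P

end

section

variable {F : Type} [Field F] [Fintype F]

open Classical in
/-- the good boxes -/
structure BoxOK {m : ℕ} (D₀ : ℕ) (η : ℝ) (J : Finset (Pl F)) (p : Fin m → Bool → Pl F) : Prop where
  inj : ∀ i j a b, p i a = p j b → i = j ∧ a = b
  nJ : ∀ i a, p i a ∉ J
  deg : ∀ i a b, (p i a).1.natDegree = (p i b).1.natDegree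
  big : ∀ i a, D₀ < (p i a).1.natDegree
  small : ∀ i, ∀ Q : Pl F, Q.1.natDegree ≤ D₀ → SqM Q ((p i true).1 * (p i false).1)
  sqJ : ∀ i, ∀ Q ∈ J, SqM Q ((p i true).1 * (p i false).1)
  sqp : ∀ i j b, j ≠ i → SqM (p j b) ((p i true).1 * (p i false).1)
  eta : (∑ Q ∈ J.filter (fun Q => D₀ < Q.1.natDegree), 1 / (Fintype.card F : ℝ) ^ Q.1.natDegree) +
    ∑ i, 2 / (Fintype.card F : ℝ) ^ (p i true).1.natDegree ≤ η

end

end Pool.Agent.H456.PS
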