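import Pool.Agent.H456.PS.Out9
import Pool.Agent.H456.PS.All3
import Pool.Agent.H456.Coh.Out

/-!
# Ranks in the unions of the families of curves with starred fibres
-/

set_option autoImplicit false
set_option linter.all false

open Polynomial WeierstrassCurve Finset Filter
open Pool.Agent.H456.EC
open Pool.Agent.H456.RN
open Pool.Agent.H456.BQ
open Pool.Agent.H456.Coh
open Pool.Agent.H456.PR
open Pool.Agent.H456.Pub (law prop SelTwo SelInf SelInfTwo share starFam starUnion sqf twistP ShaTwoTrivial rank mean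
  mean_coe s2_card)

namespace Pool.Agent.H456.PS

variable {F : Type} [Field F] [Fintype F]

theorem CL_tot (h2 : (2 : F) ≠ 0) : ∀ᶠ d in atTop, ∑ κ ∈ CL F d, (s2 κ : ℝ) ≤ 4 * (CL F d).card := by
  have h := (Pool.Agent.H456.Coh.fam_lim (F := F) h2 (Z := Set.univ) ⟨1, 0, one_ne_zero, fun _ _ _ _ _ _ _ _ => by simp⟩
    ⟨1, by rw [Set.inter_univ]; exact Pool.Agent.H456.BQ.ne_cls h2 le_rfl⟩).2.1
  simp only [Set.inter_univ] at h
  filter_upwards [h.eventually (ge_mem_nhds (show (3 : ℝ) < 4 by norm_num)), eventually_ge_atTop 1] with d hd hd1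
  have hCL : (0 : ℝ) < (CL F d).card := by
    have h7 := ne_cls (F := F) h2 hd1
    rw [← coe_CL, coe_nonempty] at h7
    exact_mod_cast h7.card_pos
  rw [← coe_CL, finsum_mem_coe_finset, Set.ncard_coe_finset, div_le_iff₀ hCL] at hd
  exact hd

theorem le_dim (J m : ℕ) (hJ : 1 ≤ J) : (m : ℝ) ≤ J + J / 2 ^ J * 2 ^ m := by
  by_cases h : m < J
  · have h1 : (m : ℝ) ≤ J := by exact_mod_cast h.le
    have : (0 : ℝ) ≤ J / 2 ^ J * 2 ^ m := by positivity
    linarith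
  · have h3 := dim_mono J m hJ (not_lt.1 h)
    have h4 : (m : ℝ) ≤ J / 2 ^ J * 2 ^ m := by
      rw [div_mul_eq_mul_div, le_div_iff₀ (by positivity)]
      exact h3
    have : (0 : ℝ) ≤ J := Nat.cast_nonneg _
    linarith

open Classical in
/-- the average rank in the unions -/
theorem union_avg (h2 : (2 : F) ≠ 0) (ε : ℝ) (hε : 0 < ε) (k₀ : ℕ)
    (H : ∀ k ≥ k₀, (∃ δ : ℝ, 0 < δ ∧ ∀ᶠ d : ℕ in atTop, δ * ((CL F d).card : ℝ) ≤ ((Fam F (2 * k) d).card : ℝ)) ∧
      ∀ᶠ d : ℕ in atTop, mean ((Fam F (2 * k) d : Finset (KC F)) : Set (KC F)) (fun κ => rank κ.out) ≤ 1.265 + ε / 2)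
    (A : Set ℕ) (hA : A.Nonempty) (hA0 : ∀ k ∈ A, k₀ ≤ k) :
    ∀ᶠ d : ℕ in atTop, mean ((FamU F A d : Finset (KC F)) : Set (KC F)) (fun κ => rank κ.out) ≤ 1.265 + ε := by
  obtain ⟨a, ha⟩ := hA
  obtain ⟨⟨δ, hδ, h1⟩, -⟩ := H a (hA0 a ha)
  have hsub : ∀ k ∈ A, ∀ d, Fam F (2 * k) d ⊆ FamU F A d := by
    intro k hk d κ hκ
    unfold Fam at hκ
    unfold FamU
    rw [mem_filter] at hκ ⊢
    exact ⟨hκ.1, k, hk, hκ.2⟩
  have h1' : ∀ᶠ d : ℕ in atTop, δ * ((CL F d).card : ℝ) ≤ ((FamU F A d).card : ℝ) := by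
    filter_upwards [h1] with d hd
    refine hd.trans ?_
    exact_mod_cast card_le_card (hsub a ha d)
  obtain ⟨J, hJ1, hJ⟩ := ex_J 4 (ε / 4 * δ) (by positivity)
  have hJ0 : (0 : ℝ) < J := by exact_mod_cast hJ1
  obtain ⟨K, hK⟩ := star_tail h2 (ε / 4 * δ / J) (by positivity)
  set A' : Finset ℕ := (range K).filter (fun k => k ∈ A) with hA'
  have hev : ∀ᶠ d : ℕ in atTop, ∀ k ∈ A',
      mean ((Fam F (2 * k) d : Finset (KC F)) : Set (KC F)) (fun κ => rank κ.out) ≤ 1.265 + ε / 2 := by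
    rw [Filter.eventually_all_finset]
    intro k hk
    exact (H k (hA0 k (mem_filter.1 hk).2)).2
  filter_upwards [h1', hK, hev, CL_tot h2, eventually_ge_atTop 1] with d hd1 hd2 hd3 hd4 hd5
  have hCL : (0 : ℝ) < (CL F d).card := by
    have h7 := ne_cls (F := F) h2 hd5
    rw [← coe_CL, coe_nonempty] at h7
    exact_mod_cast h7.card_pos
  have hU : (0 : ℝ) < (FamU F A d).card := lt_of_lt_of_le (mul_pos hδ hCL) hd1
  -- the decomposition
  set V : Finset (KC F) := A'.biUnion (fun k => Fam F (2 * k) d) with hV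
  have hVU : V ⊆ FamU F A d := by
    intro κ hκ
    rw [hV, mem_biUnion] at hκ
    obtain ⟨k, hk, hκ⟩ := hκ
    exact hsub k (mem_filter.1 hk).2 d hκ
  have hdis : ∀ k ∈ A', ∀ k' ∈ A', k ≠ k' → Disjoint (Fam F (2 * k) d) (Fam F (2 * k') d) := by
    intro k _ k' _ hne
    rw [disjoint_left]
    intro κ hκ hκ'
    unfold Fam at hκ hκ'
    rw [mem_filter] at hκ hκ'
    have := StK_unique hκ.2 hκ'.2
    omega
  have hVs : ∑ κ ∈ V, (rank κ.out : ℝ) = ∑ k ∈ A', ∑ κ ∈ Fam F (2 * k) d, (rank κ.out : ℝ) := by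
    rw [hV, sum_biUnion]
    intro k hk k' hk' hne
    exact hdis k hk k' hk' hne
  have hVc : (V.card : ℝ) = ∑ k ∈ A', ((Fam F (2 * k) d).card : ℝ) := by
    rw [hV, card_biUnion hdis, Nat.cast_sum]
  have hT : ((FamU F A d \ V).card : ℝ) ≤ ε / 4 * δ / J * (CL F d).card := by
    refine le_trans ?_ hd2
    have : (FamU F A d \ V).card ≤ ((CL F d).filter (fun κ => ∃ k ≥ K, StK (2 * k) κ)).card := by
      apply card_le_card
      intro κ hκ
      rw [Finset.mem_sdiff] at hκ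
      obtain ⟨h3, h4⟩ := hκ
      unfold FamU at h3
      rw [mem_filter] at h3 ⊢
      obtain ⟨h5, k, hk, h6⟩ := h3
      refine ⟨h5, k, ?_, h6⟩
      by_contra hlt
      push Not at hlt
      apply h4
      rw [hV, mem_biUnion]
      refine ⟨k, mem_filter.2 ⟨mem_range.2 hlt, hk⟩, ?_⟩
      unfold Fam
      exact mem_filter.2 ⟨h5, h6⟩
    exact_mod_cast this
  have hsubU : FamU F A d ⊆ CL F d := filter_subset _ _
  have hUs : ∑ κ ∈ FamU F A d, (rank κ.out : ℝ) = ∑ κ ∈ FamU F A d \ V, (rank κ.out : ℝ) + ∑ κ ∈ V, (rank κ.out : ℝ) :=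
    (sum_sdiff hVU).symm
  have hV1 : ∑ κ ∈ V, (rank κ.out : ℝ) ≤ (1.265 + ε / 2) * (FamU F A d).card := by
    have h3 : ∀ k ∈ A', ∑ κ ∈ Fam F (2 * k) d, (rank κ.out : ℝ) ≤ (1.265 + ε / 2) * (Fam F (2 * k) d).card := by
      intro k hk
      have h4 := hd3 k hk
      rw [mean_coe] at h4
      rcases Nat.eq_zero_or_pos (Fam F (2 * k) d).card with h0 | h0
      · rw [card_eq_zero] at h0
        rw [h0]
        simp
      · have h0' : (0 : ℝ) < (Fam F (2 * k) d).card := by exact_mod_cast h0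
        rw [div_le_iff₀ h0'] at h4
        exact h4
    rw [hVs]
    refine (sum_le_sum h3).trans ?_
    rw [← mul_sum, ← hVc]
    apply mul_le_mul_of_nonneg_left _ (by positivity)
    exact_mod_cast card_le_card hVU
  have hT1 : ∑ κ ∈ FamU F A d \ V, (rank κ.out : ℝ) ≤ ε / 2 * (FamU F A d).card := by
    have h3 : ∀ κ ∈ FamU F A d \ V, (rank κ.out : ℝ) ≤ J + J / 2 ^ J * (s2 κ : ℝ) := by
      intro κ hκ
      have hκ' := hsubU (Finset.mem_sdiff.1 hκ).1
      have h4 : (rank κ.out : ℝ) ≤ (Nat.log 2 (s2 κ) : ℕ) := by exact_mod_cast rank_log h2 hκ'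
      refine h4.trans ((le_dim J _ hJ1).trans (le_of_eq ?_))
      have h := s2_pow h2 hκ'
      have h' : ((2 ^ Nat.log 2 (s2 κ) : ℕ) : ℝ) = (s2 κ : ℝ) := by rw [← h]
      rw [← h']
      push_cast
      rfl
    refine (sum_le_sum h3).trans ?_
    rw [sum_add_distrib, sum_const, nsmul_eq_mul, ← mul_sum]
    have h5 : ∑ κ ∈ FamU F A d \ V, (s2 κ : ℝ) ≤ 4 * (CL F d).card := by
      refine le_trans ?_ hd4
      apply sum_le_sum_of_subset_of_nonneg
      · exact (Finset.sdiff_subset).trans hsubU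
      · intro κ _ _
        exact Nat.cast_nonneg _
    have h6 : (J : ℝ) / 2 ^ J * ∑ κ ∈ FamU F A d \ V, (s2 κ : ℝ) ≤ ε / 4 * δ * (CL F d).card := by
      have h7 := mul_le_mul_of_nonneg_left h5 (show (0 : ℝ) ≤ J / 2 ^ J by positivity)
      have h8 := mul_le_mul_of_nonneg_right hJ hCL.le
      linarith
    have h7 : ((FamU F A d \ V).card : ℝ) * J ≤ ε / 4 * δ * (CL F d).card := by
      have h8 := mul_le_mul_of_nonneg_right hT hJ0.le
      refine h8.trans (le_of_eq ?_)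
      field_simp
    have h9 := mul_le_mul_of_nonneg_left hd1 (show (0 : ℝ) ≤ ε / 2 by positivity)
    linarith
  rw [mean_coe, div_le_iff₀ hU, hUs]
  linarith

/-- **the ranks in the unions of the families** -/
theorem union_ranks (h2 : (2 : F) ≠ 0) (ε : ℝ) (hε : 0 < ε) :
    ∃ k₀ : ℕ, ∀ A : Set ℕ, A.Nonempty → (∀ k ∈ A, k₀ ≤ k) →
      (∃ δ : ℝ, 0 < δ ∧ ∀ᶠ d : ℕ in atTop, δ * ((cls '' Eqn F d).ncard : ℝ) ≤ ((starUnion F A d).ncard : ℝ)) ∧
      ∀ᶠ d : ℕ in atTop,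
        (∀ j : ℕ, |share (starUnion F A d) (fun κ => Nat.card (SelTwo κ.out) = 2 ^ j) - law j| ≤ ε) ∧
        0.2097 - ε ≤ share (starUnion F A d) (fun κ => Finite κ.out.toAffine.Point) ∧
        0.629 - 2 * ε ≤ share (starUnion F A d) (fun κ => rank κ.out ≤ 1) ∧
        mean (starUnion F A d) (fun κ => rank κ.out) ≤ 1.265 + ε := by
  classical
  obtain ⟨k₀, hk⟩ := union_sha (F := F) h2 ε hε
  obtain ⟨k₁, hk'⟩ := star_all (F := F) h2 (ε / 2) (half_pos hε)
  refine ⟨max k₀ k₁, fun A hA hA0 => ?_⟩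
  obtain ⟨hd, hs⟩ := hk A hA (fun k hk => le_trans (le_max_left _ _) (hA0 k hk))
  refine ⟨hd, ?_⟩
  have hm := union_avg (F := F) h2 ε hε (max k₀ k₁) (fun k hk0 => by
    obtain ⟨⟨δ, hδ, h3⟩, h4⟩ := hk' k (le_trans (le_max_right _ _) hk0)
    refine ⟨⟨δ, hδ, ?_⟩, ?_⟩
    · filter_upwards [h3] with d hd
      rw [← coe_Fam h2, ← coe_CL, Set.ncard_coe_finset, Set.ncard_coe_finset] at hd
      exact hd
    · filter_upwards [h4] with d hd4
      rw [← coe_Fam h2] at hd4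
      exact hd4.2.2.2.2) A hA hA0
  filter_upwards [hs, hm] with d hd1 hd2
  obtain ⟨a1, a2, a3⟩ := hd1
  rw [coe_FamU h2] at hd2
  refine ⟨a1, ?_, ?_, hd2⟩
  · have h0 : (0.2097 : ℝ) < law 0 := a_num.1
    have b1 := (abs_le.1 a3).1
    have b2 : share (starUnion F A d) (fun κ => Finite κ.out.toAffine.Point ∧ Nat.card (SelInf κ.out) = 1 ∧
        ShaTwoTrivial κ.out) ≤ share (starUnion F A d) (fun κ => Finite κ.out.toAffine.Point) := by
      rw [← coe_FamU h2]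
      simp only [share_coe]
      exact prop_mono (fun κ _ hκ => hκ.1)
    linarith
  · have a10 := abs_le.1 (a1 0)
    have a11 := abs_le.1 (a1 1)
    obtain ⟨n1, n2, n3⟩ := a_num
    have e4 : ∀ j, law j = Cd j := fun _ => rfl
    rw [e4] at a10 a11
    rw [← coe_FamU h2] at a10 a11 ⊢
    simp only [share_coe] at a10 a11 ⊢
    have hsub : FamU F A d ⊆ CL F d := filter_subset _ _
    have hs2 : ∀ j, prop (FamU F A d) (fun κ => Nat.card (SelTwo κ.out) = 2 ^ j) =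
        prop (FamU F A d) (fun κ => s2 κ = 2 ^ j) := by
      intro j
      apply prop_congr
      intro κ _
      rw [s2_card]
    rw [hs2] at a10 a11
    have c0 : Cd 0 - ε ≤ prop (FamU F A d) (fun κ => s2 κ = 2 ^ 0) := by
      have := a10.1
      linarith
    have c1 : Cd 1 - ε ≤ prop (FamU F A d) (fun κ => s2 κ = 2 ^ 1) := by
      have := a11.1
      linarith
    refine le_trans (b := prop (FamU F A d) (fun κ => s2 κ = 2 ^ 0) + prop (FamU F A d) (fun κ => s2 κ = 2 ^ 1))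
      (by
        rw [n2] at c1
        have c2 : 3 * Cd 0 - 2 * ε ≤ prop (FamU F A d) (fun κ => s2 κ = 2 ^ 0) + prop (FamU F A d) (fun κ => s2 κ = 2 ^ 1) := by
          linarith
        refine le_trans ?_ c2
        have c3 : (0.629 : ℝ) ≤ 3 * Cd 0 := by linarith
        linarith) ?_
    rw [← prop_or (fun κ _ a b => by rw [a] at b; norm_num at b)]
    apply prop_mono
    intro κ hκ hc
    have hΔ := KC_Δ h2 (hsub hκ)
    rcases hc with hc | hc
    · exact ((t_rk F h2 _ hΔ 0 hc).2.1).trans (by norm_num)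
    · exact (t_rk F h2 _ hΔ 1 hc).2.1

end Pool.Agent.H456.PS
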