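import Pool.Agent.H456.PS.Stm
import Pool.Agent.H456.PR.Stm2

/-!
# The Poonen-Rains law for the elliptic curves with starred fibres of a given total degree: statements
-/

set_option autoImplicit false
set_option linter.all false

open Polynomial Finset Filter
open Pool.Agent.H456.EC (toK toK_inj sig toK_eq reflect_toK cls)
open Pool.Agent.H456.RN
open Pool.Agent.H456.BQ
open Pool.Agent.H456.Coh (TF)
open Pool.Agent.H456.PP (OneR NoR HasRt sx hh Tz Tq Iso3 nr IsoP nrP)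
open Pool.Agent.H456.PR

namespace Pool.Agent.H456.PS

section

variable {F : Type} [Field F]

/-- the places where `h` is a twist form a set of total degree `m` -/
def StJ (m : ℕ) (h : Cub F[X]) : Prop := ∃ J : Finset (Pl F), (DJ J).natDegree = m ∧ ∀ P, TwP P h ↔ P ∈ J

/-- minimality at `P` -/
def MinAt (P : Pl F) (f : Cub F[X]) : Prop := ¬ ∃ (g : Cub F[X]) (r : F[X]), f.tr r = g.sc (P.1 ^ 2)

/-- the fibre at `P` is starred: some equation `y² = f(x)` which is minimal at `P` is up to a translation a twist by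
`P` -/
def Starred (P : Pl F) (κ : KC F) : Prop := ∃ f : Cub F[X], f.disc ≠ 0 ∧ cls (crv f) = κ ∧ MinAt P f ∧ TwP P f

/-- the starred fibres have total degree `m` -/
def StK (m : ℕ) (κ : KC F) : Prop := ∃ J : Finset (Pl F), (DJ J).natDegree = m ∧ ∀ P, Starred P κ ↔ P ∈ J

end

open Classical in
/-- **(v0)** a positive proportion of the cubics is not a twist at any place. -/
def S_v0 : Prop := ∀ (F : Type) [Field F] [Fintype F], (2 : F) ≠ 0 → ∀ᶠ n in atTop,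
  (1 / 8 : ℝ) * (Fintype.card F : ℝ) ^ (12 * n + 3) ≤ ((Msh F n).filter (fun f => ∀ P, ¬ TwP P f)).card

open Classical in
/-- **(v1)** sums over the cubics with starred fibres of total degree `2 k`. -/
def S_v1 : Prop := ∀ (F : Type) [Field F] [Fintype F], (2 : F) ≠ 0 → ∀ (k : ℕ) (𝒮 : Finset (Finset (Pl F))),
  (∀ J, J ∈ 𝒮 ↔ J ∈ SJ F (2 * k)) → ∀ (Φ : Cub F[X] → ℝ), (∀ f r, Φ (f.tr r) = Φ f) → ∀ n : ℕ, 2 * k ≤ n →
    ∑ h ∈ (Msh F (n + k)).filter (fun h => StJ (2 * k) h), Φ h =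
      (Fintype.card F : ℝ) ^ (2 * k) * ∑ f ∈ (Msh F n).filter (fun f => ∀ P, ¬ TwP P f), ∑ J ∈ 𝒮, Φ (f.sc (DJ J))

open Classical in
/-- **(v2)** the law for the cubics with starred fibres of total degree `2 k`. -/
def S_v2 : Prop := ∀ (F : Type) [Field F] [Fintype F], (2 : F) ≠ 0 → ∀ ε : ℝ, 0 < ε → ∃ k₀ : ℕ, ∀ k ≥ k₀,
  (∃ c : ℝ, 0 < c ∧ ∀ᶠ n in atTop, c * (Fintype.card F : ℝ) ^ (12 * n + 3) ≤
    ((Msh F n).filter (fun h => StJ (2 * k) h)).card) ∧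
  ∀ᶠ n in atTop, ∀ j : ℕ, |(((Msh F n).filter (fun h => StJ (2 * k) h ∧ NT ∅ h = 2 ^ j)).card : ℝ) -
    Cd j * ((Msh F n).filter (fun h => StJ (2 * k) h)).card| ≤ ε * ((Msh F n).filter (fun h => StJ (2 * k) h)).card

/-- **(v3)** the starred fibres of a minimal equation. -/
def S_v3 : Prop := ∀ (F : Type) [Field F] [Fintype F], (2 : F) ≠ 0 → ∀ (n : ℕ) (f : Cub F[X]), f ∈ Msh F n → ∀ P : Pl F,
  (Starred P (cls (crv f)) ↔ TwP P f)

open Classical in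
/-- **(v4)** transfer of estimates for signed sums to the isomorphism classes. -/
def S_v4 : Prop := ∀ (F : Type) [Field F] [Fintype F], (2 : F) ≠ 0 → ∀ (ι : Type) (w : ι → KC F → ℝ) (v : KC F → ℝ),
  (∀ i κ, |w i κ| ≤ 1) → (∀ κ, 0 ≤ v κ ∧ v κ ≤ 1) → ∀ c ε : ℝ, 0 < c → 0 < ε →
  (∀ᶠ n in atTop, c * (Fintype.card F : ℝ) ^ (12 * n + 3) ≤ ∑ f ∈ Msh F n, v (cls (crv f))) →
  (∀ᶠ n in atTop, ∀ i, |∑ f ∈ Msh F n, w i (cls (crv f))| ≤ ε * ∑ f ∈ Msh F n, v (cls (crv f))) →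
  (∃ c' : ℝ, 0 < c' ∧ ∀ᶠ d in atTop, c' * (CL F d).card ≤ ∑ κ ∈ CL F d, v κ) ∧
  ∀ᶠ d in atTop, ∀ i, |∑ κ ∈ CL F d, w i κ| ≤ 3 * ε * ∑ κ ∈ CL F d, v κ

end Pool.Agent.H456.PS
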