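import Pool.Agent.H456.PS.Out
import Pool.Agent.H456.PS.Stm2
import Pool.Agent.H456.Pub.Star

/-!
# The law for the families with starred fibres of given total degree: the final form
-/

set_option autoImplicit false
set_option linter.all false

open Polynomial WeierstrassCurve Finset Filter
open Pool.Agent.H456.EC
open Pool.Agent.H456.RN
open Pool.Agent.H456.BQ
open Pool.Agent.H456.Coh
open Pool.Agent.H456.PR
open Pool.Agent.H456.Pub (SameClass Tors Prim Killed twist law prop twistP SelTwo SelInf SelInfTwo rank card_tors card_prim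
  sqf share starFam DivBy s2_card sI_card)

namespace Pool.Agent.H456.PS

section

variable {F : Type} [Field F]

theorem TwP_iff {P : Pl F} {f : Cub F[X]} : TwP P f ↔ DivBy P.1 f.a f.b f.c := by
  unfold TwP tw
  constructor
  · rintro ⟨g, r, h, -⟩
    have h1 := congrArg Cub.a h
    have h2 := congrArg Cub.b h
    have h3 := congrArg Cub.c h
    simp only [Cub.tr, Cub.sc] at h1 h2 h3
    exact ⟨r, ⟨g.a, h1⟩, ⟨g.b, h2⟩, ⟨g.c, h3⟩⟩
  · rintro ⟨r, ⟨a, h1⟩, ⟨b, h2⟩, ⟨c, h3⟩⟩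
    refine ⟨⟨a, b, c⟩, r, ?_, trivial⟩
    ext1
    · exact h1
    · exact h2
    · exact h3

theorem MinAt_iff {P : Pl F} {f : Cub F[X]} : MinAt P f ↔ ¬ DivBy (P.1 ^ 2) f.a f.b f.c := by
  unfold MinAt
  apply not_congr
  constructor
  · rintro ⟨g, r, h⟩
    have h1 := congrArg Cub.a h
    have h2 := congrArg Cub.b h
    have h3 := congrArg Cub.c h
    simp only [Cub.tr, Cub.sc] at h1 h2 h3
    exact ⟨r, ⟨g.a, h1⟩, ⟨g.b, h2⟩, ⟨g.c, h3⟩⟩
  · rintro ⟨r, ⟨a, h1⟩, ⟨b, h2⟩, ⟨c, h3⟩⟩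
    refine ⟨⟨a, b, c⟩, r, ?_⟩
    ext1
    · exact h1
    · exact h2
    · exact h3

theorem Starred_iff (h2 : (2 : F) ≠ 0) {P : Pl F} {κ : KC F} : Pub.Starred P.1 κ ↔ Starred P κ := by
  have h16 : (16 : F[X]) ≠ 0 := by
    have : (16 : F[X]) = C ((2 : F) ^ 4) := by
      rw [C_pow, C_ofNat]; norm_num
    rw [this]
    exact C_ne_zero.2 (pow_ne_zero _ h2)
  have hΔ : ∀ f : Cub F[X], (crv f).Δ ≠ 0 ↔ f.disc ≠ 0 := by
    intro f
    rw [crv_Δ]
    exact ⟨fun h => right_ne_zero_of_mul h, fun h => mul_ne_zero h16 h⟩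
  constructor
  · rintro ⟨a, b, c, h0, h1, h3, h4⟩
    exact ⟨⟨a, b, c⟩, (hΔ ⟨a, b, c⟩).1 h0, h1, MinAt_iff.2 h4, TwP_iff.2 h3⟩
  · rintro ⟨f, h0, h1, h3, h4⟩
    exact ⟨f.a, f.b, f.c, (hΔ f).2 h0, h1, TwP_iff.1 h4, MinAt_iff.1 h3⟩

theorem DJ_deg (J : Finset (Pl F)) : (DJ J).natDegree = ∑ P ∈ J, P.1.natDegree := by
  unfold DJ
  rw [natDegree_prod_of_monic _ _ fun P _ => P.2.1]

theorem StK_iff (h2 : (2 : F) ≠ 0) {m : ℕ} {κ : KC F} : StK m κ ↔
    ∃ S : Finset F[X], (∀ P, P ∈ S ↔ P.Monic ∧ Irreducible P ∧ Pub.Starred P κ) ∧ ∑ P ∈ S, P.natDegree = m := by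
  classical
  unfold StK
  constructor
  · rintro ⟨J, hJ, h⟩
    refine ⟨J.map ⟨Subtype.val, Subtype.val_injective⟩, fun P => ?_, ?_⟩
    · rw [Finset.mem_map]
      constructor
      · rintro ⟨Q, hQ, rfl⟩
        exact ⟨Q.2.1, Q.2.2, (Starred_iff h2).2 ((h Q).2 hQ)⟩
      · rintro ⟨hm, hi, hs⟩
        exact ⟨⟨P, hm, hi⟩, (h ⟨P, hm, hi⟩).1 ((Starred_iff h2).1 hs), rfl⟩
    · rw [sum_map, ← hJ, DJ_deg]
      rfl
  · rintro ⟨S, hS, hd⟩
    refine ⟨S.attach.image (fun P => ⟨P.1, ((hS P.1).1 P.2).1, ((hS P.1).1 P.2).2.1⟩), ?_, fun P => ?_⟩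
    · rw [DJ_deg, sum_image, ← hd, ← sum_attach S]
      intro x _ y _ hxy
      exact Subtype.ext (congrArg (fun z : Pl F => z.1) hxy)
    · rw [mem_image]
      constructor
      · intro h
        have hP : P.1 ∈ S := (hS P.1).2 ⟨P.2.1, P.2.2, (Starred_iff h2).2 h⟩
        exact ⟨⟨P.1, hP⟩, mem_attach _ _, rfl⟩
      · rintro ⟨x, _, hx⟩
        rw [← Starred_iff h2, ← hx]
        exact ((hS x.1).1 x.2).2.2

end

variable {F : Type} [Field F] [Fintype F]

theorem StK_cls (hv3 : S_v3) (h2 : (2 : F) ≠ 0) {n m : ℕ} {f : Cub F[X]} (hf : f ∈ Msh F n) :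
    StK m (cls (crv f)) ↔ StJ m f := by
  unfold StK StJ
  simp only [hv3 F h2 n f hf]

open Classical in
/-- the members of the family -/
noncomputable def Fam (F : Type) [Field F] [Fintype F] (m d : ℕ) : Finset (KC F) := (CL F d).filter (fun κ => StK m κ)

theorem coe_Fam (h2 : (2 : F) ≠ 0) (m d : ℕ) : ((Fam F m d : Finset (KC F)) : Set (KC F)) = starFam F m d := by
  classical
  ext κ
  unfold Fam starFam
  rw [mem_coe, mem_filter, ← mem_CL_iff, StK_iff h2]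
  exact Iff.rfl

theorem s2_NT (h2 : (2 : F) ≠ 0) {f : Cub F[X]} (hf : f.disc ≠ 0) : s2 (cls (crv f)) = NT ∅ f := by
  obtain ⟨e⟩ := equiv_s2 hypC_all t_transp h2 hf
  unfold s2 NT
  refine (Nat.card_congr e).trans (Nat.card_congr ?_)
  exact (Equiv.subtypeUnivEquiv (fun σ P hP => absurd hP (Finset.notMem_empty P))).symm

theorem Cd_nonneg (j : ℕ) : 0 ≤ Cd j := by
  unfold Cd ak
  have h4 : (4 : ℝ) ≤ ∏' j : ℕ, (1 + (1 / 2 : ℝ) ^ j) := a_eul.2.2
  refine mul_nonneg (inv_nonneg.2 (by linarith)) (prod_nonneg fun i _ => div_nonneg (by norm_num) ?_)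
  have : (1 : ℝ) ≤ 2 ^ (i + 1) := one_le_pow₀ (by norm_num)
  linarith

theorem Cd_le (j : ℕ) : Cd j ≤ 1 := by
  have h := a_num.2.2
  have h1 := sum_le_hasSum {j} (fun i _ => Cd_nonneg i) h
  rwa [sum_singleton] at h1

open Classical in
/-- **the law for the family, for the orders of the 2-Selmer groups** -/
theorem star_s2 (hv2 : S_v2) (hv3 : S_v3) (hv4 : S_v4) (h2 : (2 : F) ≠ 0) (ε : ℝ) (hε : 0 < ε) :
    ∃ k₀ : ℕ, ∀ k ≥ k₀, (∃ δ : ℝ, 0 < δ ∧ ∀ᶠ d in atTop, δ * (CL F d).card ≤ (Fam F (2 * k) d).card) ∧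
      ∀ᶠ d in atTop, ∀ j : ℕ, |prop (Fam F (2 * k) d) (fun κ => s2 κ = 2 ^ j) - Cd j| ≤ ε := by
  obtain ⟨k₀, hk⟩ := hv2 F h2 (ε / 3) (by positivity)
  refine ⟨k₀, fun k hk0 => ?_⟩
  obtain ⟨⟨c, hc, h1⟩, h3⟩ := hk k hk0
  set w : ℕ → KC F → ℝ := fun j κ => if StK (2 * k) κ then (if s2 κ = 2 ^ j then 1 else 0) - Cd j else 0 with hw
  set v : KC F → ℝ := fun κ => if StK (2 * k) κ then 1 else 0 with hv
  have hw1 : ∀ j κ, |w j κ| ≤ 1 := by
    intro j κ
    have a1 := Cd_nonneg j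
    have a2 := Cd_le j
    simp only [hw]
    split_ifs
    · rw [abs_le]; constructor <;> linarith
    · rw [abs_le]; constructor <;> linarith
    · rw [abs_zero]; exact zero_le_one
  have hv1 : ∀ κ, 0 ≤ v κ ∧ v κ ≤ 1 := by
    intro κ
    simp only [hv]
    split_ifs <;> norm_num
  have hvM : ∀ n, ∑ f ∈ Msh F n, v (cls (crv f)) = ((Msh F n).filter (fun h => StJ (2 * k) h)).card := by
    intro n
    simp only [hv]
    rw [sum_congr rfl (g := fun f => if StJ (2 * k) f then (1 : ℝ) else 0) (fun f hf => by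
      simp only [StK_cls hv3 h2 hf]), sum_boole]
  have hwM : ∀ n j, ∑ f ∈ Msh F n, w j (cls (crv f)) =
      (((Msh F n).filter (fun h => StJ (2 * k) h ∧ NT ∅ h = 2 ^ j)).card : ℝ) -
        Cd j * ((Msh F n).filter (fun h => StJ (2 * k) h)).card := by
    intro n j
    have e : ∀ f ∈ Msh F n, w j (cls (crv f)) = (if StJ (2 * k) f ∧ NT ∅ f = 2 ^ j then (1 : ℝ) else 0) -
        Cd j * (if StJ (2 * k) f then (1 : ℝ) else 0) := by
      intro f hf
      simp only [hw]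
      rw [s2_NT h2 (mem_Msh.1 hf).2.1]
      by_cases hS : StJ (2 * k) f
      · rw [if_pos ((StK_cls hv3 h2 hf).2 hS), if_pos hS]
        by_cases hN : NT ∅ f = 2 ^ j
        · rw [if_pos hN, if_pos ⟨hS, hN⟩, mul_one]
        · rw [if_neg hN, if_neg (fun h => hN h.2), mul_one]
      · rw [if_neg (fun h => hS ((StK_cls hv3 h2 hf).1 h)), if_neg (fun h => hS h.1), if_neg hS, mul_zero, sub_zero]
    rw [sum_congr rfl e, sum_sub_distrib, ← mul_sum, sum_boole, sum_boole]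
  obtain ⟨⟨c', hc', h5⟩, h6⟩ := hv4 F h2 ℕ w v hw1 hv1 c (ε / 3) hc (by positivity)
    (by filter_upwards [h1] with n hn; rw [hvM n]; exact hn)
    (by filter_upwards [h3] with n hn; intro j; rw [hvM n, hwM n j]; exact hn j)
  have hvC : ∀ d, ∑ κ ∈ CL F d, v κ = (Fam F (2 * k) d).card := by
    intro d
    simp only [hv, sum_boole, Fam]
  refine ⟨⟨c', hc', by filter_upwards [h5] with d hd; rw [← hvC d]; exact hd⟩, ?_⟩
  filter_upwards [h6, h5, eventually_ge_atTop 1] with d hd hd5 hd1 j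
  have hCL : (0 : ℝ) < (CL F d).card := by
    have h7 := ne_cls (F := F) h2 hd1
    rw [← coe_CL, coe_nonempty] at h7
    exact_mod_cast h7.card_pos
  have hF : (0 : ℝ) < (Fam F (2 * k) d).card := by
    rw [← hvC d]
    exact lt_of_lt_of_le (mul_pos hc' hCL) hd5
  have hd' := hd j
  rw [hvC d] at hd'
  have e : ∑ κ ∈ CL F d, w j κ = (((Fam F (2 * k) d).filter (fun κ => s2 κ = 2 ^ j)).card : ℝ) -
      Cd j * (Fam F (2 * k) d).card := by
    simp only [hw]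
    rw [← sum_filter]
    change ∑ κ ∈ Fam F (2 * k) d, _ = _
    rw [sum_sub_distrib, sum_boole, sum_const, nsmul_eq_mul]
    ring
  rw [e] at hd'
  have e0 : prop (Fam F (2 * k) d) (fun κ => s2 κ = 2 ^ j) =
      (((Fam F (2 * k) d).filter (fun κ => s2 κ = 2 ^ j)).card : ℝ) / (Fam F (2 * k) d).card := by
    unfold prop
    congr!
  have e2 : (((Fam F (2 * k) d).filter (fun κ => s2 κ = 2 ^ j)).card : ℝ) / (Fam F (2 * k) d).card - Cd j =
      ((((Fam F (2 * k) d).filter (fun κ => s2 κ = 2 ^ j)).card : ℝ) - Cd j * (Fam F (2 * k) d).card) /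
        (Fam F (2 * k) d).card := by
    rw [sub_div, mul_div_cancel_right₀ _ hF.ne']
  rw [e0, e2, abs_div, abs_of_pos hF, div_le_iff₀ hF]
  refine hd'.trans (le_of_eq (by ring))

theorem prop_le_add {A : Type} {𝒟 : Finset A} {p q : A → Prop} {g : A → Prop} (h : ∀ x ∈ 𝒟, g x → p x → q x) :
    prop 𝒟 p ≤ prop 𝒟 q + prop 𝒟 (fun x => ¬ g x) := by
  classical
  have e : ∀ r : A → Prop, prop 𝒟 r = ((𝒟.filter r).card : ℝ) / 𝒟.card := by
    intro r
    unfold prop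
    congr!
  rw [e, e, e, ← add_div]
  apply div_le_div_of_nonneg_right _ (Nat.cast_nonneg _)
  have h1 : 𝒟.filter p ⊆ 𝒟.filter q ∪ 𝒟.filter (fun x => ¬ g x) := by
    intro x hx
    rw [mem_filter] at hx
    rw [Finset.mem_union, mem_filter, mem_filter]
    by_cases hg : g x
    · exact Or.inl ⟨hx.1, h x hx.1 hg hx.2⟩
    · exact Or.inr ⟨hx.1, hg⟩
  have h3 := (card_le_card h1).trans (card_union_le _ _)
  have h4 : ((𝒟.filter p).card : ℝ) ≤ (𝒟.filter q).card + (𝒟.filter (fun x => ¬ g x)).card := by exact_mod_cast h3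
  refine (le_of_eq ?_).trans (h4.trans (le_of_eq ?_)) <;> congr!

open Classical in
theorem sI_s2 (h2 : (2 : F) ≠ 0) {d : ℕ} {κ : KC F} (hκ : κ ∈ CL F d)
    (h : ∀ T : κ.out.toAffine.Point, 2 • T = 0 → T = 0) : sI κ = s2 κ := by
  unfold sI s2
  exact killed_card h2 (KC_Δ h2 hκ) (fun T hT => h T (by convert hT))

open Classical in
/-- **the final form** -/
theorem fin_star (hv2 : S_v2) (hv3 : S_v3) (hv4 : S_v4) (h2 : (2 : F) ≠ 0) (ε : ℝ) (hε : 0 < ε) :
    ∃ k₀ : ℕ, ∀ k ≥ k₀, (∃ δ : ℝ, 0 < δ ∧ ∀ᶠ d : ℕ in atTop,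
        δ * ((cls '' Eqn F d).ncard : ℝ) ≤ ((starFam F (2 * k) d).ncard : ℝ)) ∧
      ∀ᶠ d : ℕ in atTop,
        (∀ j : ℕ, |share (starFam F (2 * k) d) (fun κ => Nat.card (SelTwo κ.out) = 2 ^ j) - law j| ≤ ε) ∧
        (∀ j : ℕ, |share (starFam F (2 * k) d) (fun κ => Nat.card (SelInfTwo κ.out) = 2 ^ j) - law j| ≤ ε) ∧
        0.2097 - ε ≤ share (starFam F (2 * k) d) (fun κ => Finite κ.out.toAffine.Point ∧
          Nat.card (SelInf κ.out) = 1) ∧
        0.629 - 2 * ε ≤ share (starFam F (2 * k) d) (fun κ => rank κ.out ≤ 1) := by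
  obtain ⟨k₀, hk⟩ := star_s2 hv2 hv3 hv4 h2 (ε / 2) (half_pos hε)
  refine ⟨k₀, fun k hk0 => ?_⟩
  obtain ⟨⟨δ, hδ, h1⟩, h3⟩ := hk k hk0
  refine ⟨⟨δ, hδ, ?_⟩, ?_⟩
  · filter_upwards [h1] with d hd
    rw [← coe_Fam h2, ← coe_CL, Set.ncard_coe_finset, Set.ncard_coe_finset]
    exact hd
  · filter_upwards [h1, h3, two_neg h2 (δ * (ε / 2)) (by positivity), eventually_ge_atTop 1] with d hd1 hd3 hd4 hd5
    rw [← coe_Fam h2]
    simp only [share_coe]
    have hCL : (0 : ℝ) < (CL F d).card := by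
      have h7 := ne_cls (F := F) h2 hd5
      rw [← coe_CL, coe_nonempty] at h7
      exact_mod_cast h7.card_pos
    have hF : (0 : ℝ) < (Fam F (2 * k) d).card := lt_of_lt_of_le (mul_pos hδ hCL) hd1
    have hsub : Fam F (2 * k) d ⊆ CL F d := filter_subset _ _
    -- the curves with a point of order two
    have hg : prop (Fam F (2 * k) d) (fun κ => ¬ ∀ T : κ.out.toAffine.Point, 2 • T = 0 → T = 0) ≤ ε / 2 := by
      have e0 : prop (Fam F (2 * k) d) (fun κ => ¬ ∀ T : κ.out.toAffine.Point, 2 • T = 0 → T = 0) =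
          (((Fam F (2 * k) d).filter (fun κ => ¬ ∀ T : κ.out.toAffine.Point, 2 • T = 0 → T = 0)).card : ℝ) /
            (Fam F (2 * k) d).card := by
        unfold prop
        congr!
      rw [e0, div_le_iff₀ hF]
      have e1 : (((Fam F (2 * k) d).filter (fun κ => ¬ ∀ T : κ.out.toAffine.Point, 2 • T = 0 → T = 0)).card : ℝ) ≤
          ((CL F d).filter (fun κ => ¬ ∀ T : κ.out.toAffine.Point, 2 • T = 0 → T = 0)).card := by
        exact_mod_cast card_le_card (filter_subset_filter _ hsub)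
      have e2 : (((CL F d).filter (fun κ => ¬ ∀ T : κ.out.toAffine.Point, 2 • T = 0 → T = 0)).card : ℝ) ≤
          δ * (ε / 2) * (CL F d).card := by convert hd4
      refine e1.trans (e2.trans ?_)
      have e3 : δ * (ε / 2) * ((CL F d).card : ℝ) = ε / 2 * (δ * (CL F d).card) := by ring
      rw [e3]
      exact mul_le_mul_of_nonneg_left hd1 (by positivity)
    have hs2 : ∀ j, prop (Fam F (2 * k) d) (fun κ => Nat.card (SelTwo κ.out) = 2 ^ j) =
        prop (Fam F (2 * k) d) (fun κ => s2 κ = 2 ^ j) := by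
      intro j
      apply prop_congr
      intro κ _
      rw [s2_card]
    have hsI : ∀ j, prop (Fam F (2 * k) d) (fun κ => Nat.card (SelInfTwo κ.out) = 2 ^ j) =
        prop (Fam F (2 * k) d) (fun κ => sI κ = 2 ^ j) := by
      intro j
      apply prop_congr
      intro κ _
      rw [sI_card]
    have a0 := abs_le.1 (hd3 0)
    have a1 := abs_le.1 (hd3 1)
    obtain ⟨n1, n2, n3⟩ := a_num
    refine ⟨fun j => ?_, fun j => ?_, ?_, ?_⟩
    · rw [hs2 j]
      exact (hd3 j).trans (by linarith)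
    · rw [hsI j]
      have b1 : prop (Fam F (2 * k) d) (fun κ => sI κ = 2 ^ j) ≤ prop (Fam F (2 * k) d) (fun κ => s2 κ = 2 ^ j) + ε / 2 :=
        (prop_le_add (p := fun κ => sI κ = 2 ^ j) (q := fun κ => s2 κ = 2 ^ j)
          (g := fun κ : KC F => ∀ T : κ.out.toAffine.Point, 2 • T = 0 → T = 0)
          (fun κ hκ hT h => by rw [← sI_s2 h2 (hsub hκ) hT]; exact h)).trans (by linarith)
      have b2 : prop (Fam F (2 * k) d) (fun κ => s2 κ = 2 ^ j) ≤ prop (Fam F (2 * k) d) (fun κ => sI κ = 2 ^ j) + ε / 2 :=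
        (prop_le_add (p := fun κ => s2 κ = 2 ^ j) (q := fun κ => sI κ = 2 ^ j)
          (g := fun κ : KC F => ∀ T : κ.out.toAffine.Point, 2 • T = 0 → T = 0)
          (fun κ hκ hT h => by rw [sI_s2 h2 (hsub hκ) hT]; exact h)).trans (by linarith)
      have b3 := abs_le.1 (hd3 j)
      have b4 : law j = Cd j := rfl
      rw [b4, abs_le]
      constructor <;> linarith [b3.1, b3.2]
    · refine le_trans (b := prop (Fam F (2 * k) d) (fun κ => s2 κ = 2 ^ 0)) (by linarith [a0.1]) ?_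
      apply prop_mono
      intro κ hκ hc
      have hΔ := KC_Δ h2 (hsub hκ)
      refine ⟨(t_rk F h2 _ hΔ 0 hc).2.2 rfl, ?_⟩
      rw [card_prim']
      exact t_sh F h2 _ hΔ (by rw [pow_zero] at hc; exact hc)
    · refine le_trans (b := prop (Fam F (2 * k) d) (fun κ => s2 κ = 2 ^ 0) + prop (Fam F (2 * k) d) (fun κ => s2 κ = 2 ^ 1))
        (by linarith [a0.1, a1.1]) ?_
      rw [← prop_or (fun κ _ a b => by rw [a] at b; norm_num at b)]
      apply prop_mono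
      intro κ hκ hc
      have hΔ := KC_Δ h2 (hsub hκ)
      rcases hc with hc | hc
      · exact ((t_rk F h2 _ hΔ 0 hc).2.1).trans (by norm_num)
      · exact (t_rk F h2 _ hΔ 1 hc).2.1

end Pool.Agent.H456.PS
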