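import Pool.Agent.H456.PS.Stm2

/-!
# The average rank of the twists of almost all elliptic curves over `F(t)`: statements
-/

set_option autoImplicit false
set_option linter.all false

open Polynomial Finset Filter
open Pool.Agent.H456.EC (toK toK_inj sig toK_eq reflect_toK cls)
open Pool.Agent.H456.RN
open Pool.Agent.H456.BQ
open Pool.Agent.H456.Coh (TF)
open Pool.Agent.H456.PP (OneR NoR HasRt sx hh Tz Tq Iso3 nr IsoP nrP)
open Pool.Agent.H456.PR

namespace Pool.Agent.H456.PS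

open Classical in
/-- **(x1)** the average over all cubics of the number of the classes for the twist. -/
def S_x1 : Prop := ∀ (F : Type) [Field F] [Fintype F], (2 : F) ≠ 0 → ∀ J : Finset (Pl F), Even (DJ J).natDegree →
  ∀ᶠ n in atTop, ∑ f ∈ Msh F n, (NT ∅ (f.sc (DJ J)) : ℝ) ≤ 4 * (Fintype.card F : ℝ) ^ (12 * n + 3)

/-- **(x2)** the mean of the law of Poonen and Rains. -/
def S_x2 : Prop := ∀ J : ℕ, ∑ j ∈ range J, (j : ℝ) * Cd j ≤ 1.265

open Classical in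
/-- **(x3)** transfer of an upper bound for an unbounded function to the isomorphism classes. -/
def S_x3 : Prop := ∀ (F : Type) [Field F] [Fintype F], (2 : F) ≠ 0 → ∀ w v : KC F → ℝ,
  (∀ κ, 0 ≤ w κ) → (∀ κ, 0 ≤ v κ ∧ v κ ≤ 1) → ∀ c M : ℝ, 0 < c → 0 < M →
  (∀ᶠ n in atTop, c * (Fintype.card F : ℝ) ^ (12 * n + 3) ≤ ∑ f ∈ Msh F n, v (cls (crv f))) →
  (∀ᶠ n in atTop, ∑ f ∈ (Msh F n).filter (fun f => ¬ BadC f), w (cls (crv f)) ≤
    M * ∑ f ∈ Msh F n, v (cls (crv f))) →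
  (∀ ε : ℝ, 0 < ε → ∀ᶠ n in atTop, ∑ f ∈ (Msh F n).filter (fun f => BadC f), w (cls (crv f)) ≤
    ε * (Fintype.card F : ℝ) ^ (12 * n + 3)) →
  ∀ᶠ d in atTop, ∑ κ ∈ CL F d, w κ ≤ 3 * M * ∑ κ ∈ CL F d, v κ

end Pool.Agent.H456.PS
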