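import Pool.Agent.H456.PS.Out3
import Pool.Agent.H456.PS.Stm3
import Pool.Agent.H456.PS.T_v1
import Pool.Agent.H456.PS.T_v2
import Pool.Agent.H456.BQ.SAll
import Pool.Agent.H456.Pub.Mean

/-!
# The average rank
-/

set_option autoImplicit false
set_option linter.all false

open Polynomial WeierstrassCurve Finset Filter
open Pool.Agent.H456.EC
open Pool.Agent.H456.RN
open Pool.Agent.H456.BQ
open Pool.Agent.H456.Coh
open Pool.Agent.H456.PR
open Pool.Agent.H456.Pub (SameClass Tors Prim Killed twist law prop twistP SelTwo SelInf SelInfTwo rank card_tors card_prim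
  sqf share starFam DivBy s2_card sI_card mean mean_coe)

namespace Pool.Agent.H456.PS

theorem dim_mono (J m : ℕ) (hJ : 1 ≤ J) (h : J ≤ m) : (m : ℝ) * 2 ^ J ≤ J * 2 ^ m := by
  induction m, h using Nat.le_induction with
  | base => exact le_refl _
  | succ m hm ih =>
    have h1 : (1 : ℝ) ≤ m := by exact_mod_cast hJ.trans hm
    have h2 : (0 : ℝ) < 2 ^ J := by positivity
    push_cast
    rw [pow_succ]
    nlinarith

theorem dim_bound (J m : ℕ) (hJ : 1 ≤ J) :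
    (m : ℝ) ≤ ∑ j ∈ range J, (j : ℝ) * (if m = j then 1 else 0) + J / 2 ^ J * 2 ^ m := by
  have h0 : 0 ≤ ∑ j ∈ range J, (j : ℝ) * (if m = j then (1 : ℝ) else 0) :=
    sum_nonneg fun j _ => mul_nonneg (Nat.cast_nonneg _) (by split_ifs <;> norm_num)
  by_cases h : m < J
  · have h1 : ∑ j ∈ range J, (j : ℝ) * (if m = j then (1 : ℝ) else 0) = m := by
      rw [sum_eq_single_of_mem m (mem_range.2 h)]
      · rw [if_pos rfl, mul_one]
      · intro j _ hj
        rw [if_neg (Ne.symm hj), mul_zero]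
    rw [h1]
    have : (0 : ℝ) ≤ J / 2 ^ J * 2 ^ m := by positivity
    linarith
  · have h3 := dim_mono J m hJ (not_lt.1 h)
    have h4 : (m : ℝ) ≤ J / 2 ^ J * 2 ^ m := by
      rw [div_mul_eq_mul_div, le_div_iff₀ (by positivity)]
      exact h3
    linarith

/-- the average of the dimensions -/
theorem avg_dim (hx : S_x2) {A : Type} {𝒟 : Finset A} {m : A → ℕ} {ε' M : ℝ} (hε' : 0 ≤ ε')
    (hlaw : ∀ j, |prop 𝒟 (fun x => m x = j) - Cd j| ≤ ε') (htot : ∑ x ∈ 𝒟, (2 : ℝ) ^ m x ≤ M * 𝒟.card) (J : ℕ)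
    (hJ : 1 ≤ J) : ∑ x ∈ 𝒟, (m x : ℝ) ≤ (1.265 + J ^ 2 * ε' + J / 2 ^ J * M) * 𝒟.card := by
  classical
  have h1 : ∑ x ∈ 𝒟, (m x : ℝ) ≤ ∑ x ∈ 𝒟, (∑ j ∈ range J, (j : ℝ) * (if m x = j then 1 else 0) + J / 2 ^ J * 2 ^ m x) :=
    sum_le_sum fun x _ => dim_bound J (m x) hJ
  rw [sum_add_distrib, sum_comm, ← mul_sum] at h1
  have h3 : ∀ j ∈ range J, ∑ x ∈ 𝒟, (j : ℝ) * (if m x = j then (1 : ℝ) else 0) ≤
      ((j : ℝ) * Cd j + J * ε') * 𝒟.card := by
    intro j hj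
    rw [← mul_sum, sum_boole]
    have h4 : (((𝒟.filter (fun x => m x = j)).card : ℕ) : ℝ) ≤ (Cd j + ε') * 𝒟.card := by
      rcases 𝒟.eq_empty_or_nonempty with h0 | h0
      · subst h0; simp
      · have hc : (0 : ℝ) < 𝒟.card := by exact_mod_cast h0.card_pos
        have h5 := (abs_le.1 (hlaw j)).2
        have e0 : prop 𝒟 (fun x => m x = j) = ((𝒟.filter (fun x => m x = j)).card : ℝ) / 𝒟.card := by
          unfold prop
          congr!
        rw [e0, sub_le_iff_le_add, div_le_iff₀ hc] at h5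
        linarith
    have hj' : (j : ℝ) ≤ J := by exact_mod_cast (mem_range.1 hj).le
    have hc : (0 : ℝ) ≤ 𝒟.card := Nat.cast_nonneg _
    calc (j : ℝ) * (((𝒟.filter (fun x => m x = j)).card : ℕ) : ℝ) ≤ j * ((Cd j + ε') * 𝒟.card) :=
          mul_le_mul_of_nonneg_left h4 (Nat.cast_nonneg _)
      _ = ((j : ℝ) * Cd j + j * ε') * 𝒟.card := by ring
      _ ≤ ((j : ℝ) * Cd j + J * ε') * 𝒟.card := by
        apply mul_le_mul_of_nonneg_right _ hc
        have := mul_le_mul_of_nonneg_right hj' hε'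
        linarith
  have h4 := sum_le_sum h3
  rw [← sum_mul, sum_add_distrib, sum_const, card_range, nsmul_eq_mul] at h4
  have h5 := hx J
  have hc : (0 : ℝ) ≤ 𝒟.card := Nat.cast_nonneg _
  have h6 : (∑ j ∈ range J, (j : ℝ) * Cd j + J * (J * ε')) * 𝒟.card ≤ (1.265 + J ^ 2 * ε') * 𝒟.card := by
    apply mul_le_mul_of_nonneg_right _ hc
    have : (J : ℝ) * (J * ε') = J ^ 2 * ε' := by ring
    linarith
  have h7 : (J : ℝ) / 2 ^ J * ∑ x ∈ 𝒟, (2 : ℝ) ^ m x ≤ J / 2 ^ J * (M * 𝒟.card) :=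
    mul_le_mul_of_nonneg_left htot (by positivity)
  have e : (1.265 + (J : ℝ) ^ 2 * ε' + J / 2 ^ J * M) * 𝒟.card =
    (1.265 + J ^ 2 * ε') * 𝒟.card + J / 2 ^ J * (M * 𝒟.card) := by ring
  rw [e]
  linarith

section

variable {F : Type} [Field F] [Fintype F]

theorem NT_empty (f : Cub F[X]) : NT ∅ f = Nat.card (Sel (f.map (toK F))) := by
  unfold NT
  exact Nat.card_congr (Equiv.subtypeUnivEquiv (fun σ P hP => absurd hP (Finset.notMem_empty P)))

open Classical in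
/-- the exceptional cubics are negligible -/
theorem bad_NT (h2 : (2 : F) ≠ 0) (ε : ℝ) (hε : 0 < ε) : ∀ᶠ n in atTop,
    ∑ f ∈ (Msh F n).filter (fun f => BadC f), (NT ∅ f : ℝ) ≤ ε * (Fintype.card F : ℝ) ^ (12 * n + 3) := by
  have h1 := (bad_limS hypU_all h2 (F := F)).eventually (gt_mem_nhds (half_pos hε))
  filter_upwards [h1, t_badc F h2 (ε / 2) (half_pos hε)] with n h3 h4
  have hq2 : 2 ≤ (Fintype.card F : ℝ) := q_ge
  have hq0 : (0 : ℝ) < Fintype.card F := by linarith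
  rw [div_lt_iff₀ (by positivity)] at h3
  have h5 : ∑ f ∈ (Msh F n).filter (fun f => BadC f), (NT ∅ f : ℝ) =
      ∑ f ∈ (Msh F n).filter (fun f => BadC f), ((Nat.card (Sel (f.map (toK F))) : ℝ) - 1) +
        (((Msh F n).filter (fun f => BadC f)).card : ℝ) := by
    rw [sum_sub_distrib, sum_const, nsmul_eq_mul, mul_one, sub_add_cancel]
    exact sum_congr rfl fun f _ => by rw [NT_empty]
  have h6 : ∑ f ∈ (Msh F n).filter (fun f => BadC f), ((Nat.card (Sel (f.map (toK F))) : ℝ) - 1) ≤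
      ∑ f ∈ (Sb F n).filter (fun f => f.disc ≠ 0 ∧ BadC f), ((Nat.card (Sel (f.map (toK F))) : ℝ) - 1) := by
    apply sum_le_sum_of_subset_of_nonneg
    · intro f hf
      rw [mem_filter, mem_Msh] at hf
      rw [mem_filter, mem_Sb]
      exact ⟨hf.1.1, hf.1.2.1, hf.2⟩
    · intro f hf _
      exact card_Sel_ge hypU_all h2 (mem_filter.1 hf).2.1
  have h7 : (((Msh F n).filter (fun f => BadC f)).card : ℝ) ≤ ((Sb F n).filter (fun f => BadC f)).card := by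
    have : ((Msh F n).filter (fun f => BadC f)).card ≤ ((Sb F n).filter (fun f => BadC f)).card := by
      apply card_le_card
      intro f hf
      rw [mem_filter] at hf ⊢
      exact ⟨mem_Sb.2 (mem_Msh.1 hf.1).1, hf.2⟩
    exact_mod_cast this
  rw [h5]
  linarith

open Classical in
/-- the average of the orders of the 2-Selmer groups is bounded in the families -/
theorem star_tot (hx1 : S_x1) (hx3 : S_x3) (hv0 : S_v0) (hv1 : S_v1) (hv3 : S_v3) (h2 : (2 : F) ≠ 0) (k : ℕ) :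
    ∀ᶠ d in atTop, ∑ κ ∈ Fam F (2 * k) d, (s2 κ : ℝ) ≤ 96 * (Fam F (2 * k) d).card := by
  have hq1 : (1 : ℝ) ≤ (Fintype.card F : ℝ) := by
    exact_mod_cast (Fintype.one_lt_card (α := F)).le
  have hq0 : (0 : ℝ) < (Fintype.card F : ℝ) := by linarith
  have hfin : (SJ F (2 * k)).Finite := (t_sqc F (2 * k)).1
  set 𝒮 : Finset (Finset (Pl F)) := hfin.toFinset with h𝒮
  have hS : ∀ J, J ∈ 𝒮 ↔ J ∈ SJ F (2 * k) := fun J => hfin.mem_toFinset
  have hScard : 0 < 𝒮.card := by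
    have h1 := v2_pos t_sqc F (2 * k)
    rw [Set.ncard_eq_toFinset_card _ hfin] at h1
    exact h1
  have hScard' : (1 : ℝ) ≤ 𝒮.card := by exact_mod_cast hScard
  have hcount : ∀ n : ℕ, 2 * k ≤ n →
      (((Msh F (n + k)).filter (fun h => StJ (2 * k) h)).card : ℝ) =
        (Fintype.card F : ℝ) ^ (2 * k) *
          ((((Msh F n).filter (fun f => ∀ P, ¬ TwP P f)).card : ℝ) * 𝒮.card) := by
    intro n hn
    have h1 := hv1 F h2 k 𝒮 hS (fun _ => 1) (fun _ _ => rfl) n hn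
    simp only [Finset.sum_const, nsmul_eq_mul, mul_one] at h1
    exact h1
  obtain ⟨n₁, hn₁⟩ := Filter.eventually_atTop.1 (hv0 F h2)
  have hJ : ∀ᶠ n in atTop, ∀ J ∈ 𝒮, ∑ f ∈ Msh F n, (NT ∅ (f.sc (DJ J)) : ℝ) ≤
      4 * (Fintype.card F : ℝ) ^ (12 * n + 3) := by
    rw [Filter.eventually_all_finset]
    intro J hJ
    have h3 : (DJ J).natDegree = 2 * k := (hS J).1 hJ
    exact hx1 F h2 J (by rw [h3]; exact even_two_mul k)
  obtain ⟨n₂, hn₂⟩ := Filter.eventually_atTop.1 hJ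
  -- the bound for the cubics
  have hlev : ∀ᶠ n' in atTop, ∑ h ∈ (Msh F n').filter (fun h => StJ (2 * k) h), (NT ∅ h : ℝ) ≤
      32 * ((Msh F n').filter (fun h => StJ (2 * k) h)).card := by
    refine Filter.eventually_atTop.2 ⟨n₁ + n₂ + 3 * k, fun n' hn' => ?_⟩
    obtain ⟨n, rfl⟩ : ∃ n, n' = n + k := ⟨n' - k, by omega⟩
    have h3 := hn₁ n (by omega)
    have h4 := hn₂ n (by omega)
    rw [hv1 F h2 k 𝒮 hS (fun h => (NT ∅ h : ℝ)) (fun f r => by rw [a_tri F ∅ f r]) n (by omega),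
      hcount n (by omega)]
    have h5 : ∑ f ∈ (Msh F n).filter (fun f => ∀ P, ¬ TwP P f), ∑ J ∈ 𝒮, (NT ∅ (f.sc (DJ J)) : ℝ) ≤
        𝒮.card * (4 * (Fintype.card F : ℝ) ^ (12 * n + 3)) := by
      calc ∑ f ∈ (Msh F n).filter (fun f => ∀ P, ¬ TwP P f), ∑ J ∈ 𝒮, (NT ∅ (f.sc (DJ J)) : ℝ)
          ≤ ∑ f ∈ Msh F n, ∑ J ∈ 𝒮, (NT ∅ (f.sc (DJ J)) : ℝ) :=
            sum_le_sum_of_subset_of_nonneg (filter_subset _ _)
              (fun f _ _ => sum_nonneg fun J _ => Nat.cast_nonneg _)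
        _ = ∑ J ∈ 𝒮, ∑ f ∈ Msh F n, (NT ∅ (f.sc (DJ J)) : ℝ) := sum_comm
        _ ≤ ∑ J ∈ 𝒮, 4 * (Fintype.card F : ℝ) ^ (12 * n + 3) := sum_le_sum h4
        _ = _ := by rw [sum_const, nsmul_eq_mul]
    calc (Fintype.card F : ℝ) ^ (2 * k) *
          ∑ f ∈ (Msh F n).filter (fun f => ∀ P, ¬ TwP P f), ∑ J ∈ 𝒮, (NT ∅ (f.sc (DJ J)) : ℝ)
        ≤ (Fintype.card F : ℝ) ^ (2 * k) * (𝒮.card * (4 * (Fintype.card F : ℝ) ^ (12 * n + 3))) :=
          mul_le_mul_of_nonneg_left h5 (by positivity)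
      _ ≤ (Fintype.card F : ℝ) ^ (2 * k) * (𝒮.card * (32 * ((Msh F n).filter (fun f => ∀ P, ¬ TwP P f)).card)) := by
          apply mul_le_mul_of_nonneg_left _ (by positivity)
          apply mul_le_mul_of_nonneg_left _ (Nat.cast_nonneg _)
          linarith
      _ = _ := by ring
  set w : KC F → ℝ := fun κ => if StK (2 * k) κ then (s2 κ : ℝ) else 0 with hw
  set v : KC F → ℝ := fun κ => if StK (2 * k) κ then 1 else 0 with hv
  have hvM : ∀ n, ∑ f ∈ Msh F n, v (cls (crv f)) = ((Msh F n).filter (fun h => StJ (2 * k) h)).card := by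
    intro n
    simp only [hv]
    rw [sum_congr rfl (g := fun f => if StJ (2 * k) f then (1 : ℝ) else 0) (fun f hf => by
      simp only [StK_cls hv3 h2 hf]), sum_boole]
  have hwf : ∀ n, ∀ f ∈ Msh F n, w (cls (crv f)) = if StJ (2 * k) f then (NT ∅ f : ℝ) else 0 := by
    intro n f hf
    simp only [hw]
    rw [s2_NT h2 (mem_Msh.1 hf).2.1]
    simp only [StK_cls hv3 h2 hf]
  have hmain := hx3 F h2 w v (fun κ => by simp only [hw]; split_ifs <;> first | exact Nat.cast_nonneg _ | exact le_refl _)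
    (fun κ => by simp only [hv]; split_ifs <;> norm_num)
    ((Fintype.card F : ℝ) ^ (2 * k) * (1 / 8) / (Fintype.card F : ℝ) ^ (12 * k)) 32 (by positivity) (by norm_num)
    ?_ ?_ ?_
  · filter_upwards [hmain] with d hd
    have e1 : ∑ κ ∈ CL F d, w κ = ∑ κ ∈ Fam F (2 * k) d, (s2 κ : ℝ) := by
      simp only [hw, Fam]
      rw [sum_filter]
    have e2 : ∑ κ ∈ CL F d, v κ = (Fam F (2 * k) d).card := by
      simp only [hv, sum_boole, Fam]
    rw [e1, e2] at hd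
    refine hd.trans (le_of_eq (by ring))
  · refine Filter.eventually_atTop.2 ⟨n₁ + 3 * k, fun n' hn' => ?_⟩
    obtain ⟨n, rfl⟩ : ∃ n, n' = n + k := ⟨n' - k, by omega⟩
    rw [hvM, hcount n (by omega)]
    have h3 := hn₁ n (by omega)
    have h4 : (Fintype.card F : ℝ) ^ (12 * (n + k) + 3) =
        (Fintype.card F : ℝ) ^ (12 * n + 3) * (Fintype.card F : ℝ) ^ (12 * k) := by
      rw [← pow_add]
      congr 1
      ring
    have h5 : (Fintype.card F : ℝ) ^ (2 * k) * (1 / 8) / (Fintype.card F : ℝ) ^ (12 * k) *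
        (Fintype.card F : ℝ) ^ (12 * (n + k) + 3) =
        (Fintype.card F : ℝ) ^ (2 * k) * ((1 / 8) * (Fintype.card F : ℝ) ^ (12 * n + 3)) := by
      rw [h4]
      have : (Fintype.card F : ℝ) ^ (12 * k) ≠ 0 := by positivity
      field_simp
    rw [h5]
    refine mul_le_mul_of_nonneg_left ?_ (by positivity)
    calc (1 / 8 : ℝ) * (Fintype.card F : ℝ) ^ (12 * n + 3)
        ≤ (((Msh F n).filter (fun f => ∀ P, ¬ TwP P f)).card : ℝ) := h3
      _ ≤ (((Msh F n).filter (fun f => ∀ P, ¬ TwP P f)).card : ℝ) * 𝒮.card :=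
        le_mul_of_one_le_right (Nat.cast_nonneg _) hScard'
  · filter_upwards [hlev] with n hn
    rw [hvM]
    refine le_trans ?_ hn
    rw [sum_filter (s := Msh F n) (p := fun h => StJ (2 * k) h)]
    calc ∑ f ∈ (Msh F n).filter (fun f => ¬ BadC f), w (cls (crv f)) ≤ ∑ f ∈ Msh F n, w (cls (crv f)) := by
          apply sum_le_sum_of_subset_of_nonneg (filter_subset _ _)
          intro f hf _
          rw [hwf n f hf]
          split_ifs
          · exact Nat.cast_nonneg _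
          · exact le_refl _
      _ = _ := sum_congr rfl (hwf n)
  · intro ε hε
    filter_upwards [bad_NT h2 ε hε] with n hn
    refine le_trans (sum_le_sum fun f hf => ?_) hn
    rw [hwf n f (mem_filter.1 hf).1]
    split_ifs
    · exact le_refl _
    · exact Nat.cast_nonneg _

/-- the number of the classes is a power of two -/
theorem NT_pow (h2 : (2 : F) ≠ 0) {f : Cub F[X]} (hf : f.disc ≠ 0) : ∃ k, NT ∅ f = 2 ^ k := by
  rw [NT_empty]
  exact a_pw2 F h2 (f.map (toK F)) (fK_disc hf) (finite_Sel hypU_all h2 hf)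

theorem s2_pow (h2 : (2 : F) ≠ 0) {d : ℕ} {κ : KC F} (hκ : κ ∈ CL F d) : s2 κ = 2 ^ Nat.log 2 (s2 κ) := by
  obtain ⟨f, hf, rfl⟩ := CL_crv h2 hκ
  obtain ⟨k, hk⟩ := NT_pow h2 hf
  rw [s2_NT h2 hf, hk, Nat.log_pow (by norm_num)]

theorem rank_log (h2 : (2 : F) ≠ 0) {d : ℕ} {κ : KC F} (hκ : κ ∈ CL F d) : rank κ.out ≤ Nat.log 2 (s2 κ) :=
  (t_rk F h2 κ.out (KC_Δ h2 hκ) _ (s2_pow h2 hκ)).2.1

theorem ex_J (M ε : ℝ) (hε : 0 < ε) : ∃ J : ℕ, 1 ≤ J ∧ (J : ℝ) / 2 ^ J * M ≤ ε := by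
  have h1 : Tendsto (fun n : ℕ => (n : ℝ) / 2 ^ n) atTop (nhds 0) := by
    have := tendsto_self_mul_const_pow_of_lt_one (r := (1 / 2 : ℝ)) (by norm_num) (by norm_num)
    refine this.congr fun n => ?_
    rw [one_div, inv_pow, div_eq_mul_inv]
  have h3 : Tendsto (fun n : ℕ => (n : ℝ) / 2 ^ n * M) atTop (nhds 0) := by
    have := h1.mul_const M
    rwa [zero_mul] at this
  obtain ⟨J, hJ, hJ1⟩ := ((h3.eventually (ge_mem_nhds hε)).and (eventually_ge_atTop 1)).exists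
  exact ⟨J, hJ1, hJ⟩

open Classical in
/-- **the average rank in the families** -/
theorem star_avg (hx1 : S_x1) (hx2 : S_x2) (hx3 : S_x3) (hv0 : S_v0) (hv1 : S_v1) (hv2 : S_v2) (hv3 : S_v3) (hv4 : S_v4)
    (h2 : (2 : F) ≠ 0) (ε : ℝ) (hε : 0 < ε) : ∃ k₀ : ℕ, ∀ k ≥ k₀, ∀ᶠ d : ℕ in atTop,
      mean (starFam F (2 * k) d) (fun κ => rank κ.out) ≤ 1.265 + ε := by
  obtain ⟨J, hJ1, hJ⟩ := ex_J 96 (ε / 2) (half_pos hε)
  have hJ0 : (0 : ℝ) < J := by exact_mod_cast hJ1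
  obtain ⟨k₀, hk⟩ := star_s2 hv2 hv3 hv4 h2 (ε / (2 * J ^ 2)) (by positivity)
  refine ⟨k₀, fun k hk0 => ?_⟩
  obtain ⟨⟨δ, hδ, h1⟩, h3⟩ := hk k hk0
  filter_upwards [h1, h3, star_tot hx1 hx3 hv0 hv1 hv3 h2 k, eventually_ge_atTop 1] with d hd1 hd3 hd4 hd5
  rw [← coe_Fam h2, mean_coe]
  have hCL : (0 : ℝ) < (CL F d).card := by
    have h7 := ne_cls (F := F) h2 hd5
    rw [← coe_CL, coe_nonempty] at h7
    exact_mod_cast h7.card_pos
  have hF : (0 : ℝ) < (Fam F (2 * k) d).card := lt_of_lt_of_le (mul_pos hδ hCL) hd1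
  have hsub : Fam F (2 * k) d ⊆ CL F d := filter_subset _ _
  rw [div_le_iff₀ hF]
  have e1 : ∀ j, prop (Fam F (2 * k) d) (fun κ => Nat.log 2 (s2 κ) = j) =
      prop (Fam F (2 * k) d) (fun κ => s2 κ = 2 ^ j) := by
    intro j
    apply prop_congr
    intro κ hκ
    have h := s2_pow h2 (hsub hκ)
    constructor
    · intro h'
      rw [h, h']
    · intro h'
      rw [h', Nat.log_pow (by norm_num)]
  have e2 : ∑ κ ∈ Fam F (2 * k) d, (2 : ℝ) ^ Nat.log 2 (s2 κ) = ∑ κ ∈ Fam F (2 * k) d, (s2 κ : ℝ) := by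
    refine sum_congr rfl fun κ hκ => ?_
    have h := s2_pow h2 (hsub hκ)
    have h' : ((2 ^ Nat.log 2 (s2 κ) : ℕ) : ℝ) = (s2 κ : ℝ) := by rw [← h]
    rw [← h']
    push_cast
    rfl
  have hmain := avg_dim hx2 (𝒟 := Fam F (2 * k) d) (m := fun κ => Nat.log 2 (s2 κ)) (ε' := ε / (2 * J ^ 2)) (M := 96)
    (by positivity) (fun j => by rw [e1 j]; exact hd3 j) (by rw [e2]; exact hd4) J hJ1
  have h5 : ∑ κ ∈ Fam F (2 * k) d, (rank κ.out : ℝ) ≤ ∑ κ ∈ Fam F (2 * k) d, ((Nat.log 2 (s2 κ) : ℕ) : ℝ) := by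
    apply sum_le_sum
    intro κ hκ
    exact_mod_cast rank_log h2 (hsub hκ)
  refine h5.trans (hmain.trans ?_)
  apply mul_le_mul_of_nonneg_right _ hF.le
  have e3 : (J : ℝ) ^ 2 * (ε / (2 * J ^ 2)) = ε / 2 := by field_simp
  rw [e3]
  linarith

end

end Pool.Agent.H456.PS
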