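import Pool.Agent.H456.PS.Out4

/-!
# The average rank of the twists of almost all elliptic curves
-/

set_option autoImplicit false
set_option linter.all false

open Polynomial WeierstrassCurve Finset Filter
open Pool.Agent.H456.EC
open Pool.Agent.H456.RN
open Pool.Agent.H456.BQ
open Pool.Agent.H456.Coh
open Pool.Agent.H456.PR
open Pool.Agent.H456.Pub (SameClass Tors Prim Killed twist law prop twistP SelTwo SelInf SelInfTwo rank card_tors card_prim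
  sqf share starFam DivBy s2_card sI_card mean mean_coe)

namespace Pool.Agent.H456.PS

section

variable {F : Type} [Field F] [Fintype F]

open Classical in
/-- the sum over the twists by constants -/
theorem sum_C (h2 : (2 : F) ≠ 0) {u : F} (hu : u ≠ 0) (n : ℕ) (Φ : Cub F[X] → ℝ) :
    ∑ f ∈ Msh F n, Φ (f.sc (C u)) = ∑ f ∈ Msh F n, Φ f := by
  have hinv : ∀ v : F, v ≠ 0 → ∀ f : Cub F[X], (f.sc (C v)).sc (C v⁻¹) = f := by
    intro v hv f
    rw [Cub.sc_sc, ← C_mul, mul_inv_cancel₀ hv, C_1, Cub.sc_one]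
  refine sum_bij' (fun f _ => f.sc (C u)) (fun f _ => f.sc (C u⁻¹)) ?_ ?_ ?_ ?_ ?_
  · intro f hf; exact Msh_C h2 hf hu
  · intro f hf; exact Msh_C h2 hf (inv_ne_zero hu)
  · intro f _; exact hinv u hu f
  · intro f _
    have := hinv u⁻¹ (inv_ne_zero hu) f
    rwa [inv_inv] at this
  · intro f _; rfl

/-- the order of the 2-Selmer group of a twist -/
noncomputable def tS (κ : KC F) (D : F[X]) : ℕ := Nat.card (SelTwo (twistP κ.out D))

open Classical in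
theorem tS_NT (h2 : (2 : F) ≠ 0) {f : Cub F[X]} (hf : f.disc ≠ 0) {D : F[X]} (hD : D ≠ 0) :
    tS (cls (crv f)) D = NT ∅ (f.sc D) := by
  unfold tS
  rw [← t_ctw F h2 f hf D hD, (card_tors _ 2).1]
  exact congrArg Nat.card rfl

theorem mem_SqF_ne {𝒮 : Finset (Finset (Pl F))} {D : F[X]} (hD : D ∈ SqF 𝒮) : D ≠ 0 := by
  classical
  unfold SqF at hD
  obtain ⟨⟨u, J⟩, h, rfl⟩ := mem_image.1 hD
  have hu := (mem_product.1 h).1
  have hu0 : u ≠ 0 := by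
    change u ∈ Uc F at hu
    unfold Uc at hu; exact (mem_filter.1 hu).2
  exact mul_ne_zero (C_ne_zero.2 hu0) (DJ_ne J)

open Classical in
/-- the average of the orders of the 2-Selmer groups of the twists is bounded for almost all curves -/
theorem tot_CL (hx1 : S_x1) (h2 : (2 : F) ≠ 0) (k : ℕ) {𝒮 : Finset (Finset (Pl F))}
    (hS : ∀ J, J ∈ 𝒮 ↔ J ∈ SJ F (2 * k)) (h0 : (SqF 𝒮).Nonempty) (L : ℝ) (hL : 0 < L) : ∀ᶠ d in atTop,
    (((CL F d).filter (fun κ => L * (SqF 𝒮).card < ∑ D ∈ SqF 𝒮, (tS κ D : ℝ))).card : ℝ) ≤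
      4000 / L * (CL F d).card := by
  have hc : (0 : ℝ) < (SqF 𝒮).card := by exact_mod_cast h0.card_pos
  set w : KC F → ℝ := fun κ => min 1 ((∑ D ∈ SqF 𝒮, (tS κ D : ℝ)) / (L * (SqF 𝒮).card)) with hw
  have hw0 : ∀ κ, 0 ≤ w κ := fun κ => le_min zero_le_one (div_nonneg (sum_nonneg fun _ _ => Nat.cast_nonneg _) (by positivity))
  have hmain := t_clU F h2 w (fun κ => ⟨hw0 κ, min_le_left _ _⟩) (4 / L) (by positivity) ?_
  · filter_upwards [hmain] with d hd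
    have e : 1000 * (4 / L) * ((CL F d).card : ℝ) = 4000 / L * (CL F d).card := by ring
    rw [e] at hd
    refine le_trans ?_ hd
    rw [card_eq_sum_ones]
    push_cast
    rw [sum_filter]
    apply sum_le_sum
    intro κ _
    split_ifs with h
    · simp only [hw]
      rw [min_eq_left]
      rw [le_div_iff₀ (by positivity), one_mul]
      exact h.le
    · exact hw0 κ
  · have hJ : ∀ᶠ n in atTop, ∀ J ∈ 𝒮, ∑ f ∈ Msh F n, (NT ∅ (f.sc (DJ J)) : ℝ) ≤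
        4 * (Fintype.card F : ℝ) ^ (12 * n + 3) := by
      rw [Filter.eventually_all_finset]
      intro J hJ
      have h3 : (DJ J).natDegree = 2 * k := (hS J).1 hJ
      exact hx1 F h2 J (by rw [h3]; exact even_two_mul k)
    filter_upwards [hJ] with n hn
    have h1 : ∑ f ∈ Msh F n, w (cls (crv f)) ≤
        ∑ f ∈ Msh F n, (∑ D ∈ SqF 𝒮, (tS (cls (crv f)) D : ℝ)) / (L * (SqF 𝒮).card) :=
      sum_le_sum fun f _ => min_le_right _ _
    refine h1.trans ?_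
    rw [← sum_div, div_le_iff₀ (by positivity), sum_comm]
    have h3 : ∀ D ∈ SqF 𝒮, ∑ f ∈ Msh F n, (tS (cls (crv f)) D : ℝ) ≤ 4 * (Fintype.card F : ℝ) ^ (12 * n + 3) := by
      intro D hD
      have hD0 := mem_SqF_ne hD
      unfold SqF at hD
      obtain ⟨⟨u, J⟩, h, rfl⟩ := mem_image.1 hD
      obtain ⟨hu, hJ'⟩ := mem_product.1 h
      have hu0 : u ≠ 0 := by
        change u ∈ Uc F at hu
        unfold Uc at hu; exact (mem_filter.1 hu).2
      have e1 : ∑ f ∈ Msh F n, (tS (cls (crv f)) (C u * DJ J) : ℝ) =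
          ∑ f ∈ Msh F n, (fun g : Cub F[X] => (NT ∅ (g.sc (DJ J)) : ℝ)) (f.sc (C u)) := by
        refine sum_congr rfl fun f hf => ?_
        rw [tS_NT h2 (mem_Msh.1 hf).2.1 hD0]
        simp only [Cub.sc_sc]
      show ∑ f ∈ Msh F n, (tS (cls (crv f)) (C u * DJ J) : ℝ) ≤ _
      rw [e1]
      exact (sum_C h2 hu0 n (fun g : Cub F[X] => (NT ∅ (g.sc (DJ J)) : ℝ))).trans_le (hn J hJ')
    refine (sum_le_sum h3).trans (le_of_eq ?_)
    rw [sum_const, nsmul_eq_mul]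
    field_simp

theorem tS_pow (h2 : (2 : F) ≠ 0) {d : ℕ} {κ : KC F} (hκ : κ ∈ CL F d) {D : F[X]} (hD : D ≠ 0) :
    tS κ D = 2 ^ Nat.log 2 (tS κ D) := by
  obtain ⟨f, hf, rfl⟩ := CL_crv h2 hκ
  have hf' : (f.sc D).disc ≠ 0 := by
    rw [Cub.disc_sc]
    exact mul_ne_zero (pow_ne_zero _ hD) hf
  obtain ⟨k, hk⟩ := NT_pow h2 hf'
  rw [tS_NT h2 hf hD, hk, Nat.log_pow (by norm_num)]

open Classical in
theorem rank_tS (h2 : (2 : F) ≠ 0) {d : ℕ} {κ : KC F} (hκ : κ ∈ CL F d) {D : F[X]} (hD : D ≠ 0) :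
    rank (twistP κ.out D) ≤ Nat.log 2 (tS κ D) := by
  have hD0 : toK F D ≠ 0 := (map_ne_zero_iff _ toK_inj).2 hD
  have h := tS_pow h2 hκ hD
  have h1 : Nat.card (SelmerGroup (twE (toK F D) κ.out) (torsionPts (twE (toK F D) κ.out) 2)) =
      2 ^ Nat.log 2 (tS κ D) := by
    rw [← h]
    unfold tS
    rw [(card_tors _ 2).1]
    exact congrArg Nat.card rfl
  exact (t_rk F h2 _ (twE_Δ h2 (KC_Δ h2 hκ) hD0) _ h1).2.1

open Classical in
/-- **the final form** -/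
theorem fin_sqf2 (hx1 : S_x1) (hx2 : S_x2) (hl : S_law) (h2 : (2 : F) ≠ 0) (ε : ℝ) (hε : 0 < ε) :
    ∃ k₀ : ℕ, ∀ k ≥ k₀, (sqf F (2 * k)).Finite ∧ (sqf F (2 * k)).Nonempty ∧
      ∀ᶠ d in atTop, ∃ B : Set (KC F), B ⊆ cls '' Eqn F d ∧ (B.ncard : ℝ) ≤ ε * ((cls '' Eqn F d).ncard : ℝ) ∧
        ∀ κ ∈ cls '' Eqn F d, κ ∉ B →
          (∀ j : ℕ, |share (sqf F (2 * k)) (fun D => Nat.card (SelTwo (twistP κ.out D)) = 2 ^ j) - law j| ≤ ε) ∧
          (∀ j : ℕ, |share (sqf F (2 * k)) (fun D => Nat.card (SelInfTwo (twistP κ.out D)) = 2 ^ j) - law j| ≤ ε) ∧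
          0.2097 - ε ≤ share (sqf F (2 * k)) (fun D => Finite (twistP κ.out D).toAffine.Point ∧
            Nat.card (SelInf (twistP κ.out D)) = 1) ∧
          0.629 - 2 * ε ≤ share (sqf F (2 * k)) (fun D => rank (twistP κ.out D) ≤ 1) ∧
          mean (sqf F (2 * k)) (fun D => rank (twistP κ.out D)) ≤ 1.265 + ε := by
  obtain ⟨L, hL, hL4⟩ : ∃ L : ℝ, 0 < L ∧ 4000 / L ≤ ε / 2 := by
    refine ⟨8000 / ε, by positivity, le_of_eq ?_⟩
    field_simp
    norm_num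
  obtain ⟨J, hJ1, hJ⟩ := ex_J L (ε / 2) (half_pos hε)
  have hJ0 : (0 : ℝ) < J := by exact_mod_cast hJ1
  have hJ1' : (1 : ℝ) ≤ J := by exact_mod_cast hJ1
  obtain ⟨ε', hε', hε1⟩ : ∃ ε' : ℝ, 0 < ε' ∧ ε' = ε / (2 * J ^ 2) := ⟨_, by positivity, rfl⟩
  have hε2 : ε' ≤ ε / 2 := by
    rw [hε1]
    apply div_le_div_of_nonneg_left hε.le (by norm_num)
    nlinarith
  obtain ⟨k₀, hk⟩ := fin_sqf (F := F) hl h2 ε' hε'
  refine ⟨k₀, fun k hk0 => ?_⟩
  obtain ⟨hfin2, hnon, hd⟩ := hk k hk0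
  refine ⟨hfin2, hnon, ?_⟩
  obtain ⟨hfin, hcard⟩ := t_sqc F (2 * k)
  set 𝒮 := hfin.toFinset with h𝒮
  have hS : ∀ J, J ∈ 𝒮 ↔ J ∈ SJ F (2 * k) := fun J => hfin.mem_toFinset
  have hcoe : (sqf F (2 * k)) = ((SqF 𝒮 : Finset F[X]) : Set F[X]) := by
    ext D
    rw [mem_coe, mem_SqF hS]
  have hne : (SqF 𝒮).Nonempty := by
    rw [← coe_nonempty, ← hcoe]
    exact hnon
  have hc : (0 : ℝ) < (SqF 𝒮).card := by exact_mod_cast hne.card_pos
  filter_upwards [hd, tot_CL hx1 h2 k hS hne L hL] with d hd1 hd2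
  obtain ⟨B, hB, hBc, hκ⟩ := hd1
  set B₂ : Finset (KC F) := (CL F d).filter (fun κ => L * (SqF 𝒮).card < ∑ D ∈ SqF 𝒮, (tS κ D : ℝ)) with hB₂
  refine ⟨B ∪ (B₂ : Set (KC F)), ?_, ?_, ?_⟩
  · apply Set.union_subset hB
    rw [← coe_CL]
    exact coe_subset.2 (filter_subset _ _)
  · have h30 := Set.ncard_union_le B (B₂ : Set (KC F))
    rw [Set.ncard_coe_finset] at h30
    have h3 : ((B ∪ (B₂ : Set (KC F))).ncard : ℝ) ≤ B.ncard + B₂.card := by exact_mod_cast h30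
    have e : ((cls '' Eqn F d).ncard : ℝ) = (CL F d).card := by rw [← coe_CL, Set.ncard_coe_finset]
    rw [e] at hBc ⊢
    have h4 : (0 : ℝ) ≤ (CL F d).card := Nat.cast_nonneg _
    have h5 := mul_le_mul_of_nonneg_right hε2 h4
    have h6 := mul_le_mul_of_nonneg_right hL4 h4
    have h7 : (B₂.card : ℝ) ≤ 4000 / L * (CL F d).card := hd2
    linarith
  · intro κ hk1 hkB
    rw [Set.mem_union, not_or] at hkB
    obtain ⟨a1, a2, a3, a4⟩ := hκ κ hk1 hkB.1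
    have hk' := mem_CL_iff.1 hk1
    refine ⟨fun j => (a1 j).trans (by linarith), fun j => (a2 j).trans (by linarith), by linarith, by linarith, ?_⟩
    have htot : ∑ D ∈ SqF 𝒮, (tS κ D : ℝ) ≤ L * (SqF 𝒮).card := by
      by_contra hcon
      push Not at hcon
      exact hkB.2 (mem_coe.2 (mem_filter.2 ⟨hk', hcon⟩))
    rw [hcoe, mean_coe, div_le_iff₀ hc]
    rw [hcoe] at a1
    simp only [share_coe] at a1
    have e1 : ∀ j, prop (SqF 𝒮) (fun D => Nat.log 2 (tS κ D) = j) =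
        prop (SqF 𝒮) (fun D => Nat.card (SelTwo (twistP κ.out D)) = 2 ^ j) := by
      intro j
      apply prop_congr
      intro D hD
      have h := tS_pow h2 hk' (mem_SqF_ne hD)
      change Nat.log 2 (tS κ D) = j ↔ tS κ D = 2 ^ j
      constructor
      · intro h'
        rw [h, h']
      · intro h'
        rw [h', Nat.log_pow (by norm_num)]
    have e2 : ∑ D ∈ SqF 𝒮, (2 : ℝ) ^ Nat.log 2 (tS κ D) = ∑ D ∈ SqF 𝒮, (tS κ D : ℝ) := by
      refine sum_congr rfl fun D hD => ?_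
      have h := tS_pow h2 hk' (mem_SqF_ne hD)
      have h' : ((2 ^ Nat.log 2 (tS κ D) : ℕ) : ℝ) = (tS κ D : ℝ) := by rw [← h]
      rw [← h']
      push_cast
      rfl
    have hmain := avg_dim hx2 (𝒟 := SqF 𝒮) (m := fun D => Nat.log 2 (tS κ D)) (ε' := ε') (M := L)
      hε'.le (fun j => by rw [e1 j]; exact a1 j) (by rw [e2]; exact htot) J hJ1
    have h5 : ∑ D ∈ SqF 𝒮, (rank (twistP κ.out D) : ℝ) ≤ ∑ D ∈ SqF 𝒮, ((Nat.log 2 (tS κ D) : ℕ) : ℝ) := by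
      apply sum_le_sum
      intro D hD
      exact_mod_cast rank_tS h2 hk' (mem_SqF_ne hD)
    refine h5.trans (hmain.trans ?_)
    apply mul_le_mul_of_nonneg_right _ hc.le
    have e3 : (J : ℝ) ^ 2 * ε' = ε / 2 := by
      rw [hε1]
      field_simp
    rw [e3]
    linarith

/-- **the final form for the families** -/
theorem fin_star2 (hx1 : S_x1) (hx2 : S_x2) (hx3 : S_x3) (hv0 : S_v0) (hv1 : S_v1) (hv2 : S_v2) (hv3 : S_v3)
    (hv4 : S_v4) (h2 : (2 : F) ≠ 0) (ε : ℝ) (hε : 0 < ε) :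
    ∃ k₀ : ℕ, ∀ k ≥ k₀, (∃ δ : ℝ, 0 < δ ∧ ∀ᶠ d : ℕ in atTop,
        δ * ((cls '' Eqn F d).ncard : ℝ) ≤ ((starFam F (2 * k) d).ncard : ℝ)) ∧
      ∀ᶠ d : ℕ in atTop,
        (∀ j : ℕ, |share (starFam F (2 * k) d) (fun κ => Nat.card (SelTwo κ.out) = 2 ^ j) - law j| ≤ ε) ∧
        (∀ j : ℕ, |share (starFam F (2 * k) d) (fun κ => Nat.card (SelInfTwo κ.out) = 2 ^ j) - law j| ≤ ε) ∧
        0.2097 - ε ≤ share (starFam F (2 * k) d) (fun κ => Finite κ.out.toAffine.Point ∧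
          Nat.card (SelInf κ.out) = 1) ∧
        0.629 - 2 * ε ≤ share (starFam F (2 * k) d) (fun κ => rank κ.out ≤ 1) ∧
        mean (starFam F (2 * k) d) (fun κ => rank κ.out) ≤ 1.265 + ε := by
  obtain ⟨k₁, h1⟩ := fin_star hv2 hv3 hv4 h2 ε hε
  obtain ⟨k₂, h3⟩ := star_avg hx1 hx2 hx3 hv0 hv1 hv2 hv3 hv4 h2 ε hε
  refine ⟨max k₁ k₂, fun k hk => ?_⟩
  obtain ⟨h4, h5⟩ := h1 k ((le_max_left _ _).trans hk)
  refine ⟨h4, ?_⟩
  filter_upwards [h5, h3 k ((le_max_right _ _).trans hk)] with d hd hd'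
  obtain ⟨a1, a2, a3, a4⟩ := hd
  exact ⟨a1, a2, a3, a4, hd'⟩

end

end Pool.Agent.H456.PS
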