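import Pool.Agent.H456.PS.All5
import Pool.Agent.H456.Pub.Star2

/-!
# Unions of the families of curves with starred fibres
-/

set_option autoImplicit false
set_option linter.all false

open Polynomial WeierstrassCurve Finset Filter
open Pool.Agent.H456.EC
open Pool.Agent.H456.RN
open Pool.Agent.H456.BQ
open Pool.Agent.H456.Coh
open Pool.Agent.H456.PR
open Pool.Agent.H456.Pub (law prop SelTwo SelInf SelInfTwo share starFam starUnion sqf twistP ShaTwoTrivial)

namespace Pool.Agent.H456.PS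

section

variable {F : Type} [Field F]

theorem StK_unique {m m' : ℕ} {κ : KC F} (h : StK m κ) (h' : StK m' κ) : m = m' := by
  obtain ⟨J, hJ, h1⟩ := h
  obtain ⟨J', hJ', h2⟩ := h'
  have e : J = J' := by
    ext P
    rw [← h1, ← h2]
  rw [← hJ, ← hJ', e]

theorem TwP_sq_disc {P : Pl F} {f : Cub F[X]} (h : TwP P f) : P.1 ^ 2 ∣ f.disc := by
  obtain ⟨g, r, h1, -⟩ := h
  have h2 : (f.tr r).disc = (g.sc P.1).disc := by rw [h1]
  rw [Cub.disc_tr, Cub.disc_sc] at h2
  rw [h2]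
  exact (pow_dvd_pow P.1 (by norm_num : 2 ≤ 6)).mul_right _

end

variable {F : Type} [Field F] [Fintype F]

open Classical in
/-- the curves whose starred fibres have a large total degree are few -/
theorem star_tail (h2 : (2 : F) ≠ 0) (η : ℝ) (hη : 0 < η) : ∃ K : ℕ, ∀ᶠ d in atTop,
    (((CL F d).filter (fun κ => ∃ k ≥ K, StK (2 * k) κ)).card : ℝ) ≤ η * (CL F d).card := by
  obtain ⟨D, hD⟩ := Pool.Agent.H456.PP.a_csq F h2 (η / 1000) (by positivity)
  set K := (∑ P ∈ PlD F D, P.1.natDegree) + 1 with hK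
  set w : KC F → ℝ := fun κ => if ∃ P : Pl F, D < P.1.natDegree ∧ Starred P κ then 1 else 0 with hw
  have h1 := t_clU F h2 w (fun κ => by simp only [hw]; split_ifs <;> norm_num) (η / 1000) (by positivity) ?_
  · refine ⟨K, ?_⟩
    filter_upwards [h1] with d hd
    have h3 : (((CL F d).filter (fun κ => ∃ k ≥ K, StK (2 * k) κ)).card : ℝ) ≤ ∑ κ ∈ CL F d, w κ := by
      simp only [hw, sum_boole]
      have h4 : ((CL F d).filter (fun κ => ∃ k ≥ K, StK (2 * k) κ)).card ≤
          ((CL F d).filter (fun κ => ∃ P : Pl F, D < P.1.natDegree ∧ Starred P κ)).card := by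
        apply card_le_card
        intro κ hκ
        rw [mem_filter] at hκ ⊢
        obtain ⟨hκ, k, hk, J, hJ, hJ'⟩ := hκ
        refine ⟨hκ, ?_⟩
        by_contra hcon
        push Not at hcon
        have h5 : J ⊆ PlD F D := by
          intro P hP
          rw [mem_PlD]
          by_contra h6
          exact hcon P (not_le.1 h6) ((hJ' P).2 hP)
        have h6 : ∑ P ∈ J, P.1.natDegree ≤ ∑ P ∈ PlD F D, P.1.natDegree := sum_le_sum_of_subset h5
        rw [← DJ_deg, hJ] at h6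
        omega
      exact_mod_cast h4
    refine h3.trans (hd.trans (le_of_eq ?_))
    ring
  · filter_upwards [hD] with n hn
    refine le_trans ?_ hn
    simp only [hw, sum_boole]
    have h4 : ((Msh F n).filter (fun f => ∃ P : Pl F, D < P.1.natDegree ∧ Starred P (cls (crv f)))).card ≤
        ((Sb F n).filter (fun f => ∃ P : Pl F, D < P.1.natDegree ∧ P.1 ^ 2 ∣ f.disc)).card := by
      apply card_le_card
      intro f hf
      rw [mem_filter] at hf ⊢
      obtain ⟨hf, P, hP, hs⟩ := hf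
      exact ⟨mem_Sb.2 (mem_Msh.1 hf).1, P, hP, TwP_sq_disc ((t_v3 F h2 n f hf P).1 hs)⟩
    exact_mod_cast h4

open Classical in
/-- the union of the families -/
noncomputable def FamU (F : Type) [Field F] [Fintype F] (A : Set ℕ) (d : ℕ) : Finset (KC F) :=
  (CL F d).filter (fun κ => ∃ k ∈ A, StK (2 * k) κ)

theorem coe_FamU (h2 : (2 : F) ≠ 0) (A : Set ℕ) (d : ℕ) : ((FamU F A d : Finset (KC F)) : Set (KC F)) = starUnion F A d := by
  classical
  ext κ
  unfold FamU starUnion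
  rw [mem_coe, mem_filter, Set.mem_setOf_eq]
  constructor
  · rintro ⟨h1, k, hk, h3⟩
    refine ⟨k, hk, ?_⟩
    rw [← coe_Fam h2, mem_coe]
    unfold Fam
    exact mem_filter.2 ⟨h1, h3⟩
  · rintro ⟨k, hk, h3⟩
    rw [← coe_Fam h2, mem_coe] at h3
    unfold Fam at h3
    exact ⟨(mem_filter.1 h3).1, k, hk, (mem_filter.1 h3).2⟩

open Classical in
/-- the proportions in the unions -/
theorem union_prop (h2 : (2 : F) ≠ 0) {ι : Type} (p : ι → KC F → Prop) (c : ι → ℝ) (hc : ∀ i, 0 ≤ c i ∧ c i ≤ 1) (ε : ℝ)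
    (hε : 0 < ε) (k₀ : ℕ)
    (H : ∀ k ≥ k₀, (∃ δ : ℝ, 0 < δ ∧ ∀ᶠ d : ℕ in atTop, δ * ((CL F d).card : ℝ) ≤ ((Fam F (2 * k) d).card : ℝ)) ∧
      ∀ᶠ d : ℕ in atTop, ∀ i, |prop (Fam F (2 * k) d) (p i) - c i| ≤ ε / 2)
    (A : Set ℕ) (hA : A.Nonempty) (hA0 : ∀ k ∈ A, k₀ ≤ k) :
    (∃ δ : ℝ, 0 < δ ∧ ∀ᶠ d : ℕ in atTop, δ * ((CL F d).card : ℝ) ≤ ((FamU F A d).card : ℝ)) ∧
      ∀ᶠ d : ℕ in atTop, ∀ i, |prop (FamU F A d) (p i) - c i| ≤ ε := by
  obtain ⟨a, ha⟩ := hA
  obtain ⟨⟨δ, hδ, h1⟩, -⟩ := H a (hA0 a ha)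
  have hsub : ∀ k ∈ A, ∀ d, Fam F (2 * k) d ⊆ FamU F A d := by
    intro k hk d κ hκ
    unfold Fam at hκ
    unfold FamU
    rw [mem_filter] at hκ ⊢
    exact ⟨hκ.1, k, hk, hκ.2⟩
  have h1' : ∀ᶠ d : ℕ in atTop, δ * ((CL F d).card : ℝ) ≤ ((FamU F A d).card : ℝ) := by
    filter_upwards [h1] with d hd
    refine hd.trans ?_
    exact_mod_cast card_le_card (hsub a ha d)
  refine ⟨⟨δ, hδ, h1'⟩, ?_⟩
  obtain ⟨K, hK⟩ := star_tail h2 (ε / 2 * δ) (by positivity)
  set A' : Finset ℕ := (range K).filter (fun k => k ∈ A) with hA'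
  have hev : ∀ᶠ d : ℕ in atTop, ∀ k ∈ A', ∀ i, |prop (Fam F (2 * k) d) (p i) - c i| ≤ ε / 2 := by
    rw [Filter.eventually_all_finset]
    intro k hk
    exact (H k (hA0 k (mem_filter.1 hk).2)).2
  filter_upwards [h1', hK, hev, eventually_ge_atTop 1] with d hd1 hd2 hd3 hd4 i
  have hCL : (0 : ℝ) < (CL F d).card := by
    have h7 := ne_cls (F := F) h2 hd4
    rw [← coe_CL, coe_nonempty] at h7
    exact_mod_cast h7.card_pos
  have hU : (0 : ℝ) < (FamU F A d).card := lt_of_lt_of_le (mul_pos hδ hCL) hd1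
  have ep : ∀ 𝒟 : Finset (KC F), prop 𝒟 (p i) = ((𝒟.filter (p i)).card : ℝ) / 𝒟.card := by
    intro 𝒟
    unfold prop
    congr!
  -- the decomposition
  set V : Finset (KC F) := A'.biUnion (fun k => Fam F (2 * k) d) with hV
  have hVU : V ⊆ FamU F A d := by
    intro κ hκ
    rw [hV, mem_biUnion] at hκ
    obtain ⟨k, hk, hκ⟩ := hκ
    exact hsub k (mem_filter.1 hk).2 d hκ
  have hdisj : ∀ q : KC F → Prop, ((V.filter q).card : ℝ) = ∑ k ∈ A', (((Fam F (2 * k) d).filter q).card : ℝ) := by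
    intro q
    rw [hV, Finset.filter_biUnion, card_biUnion, Nat.cast_sum]
    intro k _ k' _ hne
    rw [Function.onFun, disjoint_left]
    intro κ hκ hκ'
    unfold Fam at hκ hκ'
    rw [mem_filter, mem_filter] at hκ hκ'
    have := StK_unique hκ.1.2 hκ'.1.2
    omega
  have hT : ((FamU F A d \ V).card : ℝ) ≤ ε / 2 * δ * (CL F d).card := by
    refine le_trans ?_ hd2
    have : (FamU F A d \ V).card ≤ ((CL F d).filter (fun κ => ∃ k ≥ K, StK (2 * k) κ)).card := by
      apply card_le_card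
      intro κ hκ
      rw [Finset.mem_sdiff] at hκ
      obtain ⟨h3, h4⟩ := hκ
      unfold FamU at h3
      rw [mem_filter] at h3 ⊢
      obtain ⟨h5, k, hk, h6⟩ := h3
      refine ⟨h5, k, ?_, h6⟩
      by_contra hlt
      push Not at hlt
      apply h4
      rw [hV, mem_biUnion]
      refine ⟨k, mem_filter.2 ⟨mem_range.2 hlt, hk⟩, ?_⟩
      unfold Fam
      exact mem_filter.2 ⟨h5, h6⟩
    exact_mod_cast this
  have hcard : ∀ q : KC F → Prop, (((FamU F A d).filter q).card : ℝ) =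
      ((V.filter q).card : ℝ) + (((FamU F A d \ V).filter q).card : ℝ) := by
    intro q
    have e : (FamU F A d).filter q = V.filter q ∪ (FamU F A d \ V).filter q := by
      rw [← Finset.filter_union, Finset.union_sdiff_of_subset hVU]
    rw [e, card_union_of_disjoint]
    · push_cast
      rfl
    · rw [disjoint_left]
      intro κ h3 h4
      rw [mem_filter] at h3 h4
      exact (Finset.mem_sdiff.1 h4.1).2 h3.1
  have hVc : (V.card : ℝ) = ∑ k ∈ A', ((Fam F (2 * k) d).card : ℝ) := by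
    have := hdisj (fun _ => True)
    simpa using this
  have hUc : ((FamU F A d).card : ℝ) = (V.card : ℝ) + ((FamU F A d \ V).card : ℝ) := by
    have := hcard (fun _ => True)
    simpa using this
  have hk : ∀ k ∈ A', |(((Fam F (2 * k) d).filter (p i)).card : ℝ) - c i * (Fam F (2 * k) d).card| ≤
      ε / 2 * (Fam F (2 * k) d).card := by
    intro k hk
    have h3 := hd3 k hk i
    rw [ep] at h3
    rcases Nat.eq_zero_or_pos (Fam F (2 * k) d).card with h0 | h0
    · have h4 : ((Fam F (2 * k) d).filter (p i)).card = 0 := by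
        have := card_filter_le (Fam F (2 * k) d) (p i)
        omega
      rw [h4, h0]
      simp
    · have h0' : (0 : ℝ) < (Fam F (2 * k) d).card := by exact_mod_cast h0
      have e2 : (((Fam F (2 * k) d).filter (p i)).card : ℝ) / (Fam F (2 * k) d).card - c i =
          ((((Fam F (2 * k) d).filter (p i)).card : ℝ) - c i * (Fam F (2 * k) d).card) / (Fam F (2 * k) d).card := by
        rw [sub_div, mul_div_cancel_right₀ _ h0'.ne']
      rw [e2, abs_div, abs_of_pos h0', div_le_iff₀ h0'] at h3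
      exact h3
  have hVp : |((V.filter (p i)).card : ℝ) - c i * V.card| ≤ ε / 2 * V.card := by
    rw [hdisj, hVc, Finset.mul_sum, Finset.mul_sum, ← Finset.sum_sub_distrib]
    exact (Finset.abs_sum_le_sum_abs _ _).trans (Finset.sum_le_sum hk)
  have hTp : |(((FamU F A d \ V).filter (p i)).card : ℝ) - c i * ((FamU F A d \ V).card : ℝ)| ≤
      ((FamU F A d \ V).card : ℝ) := by
    have h3 : (((FamU F A d \ V).filter (p i)).card : ℝ) ≤ ((FamU F A d \ V).card : ℝ) := by
      exact_mod_cast card_filter_le _ _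
    have h4 : (0 : ℝ) ≤ (((FamU F A d \ V).filter (p i)).card : ℝ) := Nat.cast_nonneg _
    have h5 : (0 : ℝ) ≤ ((FamU F A d \ V).card : ℝ) := Nat.cast_nonneg _
    obtain ⟨h6, h7⟩ := hc i
    rw [abs_le]
    constructor <;> nlinarith
  have hfin : |(((FamU F A d).filter (p i)).card : ℝ) - c i * ((FamU F A d).card : ℝ)| ≤ ε * ((FamU F A d).card : ℝ) := by
    have e1 : (((FamU F A d).filter (p i)).card : ℝ) - c i * ((FamU F A d).card : ℝ) =
        (((V.filter (p i)).card : ℝ) - c i * V.card) +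
        ((((FamU F A d \ V).filter (p i)).card : ℝ) - c i * ((FamU F A d \ V).card : ℝ)) := by
      rw [hcard (p i), hUc]
      ring
    rw [e1]
    refine (abs_add_le _ _).trans ((add_le_add hVp hTp).trans ?_)
    have h8 : ε / 2 * δ * ((CL F d).card : ℝ) ≤ ε / 2 * ((FamU F A d).card : ℝ) := by
      have := mul_le_mul_of_nonneg_left hd1 (show (0 : ℝ) ≤ ε / 2 by positivity)
      linarith
    have h9 : (V.card : ℝ) ≤ ((FamU F A d).card : ℝ) := by exact_mod_cast card_le_card hVU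
    have h10 := mul_le_mul_of_nonneg_left h9 (show (0 : ℝ) ≤ ε / 2 by positivity)
    linarith
  rw [ep]
  have e2 : (((FamU F A d).filter (p i)).card : ℝ) / (FamU F A d).card - c i =
      ((((FamU F A d).filter (p i)).card : ℝ) - c i * (FamU F A d).card) / (FamU F A d).card := by
    rw [sub_div, mul_div_cancel_right₀ _ hU.ne']
  rw [e2, abs_div, abs_of_pos hU, div_le_iff₀ hU]
  exact hfin


/-- **the law in the unions of the families** -/
theorem union_sha (h2 : (2 : F) ≠ 0) (ε : ℝ) (hε : 0 < ε) :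
    ∃ k₀ : ℕ, ∀ A : Set ℕ, A.Nonempty → (∀ k ∈ A, k₀ ≤ k) →
      (∃ δ : ℝ, 0 < δ ∧ ∀ᶠ d : ℕ in atTop, δ * ((cls '' Eqn F d).ncard : ℝ) ≤ ((starUnion F A d).ncard : ℝ)) ∧
      ∀ᶠ d : ℕ in atTop,
        (∀ j : ℕ, |share (starUnion F A d) (fun κ => Nat.card (SelTwo κ.out) = 2 ^ j) - law j| ≤ ε) ∧
        (∀ j : ℕ, |share (starUnion F A d) (fun κ => Nat.card (SelInfTwo κ.out) = 2 ^ j) - law j| ≤ ε) ∧
        |share (starUnion F A d) (fun κ => Finite κ.out.toAffine.Point ∧ Nat.card (SelInf κ.out) = 1 ∧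
          ShaTwoTrivial κ.out) - law 0| ≤ ε := by
  classical
  obtain ⟨k₀, hk⟩ := star_law (F := F) h2 (ε / 2) (half_pos hε)
  obtain ⟨k₀', hk'⟩ := star_sha (F := F) h2 (ε / 2) (half_pos hε)
  refine ⟨max k₀ k₀', fun A hA hA0 => ?_⟩
  set p : Option (ℕ ⊕ ℕ) → KC F → Prop := fun i κ => match i with
    | none => Finite κ.out.toAffine.Point ∧ Nat.card (SelInf κ.out) = 1 ∧ ShaTwoTrivial κ.out
    | some (Sum.inl j) => Nat.card (SelTwo κ.out) = 2 ^ j
    | some (Sum.inr j) => Nat.card (SelInfTwo κ.out) = 2 ^ j with hp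
  set c : Option (ℕ ⊕ ℕ) → ℝ := fun i => match i with
    | none => law 0
    | some (Sum.inl j) => law j
    | some (Sum.inr j) => law j with hc
  have hc01 : ∀ i, 0 ≤ c i ∧ c i ≤ 1 := by
    intro i
    rcases i with _ | (j | j)
    · exact ⟨Cd_nonneg 0, Cd_le 0⟩
    · exact ⟨Cd_nonneg j, Cd_le j⟩
    · exact ⟨Cd_nonneg j, Cd_le j⟩
  have H : ∀ k ≥ max k₀ k₀', (∃ δ : ℝ, 0 < δ ∧ ∀ᶠ d : ℕ in atTop, δ * ((CL F d).card : ℝ) ≤
      ((Fam F (2 * k) d).card : ℝ)) ∧
      ∀ᶠ d : ℕ in atTop, ∀ i, |prop (Fam F (2 * k) d) (p i) - c i| ≤ ε / 2 := by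
    intro k hk0
    obtain ⟨⟨δ, hδ, h3⟩, h4⟩ := hk k (le_trans (le_max_left _ _) hk0)
    obtain ⟨-, h5⟩ := hk' k (le_trans (le_max_right _ _) hk0)
    refine ⟨⟨δ, hδ, ?_⟩, ?_⟩
    · filter_upwards [h3] with d hd
      rw [← coe_Fam h2, ← coe_CL, Set.ncard_coe_finset, Set.ncard_coe_finset] at hd
      exact hd
    · filter_upwards [h4, h5] with d hd4 hd5
      rw [← coe_Fam h2] at hd4 hd5
      simp only [share_coe] at hd4 hd5
      intro i
      rcases i with _ | (j | j)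
      · exact hd5
      · exact hd4.1 j
      · exact hd4.2.1 j
  obtain ⟨⟨δ, hδ, h3⟩, h4⟩ := union_prop h2 p c hc01 ε hε _ H A hA hA0
  refine ⟨⟨δ, hδ, ?_⟩, ?_⟩
  · filter_upwards [h3] with d hd
    rw [← coe_FamU h2, ← coe_CL, Set.ncard_coe_finset, Set.ncard_coe_finset]
    exact hd
  · filter_upwards [h4] with d hd
    rw [← coe_FamU h2]
    simp only [share_coe]
    exact ⟨fun j => hd (some (Sum.inl j)), fun j => hd (some (Sum.inr j)), hd none⟩

end Pool.Agent.H456.PS
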