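import Pool.Agent.H456.PS.Stm

/-!
(sqq) `κ = F[X]/P` is a finite field (see `Rq`, `mk_zero`, `rec_unit` in PP/T_rec.lean, PR/T_qr.lean or PR/T_sym.lean for `SqM P u ↔ IsSquare (mk u)`); the product of two nonzero nonsquares of a finite field is a square (`FiniteField.isSquare_iff`, `quadraticChar`), and the product of two squares is a square.
-/

set_option autoImplicit false
set_option linter.all false

open Polynomial Finset Filter
open Pool.Agent.H456.EC (toK toK_inj sig toK_eq reflect_toK cls)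
open Pool.Agent.H456.RN
open Pool.Agent.H456.BQ
open Pool.Agent.H456.Coh (TF)
open Pool.Agent.H456.PP (OneR NoR HasRt sx hh Tz Tq Iso3 nr IsoP nrP)
open Pool.Agent.H456.PR

namespace Pool.Agent.H456.PS

theorem sqq_iff {F : Type} [Field F] (P u : F[X]) :
    IsSquare (AdjoinRoot.mk P u) ↔ ∃ r : F[X], P ∣ u - r ^ 2 := by
  constructor
  · rintro ⟨x, hx⟩
    obtain ⟨r, rfl⟩ := AdjoinRoot.mk_surjective x
    refine ⟨r, ?_⟩
    rw [← AdjoinRoot.mk_eq_zero, map_sub, map_pow, hx, sq, sub_self]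
  · rintro ⟨r, hr⟩
    refine ⟨AdjoinRoot.mk P r, ?_⟩
    rw [← AdjoinRoot.mk_eq_zero, map_sub, map_pow, sub_eq_zero] at hr
    rw [hr, sq]

/-- the product of two nonzero nonsquares of a finite field is a square -/
theorem sqq_fin (κ : Type) [Field κ] [Finite κ] (h2 : (2 : κ) ≠ 0) {x y : κ} (hx : x ≠ 0) (hy : y ≠ 0)
    (hx' : ¬ IsSquare x) (hy' : ¬ IsSquare y) : IsSquare (x * y) := by
  have : Fintype κ := Fintype.ofFinite κ
  have hc : ringChar κ ≠ 2 := by
    intro h
    apply h2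
    have h3 := ringChar.Nat.cast_ringChar (R := κ)
    rw [h] at h3
    exact_mod_cast h3
  have hx1 := (FiniteField.pow_dichotomy hc hx).resolve_left
    (fun h => hx' ((FiniteField.isSquare_iff hc hx).2 h))
  have hy1 := (FiniteField.pow_dichotomy hc hy).resolve_left
    (fun h => hy' ((FiniteField.isSquare_iff hc hy).2 h))
  rw [FiniteField.isSquare_iff hc (mul_ne_zero hx hy), mul_pow, hx1, hy1]
  ring

theorem t_sqq : S_sqq := by
  intro F _ _ h2 P u v hu hv huv
  by_cases h : SqM P u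
  · obtain ⟨r, a, ha⟩ := h
    obtain ⟨s, b, hb⟩ := huv.1 ⟨r, a, ha⟩
    refine ⟨r * s, a * v + r ^ 2 * b, ?_⟩
    linear_combination v * ha + r ^ 2 * hb
  · have h' : ¬ SqM P v := fun h1 => h (huv.2 h1)
    have : Fact (Irreducible P.1) := ⟨P.2.2⟩
    have : Module.Finite F (AdjoinRoot P.1) := (AdjoinRoot.powerBasis P.2.2.ne_zero).finite
    have : Finite (AdjoinRoot P.1) := Module.finite_of_finite F
    have hκ2 : (2 : AdjoinRoot P.1) ≠ 0 := by
      have h3 : algebraMap F (AdjoinRoot P.1) 2 ≠ 0 := by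
        rw [Ne, map_eq_zero_iff _ (algebraMap F (AdjoinRoot P.1)).injective]
        exact h2
      rwa [map_ofNat] at h3
    have h4 := sqq_fin (AdjoinRoot P.1) hκ2 (x := AdjoinRoot.mk P.1 u) (y := AdjoinRoot.mk P.1 v)
      (fun h5 => hu (AdjoinRoot.mk_eq_zero.1 h5)) (fun h5 => hv (AdjoinRoot.mk_eq_zero.1 h5))
      (fun h5 => h ((sqq_iff P.1 u).1 h5)) (fun h5 => h' ((sqq_iff P.1 v).1 h5))
    rw [← map_mul] at h4
    exact (sqq_iff P.1 (u * v)).1 h4

end Pool.Agent.H456.PS
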